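import Pool.Agent.Lib.MP_45f16c_ag.Defs

-- part Pool.Agent.Lib.MP_45f16c_ag.VG.D
section

/-! Objects used in the proof of very generic hyperbolicity (not in the statement of the
hand-in). -/

set_option autoImplicit false
open MvPolynomial Filter Metric
open scoped Topology

namespace Pool.Agent.Lib.MP_45f16c_ag.VG

noncomputable section

/-- Jet variables `x (s, i)`, `0 ≤ s ≤ k`. -/
abbrev Jet (k p : ℕ) : Type := Fin (k + 1) × Fin (p + 1)

/-- Chart variables; `(s, i)` has level `s + 1`. -/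
abbrev Ch (k p : ℕ) : Type := Fin k × Fin p

abbrev PP (p : ℕ) (R : Type) [CommRing R] : Type := MvPolynomial (Fin (p + 1)) R

abbrev SS (k p : ℕ) (R : Type) [CommRing R] : Type := MvPolynomial (Jet k p) R

abbrev CC (k p : ℕ) (R : Type) [CommRing R] : Type := MvPolynomial (Ch k p) R

/-! ### Weights -/

/-- Total degree and weight. -/
def w2 (k p : ℕ) : Jet k p → ℕ × ℕ := fun v => (1, v.1.val)

/-- Degree in the base variables, degree in the fibre variables, weight. -/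
def w3 (k p : ℕ) : Jet k p → ℕ × ℕ × ℕ := fun v =>
  if v.1 = 0 then (1, 0, 0) else (0, 1, v.1.val)

/-- Degree in the base variables. -/
def w1 (k p : ℕ) : Jet k p → ℕ := fun v => if v.1 = 0 then 1 else 0

/-- Degree in the fibre variables. -/
def we (k p : ℕ) : Jet k p → ℕ := fun v => if v.1 = 0 then 0 else 1

/-- Total degree plus weight. -/
def wo (k p : ℕ) : Jet k p → ℕ := fun v => v.1.val + 1

/-- Weight of a chart variable. -/
def wc (k p : ℕ) : Ch k p → ℕ := fun v => v.1.val + 1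

/-- Degree and weight of a chart variable. -/
def wc2 (k p : ℕ) : Ch k p → ℕ × ℕ := fun v => (1, v.1.val + 1)

/-! ### Jet equations -/

section jets
variable (k : ℕ) {p : ℕ} {R : Type} [CommRing R]

/-- The generic jet `x_i(t)`. -/
def xt (R : Type) [CommRing R] (i : Fin (p + 1)) : Polynomial (SS k p R) :=
  ∑ s : Fin (k + 1), Polynomial.monomial s.val (X (s, i))

/-- The coefficient of `t ^ s` in `G (x (t))`. -/
def jeq (G : PP p R) (s : ℕ) : SS k p R := (aeval (xt k R) G).coeff s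

/-- A polynomial in the base variables. -/
def b0 : PP p R →ₐ[R] SS k p R := rename fun i => ((0 : Fin (k + 1)), i)

/-- The partial derivatives at the base point. -/
def zz (F : PP p R) (j : Fin (p + 1)) : SS k p R := b0 k (pderiv j F)

/-- The linearised jet equations. -/
def neq (F : PP p R) (s : Fin k) : SS k p R := ∑ i, zz k F i * X (s.succ, i)

/-- The true jet equations of positive level. -/
def req (F : PP p R) (s : Fin k) : SS k p R := jeq k F (s.val + 1)

/-- The variables of chart `j`. -/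
def chart (j : Fin (p + 1)) : Set (Jet k p) := {v | v.1 = 0 ∨ v.2 ≠ j}

/-- The ideal of all equations. -/
def II (gens : Set (PP p R)) (G : Fin k → SS k p R) : Ideal (SS k p R) :=
  Ideal.span (b0 k '' gens ∪ Set.range G)

/-- A triangular system of equations with linear part `neq`. -/
structure Tri (d0 : ℕ) (F : PP p R) (G : Fin k → SS k p R) : Prop where
  ord : ∀ s, ∀ γ ∈ (G s - neq k F s).support, 2 ≤ Finsupp.weight (we k p) γ
  hom : ∀ s, IsWeightedHomogeneous (w2 k p) (G s) (d0 + 1, s.val + 1)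

/-- Signed maximal minor with the column `j` left out. -/
def mnr (R : Type) [CommRing R] (j : Fin (p + 1)) (A : Fin p → Fin k) : SS k p R :=
  Matrix.det (Matrix.of (Fin.cons (Pi.single j 1) (fun a i => X ((A a).succ, i)) :
    Fin (p + 1) → Fin (p + 1) → SS k p R))

/-- The ideal of the minors of chart `j`. -/
def MI (R : Type) [CommRing R] (j : Fin (p + 1)) : Ideal (SS k p R) :=
  Ideal.span (Set.range (mnr k R j))

/-- Maximal minor of the matrix of chart variables. -/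
def cm (R : Type) [CommRing R] (A : Fin p → Fin k) : CC k p R :=
  Matrix.det (Matrix.of fun a b => X (A a, b))

/-- The ideal of maximal minors of the matrix of chart variables. -/
def CI (p : ℕ) (R : Type) [CommRing R] : Ideal (CC k p R) := Ideal.span (Set.range (cm k R))

/-- Chart variables as jet variables. -/
def ir (R : Type) [CommRing R] (j : Fin (p + 1)) : CC k p R →ₐ[R] SS k p R :=
  rename fun v => (v.1.succ, j.succAbove v.2)

/-- The graded piece of a power of the ideal of minors. -/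
def W0 (p : ℕ) (R : Type) [CommRing R] (B e m : ℕ) : Submodule R (CC k p R) :=
  (CI k p R ^ B).restrictScalars R ⊓ weightedHomogeneousSubmodule R (wc2 k p) (e, m)

end jets

/-- The partial derivatives generate a primary ideal (algebraic smoothness). -/
def Prim {p : ℕ} {R : Type} [CommRing R] (F : PP p R) : Prop :=
  ∀ i, ∃ D : ℕ, (X i : PP p R) ^ D ∈ Ideal.span (Set.range fun j => pderiv j F)

/-! ### Charts and sections -/

section charts
variable {k p : ℕ} {K L : Type} [Field K] [Field L] [Algebra K L]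

/-- A generic point `π` of the cone defined by `gens`. -/
structure Setup (d0 : ℕ) (F : PP p K) (gens : Set (PP p K)) (π : PP p K →ₐ[K] L) : Prop where
  hom : F.IsHomogeneous (d0 + 1)
  ghom : ∀ g ∈ gens, ∃ n, g.IsHomogeneous n
  ker : ∀ g, π g = 0 ↔ g ∈ Ideal.span gens
  zne : ∀ j, π (pderiv j F) ≠ 0

/-- The elimination map of chart `j`. -/
structure IsEl (π : PP p K →ₐ[K] L) (G : Fin k → SS k p K) (j : Fin (p + 1))
    (el : SS k p K →ₐ[K] CC k p L) : Prop where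
  base : ∀ i, el (X (0, i)) = C (π (X i))
  var : ∀ s i, el (X (Fin.succ s, j.succAbove i)) = X (s, i)
  eqn : ∀ s, el (G s) = 0

/-- The graded pieces of the coordinate ring. -/
def OO (π : PP p K →ₐ[K] L) (c : ℕ) : Submodule K L :=
  (homogeneousSubmodule (Fin (p + 1)) K c).map π.toLinearMap

/-- The Hilbert function. -/
def hh (π : PP p K →ₐ[K] L) (c : ℕ) : ℕ := Module.finrank K (OO π c)

/-- Global jet differentials, multiplied by `z_0 ^ T0` and written in chart `0`. -/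
def Gam {M : Type} [AddCommMonoid M] (w : Jet k p → M) (δ : M) (F : PP p K)
    (el : SS k p K →ₐ[K] CC k p L) (T0 : ℕ) (c : M) : Submodule K (CC k p L) where
  carrier := {P | (∃ q ∈ supported K (chart k (0 : Fin (p + 1))),
      IsWeightedHomogeneous w q c ∧ P = el q) ∧
    ∀ i, ∀ᶠ t : ℕ in atTop, ∃ q, IsWeightedHomogeneous w q (c + t • δ) ∧
      el (zz k F i) ^ (T0 + t) * P = el (zz k F 0) ^ T0 * el q}
  add_mem' := by
    rintro P P' ⟨⟨q, hq, hw, rfl⟩, h⟩ ⟨⟨q', hq', hw', rfl⟩, h'⟩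
    refine ⟨⟨q + q', add_mem hq hq', hw.add hw', by simp⟩, fun i => ?_⟩
    filter_upwards [h i, h' i] with t ⟨r, hr, e⟩ ⟨r', hr', e'⟩
    exact ⟨r + r', hr.add hr', by rw [mul_add, e, e', map_add, mul_add]⟩
  zero_mem' := ⟨⟨0, zero_mem _, isWeightedHomogeneous_zero _ _ _, by simp⟩,
    fun i => Eventually.of_forall fun t => ⟨0, isWeightedHomogeneous_zero _ _ _, by simp⟩⟩
  smul_mem' := by
    rintro a P ⟨⟨q, hq, hw, rfl⟩, h⟩
    refine ⟨⟨a • q, Subalgebra.smul_mem _ hq a,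
      (weightedHomogeneousSubmodule K w c).smul_mem a hw, by simp⟩, fun i => ?_⟩
    filter_upwards [h i] with t ⟨r, hr, e⟩
    exact ⟨a • r, (weightedHomogeneousSubmodule K w _).smul_mem a hr, by
      rw [mul_smul_comm, e, map_smul, mul_smul_comm]⟩

/-- Jet differentials for the true equations (degree `c`, weight `m`). -/
abbrev GamR (d0 : ℕ) (F : PP p K) (el : SS k p K →ₐ[K] CC k p L) (T0 c m : ℕ) :
    Submodule K (CC k p L) := Gam (w2 k p) (d0, 0) F el T0 (c, m)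

/-- Jet differentials for the linearised equations. -/
abbrev GamN (d0 : ℕ) (F : PP p K) (el : SS k p K →ₐ[K] CC k p L) (T0 c e m : ℕ) :
    Submodule K (CC k p L) := Gam (w3 k p) (d0, 0, 0) F el T0 (c, e, m)

/-- The good part: images of the graded pieces of the powers of the ideal of minors. -/
def GG (el : SS k p K →ₐ[K] CC k p L) (B c e m : ℕ) : Submodule K (CC k p L) :=
  ((MI k K (0 : Fin (p + 1)) ^ B).restrictScalars K ⊓
    weightedHomogeneousSubmodule K (w3 k p) (c, e, m)).map el.toLinearMap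

end charts

/-- All partial derivatives of order at most `r` vanish at `ξ`. -/
def Van {σ L : Type} [CommRing L] (ξ : σ → L) : ℕ → MvPolynomial σ L → Prop
  | 0, P => eval ξ P = 0
  | r + 1, P => eval ξ P = 0 ∧ ∀ v, Van ξ r (pderiv v P)

/-! ### Counting -/

/-- The exponent `α` contains `B` disjoint increasing diagonals. -/
def Good {k p : ℕ} (B : ℕ) (α : Ch k p →₀ ℕ) : Prop :=
  ∃ A : Fin B → Fin p → Fin k, (∀ l, StrictMono (A l)) ∧
    ∑ l, ∑ b, Finsupp.single (A l b, b) 1 ≤ α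

def goodE (k p B e m : ℕ) : ℕ :=
  {α : Ch k p →₀ ℕ | Finsupp.weight (wc2 k p) α = (e, m) ∧ Good B α}.ncard

def badE (k p B e m : ℕ) : ℕ :=
  {α : Ch k p →₀ ℕ | Finsupp.weight (wc2 k p) α = (e, m) ∧ ¬Good B α}.ncard

def goodT (k p B m : ℕ) : ℕ :=
  {α : Ch k p →₀ ℕ | Finsupp.weight (wc k p) α = m ∧ Good B α}.ncard

def badT (k p B m : ℕ) : ℕ :=
  {α : Ch k p →₀ ℕ | Finsupp.weight (wc k p) α = m ∧ ¬Good B α}.ncard

def rho {k p : ℕ} (v0 : Ch k p) (m r : ℕ) : ℕ :=
  {β : Ch k p →₀ ℕ | β v0 = 0 ∧ Finsupp.weight (wc k p) β ≤ m ∧ r < β.degree}.ncard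

/-- The scale of the counts. -/
def YY {k p : ℕ} (v0 : Ch k p) (m : ℕ) : ℝ :=
  (Real.exp 1 * m / ((k * p - 1 : ℕ) : ℝ)) ^ (k * p - 1) /
    ∏ v ∈ Finset.univ.erase v0, (wc k p v : ℝ)

/-! ### The universal form -/

/-- The ring of the coefficients. -/
abbrev R0 (p d : ℕ) : Type := MvPolynomial (Mon (p + 1) d) ℚ

/-- The universal form of degree `d`. -/
def Fu (p d : ℕ) : PP p (R0 p d) := ∑ μ : Mon (p + 1) d, monomial μ.1 (X μ)

/-- The universal form over an algebra of the ring of the coefficients. -/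
def FK (p d : ℕ) (K : Type) [CommRing K] [Algebra (R0 p d) K] : PP p K :=
  MvPolynomial.map (algebraMap (R0 p d) K) (Fu p d)

/-- The coefficients of a form. -/
def cf {ν : ℕ} (d : ℕ) (F : MvPolynomial (Fin ν) ℂ) : Mon ν d → ℂ := fun μ => coeff μ.1 F

/-- Specialisation of the coefficients. -/
def evA {p : ℕ} (d : ℕ) (F : PP p ℂ) : R0 p d →+* ℂ := (aeval (cf d F) : R0 p d →ₐ[ℚ] ℂ)

/-- `(F, x)` is a generic point of the universal cone. -/
def GenPt {p : ℕ} (d : ℕ) (F : PP p ℂ) (x : Fin (p + 1) → ℂ) : Prop :=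
  ∀ Q : PP p (R0 p d), eval₂ (evA d F) x Q = 0 → Fu p d ∣ Q

/-- Transcendence rank over the rationals. -/
def rk (s : Set ℂ) : ℕ∞ := (AlgebraicIndependent.matroid ℚ ℂ).eRk s

/-- Normal form: the form vanishes at `e_0` and has defect at most `c`. -/
def Nf {p : ℕ} (d c : ℕ) (F : PP p ℂ) : Prop :=
  F.IsHomogeneous d ∧ eval (Pi.single 0 1) F = 0 ∧
    (Fintype.card (Mon (p + 1) d) : ℕ∞) ≤ rk (Set.range (cf d F)) + 1 + c

/-- Linear substitution. -/
def lin {ν ν' : ℕ} {R : Type} [CommRing R] (S : Matrix (Fin ν') (Fin ν) R)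
    (G : MvPolynomial (Fin ν') R) : MvPolynomial (Fin ν) R :=
  aeval (fun i => ∑ j, C (S i j) * X j) G

/-! ### Derivations -/

/-- Tangent derivations of cost `7 k + 1`. -/
def DD (k p d : ℕ) : Set (Derivation ℚ (SS k p (R0 p d)) (SS k p (R0 p d))) :=
  {D | (∀ s ≤ k, D (jeq k (Fu p d) s) = 0) ∧ ∀ q N, IsWeightedHomogeneous (wo k p) q N →
    IsWeightedHomogeneous (wo k p) (D q) (N + (7 * k + 1))}

/-- The Wronskian of the coordinates `0` and `i`. -/
def wr {k p : ℕ} (R : Type) [CommRing R] (s1 : Fin (k + 1)) (i : Fin (p + 1)) : SS k p R :=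
  X (0, 0) * X (s1, i) - X (0, i) * X (s1, 0)

/-- The multiplier of the interpolation. -/
def hm {k p : ℕ} (R : Type) [CommRing R] (s1 : Fin (k + 1)) (i : Fin (p + 1)) : SS k p R :=
  X (0, 0) ^ (k + 1) * wr R s1 i ^ (2 * k)

/-- The linear form vanishing at the base point. -/
def ell {k p : ℕ} (R : Type) [CommRing R] (i : Fin (p + 1)) : PP p (SS k p R) :=
  C (X (0, 0)) * X i - C (X (0, i)) * X 0

/-- Substitution of the generic jet in a form whose coefficients are jet polynomials. -/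
def sg (k : ℕ) {p : ℕ} (R : Type) [CommRing R] : PP p (SS k p R) →ₐ[SS k p R] Polynomial (SS k p R) :=
  aeval (xt k R)

/-- A form of degree `d` whose coefficients have degree `N`. -/
def BH {k p : ℕ} {R : Type} [CommRing R] (G : PP p (SS k p R)) (d N : ℕ) : Prop :=
  G.IsHomogeneous d ∧ ∀ μ, IsWeightedHomogeneous (wo k p) (coeff μ G) N

/-- A family of local representatives of a jet differential near the point `ev`. -/
structure Sec {k p : ℕ} {R : Type} [CommRing R] (F : PP p R) (ev : SS k p R →+* ℂ) (t N : ℕ)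
    (q : Fin (p + 1) → SS k p R) : Prop where
  hom : ∀ j, IsWeightedHomogeneous (wo k p) (q j) N
  glue : ∀ i j, ∃ u, ev u ≠ 0 ∧ u * (zz k F i ^ t * q j - zz k F j ^ t * q i) ∈
    Ideal.span (Set.range fun s : Fin (k + 1) => jeq k F s.val)

/-! ### Curves -/

/-- Gauge invariant jets: `Wj f s = f_0 ^ (s + 1) (f / f_0)^{(s)} / s!`. -/
def Wj {p : ℕ} (f : ℂ → Fin (p + 1) → ℂ) : ℕ → ℂ → Fin (p + 1) → ℂ
  | 0 => f
  | s + 1 => fun z i => (f z 0 * deriv (fun w => Wj f s w i) z -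
      (s + 1) * deriv (fun w => f w 0) z * Wj f s z i) / (s + 1)

/-- The gauge invariant jet of order `k` as a point of the jet space. -/
def jw (k : ℕ) {p : ℕ} (f : ℂ → Fin (p + 1) → ℂ) (z : ℂ) : Jet k p → ℂ :=
  fun v => Wj f v.1.val z v.2

/-- A sequence of entire curves on the cone with uniform local gauges on growing discs. -/
structure Brody {ν : ℕ} (F : MvPolynomial (Fin ν) ℂ) (f : ℕ → ℂ → Fin ν → ℂ) (ρ M : ℝ)
    (φ : ℕ → ℂ → ℂ → ℂ) : Prop where
  ρpos : 0 < ρ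
  Mpos : 0 < M
  diff : ∀ n, Differentiable ℂ (f n)
  onX : ∀ n z, eval (f n z) F = 0
  gauge : ∀ (n : ℕ) (a : ℂ), ‖a‖ ≤ n → DifferentiableOn ℂ (φ n a) (ball a ρ) ∧
    ∀ z ∈ ball a ρ, M⁻¹ ≤ ‖φ n a z • f n z‖ ∧ ‖φ n a z • f n z‖ ≤ M

/-- A Brody sequence with limit point `x` and limit tangent vector `v`. -/
def BSeq {ν : ℕ} (F : MvPolynomial (Fin ν) ℂ) (x v : Fin ν → ℂ) : Prop :=
  ∃ f ρ M φ, Brody F f ρ M φ ∧ Tendsto (fun n => φ n 0 0 • f n 0) atTop (𝓝 x) ∧
    Tendsto (fun n => deriv (fun z => φ n 0 z • f n z) 0) atTop (𝓝 v)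

/-- A Brody sequence with limit jet `ξ`. -/
def BJet {k p : ℕ} (F : PP p ℂ) (ξ : Jet k p → ℂ) : Prop :=
  ∃ f ρ M φ, Brody F f ρ M φ ∧
    Tendsto (fun n => jw k (fun z => φ n 0 z • f n z) 0) atTop (𝓝 ξ)

/-- The Wronskian determinants of a curve. -/
def wz {ν : ℕ} (f : ℂ → Fin ν → ℂ) (z : ℂ) (i j : Fin ν) : ℂ :=
  f z i * deriv f z j - f z j * deriv f z i

end

end Pool.Agent.Lib.MP_45f16c_ag.VG
end

-- part Pool.Agent.Lib.MP_45f16c_ag.VG.S
section

/-! The statements of the modules of the proof of very generic hyperbolicity. Each one is proved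
in its own file. -/

set_option autoImplicit false
open MvPolynomial Filter Metric Module
open scoped Topology

namespace Pool.Agent.Lib.MP_45f16c_ag.VG

noncomputable section

/-! ### Linear algebra -/

/-- Dimension of the graded pieces of a filtration by successive kernels. -/
def FiltStmt : Prop :=
  ∀ (K M : Type) [Field K] [AddCommGroup M] [Module K M] (V : Submodule K M)
    [FiniteDimensional K V] (π : ℕ → M →ₗ[K] M) (n : ℕ),
    ∑ e ∈ Finset.range n, finrank K ((V ⊓ ⨅ u < e, LinearMap.ker (π u)).map (π e)) +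
      finrank K ↥(V ⊓ ⨅ u < n, LinearMap.ker (π u)) = finrank K V

/-- Comparison of two images. -/
def RNStmt : Prop :=
  ∀ (K M A B : Type) [Field K] [AddCommGroup M] [Module K M] [AddCommGroup A] [Module K A]
    [AddCommGroup B] [Module K B] (V : Submodule K M) [FiniteDimensional K V]
    (f : M →ₗ[K] A) (g : M →ₗ[K] B), (∀ x ∈ V, f x = 0 → g x = 0) →
    finrank K (V.map f) = finrank K (V.map g) + finrank K ((V ⊓ LinearMap.ker g).map f)

/-- Few coordinates determine an element of a subspace. -/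
def CoordStmt : Prop :=
  ∀ (σ K L : Type) [Field K] [Field L] [Algebra K L] (W : Submodule L (MvPolynomial σ L))
    [FiniteDimensional L W] (V : Submodule K (MvPolynomial σ L)) (U : (σ →₀ ℕ) → Submodule K L)
    (D : ℕ), (∀ α, FiniteDimensional K (U α) ∧ finrank K (U α) ≤ D) → (∀ P ∈ V, P ∈ W) →
    (∀ P ∈ V, ∀ α, coeff α P ∈ U α) → finrank K V ≤ finrank L W * D

/-- Equations of a subspace defined over the base field. -/
def ProjStmt : Prop :=
  ∀ (σ M K L : Type) [AddCommMonoid M] [Field K] [Field L] [Algebra K L] (w : σ → M) (n : M)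
    (W : Submodule K (MvPolynomial σ K)), W ≤ weightedHomogeneousSubmodule K w n →
    FiniteDimensional K (weightedHomogeneousSubmodule K w n) →
    ∃ (r : ℕ) (Λ : Fin r → MvPolynomial σ L →ₗ[L] L),
      r + finrank K W = finrank K (weightedHomogeneousSubmodule K w n) ∧
      (∀ i x, weightedHomogeneousComponent w n x ∈ W → Λ i (MvPolynomial.map (algebraMap K L) x) = 0) ∧
      ∀ (U : Submodule K L) (P : MvPolynomial σ L), (∀ α, coeff α P ∈ U) →
        (∀ i, Λ i P ∈ U) ∧ (IsWeightedHomogeneous w P n → (∀ i, Λ i P = 0) →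
          P ∈ Submodule.span K {Q | ∃ u ∈ U, ∃ x ∈ W, Q = C u * MvPolynomial.map (algebraMap K L) x})

/-- Vanishing of the first local cohomology in large degrees. -/
def SerreStmt : Prop :=
  ∀ (σ κ R Ω : Type) [Fintype σ] [Fintype κ] [CommRing R] [IsNoetherianRing R] [CommRing Ω]
    [IsDomain Ω] (ψ : MvPolynomial σ R →+* Ω) (z : κ → MvPolynomial σ R) (d0 : ℕ) (y : σ),
    (∀ q, ψ q = 0 → ∀ n, ψ (homogeneousComponent n q) = 0) → ψ (X y) ≠ 0 →
    (∀ j, (z j).IsHomogeneous d0) →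
    (∀ i, ∃ D : ℕ, (X i : MvPolynomial σ R) ^ D ∈ Ideal.span (Set.range z)) →
    ∃ c1, ∀ c, c1 ≤ c → ∀ P : Ω,
      (∀ j, ∃ (t : ℕ) (q : MvPolynomial σ R), q.IsHomogeneous (c + t * d0) ∧
        ψ (z j) ^ t * P = ψ q) →
      ∃ q : MvPolynomial σ R, q.IsHomogeneous c ∧ P = ψ q

/-! ### Charts -/

/-- The jet equations are triangular. -/
def TriStmt : Prop :=
  ∀ (k p d0 : ℕ) (K : Type) [CommRing K] (F : PP p K), F.IsHomogeneous (d0 + 1) →
    Tri k d0 F (req k F) ∧ Tri k d0 F (neq k F) ∧ jeq k F 0 = b0 k F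

/-- The elimination maps exist. -/
def ElStmt : Prop :=
  ∀ (k p d0 : ℕ) (K L : Type) [Field K] [Field L] [Algebra K L] (F : PP p K)
    (gens : Set (PP p K)) (π : PP p K →ₐ[K] L) (G : Fin k → SS k p K), Setup d0 F gens π →
    Tri k d0 F G → ∀ j, ∃ el, IsEl π G j el

/-- Elimination of the variables `x (s, j)`. -/
def ElimStmt : Prop :=
  ∀ (k p d0 : ℕ) (K : Type) [CommRing K] (F : PP p K) (G : Fin k → SS k p K),
    F.IsHomogeneous (d0 + 1) → Tri k d0 F G → ∀ j,
    (∀ q, ∃ (t : ℕ), ∃ q' ∈ supported K (chart k j),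
      zz k F j ^ t * q - q' ∈ Ideal.span (Set.range G)) ∧
    (∀ b m q, IsWeightedHomogeneous (w2 k p) q (b, m) → ∃ q' ∈ supported K (chart k j),
      IsWeightedHomogeneous (w2 k p) q' (b + k * m * d0, m) ∧
      zz k F j ^ (k * m) * q - q' ∈ Ideal.span (Set.range G)) ∧
    (G = neq k F → ∀ c e m q, IsWeightedHomogeneous (w3 k p) q (c, e, m) →
      ∃ q' ∈ supported K (chart k j), IsWeightedHomogeneous (w3 k p) q' (c + k * m * d0, e, m) ∧
      zz k F j ^ (k * m) * q - q' ∈ Ideal.span (Set.range G))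

/-- The elimination map on chart polynomials. -/
def CoefStmt : Prop :=
  ∀ (k p d0 : ℕ) (K L : Type) [Field K] [Field L] [Algebra K L] (F : PP p K)
    (gens : Set (PP p K)) (π : PP p K →ₐ[K] L) (G : Fin k → SS k p K) (j : Fin (p + 1))
    (el : SS k p K →ₐ[K] CC k p L), Setup d0 F gens π → IsEl π G j el →
    ∀ q ∈ supported K (chart k j),
      (el q = 0 → q ∈ Ideal.span (b0 k '' gens)) ∧
      (∀ b m, IsWeightedHomogeneous (w2 k p) q (b, m) → IsWeightedHomogeneous (wc k p) (el q) m ∧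
        ∀ α, coeff α (el q) ∈ OO π (b - α.degree)) ∧
      (∀ c e m, IsWeightedHomogeneous (w3 k p) q (c, e, m) →
        ∀ α, coeff α (el q) ∈ OO π c) ∧
      (∀ (G' : Fin k → SS k p K) (el' : SS k p K →ₐ[K] CC k p L), IsEl π G' j el' →
        el' q = el q)

/-- The kernel of the elimination maps. -/
def KerStmt : Prop :=
  ∀ (k p d0 : ℕ) (K L : Type) [Field K] [Field L] [Algebra K L] (F : PP p K)
    (gens : Set (PP p K)) (π : PP p K →ₐ[K] L) (G : Fin k → SS k p K) (j : Fin (p + 1))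
    (el : SS k p K →ₐ[K] CC k p L), Setup d0 F gens π → Tri k d0 F G → IsEl π G j el →
    (∀ q i, el q = 0 ↔ ∃ t : ℕ, zz k F i ^ t * q ∈ II k gens G) ∧
    (∀ q n, el q = 0 → el (weightedHomogeneousComponent (w2 k p) n q) = 0) ∧
    (G = neq k F → ∀ q, el q = 0 → (∀ n, el (weightedHomogeneousComponent (w3 k p) n q) = 0) ∧
      ∀ n, el (weightedHomogeneousComponent (w1 k p) n q) = 0)

/-- The lowest components for the true equations are given by the linearised equations. -/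
def LowStmt : Prop :=
  ∀ (k p d0 : ℕ) (K L : Type) [Field K] [Field L] [Algebra K L] (F : PP p K)
    (gens : Set (PP p K)) (π : PP p K →ₐ[K] L) (j : Fin (p + 1))
    (elN : SS k p K →ₐ[K] CC k p L), Setup d0 F gens π → IsEl π (neq k F) j elN →
    (∀ c e m q, IsWeightedHomogeneous (w3 k p) q (c, e, m) →
      IsWeightedHomogeneous (wc2 k p) (elN q) (e, m)) ∧
    ∀ (G : Fin k → SS k p K) (elR : SS k p K →ₐ[K] CC k p L), Tri k d0 F G → IsEl π G j elR →
      ∀ e q, IsWeightedHomogeneous (we k p) q e →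
        homogeneousComponent e (elR q) = elN q ∧ ∀ u < e, homogeneousComponent u (elR q) = 0

/-- Cramer's rule and the powers of the ideals of minors. -/
def CramStmt : Prop :=
  ∀ (k p d0 : ℕ) (K : Type) [Field K] (F : PP p K), F.IsHomogeneous (d0 + 1) → ∀ B : ℕ,
    (∀ i j c r, r ∈ MI k K i ^ B → IsWeightedHomogeneous (w3 k p) r c → ∃ r' ∈ MI k K j ^ B,
      IsWeightedHomogeneous (w3 k p) r' c ∧
      zz k F j ^ B * r - zz k F i ^ B * r' ∈ Ideal.span (Set.range (neq k F))) ∧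
    (∀ j, ∀ x ∈ CI k p K ^ B, ir k K j x ∈ MI k K j ^ B) ∧
    (∀ j c, ∀ r ∈ MI k K j ^ B, weightedHomogeneousComponent (w3 k p) c r ∈ MI k K j ^ B) ∧
    (∀ n, ∀ x ∈ CI k p K ^ B, weightedHomogeneousComponent (wc2 k p) n x ∈ CI k p K ^ B) ∧
    ∀ (L : Type) [Field L] [Algebra K L] (π : PP p K →ₐ[K] L) (i j : Fin (p + 1))
      (el : SS k p K →ₐ[K] CC k p L), π (pderiv i F) ≠ 0 → IsEl π (neq k F) i el →
      ∀ r ∈ MI k K j ^ B, el r ∈ Submodule.span L
        (MvPolynomial.map (algebraMap K L) '' ((CI k p K ^ B : Ideal (CC k p K)) : Set (CC k p K)))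

/-! ### Dimension counts -/

/-- Restriction to the hyperplane section, true equations. -/
def TelRStmt : Prop :=
  ∀ (k p d0 : ℕ) (K L L' : Type) [Field K] [Field L] [Algebra K L] [Field L'] [Algebra K L']
    (F : PP p K) (π : PP p K →ₐ[K] L) (π' : PP p K →ₐ[K] L') (G : Fin k → SS k p K)
    (el : SS k p K →ₐ[K] CC k p L) (el' : SS k p K →ₐ[K] CC k p L'), Setup d0 F {F} π →
    Setup d0 F {F, X 0} π' → π (X 0) ≠ 0 → Tri k d0 F G → IsEl π G 0 el → IsEl π' G 0 el' →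
    ∀ T0 c m, finrank K (GamR d0 F el T0 (c + 1) m) ≤
      finrank K (GamR d0 F el T0 c m) + finrank K (GamR d0 F el' T0 (c + 1) m)

/-- Restriction to the hyperplane section, good part and coordinate ring. -/
def TelGStmt : Prop :=
  ∀ (k p d0 : ℕ) (K L L' : Type) [Field K] [Field L] [Algebra K L] [Field L'] [Algebra K L']
    (F : PP p K) (π : PP p K →ₐ[K] L) (π' : PP p K →ₐ[K] L')
    (el : SS k p K →ₐ[K] CC k p L) (el' : SS k p K →ₐ[K] CC k p L'), Setup d0 F {F} π →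
    Setup d0 F {F, X 0} π' → π (X 0) ≠ 0 → IsEl π (neq k F) 0 el → IsEl π' (neq k F) 0 el' →
    (∀ B c e m, finrank K (GG el' B (c + 1) e m) + finrank K (GG el B c e m) ≤
      finrank K (GG el B (c + 1) e m)) ∧ ∀ c, hh π' (c + 1) + hh π c ≤ hh π (c + 1)

/-- Upper bound by the linearised problem. -/
def UpNStmt : Prop :=
  ∀ (k p d0 : ℕ) (K L : Type) [Field K] [Field L] [Algebra K L] (F : PP p K)
    (gens : Set (PP p K)) (π : PP p K →ₐ[K] L) (G : Fin k → SS k p K)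
    (elR elN : SS k p K →ₐ[K] CC k p L), Setup d0 F gens π → Tri k d0 F G → IsEl π G 0 elR →
    IsEl π (neq k F) 0 elN → ∀ T0 c m, m ≤ c → finrank K (GamR d0 F elR T0 c m) ≤
      ∑ e ∈ Finset.range (m + 1), finrank K (GamN d0 F elN T0 (c - e) e m)

/-- Lower bound by the linearised problem. -/
def LoNStmt : Prop :=
  ∀ (k p d0 : ℕ) (K L : Type) [Field K] [Field L] [Algebra K L] (F : PP p K)
    (gens : Set (PP p K)) (π : PP p K →ₐ[K] L) (G : Fin k → SS k p K)
    (elR elN : SS k p K →ₐ[K] CC k p L), Setup d0 F gens π → Tri k d0 F G → IsEl π G 0 elR →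
    IsEl π (neq k F) 0 elN → ∀ b m, m ≤ b →
      ∑ e ∈ Finset.range (m + 1), finrank K (GG elN 0 (b - e) e m) ≤
        finrank K (GamR d0 F elR (k * m) (b + k * m * d0) m)

/-- Saturation of the good part, uniformly in the exponent. -/
def SatStmt : Prop :=
  ∀ (k p d0 : ℕ) (K L : Type) [Field K] [Field L] [Algebra K L] (F : PP p K)
    (gens : Set (PP p K)) (π : PP p K →ₐ[K] L) (el : SS k p K →ₐ[K] CC k p L) (y : Fin (p + 1)),
    Setup d0 F gens π → Prim F → π (X y) ≠ 0 → IsEl π (neq k F) 0 el →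
    ∃ c1, ∀ B c e m P, c1 ≤ c →
      (∀ i, ∃ t : ℕ, el (zz k F i) ^ t * P ∈ GG el B (c + t * d0) e m) → P ∈ GG el B c e m

/-- Leading monomials in the powers of the ideal of minors. -/
def LeadStmt : Prop :=
  ∀ (k p : ℕ) (K : Type) [Field K] (B e m : ℕ), goodE k p B e m ≤ finrank K (W0 k p K B e m) ∧
    finrank K (weightedHomogeneousSubmodule K (wc2 k p) (e, m)) =
      goodE k p B e m + badE k p B e m

/-- Sections of the linearised problem: good part and bad part. -/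
def GoodStmt : Prop :=
  ∀ (k p d0 : ℕ) (K L : Type) [Field K] [Field L] [Algebra K L] (F : PP p K)
    (gens : Set (PP p K)) (π : PP p K →ₐ[K] L) (el : SS k p K →ₐ[K] CC k p L) (y : Fin (p + 1)),
    Setup d0 F gens π → Prim F → π (X y) ≠ 0 → IsEl π (neq k F) 0 el →
    ∃ c1, ∀ T0 B c c' e m, c1 ≤ c' → c' + T0 * d0 = c + B * d0 →
      finrank K (GamN d0 F el T0 c e m) ≤ finrank K (GG el B c' e m) + badE k p B e m * hh π c

/-- The two ends of the telescoping sum of the good part. -/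
def EndStmt : Prop :=
  ∀ (k p d0 : ℕ) (K L : Type) [Field K] [Field L] [Algebra K L] (F : PP p K)
    (gens : Set (PP p K)) (π : PP p K →ₐ[K] L) (el : SS k p K →ₐ[K] CC k p L) (y : Fin (p + 1)),
    Setup d0 F gens π → Prim F → π (X y) ≠ 0 → IsEl π (neq k F) 0 el →
    (∃ c1, ∀ B c e m, c1 ≤ c →
      finrank K (GG el B (c + B * d0) e m) ≤ finrank K (GG el 0 c e m)) ∧
    ∀ B c e m, goodE k p B e m * hh π c ≤ finrank K (GG el B c e m)

/-- The lower bound for the space of jet differentials. -/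
def AlgStmt : Prop :=
  ∀ (k p d0 : ℕ) (K L L' : Type) [Field K] [Field L] [Algebra K L] [Field L'] [Algebra K L']
    (F : PP p K) (π : PP p K →ₐ[K] L) (π' : PP p K →ₐ[K] L') (y : Fin (p + 1))
    (el : SS k p K →ₐ[K] CC k p L), Setup d0 F {F} π → Setup d0 F {F, X 0} π' → π (X 0) ≠ 0 →
    π' (X y) ≠ 0 → Prim F → IsEl π (req k F) 0 el →
    ∃ c1, ∀ m B c γ, c1 ≤ γ → B ≤ k * m → γ + k * m * d0 + m = c + B * d0 → c ≤ k * m * d0 →
      goodT k p B m * hh π γ ≤ finrank K (GamR d0 F el (k * m) c m) +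
        badT k p B m * hh π (k * m * d0 + m + c1)

/-- Polynomials of weight `m` vanishing to high order at a regular jet. -/
def WDimStmt : Prop :=
  ∀ (k p : ℕ) (L : Type) [Field L] [CharZero L] (ξ : Ch k p → L) (v0 : Ch k p) (m r : ℕ)
    (W : Submodule L (CC k p L)), v0.1.val = 0 → ξ v0 ≠ 0 →
    (∀ P ∈ W, IsWeightedHomogeneous (wc k p) P m ∧ Van ξ r P) → finrank L W ≤ rho v0 m r

/-- The upper bound for the space of jet differentials. -/
def UpperStmt : Prop :=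
  ∀ (k p d0 : ℕ) (K L : Type) [Field K] [Field L] [Algebra K L] [CharZero L] (F : PP p K)
    (gens : Set (PP p K)) (π : PP p K →ₐ[K] L) (G : Fin k → SS k p K)
    (el : SS k p K →ₐ[K] CC k p L) (y : Fin (p + 1)) (ξ : Ch k p → L) (v0 : Ch k p),
    Setup d0 F gens π → π (X y) ≠ 0 → IsEl π G 0 el → v0.1.val = 0 → ξ v0 ≠ 0 →
    ∀ T0 c m r, (∀ P ∈ GamR d0 F el T0 c m, Van ξ r P) →
      finrank K (GamR d0 F el T0 c m) ≤ rho v0 m r * hh π c

/-- Growth of the Hilbert function of a hypersurface. -/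
def HilbStmt : Prop :=
  ∀ (p d : ℕ) (K L : Type) [Field K] [Field L] [Algebra K L] (F : PP p K) (π : PP p K →ₐ[K] L),
    1 ≤ p → 1 ≤ d → F ≠ 0 → F.IsHomogeneous d → (∀ g, π g = 0 ↔ g ∈ Ideal.span {F}) →
    ∀ c1 c2 Λ : ℕ, c2 + p ≤ Λ * c1 → hh π c2 ≤ Λ ^ p * hh π (c1 + d) ∧ 0 < hh π (c1 + d)

/-! ### Counting monomials -/

/-- Rankin's bound. -/
def RankinStmt : Prop :=
  ∀ (ι : Type) (U : Finset ι) (u : ι → ℝ) (τ : ℝ), (∀ v ∈ U, 0 < u v) →
    {β : ι →₀ ℕ | (∀ v ∉ U, β v = 0) ∧ ∑ v ∈ U, u v * β v ≤ τ}.Finite ∧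
    (({β : ι →₀ ℕ | (∀ v ∉ U, β v = 0) ∧ ∑ v ∈ U, u v * β v ≤ τ}.ncard : ℕ) : ℝ) ≤
      Real.exp (τ + ∑ v ∈ U, u v) / ∏ v ∈ U, u v

/-- Lower bound for the number of monomials. -/
def TotStmt : Prop :=
  ∀ (k p : ℕ) (v0 : Ch k p) (B m : ℕ), v0.1.val = 0 → 2 ≤ k * p →
    YY v0 m ≤ Real.exp 1 * ((k * p - 1 : ℕ) : ℝ) * ((goodT k p B m : ℝ) + badT k p B m)

/-- Monomials of large degree. -/
def RhoStmt : Prop :=
  ∀ (k p : ℕ) (v0 : Ch k p) (m r : ℕ), 2 ≤ k * p → 16 * (k * p) ^ 2 * k ≤ m →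
    (rho v0 m r : ℝ) ≤ Real.exp 1 * (2 * k) ^ p *
      Real.exp (-(((k * p - 1 : ℕ) : ℝ) * r / (2 * m))) * YY v0 m

/-- Disjoint diagonals or a small cut; splitting the counts by degree. -/
def QueueStmt : Prop :=
  ∀ k p : ℕ, (0 < p → ∃ col : Finset (Fin k) → Fin k → Fin p, ∀ (B : ℕ) (α : Ch k p →₀ ℕ),
    ¬Good B α → ∃ T : Finset (Fin k), k + 1 ≤ T.card + p ∧ ∑ s ∈ T, α (s, col T s) < B) ∧
    ∀ B m, ∑ e ∈ Finset.range (m + 1), goodE k p B e m = goodT k p B m ∧
      ∑ e ∈ Finset.range (m + 1), badE k p B e m = badT k p B m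

/-- Bad monomials. -/
def BadStmt : Prop :=
  ∀ (k p : ℕ) (v0 : Ch k p) (B m : ℕ), v0.1.val = 0 → 2 ≤ k * p → 16 * (k * p) ^ 2 * k ≤ m →
    (badT k p B m : ℝ) ≤ 2 ^ k * Real.exp 1 *
      Real.exp (15 * ((k * p - 1 : ℕ) : ℝ) * k * B / m) * (16 ^ p / 16 ^ k) * YY v0 m

/-- The numerical inequality. -/
def CountStmt : Prop :=
  ∀ p l k : ℕ, 2 ≤ l → l ≤ p → p ≤ 2 ^ l → k = 16 * p * l → ∀ v0 : Ch k p, v0.1.val = 0 →
    ∃ B0, ∀ B, B0 ≤ B →
      (rho v0 (30 * k * p * B) (3000 * p * l * B) + badT k p B (30 * k * p * B)) *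
        (244 * k ^ 2 * p) ^ p < goodT k p B (30 * k * p * B)

/-- A jet differential of very negative twist with small vanishing order at a given jet. -/
def NonVanStmt : Prop :=
  ∀ p l k d0 : ℕ, 2 ≤ l → l ≤ p → p ≤ 2 ^ l → k = 16 * p * l → 800000 * p ^ 2 * l ^ 2 ≤ d0 →
    ∀ (K L L' : Type) [Field K] [Field L] [Algebra K L] [Field L'] [Algebra K L'] [CharZero L]
    (F : PP p K) (π : PP p K →ₐ[K] L) (π' : PP p K →ₐ[K] L') (y : Fin (p + 1))
    (el : SS k p K →ₐ[K] CC k p L) (ξ : Ch k p → L) (v0 : Ch k p), Setup d0 F {F} π →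
    Setup d0 F {F, X 0} π' → π (X 0) ≠ 0 → π' (X y) ≠ 0 → Prim F → IsEl π (req k F) 0 el →
    v0.1.val = 0 → ξ v0 ≠ 0 →
    ∃ T0 c m r, c + m + r * (7 * k + 1) < T0 * d0 ∧ ∃ P ∈ GamR d0 F el T0 c m, ¬Van ξ r P

/-! ### The generic form -/

/-- The universal form and its hyperplane section are prime. -/
def PrimeStmt : Prop :=
  ∀ p d : ℕ, 1 ≤ p → 1 ≤ d → Prime (Fu p d) ∧ (2 ≤ p → ∀ (K : Type) [Field K]
    [Algebra (R0 p d) K] [IsFractionRing (R0 p d) K],
    (Ideal.span {FK p d K, X 0} : Ideal (PP p K)).IsPrime)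

/-- The generic form is smooth. -/
def SmoothStmt : Prop :=
  ∀ p d0 : ℕ, 1 ≤ d0 → ∀ (K : Type) [Field K] [Algebra (R0 p (d0 + 1)) K]
    [IsFractionRing (R0 p (d0 + 1)) K], Prim (FK p (d0 + 1) K)

/-- What a generic point provides. -/
def GenStmt : Prop :=
  ∀ (p d0 : ℕ) (F : PP p ℂ) (x : Fin (p + 1) → ℂ), 2 ≤ p → 1 ≤ d0 → F.IsHomogeneous (d0 + 1) →
    eval x F = 0 → GenPt (d0 + 1) F x →
    Function.Injective (evA (d0 + 1) F) ∧ (∀ i, x i ≠ 0) ∧
    ∀ (K : Type) [Field K] [Algebra (R0 p (d0 + 1)) K] [IsFractionRing (R0 p (d0 + 1)) K]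
      [Algebra K ℂ], (∀ a, algebraMap K ℂ (algebraMap (R0 p (d0 + 1)) K a) = evA (d0 + 1) F a) →
      Setup d0 (FK p (d0 + 1) K) {FK p (d0 + 1) K} (aeval x : PP p K →ₐ[K] ℂ) ∧ IsSmooth F ∧
      ∃ (L : Type) (_ : Field L) (_ : Algebra K L) (π : PP p K →ₐ[K] L),
        Setup d0 (FK p (d0 + 1) K) {FK p (d0 + 1) K, X 0} π ∧ π (X 1) ≠ 0

/-! ### Reduction to a generic point -/

/-- The transcendence rank. -/
def RkStmt : Prop :=
  (∀ s t : Set ℂ, s ⊆ IntermediateField.adjoin ℚ t → rk s ≤ rk t) ∧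
  (∀ (ι : Type) [Fintype ι] (c : ι → ℂ), rk (Set.range c) ≤ Fintype.card ι ∧
    (AlgebraicIndependent ℚ c ↔ (Fintype.card ι : ℕ∞) ≤ rk (Set.range c))) ∧
  (∀ (ι κ : Type) [Fintype ι] [Fintype κ] (c : ι → ℂ), ∃ b : κ → ℂ,
    AlgebraicIndependent (IntermediateField.adjoin ℚ (Set.range c)) b ∧
    rk (Set.range c ∪ Set.range b) = rk (Set.range c) + Fintype.card κ) ∧
  (∀ (ι : Type) [Fintype ι] (c c' : ι → ℂ),
    (∀ Q : MvPolynomial ι ℚ, aeval c' Q = 0 → aeval c Q = 0) →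
    (∃ Q : MvPolynomial ι ℚ, aeval c Q = 0 ∧ aeval c' Q ≠ 0) →
    rk (Set.range c) + 1 ≤ rk (Set.range c')) ∧
  ∀ (ν ν' d : ℕ) (S : Matrix (Fin ν') (Fin ν) ℂ) (G : MvPolynomial (Fin ν') ℂ),
    G.IsHomogeneous d → (lin S G).IsHomogeneous d ∧
    (∀ x, eval x (lin S G) = eval (S.mulVec x) G) ∧
    ∀ E : IntermediateField ℚ ℂ, Set.range (cf d G) ⊆ E → (∀ i j, S i j ∈ E) →
      Set.range (cf d (lin S G)) ⊆ E

/-- Moving the point to `e_0`. -/
def InitStmt : Prop :=
  ∀ (p d : ℕ) (F : PP p ℂ) (x : Fin (p + 1) → ℂ), F.IsHomogeneous d →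
    AlgebraicIndependent ℚ (cf d F) → x ≠ 0 → eval x F = 0 →
    ∃ (F' : PP p ℂ) (T : (Fin (p + 1) → ℂ) →ₗ[ℂ] (Fin (p + 1) → ℂ)), Function.Injective T ∧
      T x = Pi.single 0 1 ∧ (∀ y, eval (T y) F' = eval y F) ∧ Nf d p F'

/-- One more variable lowers the defect. -/
def StepStmt : Prop :=
  ∀ (p d c : ℕ) (F : PP p ℂ), 1 ≤ d → Nf d (c + 1) F →
    ∃ (F' : PP (p + 1) ℂ) (T : (Fin (p + 1) → ℂ) →ₗ[ℂ] (Fin (p + 1 + 1) → ℂ)),
      Function.Injective T ∧ T (Pi.single 0 1) = Pi.single 0 1 ∧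
      (∀ y, eval (T y) F' = eval y F) ∧ Nf d c F'

/-- Moving `e_0` to a generic point. -/
def FinStmt : Prop :=
  ∀ (p d : ℕ) (F : PP p ℂ) (v : Fin (p + 1) → ℂ) (i1 : Fin p), 1 ≤ d → Nf d 0 F →
    (∃ i, i ≠ 0 ∧ v i ≠ 0) →
    ∃ (F' : PP p ℂ) (T : (Fin (p + 1) → ℂ) →ₗ[ℂ] (Fin (p + 1) → ℂ)), Function.Injective T ∧
      F'.IsHomogeneous d ∧ (∀ y, eval (T y) F' = eval y F) ∧ GenPt d F' (T (Pi.single 0 1)) ∧
      T (Pi.single 0 1) 0 * T v i1.succ ≠ T v 0 * T (Pi.single 0 1) i1.succ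

/-- The reduction of Riedl and Yang. -/
def RYStmt : Prop :=
  ∀ (p d : ℕ) (F : PP p ℂ) (x v : Fin (p + 1) → ℂ) (i1 : Fin (p + p)), 1 ≤ d →
    F.IsHomogeneous d → AlgebraicIndependent ℚ (cf d F) → LinearIndependent ℂ ![x, v] →
    eval x F = 0 →
    ∃ (F' : PP (p + p) ℂ) (T : (Fin (p + 1) → ℂ) →ₗ[ℂ] (Fin (p + p + 1) → ℂ)),
      Function.Injective T ∧ F'.IsHomogeneous d ∧ (∀ y, eval (T y) F' = eval y F) ∧
      GenPt d F' (T x) ∧ T x 0 * T v i1.succ ≠ T v 0 * T x i1.succ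

/-! ### Curves -/

/-- Reparametrisation. -/
def ZalStmt : Prop :=
  ∀ (ν : ℕ) (f : ℂ → Fin ν → ℂ), Differentiable ℂ f → (∀ z, f z ≠ 0) →
    (∃ z w i j, f z i * f w j ≠ f z j * f w i) → ∀ R : ℝ, ∃ g : ℂ → Fin ν → ℂ,
      Differentiable ℂ g ∧ (∀ z, ∃ w, g z = f w) ∧ (∃ i j, ‖g 0‖ ^ 2 ≤ ‖wz g 0 i j‖) ∧
      ∀ z ∈ ball (0 : ℂ) R, ∀ i j, ‖wz g z i j‖ ≤ 2 * ‖g z‖ ^ 2

/-- Local gauges. -/
def GaugeStmt : Prop :=
  ∀ (ν : ℕ) (g : ℂ → Fin ν → ℂ) (a : ℂ), DifferentiableOn ℂ g (ball a 1) →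
    (∀ z ∈ ball a 1, g z ≠ 0 ∧ ∀ i j, ‖wz g z i j‖ ≤ 2 * ‖g z‖ ^ 2) →
    ∃ φ : ℂ → ℂ, DifferentiableOn ℂ φ (ball a (1 / 8)) ∧
      ∀ z ∈ ball a (1 / 8), 1 ≤ ‖φ z • g z‖ ∧ ‖φ z • g z‖ ≤ 2

/-- Brody sequences exist and are transported by linear maps. -/
def SeqStmt : Prop :=
  (∀ (ν d : ℕ) (F : MvPolynomial (Fin ν) ℂ) (f : ℂ → Fin ν → ℂ), F.IsHomogeneous d →
    Differentiable ℂ f → (∀ z, f z ≠ 0) → (∀ z, eval (f z) F = 0) →
    (∃ z w i j, f z i * f w j ≠ f z j * f w i) →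
    ∃ x v, BSeq F x v ∧ LinearIndependent ℂ ![x, v] ∧ eval x F = 0) ∧
  ∀ (ν ν' : ℕ) (F : MvPolynomial (Fin ν) ℂ) (F' : MvPolynomial (Fin ν') ℂ)
    (T : (Fin ν → ℂ) →ₗ[ℂ] (Fin ν' → ℂ)) (x v : Fin ν → ℂ), Function.Injective T →
    (∀ y, eval (T y) F' = eval y F) → BSeq F x v → BSeq F' (T x) (T v)

/-- Properties of the gauge invariant jets. -/
def WStmt : Prop :=
  ∀ p : ℕ, (∀ (U : Set ℂ) (f : ℂ → Fin (p + 1) → ℂ), IsOpen U → DifferentiableOn ℂ f U → ∀ s,
      DifferentiableOn ℂ (Wj f s) U ∧ ∀ φ : ℂ → ℂ, DifferentiableOn ℂ φ U →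
        ∀ z ∈ U, Wj (fun w => φ w • f w) s z = φ z ^ (s + 1) • Wj f s z) ∧
    (∀ (s : ℕ) (ρ M : ℝ), 0 < ρ → ∃ Cst : ℝ, ∀ (g : ℂ → Fin (p + 1) → ℂ) (a : ℂ),
      DifferentiableOn ℂ g (ball a ρ) → (∀ z ∈ ball a ρ, ‖g z‖ ≤ M) → ‖Wj g s a‖ ≤ Cst) ∧
    (∀ (k N : ℕ) (q : SS k p ℂ) (ξ : Jet k p → ℂ) (l : ℂ), IsWeightedHomogeneous (wo k p) q N →
      eval (fun v => l ^ (v.1.val + 1) * ξ v) q = l ^ N * eval ξ q) ∧
    ∀ (k : ℕ) (F : PP p ℂ) (x v : Fin (p + 1) → ℂ), BSeq F x v → ∃ ξ : Jet k p → ℂ, BJet F ξ ∧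
      (∀ i, ξ (0, i) = x i) ∧ ∀ s : Fin (k + 1), s.val = 1 → ∀ i, ξ (s, i) = x 0 * v i - v 0 * x i

/-- The gauge invariant jets satisfy the jet equations. -/
def JEqStmt : Prop :=
  ∀ (k p d : ℕ) (F : PP p ℂ) (U : Set ℂ) (f : ℂ → Fin (p + 1) → ℂ), F.IsHomogeneous d →
    IsOpen U → DifferentiableOn ℂ f U → (∀ z ∈ U, eval (f z) F = 0) →
    ∀ z ∈ U, f z 0 ≠ 0 → ∀ s ≤ k, eval (jw k f z) (jeq k F s) = 0

/-- The bounded holomorphic functions defined by a jet differential. -/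
def PsiStmt : Prop :=
  ∀ (k p d0 : ℕ) (F : PP p ℂ) (ρ M : ℝ) (t N Q : ℕ) (q : Fin (p + 1) → SS k p ℂ),
    F.IsHomogeneous (d0 + 1) → IsSmooth F → 0 < ρ → 0 < M →
    (∀ j, IsWeightedHomogeneous (wo k p) (q j) N) → N + Q = t * d0 →
    ∃ Cst : ℝ, ∀ (f : ℂ → Fin (p + 1) → ℂ) (R : ℝ), Differentiable ℂ f →
      (∀ z, eval (f z) F = 0) →
      (∀ a ∈ ball (0 : ℂ) R, ∃ φ : ℂ → ℂ, DifferentiableOn ℂ φ (ball a ρ) ∧
        ∀ z ∈ ball a ρ, M⁻¹ ≤ ‖φ z • f z‖ ∧ ‖φ z • f z‖ ≤ M) →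
      (∀ z i j, eval (jw k f z) (zz k F i ^ t * q j - zz k F j ^ t * q i) = 0) →
      ∃ ψ : ℂ → ℂ, DifferentiableOn ℂ ψ (ball 0 R) ∧ ∀ z ∈ ball (0 : ℂ) R,
        (∀ j, eval (f z) (pderiv j F) ^ t * ψ z = eval (jw k f z) (q j)) ∧
        ∀ i, ‖ψ z * f z i ^ Q‖ ≤ Cst

/-- The vanishing theorem. -/
def VanishStmt : Prop :=
  ∀ (k p d0 : ℕ) (F : PP p ℂ) (ξ : Jet k p → ℂ) (s1 : Fin (k + 1)) (i1 : Fin (p + 1)),
    F.IsHomogeneous (d0 + 1) → IsSmooth F → BJet F ξ → s1.val = 1 → ξ (0, 0) ≠ 0 →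
    ξ (0, i1) ≠ 0 → ξ (s1, i1) ≠ 0 → ∀ t N q, Sec F (eval ξ) t N q → N < t * d0 →
    eval ξ (q 0) = 0

/-! ### Derivations -/

/-- Interpolation with a multiplier of small degree. -/
def ThetaStmt : Prop :=
  ∀ (k p : ℕ) (R : Type) [CommRing R] [IsDomain R] (s1 : Fin (k + 1)) (i1 : Fin (p + 1)),
    s1.val = 1 → i1 ≠ 0 → ∃ c : Fin (k + 1) → Fin (k + 1) → SS k p R,
      (∀ s j, IsWeightedHomogeneous (wo k p) (c s j) (6 * k - s.val - j.val)) ∧
      ∀ s, Polynomial.X ^ (k + 1) ∣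
        sg k R (∑ j, C (c s j) * (X 0 ^ (k + 1 - j.val) * ell R i1 ^ j.val)) -
          Polynomial.C (hm R s1 i1) * Polynomial.X ^ s.val

/-- Compensating forms, and generators of the forms vanishing on the jet. -/
def LiftStmt : Prop :=
  ∀ (k p : ℕ) (R : Type) [CommRing R] [IsDomain R] (s1 : Fin (k + 1)) (i1 : Fin (p + 1)),
    s1.val = 1 → i1 ≠ 0 →
    (∀ (n N s : ℕ) (Y : PP p (SS k p R)), k ≤ n → s ≤ k → BH Y n N → ∃ G : PP p (SS k p R),
      BH G (n + 1) (N + 7 * k - s) ∧ Polynomial.X ^ (k + 1) ∣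
        sg k R G - Polynomial.C (hm R s1 i1) * Polynomial.X ^ s * sg k R Y) ∧
    ∀ (d : ℕ) (G : PP p (SS k p R)), k + 1 ≤ d → G.IsHomogeneous d →
      Polynomial.X ^ (k + 1) ∣ sg k R G → ∃ n : ℕ, hm R s1 i1 ^ n • G ∈
        Submodule.span (SS k p R) {G' : PP p (SS k p R) | BH G' d (7 * k + 1) ∧
          Polynomial.X ^ (k + 1) ∣ sg k R G'}

/-- The derivation with given values on the coefficients and on the jet variables. -/
def DmStmt : Prop :=
  ∀ k p d : ℕ, ∃ Dm : (PP p (SS k p (R0 p d)) × (Jet k p → SS k p (R0 p d))) →ₗ[SS k p (R0 p d)]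
      Derivation ℚ (SS k p (R0 p d)) (SS k p (R0 p d)),
    (∀ G η, G.IsHomogeneous d → ∀ s, Dm (G, η) (jeq k (Fu p d) s) =
      (sg k (R0 p d) G + ∑ i, sg k (R0 p d) (MvPolynomial.map C (pderiv i (Fu p d))) *
        ∑ u : Fin (k + 1), Polynomial.monomial u.val (η (u, i))).coeff s) ∧
    (∀ G η κ, (∀ μ, IsWeightedHomogeneous (wo k p) (coeff μ G) κ) →
      (∀ v, IsWeightedHomogeneous (wo k p) (η v) (wo k p v + κ)) → ∀ q N,
      IsWeightedHomogeneous (wo k p) q N → IsWeightedHomogeneous (wo k p) (Dm (G, η) q) (N + κ)) ∧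
    ∀ η q, Dm (0, η) q = ∑ v, η v * pderiv v q

/-- The coordinate derivations of the fibre are generated by derivations of small cost. -/
def DerStmt : Prop :=
  ∀ (k p d0 : ℕ) (s1 : Fin (k + 1)) (i1 : Fin (p + 1)), k ≤ d0 → s1.val = 1 → i1 ≠ 0 →
    ∀ (s : Fin k) (i : Fin p), ∃ a b e : ℕ,
      ∃ E ∈ Submodule.span (SS k p (R0 p (d0 + 1))) (DD k p (d0 + 1)),
        ∀ q ∈ supported (R0 p (d0 + 1)) (chart k (0 : Fin (p + 1))),
          E q = X (0, 0) ^ a * wr _ s1 i1 ^ b * zz k (Fu p (d0 + 1)) 0 ^ e *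
            pderiv (s.succ, i.succ) q

/-- Jet differentials of very negative twist vanish to high order (universal form). -/
def SecStmt : Prop :=
  ∀ (k p d0 : ℕ) (F : PP p ℂ) (ξ : Jet k p → ℂ) (s1 : Fin (k + 1)) (i1 : Fin (p + 1)), k ≤ d0 →
    F.IsHomogeneous (d0 + 1) → IsSmooth F → BJet F ξ → s1.val = 1 → ξ (0, 0) ≠ 0 →
    ξ (0, i1) ≠ 0 → ξ (s1, i1) ≠ 0 → ξ (s1, 0) = 0 → eval ξ (zz k F 0) ≠ 0 →
    ∀ r t N q, Sec (Fu p (d0 + 1)) (eval₂Hom (evA (d0 + 1) F) ξ) t N q →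
      N + r * (7 * k + 1) < t * d0 →
      ∀ c, ∀ q' ∈ supported (R0 p (d0 + 1)) (chart k (0 : Fin (p + 1))),
        eval₂Hom (evA (d0 + 1) F) ξ c ≠ 0 → q 0 = c * q' →
        ∀ el : SS k p (R0 p (d0 + 1)) →+* CC k p ℂ, (∀ a, el (C a) = C (evA (d0 + 1) F a)) →
          (∀ i, el (X (0, i)) = C (ξ (0, i))) → (∀ s i, el (X (Fin.succ s, Fin.succ i)) = X (s, i)) →
          Van (fun v : Ch k p => ξ (v.1.succ, v.2.succ)) r (el q')

/-- Jet differentials of very negative twist vanish to high order (generic form). -/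
def BridgeStmt : Prop :=
  ∀ (k p d0 : ℕ) (F : PP p ℂ) (ξ : Jet k p → ℂ) (s1 : Fin (k + 1)) (i1 : Fin (p + 1)), k ≤ d0 →
    F.IsHomogeneous (d0 + 1) → IsSmooth F → BJet F ξ → s1.val = 1 → ξ (0, 0) ≠ 0 →
    ξ (0, i1) ≠ 0 → ξ (s1, i1) ≠ 0 → ξ (s1, 0) = 0 →
    ∀ (K : Type) [Field K] [Algebra (R0 p (d0 + 1)) K] [IsFractionRing (R0 p (d0 + 1)) K]
      [Algebra K ℂ], (∀ a, algebraMap K ℂ (algebraMap (R0 p (d0 + 1)) K a) = evA (d0 + 1) F a) →
      Setup d0 (FK p (d0 + 1) K) {FK p (d0 + 1) K} (aeval fun i => ξ (0, i) : PP p K →ₐ[K] ℂ) →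
      ∀ el : SS k p K →ₐ[K] CC k p ℂ,
        IsEl (aeval fun i => ξ (0, i) : PP p K →ₐ[K] ℂ) (req k (FK p (d0 + 1) K)) 0 el →
        ∀ T0 c m r, c + m + r * (7 * k + 1) < T0 * d0 →
          ∀ P ∈ GamR d0 (FK p (d0 + 1) K) el T0 c m,
            Van (fun v : Ch k p => ξ (v.1.succ, v.2.succ)) r P

/-- Forms with algebraically independent coefficients are Brody hyperbolic. -/
def IndepStmt : Prop :=
  ∀ p l d0 : ℕ, 2 ≤ l → l ≤ p + p → p + p ≤ 2 ^ l → 800000 * (p + p) ^ 2 * l ^ 2 ≤ d0 →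
    ∀ F : PP p ℂ, F.IsHomogeneous (d0 + 1) → AlgebraicIndependent ℚ (cf (d0 + 1) F) → IsBrody F

end

end Pool.Agent.Lib.MP_45f16c_ag.VG
end

-- part Pool.Agent.Lib.MP_45f16c_ag.VG.B
section

/-! Base lemmas shared by the modules. -/

set_option autoImplicit false
open MvPolynomial Filter Module

namespace Pool.Agent.Lib.MP_45f16c_ag.VG.B

noncomputable section

/-! ### Weighted homogeneity -/

section weights
variable {σ R : Type} [CommRing R] {M M' : Type} [AddCommMonoid M] [AddCommMonoid M']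

theorem weight_comp (w : σ → M) (φ : M →+ M') (γ : σ →₀ ℕ) :
    Finsupp.weight (fun v => φ (w v)) γ = φ (Finsupp.weight w γ) := by
  simp only [Finsupp.weight_apply, Finsupp.sum, map_sum, map_nsmul]

theorem hom_map {w : σ → M} {w' : σ → M'} (φ : M →+ M') (h : ∀ v, w' v = φ (w v))
    {q : MvPolynomial σ R} {n : M} (hq : IsWeightedHomogeneous w q n) :
    IsWeightedHomogeneous w' q (φ n) := by
  intro γ hγ
  have : w' = fun v => φ (w v) := funext h
  rw [this, weight_comp, hq hγ]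

theorem hom_comp {w : σ → M} (w' : σ → M') {q : MvPolynomial σ R} {n : M}
    (hq : IsWeightedHomogeneous w q n) (n' : M') :
    IsWeightedHomogeneous w (weightedHomogeneousComponent w' n' q) n := by
  classical
  intro γ hγ
  rw [coeff_weightedHomogeneousComponent] at hγ
  split_ifs at hγ with h
  · exact hq hγ
  · exact absurd rfl hγ

theorem comp_supported (w : σ → M) (n : M) {s : Set σ} {q : MvPolynomial σ R}
    (hq : q ∈ supported R s) : weightedHomogeneousComponent w n q ∈ supported R s := by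
  classical
  rw [mem_supported] at hq ⊢
  refine subset_trans ?_ hq
  intro v hv
  rw [Finset.mem_coe, mem_vars_iff_mem_support] at hv ⊢
  obtain ⟨γ, hγ, hv⟩ := hv
  rw [support_weightedHomogeneousComponent] at hγ
  exact ⟨γ, (Finset.mem_filter.1 hγ).1, hv⟩

attribute [local instance] MvPolynomial.weightedGradedAlgebra in
theorem comp_mem_span (w : σ → M) {T : Set (MvPolynomial σ R)}
    (hT : ∀ g ∈ T, ∃ n, IsWeightedHomogeneous w g n) {q : MvPolynomial σ R}
    (hq : q ∈ Ideal.span T) (n : M) : weightedHomogeneousComponent w n q ∈ Ideal.span T := by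
  classical
  exact weightedHomogeneousComponent_mem_of_mem R w (Ideal.homogeneous_span _ T hT) hq n

attribute [local instance] MvPolynomial.weightedGradedAlgebra in
theorem comp_mul {M : Type} [AddCancelCommMonoid M] (w : σ → M) {z : MvPolynomial σ R} {n : M}
    (hz : IsWeightedHomogeneous w z n) (n' : M) (q : MvPolynomial σ R) :
    weightedHomogeneousComponent w (n + n') (z * q) = z * weightedHomogeneousComponent w n' q := by
  classical
  have := DirectSum.coe_decompose_mul_add_of_left_mem (weightedHomogeneousSubmodule R w)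
    (j := n') (b := q) (show z ∈ weightedHomogeneousSubmodule R w n from hz)
  rw [← weightedDecomposition.decompose'_apply, ← weightedDecomposition.decompose'_apply]
  exact this

theorem hom_rename {τ : Type} (f : σ → τ) {w : τ → M} {q : MvPolynomial σ R} {n : M}
    (hq : IsWeightedHomogeneous (fun v => w (f v)) q n) :
    IsWeightedHomogeneous w (rename f q) n := by
  rw [q.as_sum, map_sum]
  refine IsWeightedHomogeneous.sum _ _ _ fun γ hγ => ?_
  rw [rename_monomial]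
  refine isWeightedHomogeneous_monomial _ _ _ ?_
  rw [← hq (mem_support_iff.1 hγ)]
  simp only [Finsupp.weight_apply]
  exact Finsupp.sum_mapDomain_index (by simp) (by intros; rw [add_nsmul])

theorem hom_mapc {S : Type} [CommRing S] (f : R →+* S) {w : σ → M} {q : MvPolynomial σ R} {n : M}
    (hq : IsWeightedHomogeneous w q n) : IsWeightedHomogeneous w (MvPolynomial.map f q) n := by
  intro γ hγ
  refine hq fun h => hγ ?_
  rw [coeff_map, h, map_zero]

theorem hom_const {q : MvPolynomial σ R} {n : ℕ} (hq : q.IsHomogeneous n) (a : M) :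
    IsWeightedHomogeneous (fun _ : σ => a) q (n • a) := by
  have := hom_map (w := (1 : σ → ℕ)) (w' := fun _ => a) (multiplesHom M a) (by simp) hq
  simpa using this

theorem fin_of_map {K : Type} [Field K] [Finite σ] (w : σ → M) (φ : M →+ ℕ)
    (h : ∀ v, φ (w v) ≠ 0) (n : M) :
    FiniteDimensional K (weightedHomogeneousSubmodule K w n) := by
  have h1 : FiniteDimensional K (weightedHomogeneousSubmodule K (fun v => φ (w v)) (φ n)) :=
    Module.Finite.iff_fg.2 (weightedHomogeneousSubmodule_fg _ _ h _)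
  exact Submodule.finiteDimensional_of_le (S₂ := weightedHomogeneousSubmodule K
    (fun v => φ (w v)) (φ n)) fun q hq => hom_map φ (fun _ => rfl) hq

end weights

/-! ### The weights on jets -/

section jets
variable {k p : ℕ} {R : Type} [CommRing R]

theorem wo_of_w2 {q : SS k p R} {b m : ℕ} (h : IsWeightedHomogeneous (w2 k p) q (b, m)) :
    IsWeightedHomogeneous (wo k p) q (b + m) :=
  hom_map (AddMonoidHom.fst ℕ ℕ + AddMonoidHom.snd ℕ ℕ) (fun v => by simp [wo, w2, add_comm]) h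

theorem w2_of_w3 {q : SS k p R} {c e m : ℕ} (h : IsWeightedHomogeneous (w3 k p) q (c, e, m)) :
    IsWeightedHomogeneous (w2 k p) q (c + e, m) :=
  hom_map ((AddMonoidHom.fst ℕ (ℕ × ℕ) + (AddMonoidHom.fst ℕ ℕ).comp (AddMonoidHom.snd ℕ _)).prod
    ((AddMonoidHom.snd ℕ ℕ).comp (AddMonoidHom.snd ℕ _)))
    (fun v => by by_cases hv : v.1 = 0 <;> simp [w3, w2, hv]) h

theorem we_of_w3 {q : SS k p R} {c e m : ℕ} (h : IsWeightedHomogeneous (w3 k p) q (c, e, m)) :
    IsWeightedHomogeneous (we k p) q e :=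
  hom_map ((AddMonoidHom.fst ℕ ℕ).comp (AddMonoidHom.snd ℕ _))
    (fun v => by by_cases hv : v.1 = 0 <;> simp [w3, we, hv]) h

theorem w1_of_w3 {q : SS k p R} {c e m : ℕ} (h : IsWeightedHomogeneous (w3 k p) q (c, e, m)) :
    IsWeightedHomogeneous (w1 k p) q c :=
  hom_map (AddMonoidHom.fst ℕ (ℕ × ℕ)) (fun v => by by_cases hv : v.1 = 0 <;> simp [w3, w1, hv]) h

theorem w3_of {q : SS k p R} {b e m : ℕ} (h : IsWeightedHomogeneous (w2 k p) q (b, m))
    (h' : IsWeightedHomogeneous (we k p) q e) :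
    IsWeightedHomogeneous (w3 k p) q (b - e, e, m) := by
  intro γ hγ
  have hm := isWeightedHomogeneous_monomial (w3 k p) γ (1 : ℤ)
    (m := Finsupp.weight (w3 k p) γ) rfl
  generalize Finsupp.weight (w3 k p) γ = x at hm
  obtain ⟨c', e', m'⟩ := x
  have h1 : coeff γ (monomial γ (1 : ℤ)) ≠ 0 := by simp
  have a := (w2_of_w3 hm h1).symm.trans (h hγ)
  have b := (we_of_w3 hm h1).symm.trans (h' hγ)
  simp only [Prod.mk.injEq] at a ⊢
  omega

theorem wc_of_wc2 {q : CC k p R} {e m : ℕ} (h : IsWeightedHomogeneous (wc2 k p) q (e, m)) :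
    IsWeightedHomogeneous (wc k p) q m :=
  hom_map (AddMonoidHom.snd ℕ ℕ) (fun v => by simp [wc, wc2]) h

theorem hom_of_wc2 {q : CC k p R} {e m : ℕ} (h : IsWeightedHomogeneous (wc2 k p) q (e, m)) :
    q.IsHomogeneous e :=
  hom_map (w' := (1 : Ch k p → ℕ)) (AddMonoidHom.fst ℕ ℕ) (fun v => by simp [wc2]) h

theorem b0_w3 {g : PP p R} {n : ℕ} (h : g.IsHomogeneous n) :
    IsWeightedHomogeneous (w3 k p) (b0 k g) (n, 0, 0) := by
  refine hom_rename _ ?_
  simpa [w3] using hom_const h ((1, 0, 0) : ℕ × ℕ × ℕ)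

theorem b0_w2 {g : PP p R} {n : ℕ} (h : g.IsHomogeneous n) :
    IsWeightedHomogeneous (w2 k p) (b0 k g) (n, 0) := w2_of_w3 (b0_w3 h)

theorem b0_X (i : Fin (p + 1)) : b0 k (X i : PP p R) = X (0, i) := by simp [b0]

theorem b0_supp (j : Fin (p + 1)) (g : PP p R) : b0 k g ∈ supported R (chart k j) := by
  induction g using MvPolynomial.induction_on with
  | C a => simpa [b0] using (supported R (chart k j)).algebraMap_mem a
  | add f g hf hg => rw [map_add]; exact add_mem hf hg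
  | mul_X f i hf =>
    rw [map_mul, b0_X]
    exact mul_mem hf (Algebra.subset_adjoin ⟨_, Or.inl rfl, rfl⟩)

theorem X_supp {j : Fin (p + 1)} {v : Jet k p} (h : v ∈ chart k j) :
    (X v : SS k p R) ∈ supported R (chart k j) := Algebra.subset_adjoin ⟨_, h, rfl⟩

theorem zz_w3 {F : PP p R} {d0 : ℕ} (h : F.IsHomogeneous (d0 + 1)) (j : Fin (p + 1)) :
    IsWeightedHomogeneous (w3 k p) (zz k F j) (d0, 0, 0) := b0_w3 h.pderiv

theorem zz_w2 {F : PP p R} {d0 : ℕ} (h : F.IsHomogeneous (d0 + 1)) (j : Fin (p + 1)) :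
    IsWeightedHomogeneous (w2 k p) (zz k F j) (d0, 0) := b0_w2 h.pderiv

theorem zz_wo {F : PP p R} {d0 : ℕ} (h : F.IsHomogeneous (d0 + 1)) (j : Fin (p + 1)) :
    IsWeightedHomogeneous (wo k p) (zz k F j) d0 := wo_of_w2 (zz_w2 h j)

theorem neq_w3 {F : PP p R} {d0 : ℕ} (h : F.IsHomogeneous (d0 + 1)) (s : Fin k) :
    IsWeightedHomogeneous (w3 k p) (neq k F s) (d0, 1, s.val + 1) := by
  refine IsWeightedHomogeneous.sum _ _ _ fun i _ => ?_
  simpa [w3, Fin.succ_ne_zero] using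
    (zz_w3 h i).mul (isWeightedHomogeneous_X R (w3 k p) (s.succ, i))

/-- The nonlinear part of a triangular equation only involves lower levels. -/
theorem Tri.supp {F : PP p R} {d0 : ℕ} {G : Fin k → SS k p R} (hF : F.IsHomogeneous (d0 + 1))
    (h : Tri k d0 F G) (s : Fin k) :
    G s - neq k F s ∈ supported R {v : Jet k p | v.1.val ≤ s.val} := by
  classical
  rw [mem_supported]
  intro v hv
  rw [Finset.mem_coe, mem_vars_iff_mem_support] at hv
  obtain ⟨γ, hγ, hv⟩ := hv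
  have h1 := congrArg (AddMonoidHom.snd ℕ ℕ)
    (((h.hom s).sub (w2_of_w3 (neq_w3 hF s))) (mem_support_iff.1 hγ))
  have h2 := h.ord s γ hγ
  rw [← weight_comp (w2 k p) (AddMonoidHom.snd ℕ ℕ) γ] at h1
  by_contra hlt
  simp only [Set.mem_ofPred_eq, not_le] at hlt
  have e1 : γ = (γ - Finsupp.single v 1) + Finsupp.single v 1 := by
    rw [tsub_add_cancel_of_le]
    exact Finsupp.single_le_iff.2 (Nat.one_le_iff_ne_zero.2 (Finsupp.mem_support_iff.1 hv))
  have key : ∀ δ : Jet k p →₀ ℕ, Finsupp.weight (we k p) δ ≤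
      Finsupp.weight (fun v => AddMonoidHom.snd ℕ ℕ (w2 k p v)) δ := fun δ => by
    simp only [Finsupp.weight_apply, Finsupp.sum]
    refine Finset.sum_le_sum fun u _ => Nat.mul_le_mul_left _ ?_
    by_cases hu : u.1 = 0
    · simp [we, hu]
    · simp [we, w2, hu, Nat.one_le_iff_ne_zero]
  rw [e1, map_add, Finsupp.weight_single] at h1 h2
  have := key (γ - Finsupp.single v 1)
  have h3 : we k p v ≤ 1 := by unfold we; split_ifs <;> simp
  simp only [w2, AddMonoidHom.coe_snd, smul_eq_mul, one_mul] at h1 h2 this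
  omega

/-- A retraction onto the chart polynomials. -/
theorem exists_kill (j : Fin (p + 1)) : ∃ κ : SS k p R →ₐ[R] SS k p R,
    (∀ q ∈ supported R (chart k j), κ q = q) ∧ ∀ q, κ q ∈ supported R (chart k j) := by
  classical
  refine ⟨aeval fun v => if v ∈ chart k j then X v else 0, fun q hq => ?_, fun q => ?_⟩
  · induction hq using Algebra.adjoin_induction with
    | mem x hx => obtain ⟨v, hv, rfl⟩ := hx; simp [hv]
    | algebraMap r => simp
    | add x y _ _ hx hy => rw [map_add, hx, hy]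
    | mul x y _ _ hx hy => rw [map_mul, hx, hy]
  · induction q using MvPolynomial.induction_on with
    | C a => simpa using (supported R (chart k j)).algebraMap_mem a
    | add f g hf hg => rw [map_add]; exact add_mem hf hg
    | mul_X f v hf =>
      rw [map_mul, aeval_X]
      refine mul_mem hf ?_
      split_ifs with h
      · exact X_supp h
      · exact zero_mem _

/-! ### Jet equations -/

theorem xt_coeff (i : Fin (p + 1)) (s : Fin (k + 1)) : (xt k R i).coeff s.val = X (s, i) := by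
  simp [xt, Polynomial.coeff_monomial, Fin.val_inj]

theorem xt_coeff_of_lt (i : Fin (p + 1)) {s : ℕ} (h : k < s) : (xt k R i).coeff s = 0 := by
  simp only [xt, Polynomial.finsetSum_coeff, Polynomial.coeff_monomial]
  exact Finset.sum_eq_zero fun u _ => if_neg (by omega)

theorem jeq_eq_sg (G : PP p R) (s : ℕ) :
    jeq k G s = (sg k R (MvPolynomial.map C G)).coeff s := by
  unfold jeq sg
  congr 1
  induction G using MvPolynomial.induction_on with
  | C a => simp [Polynomial.algebraMap_apply]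
  | add f g hf hg => simp only [map_add, hf, hg]
  | mul_X f i hf => simp only [map_mul, hf, map_X, aeval_X]

theorem coeff_mul_hom {M : Type} [AddCommMonoid M] {w : Jet k p → M} {P Q : Polynomial (SS k p R)}
    {a b c : M} (hP : ∀ s, IsWeightedHomogeneous w (P.coeff s) (a + s • c))
    (hQ : ∀ s, IsWeightedHomogeneous w (Q.coeff s) (b + s • c)) (s : ℕ) :
    IsWeightedHomogeneous w ((P * Q).coeff s) (a + b + s • c) := by
  rw [Polynomial.coeff_mul]
  refine IsWeightedHomogeneous.sum _ _ _ fun x hx => ?_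
  have := (hP x.1).mul (hQ x.2)
  rw [← Finset.HasAntidiagonal.mem_antidiagonal.1 hx, add_nsmul]
  convert this using 1
  abel

theorem mon_hom (μ : Fin (p + 1) →₀ ℕ) (s : ℕ) : IsWeightedHomogeneous (w2 k p)
    ((sg k R (monomial μ 1)).coeff s) ((μ.degree, 0) + s • ((0, 1) : ℕ × ℕ)) := by
  induction μ using Finsupp.induction_linear generalizing s with
  | zero =>
    rw [show (monomial 0 1 : PP p (SS k p R)) = 1 from rfl, map_one, Polynomial.coeff_one]
    split_ifs with h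
    · subst h; exact isWeightedHomogeneous_one R (w2 k p)
    · exact isWeightedHomogeneous_zero _ _ _
  | add μ ν hμ hν =>
    rw [show (monomial (μ + ν) 1 : PP p (SS k p R)) = monomial μ 1 * monomial ν 1 by
      rw [monomial_mul, one_mul], map_mul]
    simpa using coeff_mul_hom hμ hν s
  | single i n =>
    rw [← X_pow_eq_monomial, map_pow, Finsupp.degree_single]
    induction n generalizing s with
    | zero =>
      rw [pow_zero, Polynomial.coeff_one]
      split_ifs with h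
      · subst h; exact isWeightedHomogeneous_one R (w2 k p)
      · exact isWeightedHomogeneous_zero _ _ _
    | succ n ih =>
      have h1 : ∀ s, IsWeightedHomogeneous (w2 k p) ((sg k R (X i)).coeff s)
          ((1, 0) + s • ((0, 1) : ℕ × ℕ)) := fun s => by
        rw [sg, aeval_X]
        by_cases h : s < k + 1
        · rw [show s = (⟨s, h⟩ : Fin (k + 1)).val from rfl, xt_coeff]
          simpa [w2] using isWeightedHomogeneous_X R (w2 k p) (⟨s, h⟩, i)
        · rw [xt_coeff_of_lt i (by omega)]; exact isWeightedHomogeneous_zero _ _ _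
      rw [pow_succ]
      simpa using coeff_mul_hom ih h1 s

theorem sg_monomial (μ : Fin (p + 1) →₀ ℕ) (a : SS k p R) (s : ℕ) :
    (sg k R (monomial μ a)).coeff s = a * (sg k R (monomial μ 1)).coeff s := by
  rw [show monomial μ a = a • (monomial μ 1 : PP p (SS k p R)) by simp [smul_monomial], map_smul,
    Polynomial.coeff_smul, smul_eq_mul]

theorem jeq_hom {G : PP p R} {n : ℕ} (h : G.IsHomogeneous n) (s : ℕ) :
    IsWeightedHomogeneous (w2 k p) (jeq k G s) (n, s) := by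
  rw [jeq_eq_sg, G.as_sum, map_sum, map_sum, Polynomial.finsetSum_coeff]
  refine IsWeightedHomogeneous.sum _ _ _ fun μ hμ => ?_
  rw [map_monomial, sg_monomial]
  have e : μ.degree = n := by
    rw [Finsupp.degree_eq_weight_one]; exact h (mem_support_iff.1 hμ)
  simpa [e] using (mon_hom (k := k) (R := R) μ s).C_mul (coeff μ G)

theorem sg_hom {G : PP p (SS k p R)} {d N : ℕ} (h : BH G d N) (s : ℕ) :
    IsWeightedHomogeneous (wo k p) ((sg k R G).coeff s) (N + d + s) := by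
  rw [G.as_sum, map_sum, Polynomial.finsetSum_coeff]
  refine IsWeightedHomogeneous.sum _ _ _ fun μ hμ => ?_
  rw [sg_monomial]
  have e : μ.degree = d := by
    rw [Finsupp.degree_eq_weight_one]; exact h.1 (mem_support_iff.1 hμ)
  have h1 : IsWeightedHomogeneous (w2 k p) ((sg k R (monomial μ 1)).coeff s) (d, s) := by
    simpa [e] using mon_hom (k := k) (R := R) μ s
  simpa [add_assoc] using (h.2 μ).mul (wo_of_w2 h1)

theorem BH_map_C {G : PP p R} {n : ℕ} (h : G.IsHomogeneous n) :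
    BH (MvPolynomial.map (C : R →+* SS k p R) G) n 0 :=
  ⟨h.map _, fun μ => by rw [coeff_map]; exact isWeightedHomogeneous_C _ _⟩

theorem BH.mul {G G' : PP p (SS k p R)} {d d' N N' : ℕ} (h : BH G d N) (h' : BH G' d' N') :
    BH (G * G') (d + d') (N + N') := by
  classical
  refine ⟨h.1.mul h'.1, fun μ => ?_⟩
  rw [coeff_mul]
  exact IsWeightedHomogeneous.sum _ _ _ fun x _ => (h.2 _).mul (h'.2 _)

theorem map_b0 {R' : Type} [CommRing R'] (f : R →+* R') (g : PP p R) :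
    MvPolynomial.map f (b0 k g) = b0 k (MvPolynomial.map f g) := by
  simp [b0, map_rename]

theorem map_zz {R' : Type} [CommRing R'] (f : R →+* R') (F : PP p R) (j : Fin (p + 1)) :
    MvPolynomial.map f (zz k F j) = zz k (MvPolynomial.map f F) j := by
  rw [zz, zz, map_b0, pderiv_map]

theorem map_jeq {R' : Type} [CommRing R'] (f : R →+* R') (G : PP p R) (s : ℕ) :
    MvPolynomial.map f (jeq k G s) = jeq k (MvPolynomial.map f G) s := by
  unfold jeq
  rw [← Polynomial.coeff_map]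
  congr 1
  induction G using MvPolynomial.induction_on with
  | C a => simp [Polynomial.algebraMap_apply]
  | add f g hf hg => simp only [map_add, Polynomial.map_add, hf, hg]
  | mul_X g i hg =>
    simp only [map_mul, Polynomial.map_mul, hg, map_X, aeval_X]
    simp [xt, Polynomial.map_sum]

theorem eval_b0 (ξ : Jet k p → R) (g : PP p R) :
    eval ξ (b0 k g) = eval (fun i => ξ (0, i)) g := by
  rw [b0, eval_rename]; rfl

end jets

/-! ### The universal form -/

section univ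
variable {p d : ℕ}

theorem mon_degree {ν : ℕ} (μ : Mon ν d) : μ.1.degree = d := by
  have := (Finset.mem_finsuppAntidiag.1 μ.2).1
  rw [Finsupp.degree_eq_sum]; exact this

theorem mem_mon {ν : ℕ} {μ : Fin ν →₀ ℕ} (h : μ.degree = d) :
    μ ∈ Finset.finsuppAntidiag (Finset.univ : Finset (Fin ν)) d := by
  rw [Finsupp.degree_eq_sum] at h
  exact Finset.mem_finsuppAntidiag.2 ⟨h, Finset.subset_univ _⟩

theorem sum_mon {ν : ℕ} {R : Type} [CommRing R] {G : MvPolynomial (Fin ν) R}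
    (h : G.IsHomogeneous d) : ∑ μ : Mon ν d, monomial μ.1 (coeff μ.1 G) = G := by
  rw [Finset.sum_coe_sort _ fun μ => monomial μ (coeff μ G)]
  conv_rhs => rw [G.as_sum]
  refine (Finset.sum_subset (fun μ hμ => mem_mon ?_) fun μ _ hμ => ?_).symm
  · rw [Finsupp.degree_eq_weight_one]; exact h (mem_support_iff.1 hμ)
  · rw [notMem_support_iff.1 hμ, monomial_zero]

theorem Fu_hom : (Fu p d).IsHomogeneous d :=
  IsHomogeneous.sum _ _ _ fun μ _ => isHomogeneous_monomial _ (mon_degree μ)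

theorem FK_hom (K : Type) [CommRing K] [Algebra (R0 p d) K] : (FK p d K).IsHomogeneous d :=
  Fu_hom.map _

theorem coeff_Fu (μ : Mon (p + 1) d) : coeff μ.1 (Fu p d) = X μ := by
  classical
  simp [Fu, coeff_sum, coeff_monomial]

theorem evA_X (F : PP p ℂ) (μ : Mon (p + 1) d) : evA d F (X μ) = coeff μ.1 F := by
  simp [evA, cf]

theorem map_Fu {F : PP p ℂ} (h : F.IsHomogeneous d) : MvPolynomial.map (evA d F) (Fu p d) = F := by
  conv_rhs => rw [← sum_mon h]
  simp [Fu, map_monomial, evA_X]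

end univ

/-! ### Charts -/

section charts
variable {k p : ℕ} {K L : Type} [Field K] [Field L] [Algebra K L]

theorem fin_w2 (c : ℕ × ℕ) : FiniteDimensional K (weightedHomogeneousSubmodule K (w2 k p) c) :=
  fin_of_map _ (AddMonoidHom.fst ℕ ℕ) (fun v => by simp [w2]) c

theorem fin_w3 (c : ℕ × ℕ × ℕ) :
    FiniteDimensional K (weightedHomogeneousSubmodule K (w3 k p) c) :=
  fin_of_map _ (AddMonoidHom.fst ℕ (ℕ × ℕ) + (AddMonoidHom.fst ℕ ℕ).comp (AddMonoidHom.snd ℕ _))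
    (fun v => by by_cases hv : v.1 = 0 <;> simp [w3, hv]) c

theorem fin_wc2 (c : ℕ × ℕ) : FiniteDimensional K (weightedHomogeneousSubmodule K (wc2 k p) c) :=
  fin_of_map _ (AddMonoidHom.fst ℕ ℕ) (fun v => by simp [wc2]) c

theorem fin_wc (c : ℕ) : FiniteDimensional K (weightedHomogeneousSubmodule K (wc k p) c) :=
  fin_of_map _ (AddMonoidHom.id ℕ) (fun v => by simp [wc]) c

theorem fin_hom (c : ℕ) : FiniteDimensional K (homogeneousSubmodule (Fin (p + 1)) K c) :=
  Module.Finite.iff_fg.2 (homogeneousSubmodule_fg _ _ _)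

instance fin_OO (π : PP p K →ₐ[K] L) (c : ℕ) : FiniteDimensional K (OO π c) := by
  have := fin_hom (p := p) (K := K) c
  unfold OO; infer_instance

instance fin_GG (el : SS k p K →ₐ[K] CC k p L) (B c e m : ℕ) :
    FiniteDimensional K (GG el B c e m) := by
  have := fin_w3 (k := k) (p := p) (K := K) (c, e, m)
  unfold GG; infer_instance

instance fin_W0 (B e m : ℕ) : FiniteDimensional K (W0 k p K B e m) := by
  have := fin_wc2 (k := k) (p := p) (K := K) (e, m)
  unfold W0; infer_instance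

theorem fin_Gam {M : Type} [AddCommMonoid M] {w : Jet k p → M} {c : M}
    (h : FiniteDimensional K (weightedHomogeneousSubmodule K w c)) (δ : M) (F : PP p K)
    (el : SS k p K →ₐ[K] CC k p L) (T0 : ℕ) : FiniteDimensional K (Gam w δ F el T0 c) :=
  Submodule.finiteDimensional_of_le
    (S₂ := (weightedHomogeneousSubmodule K w c).map el.toLinearMap)
    fun _ ⟨⟨q, _, hq, e⟩, _⟩ => ⟨q, hq, e.symm⟩

instance fin_GamR (d0 : ℕ) (F : PP p K) (el : SS k p K →ₐ[K] CC k p L) (T0 c m : ℕ) :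
    FiniteDimensional K (GamR d0 F el T0 c m) := fin_Gam (fin_w2 _) _ _ _ _

instance fin_GamN (d0 : ℕ) (F : PP p K) (el : SS k p K →ₐ[K] CC k p L) (T0 c e m : ℕ) :
    FiniteDimensional K (GamN d0 F el T0 c e m) := fin_Gam (fin_w3 _) _ _ _ _

theorem mem_Gam {M : Type} [AddCommMonoid M] {w : Jet k p → M} {δ : M} {F : PP p K}
    {el : SS k p K →ₐ[K] CC k p L} {T0 : ℕ} {c : M} {P : CC k p L} : P ∈ Gam w δ F el T0 c ↔
    (∃ q ∈ supported K (chart k (0 : Fin (p + 1))), IsWeightedHomogeneous w q c ∧ P = el q) ∧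
    ∀ i, ∀ᶠ t : ℕ in atTop, ∃ q, IsWeightedHomogeneous w q (c + t • δ) ∧
      el (zz k F i) ^ (T0 + t) * P = el (zz k F 0) ^ T0 * el q := Iff.rfl

/-- One exponent for each chart is enough. -/
theorem mem_Gam_of {M : Type} [AddCommMonoid M] {w : Jet k p → M} {δ : M} {F : PP p K}
    {el : SS k p K →ₐ[K] CC k p L} {T0 : ℕ} {c : M} {P : CC k p L}
    (hz : ∀ i, IsWeightedHomogeneous w (zz k F i) δ)
    (h0 : ∃ q ∈ supported K (chart k (0 : Fin (p + 1))), IsWeightedHomogeneous w q c ∧ P = el q)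
    (h : ∀ i, ∃ (t : ℕ) (q : SS k p K), IsWeightedHomogeneous w q (c + t • δ) ∧
      el (zz k F i) ^ (T0 + t) * P = el (zz k F 0) ^ T0 * el q) : P ∈ Gam w δ F el T0 c := by
  refine ⟨h0, fun i => ?_⟩
  obtain ⟨t, q, hq, e⟩ := h i
  filter_upwards [eventually_ge_atTop t] with t' ht'
  obtain ⟨u, rfl⟩ := Nat.exists_eq_add_of_le ht'
  refine ⟨zz k F i ^ u * q, ?_, ?_⟩
  · have := ((hz i).pow u).mul hq
    convert this using 1
    rw [add_nsmul]; abel
  · rw [map_mul, map_pow, ← add_assoc, pow_add _ _ u, mul_right_comm, e]; ring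

theorem mem_GG {el : SS k p K →ₐ[K] CC k p L} {B c e m : ℕ} {P : CC k p L} :
    P ∈ GG el B c e m ↔ ∃ r ∈ MI k K (0 : Fin (p + 1)) ^ B,
      IsWeightedHomogeneous (w3 k p) r (c, e, m) ∧ el r = P :=
  ⟨fun ⟨r, ⟨h1, h2⟩, h3⟩ => ⟨r, h1, h2, h3⟩, fun ⟨r, h1, h2, h3⟩ => ⟨r, ⟨h1, h2⟩, h3⟩⟩

theorem mem_OO {π : PP p K →ₐ[K] L} {c : ℕ} {u : L} :
    u ∈ OO π c ↔ ∃ g : PP p K, g.IsHomogeneous c ∧ π g = u := Iff.rfl

theorem el_b0 {π : PP p K →ₐ[K] L} {G : Fin k → SS k p K} {j : Fin (p + 1)}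
    {el : SS k p K →ₐ[K] CC k p L} (h : IsEl π G j el) (g : PP p K) :
    el (b0 k g) = C (π g) := by
  induction g using MvPolynomial.induction_on with
  | C a => simp [b0, MvPolynomial.algebraMap_apply]
  | add f g hf hg => simp only [map_add, hf, hg]
  | mul_X f i hf => rw [map_mul, map_mul, hf, b0_X, h.base, map_mul, map_mul]

theorem el_zz {π : PP p K →ₐ[K] L} {G : Fin k → SS k p K} {j : Fin (p + 1)}
    {el : SS k p K →ₐ[K] CC k p L} (h : IsEl π G j el) (F : PP p K) (i : Fin (p + 1)) :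
    el (zz k F i) = C (π (pderiv i F)) := el_b0 h _

theorem el_ir {π : PP p K →ₐ[K] L} {G : Fin k → SS k p K} {j : Fin (p + 1)}
    {el : SS k p K →ₐ[K] CC k p L} (h : IsEl π G j el) (x : CC k p K) :
    el (ir k K j x) = MvPolynomial.map (algebraMap K L) x := by
  induction x using MvPolynomial.induction_on with
  | C a => simp [ir, MvPolynomial.algebraMap_apply]
  | add f g hf hg => simp only [map_add, hf, hg]
  | mul_X f v hf => rw [map_mul, map_mul, hf, map_mul, map_X, ir, rename_X, h.var]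

theorem ir_w3 {R : Type} [CommRing R] (j : Fin (p + 1)) {x : CC k p R} {e m : ℕ}
    (h : IsWeightedHomogeneous (wc2 k p) x (e, m)) :
    IsWeightedHomogeneous (w3 k p) (ir k R j x) (0, e, m) :=
  hom_rename _ (hom_map (AddMonoidHom.inr ℕ (ℕ × ℕ))
    (fun v => by simp [w3, wc2, Fin.succ_ne_zero]) h)

/-- Multiplication by a nonzero element preserves the dimension. -/
theorem finrank_map_mul {Ω : Type} [CommRing Ω] [IsDomain Ω] [Algebra K Ω] (V : Submodule K Ω)
    {a : Ω} (ha : a ≠ 0) : finrank K (V.map (LinearMap.mulLeft K a)) = finrank K V :=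
  (Submodule.equivMapOfInjective _ (mul_right_injective₀ ha) V).finrank_eq.symm

theorem hh_mono {π : PP p K →ₐ[K] L} {y : Fin (p + 1)} (hy : π (X y) ≠ 0) : Monotone (hh π) := by
  refine monotone_nat_of_le_succ fun c => ?_
  rw [hh, ← finrank_map_mul _ hy]
  refine Submodule.finrank_mono ?_
  rintro _ ⟨_, ⟨g, hg, rfl⟩, rfl⟩
  exact ⟨g * X y, IsHomogeneous.mul hg (isHomogeneous_X _ _), by simp [mul_comm]⟩

end charts

end

end Pool.Agent.Lib.MP_45f16c_ag.VG.B
end
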