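import Pool.Agent.Lib.MP_45f16c_ag.VG.B

/-! Very generic hyperbolicity: elimination maps and telescoping. -/

set_option autoImplicit false

section partCoef
/-! The elimination map on chart polynomials. -/

open MvPolynomial

namespace Pool.Agent.Lib.MP_45f16c_ag.VG

namespace CoefAux

variable {k p : ℕ} {K L : Type} [Field K] [Field L] [Algebra K L]

theorem chart_cases {j : Fin (p + 1)} {v : Jet k p} (h : v ∈ chart k j) :
    (∃ i, v = (0, i)) ∨ ∃ s i, v = (Fin.succ s, j.succAbove i) := by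
  obtain ⟨s, i⟩ := v
  rcases Fin.eq_zero_or_eq_succ s with rfl | ⟨s, rfl⟩
  · exact Or.inl ⟨i, rfl⟩
  · obtain ⟨i, rfl⟩ := Fin.exists_succAbove_eq (h.resolve_left (Fin.succ_ne_zero s))
    exact Or.inr ⟨s, i, rfl⟩

/-- Polynomials in the chart variables over the base ring, as jet polynomials. -/
noncomputable def io (j : Fin (p + 1)) : MvPolynomial (Ch k p) (PP p K) →+* SS k p K :=
  eval₂Hom (b0 k : PP p K →ₐ[K] SS k p K) fun v => X (v.1.succ, j.succAbove v.2)

theorem el_io {π : PP p K →ₐ[K] L} {G : Fin k → SS k p K} {j : Fin (p + 1)}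
    {el : SS k p K →ₐ[K] CC k p L} (h : IsEl π G j el) (q : MvPolynomial (Ch k p) (PP p K)) :
    el (io j q) = MvPolynomial.map (π : PP p K →+* L) q := by
  induction q using MvPolynomial.induction_on with
  | C a => simp [io, B.el_b0 h]
  | add f g hf hg => simp only [map_add, hf, hg]
  | mul_X f v hf => rw [map_mul, map_mul, hf, map_mul, map_X, io, eval₂Hom_X', h.var]

theorem io_surj {j : Fin (p + 1)} {q : SS k p K} (hq : q ∈ supported K (chart k j)) :
    ∃ q', io j q' = q := by
  induction hq using Algebra.adjoin_induction with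
  | mem x hx =>
    obtain ⟨v, hv, rfl⟩ := hx
    rcases chart_cases hv with ⟨i, rfl⟩ | ⟨s, i, rfl⟩
    · exact ⟨C (X i), by simp [io, B.b0_X]⟩
    · exact ⟨X (s, i), by simp [io]⟩
  | algebraMap r => exact ⟨C (C r), by simp [io, b0]⟩
  | add x y _ _ hx hy =>
    obtain ⟨a, rfl⟩ := hx
    obtain ⟨b, rfl⟩ := hy
    exact ⟨a + b, map_add _ _ _⟩
  | mul x y _ _ hx hy =>
    obtain ⟨a, rfl⟩ := hx
    obtain ⟨b, rfl⟩ := hy
    exact ⟨a * b, map_mul _ _ _⟩

theorem mon {π : PP p K →ₐ[K] L} {G : Fin k → SS k p K} {j : Fin (p + 1)}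
    {el : SS k p K →ₐ[K] CC k p L} (h : IsEl π G j el) (γ : Jet k p →₀ ℕ)
    (hγ : ∀ v ∈ γ.support, v ∈ chart k j) : ∃ (β : Fin (p + 1) →₀ ℕ) (α : Ch k p →₀ ℕ),
      Finsupp.weight (w3 k p) γ = (β.degree, α.degree, Finsupp.weight (wc k p) α) ∧
      el (monomial γ 1) = monomial α (π (monomial β 1)) := by
  classical
  induction γ using Finsupp.induction with
  | zero => exact ⟨0, 0, rfl, by simp⟩
  | single_add v n γ hv hn ih =>
    have hs : (Finsupp.single v n + γ).support = insert v γ.support := by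
      rw [Finsupp.support_single_add hv hn, Finset.cons_eq_insert]
    obtain ⟨β, α, h1, h2⟩ := ih fun u hu => hγ u (hs ▸ Finset.mem_insert_of_mem hu)
    rw [monomial_single_add, map_mul, map_pow, map_add, h1, h2, Finsupp.weight_single]
    rcases chart_cases (hγ v (hs ▸ Finset.mem_insert_self _ _)) with ⟨i, rfl⟩ | ⟨s, i, rfl⟩
    · exact ⟨Finsupp.single i n + β, α, by simp [w3], by
        rw [h.base, monomial_single_add, map_mul, map_pow, ← C_pow, C_mul_monomial]⟩
    · exact ⟨β, Finsupp.single (s, i) n + α, by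
        simp [w3, wc, Fin.succ_ne_zero, Finsupp.weight_single], by rw [h.var, monomial_single_add]⟩

theorem terms {π : PP p K →ₐ[K] L} {G : Fin k → SS k p K} {j : Fin (p + 1)}
    {el : SS k p K →ₐ[K] CC k p L} (h : IsEl π G j el) {q : SS k p K}
    (hq : q ∈ supported K (chart k j)) (V : Submodule K (CC k p L))
    (hV : ∀ γ ∈ q.support, ∀ (β : Fin (p + 1) →₀ ℕ) (α : Ch k p →₀ ℕ),
      Finsupp.weight (w3 k p) γ = (β.degree, α.degree, Finsupp.weight (wc k p) α) →
      monomial α (π (monomial β 1)) ∈ V) : el q ∈ V := by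
  rw [q.as_sum, map_sum]
  refine V.sum_mem fun γ hγ => ?_
  obtain ⟨β, α, h1, h2⟩ := mon h γ fun v hv =>
    mem_supported.1 hq ((mem_vars_iff_mem_support v).2 ⟨γ, hγ, hv⟩)
  rw [show monomial γ (coeff γ q) = coeff γ q • monomial γ (1 : K) by simp [smul_monomial],
    map_smul, h2]
  exact V.smul_mem _ (hV γ hγ β α h1)

theorem mon_mem (π : PP p K →ₐ[K] L) (β : Fin (p + 1) →₀ ℕ) (α α' : Ch k p →₀ ℕ) {n : ℕ}
    (h : α = α' → β.degree = n) : coeff α' (monomial α (π (monomial β 1))) ∈ OO π n := by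
  classical
  rw [coeff_monomial]
  split_ifs with e
  · exact ⟨_, isHomogeneous_monomial _ (h e), rfl⟩
  · exact zero_mem _

end CoefAux

open CoefAux in
theorem coefS : CoefStmt := by
  intro k p d0 K L _ _ _ F gens π G j el hS h q hq
  refine ⟨fun h0 => ?_, fun b m hw => ?_, fun c e m hw α => ?_, fun G' el' h' => ?_⟩
  · obtain ⟨q', rfl⟩ := io_surj hq
    rw [el_io h] at h0
    rw [q'.as_sum, map_sum]
    refine Ideal.sum_mem _ fun α _ => ?_
    rw [io, eval₂Hom_monomial]
    refine Ideal.mul_mem_right _ _ ?_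
    have := Ideal.mem_map_of_mem (b0 k : PP p K →ₐ[K] SS k p K) ((hS.ker (coeff α q')).1 (by
      simpa [coeff_map] using congrArg (coeff α) h0))
    rwa [Ideal.map_span] at this
  · have key : ∀ γ ∈ q.support, ∀ {c e m' : ℕ}, Finsupp.weight (w3 k p) γ = (c, e, m') →
        c + e = b ∧ m' = m := fun γ hγ c e m' e1 => by
      simpa using (B.w2_of_w3 (isWeightedHomogeneous_monomial (w3 k p) γ (1 : ℤ) e1)
        (d := γ) (by simp)).symm.trans (hw (mem_support_iff.1 hγ))
    refine ⟨terms h hq ((weightedHomogeneousSubmodule L (wc k p) m).restrictScalars K)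
      fun γ hγ β α e1 => isWeightedHomogeneous_monomial _ _ _ (key γ hγ e1).2, fun α' => ?_⟩
    exact terms h hq ((OO π (b - α'.degree)).comap ((lcoeff L α').restrictScalars K))
      fun γ hγ β α e1 => mon_mem π β α α' fun e => by
        have := (key γ hγ e1).1
        subst e
        omega
  · exact terms h hq ((OO π c).comap ((lcoeff L α).restrictScalars K)) fun γ hγ β α' e1 =>
      mon_mem π β α' α fun _ => (congrArg Prod.fst (e1.symm.trans (hw (mem_support_iff.1 hγ))))
  · obtain ⟨q', rfl⟩ := io_surj hq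
    rw [el_io h, el_io h']

end Pool.Agent.Lib.MP_45f16c_ag.VG

end partCoef

section partKer
/-! The kernel of the elimination maps. -/

open MvPolynomial

namespace Pool.Agent.Lib.MP_45f16c_ag.VG

namespace KerAux

variable {k p d0 : ℕ} {K L : Type} [Field K] [Field L] [Algebra K L] {F : PP p K}
  {gens : Set (PP p K)} {π : PP p K →ₐ[K] L} {G : Fin k → SS k p K}

theorem kill {j : Fin (p + 1)} {el : SS k p K →ₐ[K] CC k p L} (hS : Setup d0 F gens π)
    (h : IsEl π G j el) {q : SS k p K} (hq : q ∈ II k gens G) : el q = 0 := by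
  refine (show II k gens G ≤ RingHom.ker el from Ideal.span_le.2 ?_) hq
  rintro _ (⟨g, hg, rfl⟩ | ⟨s, rfl⟩)
  · show el _ = 0
    rw [B.el_b0 h, (hS.ker g).2 (Ideal.subset_span hg), map_zero]
  · exact h.eqn s

theorem back {j : Fin (p + 1)} {el : SS k p K →ₐ[K] CC k p L} (hS : Setup d0 F gens π)
    (h : IsEl π G j el) {q : SS k p K} {i : Fin (p + 1)} {t : ℕ}
    (hq : zz k F i ^ t * q ∈ II k gens G) : el q = 0 := by
  have := kill hS h hq
  rw [map_mul, map_pow, B.el_zz h] at this
  exact (mul_eq_zero.1 this).resolve_left (pow_ne_zero _ (by simpa using hS.zne i))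

theorem forth (hElim : ElimStmt) (hCoef : CoefStmt) {j : Fin (p + 1)}
    {el : SS k p K →ₐ[K] CC k p L} (hS : Setup d0 F gens π) (hT : Tri k d0 F G)
    (h : IsEl π G j el) {q : SS k p K} (hq : el q = 0) :
    ∃ t : ℕ, zz k F j ^ t * q ∈ II k gens G := by
  obtain ⟨t, q', hq', e⟩ := (hElim k p d0 K F G hS.hom hT j).1 q
  have e' : zz k F j ^ t * q - q' ∈ II k gens G := Ideal.span_mono Set.subset_union_right e
  have h0 : el q' = 0 := by
    have := kill hS h e'
    rwa [map_sub, map_mul, hq, mul_zero, zero_sub, neg_eq_zero] at this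
  have h1 : q' ∈ II k gens G := Ideal.span_mono Set.subset_union_left
    ((hCoef k p d0 K L F gens π G j el hS h q' hq').1 h0)
  exact ⟨t, by simpa using add_mem e' h1⟩

theorem comp {M : Type} [AddCancelCommMonoid M] {w : Jet k p → M} {j : Fin (p + 1)}
    {el : SS k p K →ₐ[K] CC k p L} (hS : Setup d0 F gens π) (h : IsEl π G j el)
    (hb : ∀ (g : PP p K) n, g.IsHomogeneous n → ∃ a, IsWeightedHomogeneous w (b0 k g) a)
    (hG : ∀ s, ∃ a, IsWeightedHomogeneous w (G s) a) {q : SS k p K} {t : ℕ}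
    (hq : zz k F j ^ t * q ∈ II k gens G) (n : M) :
    el (weightedHomogeneousComponent w n q) = 0 := by
  obtain ⟨a, ha⟩ := hb _ _ (hS.hom.pderiv (i := j))
  have := B.comp_mem_span w (T := b0 k '' gens ∪ Set.range G) (by
    rintro _ (⟨g, hg, rfl⟩ | ⟨s, rfl⟩)
    · obtain ⟨n, hn⟩ := hS.ghom g hg
      exact hb g n hn
    · exact hG s) hq (t • a + n)
  rw [B.comp_mul w (IsWeightedHomogeneous.pow (φ := zz k F j) ha t)] at this
  exact back hS h this

end KerAux

open KerAux in
theorem kerS (hEl : ElStmt) (hElim : ElimStmt) (hCoef : CoefStmt) : KerStmt := by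
  intro k p d0 K L _ _ _ F gens π G j el hS hT h
  refine ⟨fun q i => ⟨fun hq => ?_, fun ⟨t, ht⟩ => back hS h ht⟩, fun q n hq => ?_,
    fun hG q hq => ?_⟩
  · obtain ⟨el', h'⟩ := hEl k p d0 K L F gens π G hS hT i
    obtain ⟨t, ht⟩ := forth hElim hCoef hS hT h hq
    exact forth hElim hCoef hS hT h' (back hS h' ht)
  · obtain ⟨t, ht⟩ := forth hElim hCoef hS hT h hq
    exact comp hS h (fun g n hg => ⟨_, B.b0_w2 hg⟩) (fun s => ⟨_, hT.hom s⟩) ht n
  · obtain ⟨t, ht⟩ := forth hElim hCoef hS hT h hq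
    subst hG
    exact ⟨comp hS h (fun g n hg => ⟨_, B.b0_w3 hg⟩) (fun s => ⟨_, B.neq_w3 hS.hom s⟩) ht,
      comp hS h (fun g n hg => ⟨_, B.w1_of_w3 (B.b0_w3 hg)⟩)
        (fun s => ⟨_, B.w1_of_w3 (B.neq_w3 hS.hom s)⟩) ht⟩

end Pool.Agent.Lib.MP_45f16c_ag.VG

end partKer

section partLow
/-! Lowest components for the true equations. -/

open MvPolynomial

namespace Pool.Agent.Lib.MP_45f16c_ag.VG

namespace LowAux

section ord
variable {σ L : Type} [CommRing L]

/-- All monomials have degree at least `a`. -/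
def Ord (a : ℕ) (P : MvPolynomial σ L) : Prop := ∀ α, coeff α P ≠ 0 → a ≤ α.degree

theorem Ord.zero (P : MvPolynomial σ L) : Ord 0 P := fun _ _ => Nat.zero_le _

theorem Ord.add {a : ℕ} {P Q : MvPolynomial σ L} (h : Ord a P) (h' : Ord a Q) : Ord a (P + Q) :=
  fun α hα => by
    by_cases h0 : coeff α P = 0
    · exact h' α (by rwa [coeff_add, h0, zero_add] at hα)
    · exact h α h0

theorem Ord.mul {a b : ℕ} {P Q : MvPolynomial σ L} (h : Ord a P) (h' : Ord b Q) :
    Ord (a + b) (P * Q) := by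
  classical
  intro α hα
  rw [coeff_mul] at hα
  obtain ⟨x, hx, h0⟩ := Finset.exists_ne_zero_of_sum_ne_zero hα
  rw [← Finset.HasAntidiagonal.mem_antidiagonal.1 hx, map_add]
  exact add_le_add (h _ (left_ne_zero_of_mul h0)) (h' _ (right_ne_zero_of_mul h0))

theorem Ord.mono {a b : ℕ} {P : MvPolynomial σ L} (h : Ord a P) (hb : b ≤ a) : Ord b P :=
  fun α hα => hb.trans (h α hα)

theorem Ord.of_hom {a : ℕ} {P : MvPolynomial σ L} (h : P.IsHomogeneous a) : Ord a P :=
  fun α hα => by rw [Finsupp.degree_eq_weight_one]; exact (h hα).ge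

theorem Ord.sum {a : ℕ} {ι : Type} (s : Finset ι) {P : ι → MvPolynomial σ L}
    (h : ∀ i ∈ s, Ord a (P i)) : Ord a (∑ i ∈ s, P i) :=
  Finset.sum_induction P (Ord a) (fun _ _ => Ord.add) (fun _ h => absurd (coeff_zero _) h) h

theorem Ord.comp {a u : ℕ} {P : MvPolynomial σ L} (h : Ord a P) (hu : u < a) :
    homogeneousComponent u P = 0 :=
  homogeneousComponent_eq_zero' _ _ fun α hα => (hu.trans_le (h α (mem_support_iff.1 hα))).ne'

end ord

variable {k p d0 : ℕ} {K L : Type} [Field K] [Field L] [Algebra K L] {F : PP p K}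
  {gens : Set (PP p K)} {π : PP p K →ₐ[K] L} {j : Fin (p + 1)}

/-- Induction over the variables of a monomial. -/
theorem mon_ind {S : Set (Jet k p)} (Q : (Jet k p →₀ ℕ) → SS k p K → Prop) (h0 : Q 0 1)
    (h : ∀ γ q, ∀ v ∈ S, Q γ q → Q (γ + Finsupp.single v 1) (q * X v)) (γ : Jet k p →₀ ℕ) :
    (∀ v ∈ γ.support, v ∈ S) → Q γ (monomial γ 1) := by
  classical
  induction γ using Finsupp.induction₂ with
  | zero => exact fun _ => h0
  | add_single v n γ hv hn ih =>
    intro hγ
    have hs : (γ + Finsupp.single v n).support = insert v γ.support := by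
      rw [add_comm, Finsupp.support_single_add hv hn, Finset.cons_eq_insert]
    have h1 := ih fun u hu => hγ u (hs ▸ Finset.mem_insert_of_mem hu)
    have h2 := hγ v (hs ▸ Finset.mem_insert_self _ _)
    clear hγ hs hn ih
    induction n with
    | zero => simpa using h1
    | succ n ih =>
      have := h _ _ v h2 ih
      rwa [add_assoc, ← Finsupp.single_add, X, monomial_mul, add_assoc, ← Finsupp.single_add,
        mul_one] at this

theorem solve (hS : Setup d0 F gens π) {G : Fin k → SS k p K} {el : SS k p K →ₐ[K] CC k p L}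
    (h : IsEl π G j el) (s : Fin k) : el (X (s.succ, j)) = C (-(π (pderiv j F))⁻¹) *
      (∑ l : Fin p, C (π (pderiv (j.succAbove l) F)) * X (s, l) + el (G s - neq k F s)) := by
  have := hS.zne j
  rw [map_sub, h.eqn, neq, Fin.sum_univ_succAbove _ j]
  simp only [map_add, map_mul, map_sum, B.el_zz h, h.var]
  rw [zero_sub, neg_add, add_comm (-_), add_neg_cancel_left, mul_neg, ← mul_assoc, ← C_mul]
  simp [this]

theorem cases (j : Fin (p + 1)) (v : Jet k p) : (∃ i, v = (0, i)) ∨
    (∃ s i, v = (Fin.succ s, j.succAbove i)) ∨ ∃ s, v = (Fin.succ s, j) := by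
  obtain ⟨s, i⟩ := v
  rcases Fin.eq_zero_or_eq_succ s with rfl | ⟨s, rfl⟩
  · exact Or.inl ⟨i, rfl⟩
  · rcases Fin.eq_self_or_eq_succAbove j i with rfl | ⟨i, rfl⟩
    · exact Or.inr (Or.inr ⟨s, rfl⟩)
    · exact Or.inr (Or.inl ⟨s, i, rfl⟩)

theorem varN (hS : Setup d0 F gens π) {el : SS k p K →ₐ[K] CC k p L} (h : IsEl π (neq k F) j el)
    (v : Jet k p) : IsWeightedHomogeneous (wc2 k p) (el (X v)) (w3 k p v).2 := by
  rcases cases j v with ⟨i, rfl⟩ | ⟨s, i, rfl⟩ | ⟨s, rfl⟩
  · rw [h.base]; exact isWeightedHomogeneous_C _ _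
  · rw [h.var]; exact isWeightedHomogeneous_X _ _ _
  · rw [solve hS h, sub_self, map_zero, add_zero]
    exact (IsWeightedHomogeneous.sum _ _ _ fun l _ =>
      (isWeightedHomogeneous_X L (wc2 k p) (s, l)).C_mul _).C_mul _

theorem monN (hS : Setup d0 F gens π) {el : SS k p K →ₐ[K] CC k p L} (h : IsEl π (neq k F) j el)
    (γ : Jet k p →₀ ℕ) : IsWeightedHomogeneous (wc2 k p) (el (monomial γ 1))
      (Finsupp.weight (w3 k p) γ).2 :=
  mon_ind (S := Set.univ) (fun γ q => IsWeightedHomogeneous (wc2 k p) (el q)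
    (Finsupp.weight (w3 k p) γ).2) (by simpa using isWeightedHomogeneous_one L (wc2 k p))
    (fun γ q v _ hq => by
      rw [map_mul, map_add, Finsupp.weight_single, one_smul]
      exact hq.mul (varN hS h v)) γ fun _ _ => trivial

theorem we_eq (γ : Jet k p →₀ ℕ) : Finsupp.weight (we k p) γ = (Finsupp.weight (w3 k p) γ).2.1 :=
  B.we_of_w3 (isWeightedHomogeneous_monomial (w3 k p) γ (1 : ℤ) rfl) (d := γ) (by simp)

theorem as_smul (q : SS k p K) (γ : Jet k p →₀ ℕ) {el : SS k p K →ₐ[K] CC k p L} :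
    el (monomial γ (coeff γ q)) = C (algebraMap K L (coeff γ q)) * el (monomial γ 1) := by
  rw [show monomial γ (coeff γ q) = C (coeff γ q) * monomial γ 1 by simp [C_mul_monomial], map_mul,
    algHom_C, MvPolynomial.algebraMap_apply]

theorem monR (hS : Setup d0 F gens π) {elR elN : SS k p K →ₐ[K] CC k p L}
    (hN : IsEl π (neq k F) j elN) {S : Set (Jet k p)}
    (h : ∀ v ∈ S, Ord (we k p v + 1) (elR (X v) - elN (X v))) (γ : Jet k p →₀ ℕ)
    (hγ : ∀ v ∈ γ.support, v ∈ S) :
    Ord (Finsupp.weight (we k p) γ) (elR (monomial γ 1)) ∧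
    Ord (Finsupp.weight (we k p) γ + 1) (elR (monomial γ 1) - elN (monomial γ 1)) := by
  refine mon_ind (S := S) (fun γ q => Ord (Finsupp.weight (we k p) γ) (elR q) ∧
    Ord (Finsupp.weight (we k p) γ + 1) (elR q - elN q)) ⟨Ord.zero _, fun α hα => by
      simp at hα⟩ (fun γ q v hv hq => ?_) γ hγ
  have h1 : Ord (we k p v) (elN (X v)) := by
    have := Ord.of_hom (B.hom_of_wc2 (varN hS hN v))
    rwa [show (w3 k p v).2.1 = we k p v by unfold w3 we; split_ifs <;> rfl] at this
  have h2 : Ord (we k p v) (elR (X v)) := by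
    simpa using ((h v hv).mono (Nat.le_succ _)).add h1
  rw [map_add, Finsupp.weight_single, one_smul, map_mul, map_mul]
  refine ⟨hq.1.mul h2, ?_⟩
  have := (hq.1.mul (h v hv)).add ((hq.2.mul h1).mono (le_of_eq (by ring)))
  rwa [show elR q * (elR (X v) - elN (X v)) + (elR q - elN q) * elN (X v) =
    elR q * elR (X v) - elN q * elN (X v) by ring] at this

theorem varR (hS : Setup d0 F gens π) {G : Fin k → SS k p K} {elR elN : SS k p K →ₐ[K] CC k p L}
    (hT : Tri k d0 F G) (hR : IsEl π G j elR) (hN : IsEl π (neq k F) j elN) (n : ℕ) :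
    ∀ v : Jet k p, v.1.val < n → Ord (we k p v + 1) (elR (X v) - elN (X v)) := by
  induction n with
  | zero => exact fun v hv => absurd hv (Nat.not_lt_zero _)
  | succ n ih =>
    intro v hv
    rcases cases j v with ⟨i, rfl⟩ | ⟨s, i, rfl⟩ | ⟨s, rfl⟩
    · rw [hR.base, hN.base, sub_self]; exact fun α hα => absurd (coeff_zero _) hα
    · rw [hR.var, hN.var, sub_self]; exact fun α hα => absurd (coeff_zero _) hα
    · rw [solve hS hR, solve hS hN, sub_self, map_zero, add_zero, ← mul_sub, add_sub_cancel_left,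
        (G s - neq k F s).as_sum, map_sum]
      refine ((Ord.zero _).mul (Ord.sum (a := 2) _ fun γ hγ => ?_)).mono (by
        simp [we, Fin.succ_ne_zero])
      rw [as_smul]
      refine ((Ord.zero _).mul (monR hS hN (S := {v | v.1.val < n}) ih γ fun v hv' => ?_).1).mono
        (by simpa using hT.ord s γ hγ)
      have := mem_supported.1 (B.Tri.supp hS.hom hT s)
        ((mem_vars_iff_mem_support v).2 ⟨γ, hγ, hv'⟩)
      simp only [Set.mem_ofPred_eq, Fin.val_succ] at this hv ⊢
      omega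

end LowAux

open LowAux in
theorem lowS : LowStmt := by
  intro k p d0 K L _ _ _ F gens π j elN hS hN
  refine ⟨fun c e m q hq => ?_, fun G elR hT hR e q hq => ?_⟩
  · rw [q.as_sum, map_sum]
    refine IsWeightedHomogeneous.sum _ _ _ fun γ hγ => ?_
    have := monN hS hN γ
    rw [hq (mem_support_iff.1 hγ)] at this
    rw [as_smul]
    exact this.C_mul _
  · have h1 : (elN q).IsHomogeneous e := by
      rw [q.as_sum, map_sum]
      refine IsHomogeneous.sum _ _ _ fun γ hγ => ?_
      have := B.hom_of_wc2 (monN hS hN γ)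
      rw [← we_eq, hq (mem_support_iff.1 hγ)] at this
      rw [as_smul]
      exact this.C_mul _
    have h2 : Ord (e + 1) (elR q - elN q) := by
      rw [q.as_sum, map_sum, map_sum, ← Finset.sum_sub_distrib]
      refine Ord.sum _ fun γ hγ => ?_
      have := (monR hS hN (S := Set.univ) (fun v _ => varR hS hT hR hN _ v (Nat.lt_succ_self _)) γ
        fun _ _ => trivial).2
      rw [hq (mem_support_iff.1 hγ)] at this
      rw [as_smul, as_smul, ← mul_sub]
      simpa using (Ord.zero _).mul this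
    refine ⟨?_, fun u hu => ?_⟩
    · have := h2.comp (Nat.lt_succ_self e)
      rwa [map_sub, homogeneousComponent_eq_self h1, sub_eq_zero] at this
    · have := h2.comp (hu.trans (Nat.lt_succ_self e))
      rwa [map_sub, (Ord.of_hom h1).comp hu, sub_zero] at this

end Pool.Agent.Lib.MP_45f16c_ag.VG

end partLow

section partCram
/-! Cramer relations between the ideals of minors of the charts. -/

open MvPolynomial

namespace Pool.Agent.Lib.MP_45f16c_ag.VG

namespace CramAux

/-- Cramer relation between two signed maximal minors. -/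
theorem det_rel {S : Type} [CommRing S] {p : ℕ} (v : Fin p → Fin (p + 1) → S)
    (z : Fin (p + 1) → S) (h : ∀ a, ∑ l, z l * v a l = 0) (i j : Fin (p + 1)) :
    z j * Matrix.det (Matrix.of (Fin.cons (Pi.single i 1) v : Fin (p + 1) → Fin (p + 1) → S)) =
      z i * Matrix.det (Matrix.of (Fin.cons (Pi.single j 1) v :
        Fin (p + 1) → Fin (p + 1) → S)) := by
  set M : Matrix (Fin (p + 1)) (Fin (p + 1)) S :=
    Matrix.of (Fin.cons (Pi.single j 1) v : Fin (p + 1) → Fin (p + 1) → S) with hM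
  have h1 : M.mulVec z = Pi.single 0 (z j) := by
    funext a
    refine Fin.cases ?_ (fun a => ?_) a
    · simp [hM, Matrix.mulVec, dotProduct, Pi.single_apply]
    · have := h a
      simp only [hM, Matrix.mulVec, dotProduct, Matrix.of_apply, Fin.cons_succ]
      rw [Pi.single_eq_of_ne (Fin.succ_ne_zero a), ← this]
      exact Finset.sum_congr rfl fun l _ => mul_comm _ _
  have h2 : M.adjugate.mulVec (M.mulVec z) = M.det • z := by
    rw [Matrix.mulVec_mulVec, Matrix.adjugate_mul, Matrix.smul_mulVec, Matrix.one_mulVec]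
  have h3 := congrFun h2 i
  rw [h1] at h3
  have h4 : M.updateRow 0 (Pi.single i 1) =
      Matrix.of (Fin.cons (Pi.single i 1) v : Fin (p + 1) → Fin (p + 1) → S) := by
    ext a b
    refine Fin.cases ?_ (fun a => ?_) a
    · simp
    · simp [hM]
  rw [Matrix.mulVec_single, Pi.smul_apply, Pi.smul_apply, Matrix.col_apply,
    Matrix.adjugate_apply, h4] at h3
  simpa [mul_comm] using h3

/-- A relation between two ideals passes to their powers. -/
theorem pow_rel {S : Type} [CommRing S] {I J N : Ideal S} {u w : S}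
    (h : ∀ b ∈ I, ∃ b' ∈ J, u * b - w * b' ∈ N) (B : ℕ) :
    ∀ r ∈ I ^ B, ∃ r' ∈ J ^ B, u ^ B * r - w ^ B * r' ∈ N := by
  induction B with
  | zero => intro r _; exact ⟨r, by simp, by simp⟩
  | succ B ih =>
    intro r hr
    rw [pow_succ] at hr
    refine Submodule.mul_induction_on hr ?_ ?_
    · intro a ha b hb
      obtain ⟨a', ha', e1⟩ := ih a ha
      obtain ⟨b', hb', e2⟩ := h b hb
      refine ⟨a' * b', by rw [pow_succ]; exact Ideal.mul_mem_mul ha' hb', ?_⟩
      have : u ^ (B + 1) * (a * b) - w ^ (B + 1) * (a' * b') =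
          (u * b) * (u ^ B * a - w ^ B * a') + (w ^ B * a') * (u * b - w * b') := by ring
      rw [this]
      exact add_mem (Ideal.mul_mem_left _ _ e1) (Ideal.mul_mem_left _ _ e2)
    · rintro x y ⟨x', hx', e1⟩ ⟨y', hy', e2⟩
      refine ⟨x' + y', add_mem hx' hy', ?_⟩
      have : u ^ (B + 1) * (x + y) - w ^ (B + 1) * (x' + y') =
          (u ^ (B + 1) * x - w ^ (B + 1) * x') + (u ^ (B + 1) * y - w ^ (B + 1) * y') := by ring
      rw [this]
      exact add_mem e1 e2

/-- A relation between generators passes to the ideals. -/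
theorem span_rel {S ι : Type} [CommRing S] {g g' : ι → S} {N : Ideal S} {u w : S}
    (h : ∀ a, u * g a - w * g' a ∈ N) :
    ∀ b ∈ Ideal.span (Set.range g), ∃ b' ∈ Ideal.span (Set.range g'), u * b - w * b' ∈ N := by
  intro b hb
  induction hb using Submodule.span_induction with
  | mem x hx =>
    obtain ⟨a, rfl⟩ := hx
    exact ⟨g' a, Ideal.subset_span ⟨a, rfl⟩, h a⟩
  | zero => exact ⟨0, zero_mem _, by simp⟩
  | add x y _ _ hx hy =>
    obtain ⟨x', hx', e1⟩ := hx
    obtain ⟨y', hy', e2⟩ := hy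
    refine ⟨x' + y', add_mem hx' hy', ?_⟩
    have : u * (x + y) - w * (x' + y') = (u * x - w * x') + (u * y - w * y') := by ring
    rw [this]
    exact add_mem e1 e2
  | smul c x _ hx =>
    obtain ⟨x', hx', e1⟩ := hx
    refine ⟨c * x', Ideal.mul_mem_left _ _ hx', ?_⟩
    have : u * (c • x) - w * (c * x') = c * (u * x - w * x') := by rw [smul_eq_mul]; ring
    rw [this]
    exact Ideal.mul_mem_left _ _ e1

/-- Powers of homogeneous ideals are homogeneous. -/
theorem comp_mem_pow {σ R M : Type} [CommRing R] [AddCommMonoid M] (w : σ → M)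
    {T : Set (MvPolynomial σ R)} (hT : ∀ g ∈ T, ∃ n, IsWeightedHomogeneous w g n) (B : ℕ)
    {q : MvPolynomial σ R} (hq : q ∈ Ideal.span T ^ B) (n : M) :
    weightedHomogeneousComponent w n q ∈ Ideal.span T ^ B := by
  have key : ∀ B : ℕ, ∃ T' : Set (MvPolynomial σ R), (∀ g ∈ T', ∃ n, IsWeightedHomogeneous w g n) ∧
      Ideal.span T ^ B = Ideal.span T' := by
    intro B
    induction B with
    | zero =>
      refine ⟨{1}, ?_, by simp⟩
      rintro g rfl
      exact ⟨0, isWeightedHomogeneous_one _ _⟩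
    | succ B ih =>
      obtain ⟨T', h1, h2⟩ := ih
      refine ⟨Set.image2 (· * ·) T' T, ?_, ?_⟩
      · rintro g ⟨a, ha, b, hb, rfl⟩
        obtain ⟨n1, e1⟩ := h1 a ha
        obtain ⟨n2, e2⟩ := hT b hb
        exact ⟨n1 + n2, e1.mul e2⟩
      · rw [pow_succ, h2, Ideal.span_mul_span']
        rfl
  obtain ⟨T', h1, h2⟩ := key B
  rw [h2] at hq ⊢
  exact VG.B.comp_mem_span w h1 hq n

variable {k p : ℕ} {R : Type} [CommRing R]

theorem cm_hom (A : Fin p → Fin k) :
    IsWeightedHomogeneous (wc2 k p) (cm k R A) (∑ a, (1, (A a).val + 1)) := by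
  unfold cm
  rw [Matrix.det_apply]
  refine IsWeightedHomogeneous.sum _ _ _ fun s _ => ?_
  have h1 : IsWeightedHomogeneous (wc2 k p)
      (∏ i, (Matrix.of fun a b => (X (A a, b) : CC k p R)) (s i) i)
      (∑ i, (1, (A (s i)).val + 1)) :=
    IsWeightedHomogeneous.prod _ _ _ fun i _ => isWeightedHomogeneous_X _ _ _
  rw [Equiv.sum_comp s (fun a => ((1, (A a).val + 1) : ℕ × ℕ))] at h1
  rcases Int.units_eq_one_or (Equiv.Perm.sign s) with h | h
  · rw [h, one_smul]; exact h1
  · rw [h, Units.neg_smul, one_smul]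
    exact (weightedHomogeneousSubmodule R (wc2 k p) _).neg_mem h1

theorem mnr_eq (j : Fin (p + 1)) (A : Fin p → Fin k) :
    mnr k R j A = (-1) ^ j.val * ir k R j (cm k R A) := by
  unfold mnr cm
  rw [Matrix.det_succ_row_zero, Finset.sum_eq_single j]
  · rw [AlgHom.map_det]
    simp only [Matrix.of_apply, Fin.cons_zero, Pi.single_eq_same, mul_one]
    congr 2
    ext a b : 2
    simp [ir]
  · intro l _ hl
    simp [Pi.single_eq_of_ne hl]
  · simp

theorem ir_cm (j : Fin (p + 1)) (A : Fin p → Fin k) :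
    ir k R j (cm k R A) = (-1) ^ j.val * mnr k R j A := by
  rw [mnr_eq, ← mul_assoc, ← mul_pow]
  simp

theorem mnr_hom (j : Fin (p + 1)) (A : Fin p → Fin k) :
    ∃ n, IsWeightedHomogeneous (w3 k p) (mnr k R j A) n := by
  have h := VG.B.ir_w3 j (e := (∑ a, ((1, (A a).val + 1) : ℕ × ℕ)).1)
    (m := (∑ a, ((1, (A a).val + 1) : ℕ × ℕ)).2) (cm_hom (R := R) A)
  rw [mnr_eq]
  rcases neg_one_pow_eq_or (SS k p R) j.val with e | e
  · rw [e, one_mul]; exact ⟨_, h⟩
  · rw [e, neg_one_mul]
    exact ⟨_, (weightedHomogeneousSubmodule R (w3 k p) _).neg_mem h⟩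

theorem mnr_rel (F : PP p R) (i j : Fin (p + 1)) (A : Fin p → Fin k) :
    zz k F j * mnr k R i A - zz k F i * mnr k R j A ∈ Ideal.span (Set.range (neq k F)) := by
  rw [← Ideal.Quotient.eq_zero_iff_mem]
  set φ := Ideal.Quotient.mk (Ideal.span (Set.range (neq k F))) with hφ
  have hm : ∀ l, φ (mnr k R l A) = Matrix.det (Matrix.of (Fin.cons (Pi.single l 1)
      (fun a b => φ (X ((A a).succ, b))) : Fin (p + 1) → Fin (p + 1) → _)) := by
    intro l
    unfold mnr
    rw [RingHom.map_det]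
    congr 1
    ext a b
    refine Fin.cases ?_ (fun a => ?_) a
    · by_cases hb : b = l
      · subst hb; simp
      · simp [Pi.single_eq_of_ne hb]
    · simp
  rw [map_sub, map_mul, map_mul, hm, hm, sub_eq_zero]
  refine det_rel _ (fun l => φ (zz k F l)) (fun a => ?_) i j
  have : φ (neq k F (A a)) = 0 :=
    Ideal.Quotient.eq_zero_iff_mem.2 (Ideal.subset_span ⟨A a, rfl⟩)
  simpa [neq] using this

theorem rel_pow (F : PP p R) (i j : Fin (p + 1)) (B : ℕ) :
    ∀ r ∈ MI k R i ^ B, ∃ r' ∈ MI k R j ^ B,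
      zz k F j ^ B * r - zz k F i ^ B * r' ∈ Ideal.span (Set.range (neq k F)) :=
  pow_rel (span_rel (mnr_rel F i j)) B

theorem comp_MI (j : Fin (p + 1)) (B : ℕ) (c : ℕ × ℕ × ℕ) {r : SS k p R}
    (hr : r ∈ MI k R j ^ B) : weightedHomogeneousComponent (w3 k p) c r ∈ MI k R j ^ B :=
  comp_mem_pow _ (by rintro g ⟨A, rfl⟩; exact mnr_hom j A) B hr c

/-- The span of the image of an ideal is an ideal. -/
theorem map_le_span {σ K L : Type} [Field K] [Field L] [Algebra K L] (I : Ideal (MvPolynomial σ K))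
    {x : MvPolynomial σ L} (hx : x ∈ I.map (MvPolynomial.map (algebraMap K L))) :
    x ∈ Submodule.span L (MvPolynomial.map (algebraMap K L) '' (I : Set (MvPolynomial σ K))) := by
  set W := Submodule.span L (MvPolynomial.map (algebraMap K L) '' (I : Set (MvPolynomial σ K)))
  have hX : ∀ v, ∀ y ∈ W, X v * y ∈ W := by
    intro v y hy
    induction hy using Submodule.span_induction with
    | mem y hy =>
      obtain ⟨y, hy, rfl⟩ := hy
      exact Submodule.subset_span ⟨X v * y, I.mul_mem_left _ hy, by simp⟩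
    | zero => simp
    | add a b _ _ ha hb => rw [mul_add]; exact add_mem ha hb
    | smul c a _ ha => rw [mul_smul_comm]; exact W.smul_mem c ha
  have hmul : ∀ a : MvPolynomial σ L, ∀ y ∈ W, a * y ∈ W := by
    intro a
    induction a using MvPolynomial.induction_on with
    | C l => intro y hy; rw [← smul_eq_C_mul]; exact W.smul_mem l hy
    | add a b ha hb => intro y hy; rw [add_mul]; exact add_mem (ha y hy) (hb y hy)
    | mul_X a v ha => intro y hy; rw [mul_assoc]; exact ha _ (hX v y hy)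
  induction hx using Submodule.span_induction with
  | mem y hy => exact Submodule.subset_span hy
  | zero => exact zero_mem _
  | add a b _ _ ha hb => exact add_mem ha hb
  | smul c a _ ha => exact hmul c a ha

end CramAux

open CramAux

theorem cramS : CramStmt := by
  intro k p d0 K _ F hF B
  refine ⟨?_, ?_, fun j c r hr => comp_MI j B c hr, ?_, ?_⟩
  · intro i j c r hr hc
    obtain ⟨r', hr', e⟩ := rel_pow F i j B r hr
    refine ⟨_, comp_MI j B c hr', weightedHomogeneousComponent_isWeightedHomogeneous c r', ?_⟩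
    have h := VG.B.comp_mem_span (w3 k p) (T := Set.range (neq k F))
      (by rintro g ⟨s, rfl⟩; exact ⟨_, VG.B.neq_w3 hF s⟩) e (B • (d0, 0, 0) + c)
    rw [map_sub, VG.B.comp_mul _ ((VG.B.zz_w3 hF j).pow B), VG.B.comp_mul _ ((VG.B.zz_w3 hF i).pow B),
      hc.weightedHomogeneousComponent_same] at h
    exact h
  · intro j x hx
    have h1 : (CI k p K).map (ir k K j) ≤ MI k K j := by
      rw [CI, Ideal.map_span, Ideal.span_le]
      rintro _ ⟨_, ⟨A, rfl⟩, rfl⟩
      rw [ir_cm]
      exact Ideal.mul_mem_left _ _ (Ideal.subset_span ⟨A, rfl⟩)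
    have h2 := Ideal.mem_map_of_mem (ir k K j) hx
    rw [Ideal.map_pow] at h2
    exact Ideal.pow_right_mono h1 B h2
  · intro n x hx
    exact comp_mem_pow _ (by rintro g ⟨A, rfl⟩; exact ⟨_, cm_hom A⟩) B hx n
  · intro L _ _ π i j el hπ hel r hr
    obtain ⟨r', hr', e⟩ := rel_pow F j i B r hr
    have hk : Ideal.span (Set.range (neq k F)) ≤ RingHom.ker el := by
      rw [Ideal.span_le]
      rintro _ ⟨s, rfl⟩
      exact hel.eqn s
    have e1 : el (zz k F i ^ B * r - zz k F j ^ B * r') = 0 := hk e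
    rw [map_sub, map_mul, map_mul, map_pow, map_pow, VG.B.el_zz hel, VG.B.el_zz hel, sub_eq_zero,
      ← C_pow, ← C_pow, ← smul_eq_C_mul, ← smul_eq_C_mul] at e1
    have h1 : (MI k K i).map el ≤ (CI k p K).map (MvPolynomial.map (algebraMap K L)) := by
      rw [MI, Ideal.map_span, Ideal.span_le]
      rintro _ ⟨_, ⟨A, rfl⟩, rfl⟩
      rw [mnr_eq, map_mul, VG.B.el_ir hel]
      exact Ideal.mul_mem_left _ _ (Ideal.mem_map_of_mem _ (Ideal.subset_span ⟨A, rfl⟩))
    have h2 := Ideal.mem_map_of_mem el hr'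
    rw [Ideal.map_pow] at h2
    have h3 := Ideal.pow_right_mono h1 B h2
    rw [← Ideal.map_pow] at h3
    have h4 := map_le_span _ h3
    have h5 : el r = ((π (pderiv i F) ^ B)⁻¹ * π (pderiv j F) ^ B) • el r' := by
      rw [mul_smul, ← e1, smul_smul, inv_mul_cancel₀ (pow_ne_zero B hπ), one_smul]
    rw [h5]
    exact Submodule.smul_mem _ _ h4

end Pool.Agent.Lib.MP_45f16c_ag.VG

end partCram

section partTelR
/-! Restriction to the hyperplane section, true equations. -/

open MvPolynomial Module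

namespace Pool.Agent.Lib.MP_45f16c_ag.VG

theorem telRS (hRN : RNStmt) (hCoef : CoefStmt) (hKer : KerStmt) : TelRStmt := by
  intro k p d0 K L L' _ _ _ _ _ F π π' G el el' hS hS' h0 hT h h' T0 c m
  obtain ⟨k1, k2, -⟩ := hKer k p d0 K L F _ π G 0 el hS hT h
  obtain ⟨k1', -, -⟩ := hKer k p d0 K L' F _ π' G 0 el' hS' hT h'
  have hsub : ∀ q, el q = 0 → el' q = 0 := fun q hq => by
    obtain ⟨t, ht⟩ := (k1 q 0).1 hq
    exact (k1' q 0).2 ⟨t, Ideal.span_mono
      (Set.union_subset_union_left _ (Set.image_mono (by simp))) ht⟩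
  have hx : el (X (0, 0)) ≠ 0 := by rw [h.base]; simpa using h0
  have hX : IsWeightedHomogeneous (w2 k p) (X (0, 0) : SS k p K) (1, 0) :=
    isWeightedHomogeneous_X K (w2 k p) (0, 0)
  have split : ∀ q ∈ II k {F, X 0} G, ∃ b, el q = el (X (0, 0) * b) := fun q hq => by
    induction hq using Submodule.span_induction with
    | mem x hx =>
      rcases hx with ⟨g, rfl | rfl, rfl⟩ | ⟨s, rfl⟩
      · exact ⟨0, by rw [B.el_b0 h, (hS.ker _).2 (Ideal.subset_span rfl)]; simp⟩
      · exact ⟨1, by rw [B.b0_X, mul_one]⟩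
      · exact ⟨0, by rw [h.eqn]; simp⟩
    | zero => exact ⟨0, by simp⟩
    | add x y _ _ hx hy =>
      obtain ⟨a, ha⟩ := hx
      obtain ⟨b, hb⟩ := hy
      exact ⟨a + b, by rw [mul_add, map_add, map_add, ha, hb]⟩
    | smul a x _ hx =>
      obtain ⟨b, hb⟩ := hx
      exact ⟨a * b, by rw [smul_eq_mul, map_mul, hb, ← map_mul, mul_left_comm]⟩
  have homog : ∀ q b n, IsWeightedHomogeneous (w2 k p) q ((1, 0) + n) →
      el q = el (X (0, 0) * b) →
      el q = el (X (0, 0)) * el (weightedHomogeneousComponent (w2 k p) n b) := fun q b n hq e => by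
    have := k2 (q - X (0, 0) * b) ((1, 0) + n) (by rw [map_sub, e, sub_self])
    rwa [map_sub, hq.weightedHomogeneousComponent_same, B.comp_mul _ hX, map_sub, map_mul,
      sub_eq_zero] at this
  have := B.fin_w2 (k := k) (p := p) (K := K) (c + 1, m)
  let V : Submodule K (SS k p K) := weightedHomogeneousSubmodule K (w2 k p) (c + 1, m) ⊓
    (Subalgebra.toSubmodule (supported K (chart k (0 : Fin (p + 1)))) ⊓
      (GamR d0 F el T0 (c + 1) m).comap el.toLinearMap)
  have h1 := hRN K _ _ _ V el.toLinearMap el'.toLinearMap fun q _ => hsub q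
  refine le_trans (Submodule.finrank_mono (t := V.map el.toLinearMap) ?_) ?_
  · rintro _ hP
    obtain ⟨q, hq, hw, rfl⟩ := hP.1
    exact ⟨q, ⟨hw, hq, hP⟩, rfl⟩
  rw [h1, add_comm, ← B.finrank_map_mul (GamR d0 F el T0 c m) hx]
  refine add_le_add (Submodule.finrank_mono ?_) (Submodule.finrank_mono ?_)
  · rintro _ ⟨q, ⟨⟨hw, hq, hP⟩, hq0⟩, rfl⟩
    obtain ⟨κ, hκ, hκ'⟩ := B.exists_kill (k := k) (R := K) (0 : Fin (p + 1))
    obtain ⟨a, b, e⟩ : ∃ a b, a * b0 k F + b * X (0, 0) = q := by
      have := (hCoef k p d0 K L' F _ π' G 0 el' hS' h' q hq).1 hq0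
      rwa [Set.image_pair, B.b0_X, Ideal.mem_span_pair] at this
    have e1 : el q = el (X (0, 0) * κ b) := by
      rw [← hκ q hq, ← e, map_add, map_mul, map_mul, hκ _ (B.b0_supp 0 F),
        hκ _ (B.X_supp (Or.inl rfl)), map_add, map_mul, B.el_b0 h,
        (hS.ker _).2 (Ideal.subset_span rfl), mul_comm (κ b)]
      simp
    have e2 := homog q (κ b) (c, m) (by simpa [add_comm] using hw) e1
    refine ⟨_, B.mem_Gam_of (B.zz_w2 hS.hom) ⟨_, B.comp_supported _ _ (hκ' b),
      weightedHomogeneousComponent_isWeightedHomogeneous _ _, rfl⟩ fun i => ?_, e2.symm⟩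
    obtain ⟨t, r, hr, e3⟩ := (hP.2 i).exists
    have e4 : el' r = 0 := by
      have := hsub (zz k F i ^ (T0 + t) * q - zz k F 0 ^ T0 * r) (by
        rw [map_sub, map_mul, map_mul, map_pow, map_pow, sub_eq_zero]; exact e3)
      rw [map_sub, map_mul, map_mul, show el' q = 0 from hq0, mul_zero, zero_sub, neg_eq_zero,
        map_pow, B.el_zz h'] at this
      exact (mul_eq_zero.1 this).resolve_left (pow_ne_zero _ (by simpa using hS'.zne 0))
    obtain ⟨t', ht'⟩ := (k1' r i).1 e4
    obtain ⟨b', hb'⟩ := split _ ht'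
    have e5 := homog _ b' ((c, m) + (t + t') • (d0, 0)) (by
      convert ((B.zz_w2 (k := k) hS.hom i).pow t').mul hr using 1
      simp only [Prod.smul_mk, Prod.mk_add_mk, smul_eq_mul, Prod.mk.injEq]
      constructor <;> ring) hb'
    refine ⟨t + t', _, weightedHomogeneousComponent_isWeightedHomogeneous _ b', ?_⟩
    refine mul_left_cancel₀ hx ?_
    rw [mul_left_comm, ← e2, mul_left_comm, ← e5, map_mul, map_pow, ← add_assoc, pow_add _ _ t',
      mul_right_comm]
    exact (congrArg (· * _) e3).trans (by ring)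
  · rintro _ ⟨q, ⟨hw, hq, hP⟩, rfl⟩
    refine ⟨⟨q, hq, hw, rfl⟩, fun i => (hP.2 i).mono fun t ⟨r, hr, e⟩ => ⟨r, hr, ?_⟩⟩
    have := hsub (zz k F i ^ (T0 + t) * q - zz k F 0 ^ T0 * r) (by
      rw [map_sub, map_mul, map_mul, map_pow, map_pow, sub_eq_zero]; exact e)
    rwa [map_sub, map_mul, map_mul, map_pow, map_pow, sub_eq_zero] at this

end Pool.Agent.Lib.MP_45f16c_ag.VG

end partTelR

section partTelG
/-! Restriction to the hyperplane section: good part and coordinate ring. -/

open MvPolynomial Module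

namespace Pool.Agent.Lib.MP_45f16c_ag.VG

theorem telGS (hRN : RNStmt) (hTri : TriStmt) (hKer : KerStmt) : TelGStmt := by
  intro k p d0 K L L' _ _ _ _ _ F π π' el el' hS hS' h0 h h'
  have hT := (hTri k p d0 K F hS.hom).2.1
  have h0' : π' (X 0) = 0 := (hS'.ker _).2 (Ideal.subset_span (by simp))
  refine ⟨fun B c e m => ?_, fun c => ?_⟩
  · have := VG.B.fin_w3 (k := k) (p := p) (K := K) (c + 1, e, m)
    have h1 := hRN K _ _ _ ((MI k K (0 : Fin (p + 1)) ^ B).restrictScalars K ⊓
      weightedHomogeneousSubmodule K (w3 k p) (c + 1, e, m)) el.toLinearMap el'.toLinearMap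
      fun q _ hq => by
        obtain ⟨t, ht⟩ := ((hKer k p d0 K L F _ π _ 0 el hS hT h).1 q 0).1 hq
        exact ((hKer k p d0 K L' F _ π' _ 0 el' hS' hT h').1 q 0).2 ⟨t, Ideal.span_mono
          (Set.union_subset_union_left _ (Set.image_mono (by simp))) ht⟩
    change finrank K (GG el B (c + 1) e m) = finrank K (GG el' B (c + 1) e m) + _ at h1
    rw [h1, ← VG.B.finrank_map_mul (GG el B c e m) (a := C (π (X 0))) (by simpa using h0)]
    refine Nat.add_le_add_left (Submodule.finrank_mono ?_) _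
    rintro _ ⟨_, ⟨r, ⟨hr, hw⟩, rfl⟩, rfl⟩
    refine ⟨r * X (0, 0), ⟨⟨Ideal.mul_mem_right _ _ hr, ?_⟩, ?_⟩, ?_⟩
    · simpa [w3] using IsWeightedHomogeneous.mul hw (isWeightedHomogeneous_X K (w3 k p) (0, 0))
    · simp [h'.base, h0']
    · simp [h.base, mul_comm]
  · have := B.fin_hom (p := p) (K := K) (c + 1)
    have h1 := hRN K _ _ _ (homogeneousSubmodule (Fin (p + 1)) K (c + 1)) π.toLinearMap
      π'.toLinearMap fun g _ hg => (hS'.ker g).2 (Ideal.span_mono (by simp) ((hS.ker g).1 hg))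
    change hh π (c + 1) = hh π' (c + 1) + _ at h1
    rw [h1, hh, hh, ← B.finrank_map_mul (OO π c) h0]
    refine Nat.add_le_add_left (Submodule.finrank_mono ?_) _
    rintro _ ⟨_, ⟨g, hg, rfl⟩, rfl⟩
    exact ⟨g * X 0, ⟨IsHomogeneous.mul hg (isHomogeneous_X _ _), by simp [h0']⟩,
      by simp [mul_comm]⟩

end Pool.Agent.Lib.MP_45f16c_ag.VG

end partTelG

section partUpN
/-! Upper bound by the linearised problem. -/

open MvPolynomial Module

namespace Pool.Agent.Lib.MP_45f16c_ag.VG

namespace UpNAux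

variable {k p : ℕ} {K L : Type} [Field K] [Field L] [Algebra K L]

theorem comp_el {elR elN : SS k p K →ₐ[K] CC k p L}
    (hL : ∀ e q, IsWeightedHomogeneous (we k p) q e →
      homogeneousComponent e (elR q) = elN q ∧ ∀ u < e, homogeneousComponent u (elR q) = 0)
    (q : SS k p K) (e : ℕ) (h : ∀ u < e, elR (weightedHomogeneousComponent (we k p) u q) = 0) :
    homogeneousComponent e (elR q) = elN (weightedHomogeneousComponent (we k p) e q) := by
  classical
  conv_lhs => rw [← sum_weightedHomogeneousComponent (we k p) q,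
    finsum_eq_sum_of_support_subset (s := insert e (weightedHomogeneousComponent_finsupp
      (w := we k p) q).toFinset) _ (fun u hu => Finset.mem_coe.2
      (Finset.mem_insert_of_mem ((Set.Finite.mem_toFinset _).2 hu)))]
  rw [map_sum, map_sum, Finset.sum_eq_single e (fun u _ hu => ?_) (by simp)]
  · exact (hL e _ (weightedHomogeneousComponent_isWeightedHomogeneous _ _)).1
  · rcases hu.lt_or_gt with hu | hu
    · rw [h u hu, map_zero]
    · exact (hL u _ (weightedHomogeneousComponent_isWeightedHomogeneous _ _)).2 e hu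

theorem deg_le (α : Ch k p →₀ ℕ) : α.degree ≤ Finsupp.weight (wc k p) α := by
  rw [Finsupp.degree_eq_weight_one]
  simp only [Finsupp.weight_apply, Finsupp.sum]
  exact Finset.sum_le_sum fun v _ => Nat.mul_le_mul_left _ (by simp [wc])

end UpNAux

open UpNAux in
theorem upNS (hFilt : FiltStmt) (hTri : TriStmt) (hEl : ElStmt) (hElim : ElimStmt)
    (hCoef : CoefStmt) (hKer : KerStmt) (hLow : LowStmt) : UpNStmt := by
  intro k p d0 K L _ _ _ F gens π G elR elN hS hT hR hN T0 c m hmc
  have hTN := (hTri k p d0 K F hS.hom).2.1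
  have hL := (hLow k p d0 K L F gens π 0 elN hS hN).2 G elR hT hR
  have hz : ∀ i, (C (π (pderiv i F)) : CC k p L) ≠ 0 := fun i => by simpa using hS.zne i
  have trans : ∀ i, ∀ q ∈ supported K (chart k i), elN q = 0 → elR q = 0 := fun i q hq h0 => by
    obtain ⟨eR, hR'⟩ := hEl k p d0 K L F gens π G hS hT i
    obtain ⟨eN, hN'⟩ := hEl k p d0 K L F gens π _ hS hTN i
    refine ((hKer k p d0 K L F gens π G 0 elR hS hT hR).1 q i).2
      (((hKer k p d0 K L F gens π G i eR hS hT hR').1 q i).1 ?_)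
    rw [(hCoef k p d0 K L F gens π _ i eN hS hN' q hq).2.2.2 G eR hR']
    exact ((hKer k p d0 K L F gens π _ i eN hS hTN hN').1 q i).2
      (((hKer k p d0 K L F gens π _ 0 elN hS hTN hN).1 q i).1 h0)
  have low : ∀ i, ∀ q ∈ supported K (chart k i), ∀ e, (∀ u < e, homogeneousComponent u (elR q) = 0) →
      homogeneousComponent e (elR q) = elN (weightedHomogeneousComponent (we k p) e q) := by
    intro i q hq e he
    refine comp_el hL q e fun u => ?_
    induction u using Nat.strong_induction_on with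
    | _ u ih =>
      intro hu
      refine trans i _ (B.comp_supported _ _ hq) ?_
      rw [← comp_el hL q u fun u' hu' => ih u' hu' (hu'.trans hu), he u hu]
  rw [← hFilt K _ (GamR d0 F elR T0 c m) (fun u => (homogeneousComponent u).restrictScalars K)
    (m + 1), Submodule.finrank_eq_zero.2 (eq_bot_iff.2 ?_), add_zero]
  · refine Finset.sum_le_sum fun e he => Submodule.finrank_mono ?_
    have hec : e ≤ c := (Nat.lt_succ_iff.1 (Finset.mem_range.1 he)).trans hmc
    rintro _ ⟨_, ⟨⟨⟨q, hq, hw, rfl⟩, hP⟩, h0⟩, rfl⟩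
    simp only [SetLike.mem_coe, Submodule.mem_iInf, LinearMap.mem_ker,
      LinearMap.restrictScalars_apply] at h0 ⊢
    refine B.mem_Gam_of (B.zz_w3 hS.hom) ⟨_, B.comp_supported _ _ hq, B.w3_of (B.hom_comp _ hw e)
      (weightedHomogeneousComponent_isWeightedHomogeneous _ _), low 0 q hq e h0⟩ fun i => ?_
    obtain ⟨t, r, hr, e1⟩ := (hP i).exists
    obtain ⟨r', hr', hw', e2⟩ := (hElim k p d0 K F G hS.hom hT i).2.1 (c + t * d0) m r
      (by simpa using hr)
    have e3 : elR (zz k F i ^ (k * m) * r - r') = 0 :=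
      (show Ideal.span (Set.range G) ≤ RingHom.ker elR from
        Ideal.span_le.2 (by rintro _ ⟨s, rfl⟩; exact hR.eqn s)) e2
    rw [map_sub, sub_eq_zero, map_mul, map_pow] at e3
    have e4 : C (π (pderiv i F) ^ (T0 + (t + k * m))) * elR q =
        C (π (pderiv 0 F) ^ T0) * elR r' := by
      rw [← e3, ← add_assoc, pow_add _ _ (k * m), map_mul, map_pow, map_pow, map_pow,
        ← B.el_zz hR, ← B.el_zz hR, mul_right_comm, e1]
      ring
    refine ⟨t + k * m, weightedHomogeneousComponent (we k p) e r', ?_, ?_⟩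
    · have := B.w3_of (B.hom_comp _ hw' e) (weightedHomogeneousComponent_isWeightedHomogeneous _ _)
      convert this using 1
      simp only [Prod.smul_mk, Prod.mk_add_mk, smul_eq_mul, add_mul, mul_zero, add_zero,
        Prod.mk.injEq, and_true]
      omega
    · rw [B.el_zz hN, B.el_zz hN, ← C_pow, ← C_pow, ← homogeneousComponent_C_mul, e4,
        homogeneousComponent_C_mul, low i r' hr' e fun u hu => ?_]
      have := congrArg (homogeneousComponent u) e4
      rw [homogeneousComponent_C_mul, homogeneousComponent_C_mul, h0 u hu, mul_zero, map_pow] at this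
      exact (mul_eq_zero.1 this.symm).resolve_left (pow_ne_zero _ (hz 0))
  · rintro _ ⟨⟨⟨q, hq, hw, rfl⟩, -⟩, h0⟩
    simp only [SetLike.mem_coe, Submodule.mem_iInf, LinearMap.mem_ker,
      LinearMap.restrictScalars_apply] at h0
    refine (Submodule.mem_bot K).2 (MvPolynomial.ext _ _ fun α => ?_)
    by_contra hα
    have h1 := ((hCoef k p d0 K L F gens π G 0 elR hS hR q hq).2.1 c m hw).1 hα
    have h2 := congrArg (coeff α) (h0 α.degree (Nat.lt_succ_of_le (h1 ▸ deg_le α)))
    rw [coeff_homogeneousComponent, if_pos rfl] at h2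
    exact hα h2

end Pool.Agent.Lib.MP_45f16c_ag.VG

end partUpN

section partLoN
/-! Lower bound by the linearised problem. -/

open MvPolynomial Module

namespace Pool.Agent.Lib.MP_45f16c_ag.VG

theorem loNS (hFilt : FiltStmt) (hElim : ElimStmt) (hLow : LowStmt) : LoNStmt := by
  intro k p d0 K L _ _ _ F gens π G elR elN hS hT hR hN b m hmb
  have hz : (π (pderiv 0 F)) ^ (k * m) ≠ 0 := pow_ne_zero _ (hS.zne 0)
  have hmem : ∀ q, IsWeightedHomogeneous (w2 k p) q (b, m) →
      C (π (pderiv 0 F) ^ (k * m)) * elR q ∈ GamR d0 F elR (k * m) (b + k * m * d0) m := by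
    intro q hq
    obtain ⟨q', hq', hw, e⟩ := (hElim k p d0 K F G hS.hom hT 0).2.1 b m q hq
    have e' : elR (zz k F 0 ^ (k * m) * q - q') = 0 :=
      (show Ideal.span (Set.range G) ≤ RingHom.ker elR from
        Ideal.span_le.2 (by rintro _ ⟨s, rfl⟩; exact hR.eqn s)) e
    rw [map_sub, sub_eq_zero, map_mul, map_pow, B.el_zz hR] at e'
    refine B.mem_Gam_of (B.zz_w2 hS.hom) ⟨q', hq', hw, by rw [← e', map_pow]⟩ fun i =>
      ⟨0, zz k F i ^ (k * m) * q, ?_, ?_⟩
    · simpa [add_comm] using ((B.zz_w2 (k := k) hS.hom i).pow (k * m)).mul hq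
    · rw [map_mul, map_pow, map_pow, B.el_zz hR F 0, add_zero]; ring
  refine le_trans (Finset.sum_le_sum fun e he => ?_) (le_trans (Nat.le_add_right _ _)
    (hFilt K _ (GamR d0 F elR (k * m) (b + k * m * d0) m)
      (fun u => (homogeneousComponent u).restrictScalars K) (m + 1)).le)
  rw [← B.finrank_map_mul (GG elN 0 (b - e) e m) (a := C (π (pderiv 0 F) ^ (k * m)))
    (by rwa [Ne, C_eq_zero])]
  refine Submodule.finrank_mono ?_
  rintro _ ⟨_, ⟨q, ⟨-, hw⟩, rfl⟩, rfl⟩
  have he' : b - e + e = b := Nat.sub_add_cancel (by have := Finset.mem_range.1 he; omega)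
  obtain ⟨h1, h2⟩ := (hLow k p d0 K L F gens π 0 elN hS hN).2 G elR hT hR e q (B.we_of_w3 hw)
  refine ⟨_, ⟨hmem q (he' ▸ B.w2_of_w3 hw), ?_⟩, ?_⟩
  · simp only [SetLike.mem_coe, Submodule.mem_iInf, LinearMap.mem_ker,
      LinearMap.restrictScalars_apply]
    intro u hu
    rw [homogeneousComponent_C_mul, h2 u hu, mul_zero]
  · rw [LinearMap.restrictScalars_apply, homogeneousComponent_C_mul, h1]; rfl

end Pool.Agent.Lib.MP_45f16c_ag.VG

end partLoN
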