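import Pool.Agent.Lib.MP_45f16c_ag.VG.B

/-! Very generic hyperbolicity: dimension counts. -/

set_option autoImplicit false

section partSat
/-! Saturation of the good part, through a presentation of the Rees algebra of the ideal of
minors. -/

open MvPolynomial

namespace Pool.Agent.Lib.MP_45f16c_ag.VG

noncomputable section

namespace SatAux

variable {k p : ℕ} {K : Type} [Field K]

/-- The coefficient ring of the presentation. -/
abbrev RR (k p : ℕ) (K : Type) [Field K] : Type :=
  MvPolynomial ((Fin k × Fin (p + 1)) ⊕ (Fin p → Fin k)) K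

/-- Fibre variables and minors. -/
def phi (k p : ℕ) (K : Type) [Field K] : RR k p K →ₐ[K] Polynomial (SS k p K) :=
  aeval (Sum.elim (fun v => Polynomial.C (X (v.1.succ, v.2)))
    (fun A => Polynomial.monomial 1 (mnr k K 0 A)))

/-- The presentation of the Rees algebra. -/
def chi (k p : ℕ) (K : Type) [Field K] :
    MvPolynomial (Fin (p + 1)) (RR k p K) →+* Polynomial (SS k p K) :=
  eval₂Hom (phi k p K).toRingHom fun i => Polynomial.C (X (0, i))

theorem chi_C (a : RR k p K) : chi k p K (C a) = phi k p K a := by simp [chi]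

theorem chi_X (i : Fin (p + 1)) : chi k p K (X i) = Polynomial.C (X (0, i)) := by simp [chi]

theorem phi_C (a : K) : phi k p K (C a) = Polynomial.C (C a) := by
  simp [phi, Polynomial.algebraMap_apply]

theorem phi_inl (v : Fin k × Fin (p + 1)) :
    phi k p K (X (Sum.inl v)) = Polynomial.C (X (v.1.succ, v.2)) := by simp [phi]

theorem phi_inr (A : Fin p → Fin k) :
    phi k p K (X (Sum.inr A)) = Polynomial.monomial 1 (mnr k K 0 A) := by simp [phi]

theorem chi_map (g : PP p K) :
    chi k p K (MvPolynomial.map (algebraMap K (RR k p K)) g) = Polynomial.C (b0 k g) := by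
  induction g using MvPolynomial.induction_on with
  | C a => rw [map_C, chi_C, MvPolynomial.algebraMap_eq, phi_C]; simp [b0]
  | add f g hf hg => simp only [map_add, hf, hg]
  | mul_X f i hf => rw [map_mul, map_mul, hf, map_X, chi_X, map_mul, map_mul, B.b0_X]

theorem mnr_w1 (A : Fin p → Fin k) : IsWeightedHomogeneous (w1 k p) (mnr k K 0 A) 0 := by
  classical
  unfold mnr
  rw [Matrix.det_apply']
  refine IsWeightedHomogeneous.sum _ _ _ fun σ _ => ?_
  have h1 : IsWeightedHomogeneous (w1 k p)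
      (((Equiv.Perm.sign σ : ℤˣ) : ℤ) : SS k p K) 0 := by
    have := isWeightedHomogeneous_C (σ := Jet k p) (w1 k p) (((Equiv.Perm.sign σ : ℤˣ) : ℤ) : K)
    simpa using this
  have h2 := IsWeightedHomogeneous.prod (w := w1 k p) Finset.univ
    (fun i => Matrix.of (Fin.cons (Pi.single 0 1) (fun a i => X ((A a).succ, i)) :
      Fin (p + 1) → Fin (p + 1) → SS k p K) (σ i) i) (fun _ => 0) fun i _ => by
      rw [Matrix.of_apply]
      refine Fin.cases ?_ (fun a => ?_) (σ i)
      · rw [Fin.cons_zero, Pi.single_apply]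
        split_ifs
        · exact isWeightedHomogeneous_one K (w1 k p)
        · exact isWeightedHomogeneous_zero _ _ _
      · rw [Fin.cons_succ]
        simpa [w1, Fin.succ_ne_zero] using isWeightedHomogeneous_X K (w1 k p) ((A a).succ, i)
  simpa using h1.mul h2

/-- All coefficients are homogeneous of degree `n` in the base variables. -/
def HH (n : ℕ) (P : Polynomial (SS k p K)) : Prop :=
  ∀ s, IsWeightedHomogeneous (w1 k p) (P.coeff s) n

theorem HH.mul {a b : ℕ} {P Q : Polynomial (SS k p K)} (hP : HH a P) (hQ : HH b Q) :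
    HH (a + b) (P * Q) := fun s => by
  simpa using B.coeff_mul_hom (c := 0) (a := a) (b := b) (fun s => by simpa using hP s)
    (fun s => by simpa using hQ s) s

theorem HH_mon {n : ℕ} {x : SS k p K} (h : IsWeightedHomogeneous (w1 k p) x n) (u : ℕ) :
    HH n (Polynomial.monomial u x) := fun s => by
  rw [Polynomial.coeff_monomial]
  split_ifs
  · exact h
  · exact isWeightedHomogeneous_zero _ _ _

theorem HH_phi (a : RR k p K) : HH 0 (phi k p K a) := by
  induction a using MvPolynomial.induction_on with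
  | C a => rw [phi_C]; exact HH_mon (isWeightedHomogeneous_C _ _) 0
  | add f g hf hg => intro s; rw [map_add, Polynomial.coeff_add]; exact (hf s).add (hg s)
  | mul_X f v hf =>
    rw [map_mul]
    refine HH.mul (a := 0) (b := 0) hf ?_
    rcases v with v | A
    · rw [phi_inl]
      refine HH_mon ?_ 0
      simpa [w1, Fin.succ_ne_zero] using isWeightedHomogeneous_X K (w1 k p) (v.1.succ, v.2)
    · rw [phi_inr]; exact HH_mon (mnr_w1 A) 1

theorem HH_monomial (μ : Fin (p + 1) →₀ ℕ) (a : RR k p K) :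
    HH μ.degree (chi k p K (monomial μ a)) := by
  have e : (monomial μ a : MvPolynomial (Fin (p + 1)) (RR k p K)) =
      C a * MvPolynomial.map (algebraMap K (RR k p K)) (monomial μ 1) := by
    rw [map_monomial, map_one, C_mul_monomial, mul_one]
  rw [e, map_mul, chi_C, chi_map]
  have h1 : IsWeightedHomogeneous (w1 k p) (b0 k (monomial μ (1 : K))) μ.degree :=
    B.w1_of_w3 (B.b0_w3 (isHomogeneous_monomial _ rfl))
  simpa using (HH_phi a).mul (HH_mon h1 0)

theorem HH_chi {n : ℕ} {q : MvPolynomial (Fin (p + 1)) (RR k p K)} (hq : q.IsHomogeneous n) :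
    HH n (chi k p K q) := fun s => by
  rw [q.as_sum, map_sum, Polynomial.finsetSum_coeff]
  refine IsWeightedHomogeneous.sum _ _ _ fun μ hμ => ?_
  have e : μ.degree = n := by
    rw [Finsupp.degree_eq_weight_one]; exact hq (mem_support_iff.1 hμ)
  exact e ▸ HH_monomial μ _ s

theorem coeff_comp (n s : ℕ) (q : MvPolynomial (Fin (p + 1)) (RR k p K)) :
    (chi k p K (homogeneousComponent n q)).coeff s =
      weightedHomogeneousComponent (w1 k p) n ((chi k p K q).coeff s) := by
  induction q using MvPolynomial.induction_on' with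
  | monomial μ a =>
    rw [homogeneousComponent_of_mem (n := μ.degree) (isHomogeneous_monomial _ rfl),
      weightedHomogeneousComponent_of_mem (n := μ.degree) (HH_monomial μ a s)]
    split_ifs <;> simp
  | add f g hf hg => simp only [map_add, Polynomial.coeff_add, hf, hg]

theorem chi_rees (q : MvPolynomial (Fin (p + 1)) (RR k p K)) :
    chi k p K q ∈ reesAlgebra (MI k K (0 : Fin (p + 1))) := by
  have hC : ∀ x : SS k p K, Polynomial.C x ∈ reesAlgebra (MI k K (0 : Fin (p + 1))) := fun x =>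
    (reesAlgebra (MI k K (0 : Fin (p + 1)))).algebraMap_mem x
  induction q using MvPolynomial.induction_on with
  | C a =>
    rw [chi_C]
    induction a using MvPolynomial.induction_on with
    | C a => rw [phi_C]; exact hC _
    | add f g hf hg => rw [map_add]; exact add_mem hf hg
    | mul_X f v hf =>
      rw [map_mul]
      refine mul_mem hf ?_
      rcases v with v | A
      · rw [phi_inl]; exact hC _
      · rw [phi_inr, reesAlgebra.monomial_mem, pow_one]
        exact Ideal.subset_span ⟨A, rfl⟩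
  | add f g hf hg => rw [map_add]; exact add_mem hf hg
  | mul_X f i hf => rw [map_mul, chi_X]; exact mul_mem hf (hC _)

theorem C_range (x : SS k p K) : Polynomial.C x ∈ (chi k p K).range := by
  induction x using MvPolynomial.induction_on with
  | C a => exact ⟨C (C a), by rw [chi_C, phi_C]⟩
  | add f g hf hg => rw [map_add]; exact add_mem hf hg
  | mul_X f v hf =>
    rw [map_mul]
    refine mul_mem hf ?_
    obtain ⟨s, i⟩ := v
    refine Fin.cases ?_ (fun s => ?_) s
    · exact ⟨X i, chi_X i⟩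
    · exact ⟨C (X (Sum.inl (s, i))), by rw [chi_C, phi_inl]⟩

theorem mon1_range {x : SS k p K} (hx : x ∈ MI k K (0 : Fin (p + 1))) :
    Polynomial.monomial 1 x ∈ (chi k p K).range := by
  induction hx using Submodule.span_induction with
  | mem x hx =>
    obtain ⟨A, rfl⟩ := hx
    exact ⟨C (X (Sum.inr A)), by rw [chi_C, phi_inr]⟩
  | zero => rw [map_zero]; exact zero_mem _
  | add x y _ _ hx hy => rw [map_add]; exact add_mem hx hy
  | smul a x _ hx =>
    rw [smul_eq_mul, ← Polynomial.C_mul_monomial]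
    exact mul_mem (C_range a) hx

theorem mon_range {B : ℕ} {x : SS k p K} (hx : x ∈ MI k K (0 : Fin (p + 1)) ^ B) :
    Polynomial.monomial B x ∈ (chi k p K).range := by
  induction hx using Submodule.pow_induction_on_left' with
  | algebraMap r => exact C_range r
  | add x y i _ _ hx hy => rw [map_add]; exact add_mem hx hy
  | mem_mul m hm i x _ hx =>
    have := mul_mem (mon1_range hm) hx
    rwa [Polynomial.monomial_mul_monomial, add_comm 1 i] at this

theorem mon_hom {B c : ℕ} {x : SS k p K} (hx : x ∈ MI k K (0 : Fin (p + 1)) ^ B)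
    (hc : IsWeightedHomogeneous (w1 k p) x c) :
    ∃ q : MvPolynomial (Fin (p + 1)) (RR k p K), q.IsHomogeneous c ∧
      chi k p K q = Polynomial.monomial B x := by
  obtain ⟨q, hq⟩ := mon_range hx
  refine ⟨homogeneousComponent c q, homogeneousComponent_isHomogeneous c q, ?_⟩
  ext1 s
  rw [coeff_comp, hq]
  exact (HH_mon hc B s).weightedHomogeneousComponent_same

theorem el_comp {L : Type} [Field L] [Algebra K L] (el : SS k p K →ₐ[K] CC k p L)
    (h : ∀ c e m q, IsWeightedHomogeneous (w3 k p) q (c, e, m) →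
      IsWeightedHomogeneous (wc2 k p) (el q) (e, m)) {c : ℕ} {r : SS k p K}
    (hr : IsWeightedHomogeneous (w1 k p) r c) (e m : ℕ) :
    el (weightedHomogeneousComponent (w3 k p) (c, e, m) r) =
      weightedHomogeneousComponent (wc2 k p) (e, m) (el r) := by
  classical
  rw [r.as_sum, map_sum, map_sum, map_sum, map_sum]
  refine Finset.sum_congr rfl fun γ hγ => ?_
  have hm := isWeightedHomogeneous_monomial (w3 k p) γ (coeff γ r)
    (m := Finsupp.weight (w3 k p) γ) rfl
  generalize Finsupp.weight (w3 k p) γ = x at hm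
  obtain ⟨c', e', m'⟩ := x
  have h1 : coeff γ (monomial γ (coeff γ r)) ≠ 0 := by simpa using hγ
  obtain rfl : c' = c := (B.w1_of_w3 hm h1).symm.trans (hr (mem_support_iff.1 hγ))
  rw [weightedHomogeneousComponent_of_mem hm, weightedHomogeneousComponent_of_mem (h _ _ _ _ hm)]
  by_cases hem : (e, m) = (e', m')
  · rw [if_pos hem, if_pos (by rw [hem])]
  · rw [if_neg hem, if_neg (fun h => hem (Prod.mk.inj h).2), map_zero]

end SatAux

open SatAux in
theorem satS (hSerre : SerreStmt) (hTri : TriStmt) (hKer : KerStmt) (hLow : LowStmt)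
    (hCram : CramStmt) : SatStmt := by
  intro k p d0 K L _ _ _ F gens π el y hS hP hy hel
  have hT := (hTri k p d0 K F hS.hom).2.1
  have hK := (hKer k p d0 K L F gens π _ 0 el hS hT hel).2.2 rfl
  have hL := (hLow k p d0 K L F gens π 0 el hS hel).1
  let ψ : MvPolynomial (Fin (p + 1)) (RR k p K) →+* Polynomial (CC k p L) :=
    (Polynomial.mapRingHom el.toRingHom).comp (chi k p K)
  have hψ : ∀ q s, (ψ q).coeff s = el ((chi k p K q).coeff s) := fun q s => by
    simp [ψ]
  let z : Fin (p + 1) → MvPolynomial (Fin (p + 1)) (RR k p K) := fun j =>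
    MvPolynomial.map (algebraMap K (RR k p K)) (pderiv j F)
  have hz : ∀ j, ψ (z j) = Polynomial.C (el (zz k F j)) := fun j => by
    simp only [ψ, z, RingHom.comp_apply, chi_map, zz]
    simp
  obtain ⟨c1, hc1⟩ := hSerre (Fin (p + 1)) (Fin (p + 1)) (RR k p K) (Polynomial (CC k p L)) ψ z d0 y
    (fun q hq n => by
      ext1 s
      rw [hψ, coeff_comp, Polynomial.coeff_zero]
      refine (hK _ ?_).2 n
      rw [← hψ, hq, Polynomial.coeff_zero])
    (by
      have : ψ (X y) = Polynomial.C (C (π (X y))) := by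
        simp only [ψ, RingHom.comp_apply, chi_X]
        simp [hel.base]
      rw [this]
      simpa using hy)
    (fun j => (IsHomogeneous.pderiv hS.hom).map _)
    (fun i => by
      obtain ⟨D, hD⟩ := hP i
      refine ⟨D, ?_⟩
      have := Ideal.mem_map_of_mem (MvPolynomial.map (algebraMap K (RR k p K))) hD
      rwa [Ideal.map_span, ← Set.range_comp, map_pow, map_X] at this)
  refine ⟨c1, fun N c e m P hc h => ?_⟩
  obtain ⟨q, hq, hPq⟩ := hc1 c hc (Polynomial.monomial N P) fun j => by
    obtain ⟨t, ht⟩ := h j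
    obtain ⟨r, hr, hw, hre⟩ := B.mem_GG.1 ht
    obtain ⟨q, hq, hqr⟩ := mon_hom hr (B.w1_of_w3 hw)
    refine ⟨t, q, hq, ?_⟩
    rw [hz, ← map_pow, Polynomial.C_mul_monomial, ← hre]
    simp [ψ, hqr]
  have hP0 : P = el ((chi k p K q).coeff N) := by
    rw [← hψ, ← hPq, Polynomial.coeff_monomial, if_pos rfl]
  have hPh : IsWeightedHomogeneous (wc2 k p) P (e, m) := by
    obtain ⟨t, ht⟩ := h 0
    obtain ⟨r, -, hw, hre⟩ := B.mem_GG.1 ht
    have h1 := hL _ _ _ _ hw
    rw [hre, B.el_zz hel, ← map_pow] at h1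
    have h2 := h1.C_mul (π (pderiv 0 F) ^ t)⁻¹
    rwa [← mul_assoc, ← map_mul, inv_mul_cancel₀ (pow_ne_zero _ (hS.zne 0)), map_one,
      one_mul] at h2
  refine B.mem_GG.2 ⟨weightedHomogeneousComponent (w3 k p) (c, e, m) ((chi k p K q).coeff N),
    (hCram k p d0 K F hS.hom N).2.2.1 0 _ _ ((mem_reesAlgebra_iff _ _).1 (chi_rees q) N),
    weightedHomogeneousComponent_isWeightedHomogeneous _ _, ?_⟩
  rw [el_comp el hL (HH_chi hq N), ← hP0, hPh.weightedHomogeneousComponent_same]

end

end Pool.Agent.Lib.MP_45f16c_ag.VG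

end partSat

section partLead
/-! Leading monomials of products of maximal minors. -/

open MvPolynomial Module

namespace Pool.Agent.Lib.MP_45f16c_ag.VG

namespace LeadAux

section general
variable {σ K : Type} [Field K] {w : σ → ℕ}

/-- `P` is the monomial `α` up to terms of smaller weight. -/
def Ld (w : σ → ℕ) (α : σ →₀ ℕ) (P : MvPolynomial σ K) : Prop :=
  ∀ β ∈ (P - monomial α 1).support, Finsupp.weight w β < Finsupp.weight w α

theorem ld_monomial (α : σ →₀ ℕ) : Ld w α (monomial α (1 : K)) := by simp [Ld]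

theorem Ld.le {α : σ →₀ ℕ} {P : MvPolynomial σ K} (h : Ld w α P) :
    ∀ β ∈ P.support, Finsupp.weight w β ≤ Finsupp.weight w α := by
  classical
  intro β hβ
  by_cases e : α = β
  · rw [e]
  · refine (h β ?_).le
    rw [MvPolynomial.mem_support_iff, coeff_sub, coeff_monomial, if_neg e, sub_zero]
    exact MvPolynomial.mem_support_iff.1 hβ

theorem Ld.mul {α β : σ →₀ ℕ} {P Q : MvPolynomial σ K} (h : Ld w α P) (h' : Ld w β Q) :
    Ld w (α + β) (P * Q) := by
  classical
  intro γ hγ
  have e : P * Q - monomial (α + β) 1 =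
      P * (Q - monomial β 1) + (P - monomial α 1) * monomial β 1 := by
    rw [← mul_one (1 : K), ← monomial_mul, mul_one]
    ring
  rw [e] at hγ
  rw [map_add]
  rcases Finset.mem_union.1 (support_add hγ) with k | k
  · obtain ⟨a, ha, b, hb, rfl⟩ := Finset.mem_add.1 (support_mul _ _ k)
    rw [map_add]
    exact add_lt_add_of_le_of_lt (h.le a ha) (h' b hb)
  · obtain ⟨a, ha, b, hb, rfl⟩ := Finset.mem_add.1 (support_mul _ _ k)
    rw [map_add]
    exact add_lt_add_of_lt_of_le (h a ha) ((ld_monomial β).le b hb)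

theorem ld_prod {ι : Type} (s : Finset ι) {α : ι → σ →₀ ℕ} {P : ι → MvPolynomial σ K}
    (h : ∀ i, Ld w (α i) (P i)) : Ld w (∑ i ∈ s, α i) (∏ i ∈ s, P i) := by
  classical
  induction s using Finset.induction_on with
  | empty => exact ld_monomial 0
  | insert a s ha ih =>
    rw [Finset.sum_insert ha, Finset.prod_insert ha]
    exact (h a).mul ih

theorem indep {S : Set (σ →₀ ℕ)} {E : S → MvPolynomial σ K} (h : ∀ α : S, Ld w α.1 (E α)) :
    LinearIndependent K E := by
  classical
  rw [linearIndependent_iff']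
  intro s g hg
  by_contra hn
  push Not at hn
  obtain ⟨i0, h0, h1⟩ := hn
  obtain ⟨i, hi, hm⟩ := (s.filter fun i => g i ≠ 0).exists_max_image
    (fun i => Finsupp.weight w i.1) ⟨i0, Finset.mem_filter.2 ⟨h0, h1⟩⟩
  obtain ⟨i1, i2⟩ := Finset.mem_filter.1 hi
  have key : ∀ j ∈ s, coeff i.1 (g j • E j) = if j = i then g j else 0 := fun j hj => by
    by_cases e : g j = 0
    · simp [e]
    · have e1 : coeff i.1 (E j - monomial j.1 1) = 0 := by_contra fun k =>
        (h j _ (mem_support_iff.2 k)).not_ge (hm j (Finset.mem_filter.2 ⟨hj, e⟩))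
      rw [coeff_sub, sub_eq_zero, coeff_monomial] at e1
      rw [coeff_smul, e1, smul_eq_mul, mul_ite, mul_one, mul_zero]
      exact if_congr Subtype.coe_inj rfl rfl
  have := congrArg (coeff i.1) hg
  rw [coeff_sum, Finset.sum_congr rfl key, Finset.sum_ite_eq', if_pos i1, coeff_zero] at this
  exact i2 this

end general

variable {k p : ℕ} {K : Type} [Field K]

/-- The exponent of a diagonal. -/
noncomputable def dg (A : Fin p → Fin k) : Ch k p →₀ ℕ := ∑ b, Finsupp.single (A b, b) 1

theorem cm_eq (A : Fin p → Fin k) : cm k K A =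
    ∑ σ : Equiv.Perm (Fin p), Equiv.Perm.sign σ • monomial (dg (A ∘ σ)) (1 : K) := by
  rw [cm, Matrix.det_apply]
  refine Finset.sum_congr rfl fun σ _ => ?_
  rw [dg, monomial_sum_one]
  rfl

theorem weight_dg {M : Type} [AddCommMonoid M] (w : Ch k p → M) (A : Fin p → Fin k) :
    Finsupp.weight w (dg A) = ∑ b, w (A b, b) := by
  simp [dg, Finsupp.weight_single]

theorem cm_hom (A : Fin p → Fin k) :
    IsWeightedHomogeneous (wc2 k p) (cm k K A) (Finsupp.weight (wc2 k p) (dg A)) := by
  rw [cm_eq]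
  refine IsWeightedHomogeneous.sum _ _ _ fun σ _ => ?_
  have h : IsWeightedHomogeneous (wc2 k p) (monomial (dg (A ∘ σ)) (1 : K))
      (Finsupp.weight (wc2 k p) (dg A)) := by
    refine isWeightedHomogeneous_monomial _ _ _ ?_
    rw [weight_dg, weight_dg]
    exact Equiv.sum_comp σ fun b => ((1, (A b).val + 1) : ℕ × ℕ)
  rcases Int.units_eq_one_or (Equiv.Perm.sign σ) with e | e
  · rwa [e, one_smul]
  · rw [e, Units.neg_smul, one_smul]
    exact (weightedHomogeneousSubmodule K _ _).neg_mem h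

theorem cm_ld {A : Fin p → Fin k} (hA : StrictMono A) :
    Ld (fun v : Ch k p => v.1.val * v.2.val) (dg A) (cm k K A) := by
  classical
  intro β hβ
  rw [cm_eq, ← Finset.add_sum_erase _ _ (Finset.mem_univ 1), Equiv.Perm.sign_one, one_smul,
    Equiv.Perm.coe_one, Function.comp_id, add_sub_cancel_left] at hβ
  obtain ⟨σ, h1, h2⟩ := Finset.mem_biUnion.1 (support_sum hβ)
  have h3 : β = dg (A ∘ σ) := by
    by_contra e
    refine mem_support_iff.1 h2 ?_
    rw [Units.smul_def, coeff_smul, coeff_monomial, if_neg (Ne.symm e), smul_zero]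
  have h4 : Monovary (fun b => (A b).val) (fun b : Fin p => b.val) := fun i j h =>
    (hA h).le
  rw [h3, weight_dg, weight_dg]
  refine h4.sum_comp_perm_mul_lt_sum_mul_iff.2 fun h => (Finset.mem_erase.1 h1).1 ?_
  exact (Equiv.Perm.monotone_iff σ).1
    (monotone_iff_forall_lt.2 fun i j hij => hA.le_iff_le.1 (h hij))

theorem fin_wt (c : ℕ × ℕ) : {α : Ch k p →₀ ℕ | Finsupp.weight (wc2 k p) α = c}.Finite :=
  (Finsupp.finite_of_nat_weight_eq (fun v => (wc2 k p v).1) (fun _ => one_ne_zero) c.1).subset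
    fun α h => (B.weight_comp (wc2 k p) (AddMonoidHom.fst ℕ ℕ) α).trans (congrArg Prod.fst h)

theorem exists_ld {B e m : ℕ} {α : Ch k p →₀ ℕ} (h : Finsupp.weight (wc2 k p) α = (e, m))
    (hg : Good B α) :
    ∃ P ∈ W0 k p K B e m, Ld (fun v : Ch k p => v.1.val * v.2.val) α P := by
  obtain ⟨A, h1, h2⟩ := hg
  obtain ⟨β, rfl⟩ := exists_add_of_le h2
  refine ⟨(∏ l, cm k K (A l)) * monomial β 1, ⟨Ideal.mul_mem_right _ _ ?_, ?_⟩,
    (ld_prod _ fun l => cm_ld (h1 l)).mul (ld_monomial β)⟩
  · have := Ideal.prod_mem_prod (s := Finset.univ) (I := fun _ : Fin B => CI k p K)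
      (x := fun l => cm k K (A l)) fun l _ => Ideal.subset_span ⟨A l, rfl⟩
    rwa [Finset.prod_const, Finset.card_univ, Fintype.card_fin] at this
  · rw [← h, map_add, map_sum]
    exact (IsWeightedHomogeneous.prod _ _ _ fun l _ => cm_hom (A l)).mul
      (isWeightedHomogeneous_monomial _ _ _ rfl)

end LeadAux

open LeadAux in
theorem leadS : LeadStmt := by
  intro k p K _ B e m
  have hf := fin_wt (k := k) (p := p) (e, m)
  constructor
  · have h1 : {α : Ch k p →₀ ℕ | Finsupp.weight (wc2 k p) α = (e, m) ∧ Good B α}.Finite :=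
      hf.subset fun _ h => h.1
    choose E h2 h3 using fun α : {α : Ch k p →₀ ℕ | Finsupp.weight (wc2 k p) α = (e, m) ∧
      Good B α} => exists_ld (K := K) α.2.1 α.2.2
    have := h1.fintype
    have h4 : LinearIndependent K fun α => (⟨E α, h2 α⟩ : W0 k p K B e m) :=
      LinearIndependent.of_comp (W0 k p K B e m).subtype (indep h3)
    rw [goodE, ← Nat.card_coe_set_eq, Nat.card_eq_fintype_card]
    exact h4.fintype_card_le_finrank
  · rw [weightedHomogeneousSubmodule_eq_finsupp_supported, goodE, badE,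
      ← Set.ncard_union_eq (Set.disjoint_left.2 fun _ h h' => h'.2 h.2)
        (hf.subset fun _ h => h.1) (hf.subset fun _ h => h.1), ← Nat.card_coe_set_eq]
    refine (finrank_eq_nat_card_basis (basisRestrictSupport K _)).trans ?_
    refine congrArg (fun S : Set (Ch k p →₀ ℕ) => Nat.card S) (Set.ext fun α => ?_)
    simp only [Set.mem_ofPred_eq, Set.mem_union, ← and_or_left, or_not, and_true]

end Pool.Agent.Lib.MP_45f16c_ag.VG

end partLead

section partGood
/-! Sections of the linearised problem: good part and bad part. -/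

open MvPolynomial Filter Module

namespace Pool.Agent.Lib.MP_45f16c_ag.VG

open B

namespace GoodAux

/-- Rank and nullity in the form which is used. -/
theorem rn {K M L : Type} [Field K] [AddCommGroup M] [Module K M] [AddCommGroup L] [Module K L]
    (V G : Submodule K M) [FiniteDimensional K V] [FiniteDimensional K G] (U : Submodule K L)
    [FiniteDimensional K U] {r : ℕ} (Λ : Fin r → M →ₗ[K] L) (f : M →ₗ[K] M)
    (hf : Function.Injective f) (h1 : ∀ P ∈ V, ∀ i, Λ i P ∈ U)
    (h2 : ∀ P ∈ V, (∀ i, Λ i P = 0) → f P ∈ G) :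
    finrank K V ≤ finrank K G + r * finrank K U := by
  let Φ : V →ₗ[K] (Fin r → U) :=
    LinearMap.pi fun i => ((Λ i).domRestrict V).codRestrict U fun x => h1 x x.2 i
  have e := Φ.finrank_range_add_finrank_ker
  have h3 : finrank K (LinearMap.range Φ) ≤ r * finrank K U :=
    (Submodule.finrank_le _).trans (by simp [Module.finrank_pi_fintype])
  have h4 : finrank K (LinearMap.ker Φ) ≤ finrank K G := by
    refine LinearMap.finrank_le_finrank_of_injective
      (f := (f ∘ₗ V.subtype ∘ₗ (LinearMap.ker Φ).subtype).codRestrict G fun x =>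
        h2 x.1.1 x.1.2 fun i => congrArg Subtype.val (congrFun (LinearMap.mem_ker.1 x.2) i)) ?_
    intro x y h
    exact Subtype.ext (Subtype.ext (hf (congrArg Subtype.val h)))
  omega

variable {k p d0 : ℕ} {K L : Type} [Field K] [Field L] [Algebra K L] {F : PP p K}
  {gens : Set (PP p K)} {π : PP p K →ₐ[K] L}

/-- An elimination map kills the ideal of the equations. -/
theorem el_span {G : Fin k → SS k p K} {j : Fin (p + 1)} {el : SS k p K →ₐ[K] CC k p L}
    (h : IsEl π G j el) {a b : SS k p K} (hq : a - b ∈ Ideal.span (Set.range G)) :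
    el a = el b := by
  have : Ideal.span (Set.range G) ≤ RingHom.ker el := by
    rw [Ideal.span_le]
    rintro _ ⟨s, rfl⟩
    exact h.eqn s
  have h1 : el (a - b) = 0 := this hq
  rwa [map_sub, sub_eq_zero] at h1

/-- Two elimination maps have the same kernel. -/
theorem el_move (hKer : KerStmt) (hS : Setup d0 F gens π) {G : Fin k → SS k p K}
    (hT : Tri k d0 F G) {i j : Fin (p + 1)} {el el' : SS k p K →ₐ[K] CC k p L}
    (h : IsEl π G i el) (h' : IsEl π G j el') {a b : SS k p K} (e : el a = el b) :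
    el' a = el' b := by
  have h1 : el (a - b) = 0 := by rw [map_sub, e, sub_self]
  have h2 := ((hKer k p d0 K L F gens π G j el' hS hT h').1 (a - b) 0).2
    (((hKer k p d0 K L F gens π G i el hS hT h).1 (a - b) 0).1 h1)
  rwa [map_sub, sub_eq_zero] at h2

/-- The span given by the equations lifts to the power of the ideal of minors. -/
theorem lift (hCram : CramStmt) (hF : F.IsHomogeneous (d0 + 1)) {G : Fin k → SS k p K}
    {j : Fin (p + 1)} {el : SS k p K →ₐ[K] CC k p L} (h : IsEl π G j el) {B c e m : ℕ}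
    {P : CC k p L} (hP : P ∈ Submodule.span K {Q | ∃ u ∈ OO π c, ∃ x ∈ W0 k p K B e m,
      Q = C u * MvPolynomial.map (algebraMap K L) x}) :
    ∃ r ∈ MI k K j ^ B, IsWeightedHomogeneous (w3 k p) r (c, e, m) ∧ el r = P := by
  induction hP using Submodule.span_induction with
  | mem Q hQ =>
    obtain ⟨_, ⟨g, hg, rfl⟩, x, ⟨hx, hx'⟩, rfl⟩ := hQ
    refine ⟨b0 k g * ir k K j x, Ideal.mul_mem_left _ _ ((hCram k p d0 K F hF B).2.1 j x hx),
      ?_, ?_⟩
    · simpa using (b0_w3 (k := k) hg).mul (ir_w3 j hx')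
    · rw [map_mul, el_b0 h, el_ir h]; rfl
  | zero => exact ⟨0, zero_mem _, isWeightedHomogeneous_zero _ _ _, map_zero _⟩
  | add P Q _ _ h1 h2 =>
    obtain ⟨r, a1, a2, rfl⟩ := h1
    obtain ⟨r', b1, b2, rfl⟩ := h2
    exact ⟨r + r', add_mem a1 b1, a2.add b2, map_add _ _ _⟩
  | smul a P _ h1 =>
    obtain ⟨r, a1, a2, rfl⟩ := h1
    exact ⟨a • r, Submodule.smul_of_tower_mem _ a a1,
      (weightedHomogeneousSubmodule K _ _).smul_mem a a2, map_smul _ _ _⟩

/-- The equations vanish on the extended power of the ideal of minors. -/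
theorem lam_zero (hCram : CramStmt) (hF : F.IsHomogeneous (d0 + 1)) {B e m : ℕ}
    (Λ : CC k p L →ₗ[L] L)
    (hΛ : ∀ x, weightedHomogeneousComponent (wc2 k p) (e, m) x ∈ W0 k p K B e m →
      Λ (MvPolynomial.map (algebraMap K L) x) = 0) {P : CC k p L}
    (hP : P ∈ Submodule.span L (MvPolynomial.map (algebraMap K L) ''
      ((CI k p K ^ B : Ideal (CC k p K)) : Set (CC k p K)))) : Λ P = 0 := by
  have : Submodule.span L (MvPolynomial.map (algebraMap K L) ''
      ((CI k p K ^ B : Ideal (CC k p K)) : Set (CC k p K))) ≤ LinearMap.ker Λ := by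
    rw [Submodule.span_le]
    rintro _ ⟨x, hx, rfl⟩
    exact hΛ x ⟨(hCram k p d0 K F hF B).2.2.2.1 _ x hx,
      weightedHomogeneousComponent_isWeightedHomogeneous _ _⟩
  exact this hP

theorem lam_C (Λ : CC k p L →ₗ[L] L) (a : L) (n : ℕ) (P : CC k p L) :
    Λ (C a ^ n * P) = a ^ n * Λ P := by
  rw [← C_pow, ← smul_eq_C_mul, map_smul, smul_eq_mul]

end GoodAux

open GoodAux in
theorem goodS (hProj : ProjStmt) (hTri : TriStmt) (hEl : ElStmt) (hElim : ElimStmt)
    (hCoef : CoefStmt) (hKer : KerStmt) (hLow : LowStmt) (hCram : CramStmt) (hSat : SatStmt)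
    (hLead : LeadStmt) : GoodStmt := by
  intro k p d0 K L _ _ _ F gens π el y hS hPr hy hel
  obtain ⟨c1, hc1⟩ := hSat k p d0 K L F gens π el y hS hPr hy hel
  refine ⟨c1, fun T0 B c c' e m hc hcc => ?_⟩
  obtain ⟨r, Λ, hr, hΛ, hU⟩ := hProj (Ch k p) (ℕ × ℕ) K L (wc2 k p) (e, m) (W0 k p K B e m)
    inf_le_right (fin_wc2 _)
  obtain ⟨l1, l2⟩ := hLead k p K B e m
  have hrb : r ≤ badE k p B e m :=
    Nat.le_of_add_le_add_right (((Nat.add_le_add_left l1 r).trans (hr.trans l2).le).trans
      (add_comm _ _).le)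
  have hT : Tri k d0 F (neq k F) := (hTri k p d0 K F hS.hom).2.1
  have hb : π (pderiv 0 F) ≠ 0 := hS.zne 0
  have hne : (C (π (pderiv 0 F) ^ B / π (pderiv 0 F) ^ T0) : CC k p L) ≠ 0 :=
    C_ne_zero.2 (div_ne_zero (pow_ne_zero _ hb) (pow_ne_zero _ hb))
  refine (rn (GamN d0 F el T0 c e m) (GG el B c' e m) (OO π c)
    (fun i => (Λ i).restrictScalars K)
    (LinearMap.mulLeft K (C (π (pderiv 0 F) ^ B / π (pderiv 0 F) ^ T0) : CC k p L))
    (mul_right_injective₀ hne) ?_ ?_).trans
    (Nat.add_le_add_left (Nat.mul_le_mul_right _ hrb) _)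
  · rintro _ ⟨⟨q, hq, hw, rfl⟩, -⟩
    exact (hU _ _ ((hCoef k p d0 K L F gens π _ 0 el hS hel q hq).2.2.1 c e m hw)).1
  rintro _ ⟨⟨q0, hq0, hw0, rfl⟩, hG⟩ h0
  obtain ⟨r0, hr0, -, e0⟩ := lift hCram hS.hom hel
    ((hU _ _ ((hCoef k p d0 K L F gens π _ 0 el hS hel q0 hq0).2.2.1 c e m hw0)).2
      ((hLow k p d0 K L F gens π 0 el hS hel).1 c e m q0 hw0) h0)
  refine hc1 B c' e m _ hc fun i => ?_
  obtain ⟨t, q, hw, e1⟩ := (hG i).exists
  have hw' : IsWeightedHomogeneous (w3 k p) q (c + t * d0, e, m) := by simpa using hw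
  obtain ⟨eli, hi⟩ := hEl k p d0 K L F gens π _ hS hT i
  have e2 : eli (zz k F i ^ (T0 + t) * r0) = eli (zz k F 0 ^ T0 * q) :=
    el_move hKer hS hT hel hi (by rw [map_mul, map_mul, map_pow, map_pow, e0, e1])
  rw [map_mul, map_mul, map_pow, map_pow, el_zz hi, el_zz hi] at e2
  have h1 : ∀ l, Λ l (eli q) = 0 := fun l => by
    have h2 := congrArg (Λ l) e2
    rw [lam_C, lam_C, lam_zero hCram hS.hom (Λ l) (hΛ l)
      ((hCram k p d0 K F hS.hom B).2.2.2.2 L π i 0 eli (hS.zne i) hi r0 hr0), mul_zero] at h2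
    exact (mul_eq_zero.1 h2.symm).resolve_left (pow_ne_zero _ hb)
  obtain ⟨q', hq', hw2, e3⟩ := (hElim k p d0 K F _ hS.hom hT i).2.2 rfl _ e m q hw'
  have h3 : ∀ l, Λ l (eli q') = 0 := fun l => by
    rw [← el_span hi e3, map_mul, map_pow, el_zz hi, lam_C, h1, mul_zero]
  obtain ⟨r1, hr1, hw3, e4⟩ := lift hCram hS.hom hi
    ((hU _ _ ((hCoef k p d0 K L F gens π _ i eli hS hi q' hq').2.2.1 _ e m hw2)).2
      ((hLow k p d0 K L F gens π i eli hS hi).1 _ e m q' hw2) h3)
  obtain ⟨r2, hr2, hw4, e5⟩ := (hCram k p d0 K F hS.hom B).1 i 0 _ r1 hr1 hw3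
  have e6 := el_span hel e3
  have e7 := el_span hel e5
  rw [← el_move hKer hS hT hi hel e4] at e6
  refine ⟨T0 + t + k * m, mem_GG.2 ⟨zz k F i ^ B * r2, Ideal.mul_mem_left _ _ hr2, ?_, ?_⟩⟩
  · have h4 := ((zz_w3 (k := k) hS.hom i).pow B).mul hw4
    have h5 : c' + (T0 + t + k * m) * d0 = B * d0 + (c + t * d0 + k * m * d0) := by
      rw [add_mul, add_mul]; omega
    rw [h5]
    simpa using h4
  · rw [← e7, map_mul, map_pow, ← e6, map_mul, map_pow, LinearMap.mulLeft_apply, pow_add,
      mul_right_comm, mul_left_comm _ _ (el q0), e1, el_zz hel, el_zz hel]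
    have h6 : (C (π (pderiv 0 F) ^ B / π (pderiv 0 F) ^ T0) : CC k p L) *
        C (π (pderiv 0 F)) ^ T0 = C (π (pderiv 0 F)) ^ B := by
      rw [← C_pow, ← C_pow, ← C_mul, div_mul_cancel₀ _ (pow_ne_zero _ hb)]
    rw [← h6]
    ring

end Pool.Agent.Lib.MP_45f16c_ag.VG

end partGood

section partEndP
/-! The two ends of the telescoping sum. -/

open MvPolynomial Module

namespace Pool.Agent.Lib.MP_45f16c_ag.VG

namespace EndAux

theorem indep_map {σ ι K L : Type} [Field K] [Field L] [Algebra K L] [Fintype ι]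
    {x : ι → MvPolynomial σ K} (h : LinearIndependent K x) :
    LinearIndependent L fun i => MvPolynomial.map (algebraMap K L) (x i) := by
  rw [Fintype.linearIndependent_iff] at h ⊢
  intro g hg i
  refine (Module.forall_dual_apply_eq_zero_iff K (g i)).1 fun φ => h (fun i => φ (g i)) ?_ i
  ext α
  have := congrArg (fun P => φ (coeff α P)) hg
  simp only [coeff_sum, coeff_smul, coeff_map, smul_eq_mul, map_sum, coeff_zero, map_zero] at this ⊢
  rw [← this]
  refine Finset.sum_congr rfl fun j _ => ?_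
  rw [mul_comm (g j), ← Algebra.smul_def, map_smul, smul_eq_mul, mul_comm]

end EndAux

open EndAux in
theorem endS (hCram : CramStmt) (hSat : SatStmt) (hLead : LeadStmt) : EndStmt := by
  intro k p d0 K L _ _ _ F gens π el y hS hP hy h
  refine ⟨?_, fun b c e m => ?_⟩
  · obtain ⟨c1, hc1⟩ := hSat k p d0 K L F gens π el y hS hP hy h
    refine ⟨c1, fun b c e m hc => ?_⟩
    have hz : π (pderiv 0 F) ^ b ≠ 0 := pow_ne_zero _ (hS.zne 0)
    rw [← B.finrank_map_mul (GG el b (c + b * d0) e m) (a := C (π (pderiv 0 F) ^ b)⁻¹)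
      (by simpa using hz)]
    refine Submodule.finrank_mono ?_
    rintro _ ⟨_, ⟨r, ⟨hr, hw⟩, rfl⟩, rfl⟩
    refine hc1 0 c e m _ hc fun i => ⟨b, ?_⟩
    obtain ⟨r', -, hw', e1⟩ := (hCram k p d0 K F hS.hom b).1 0 i _ r hr hw
    have e2 : el (zz k F i ^ b * r - zz k F 0 ^ b * r') = 0 :=
      (show Ideal.span (Set.range (neq k F)) ≤ RingHom.ker el from
        Ideal.span_le.2 (by rintro _ ⟨s, rfl⟩; exact h.eqn s)) e1
    rw [map_sub, sub_eq_zero, map_mul, map_mul, map_pow, map_pow, B.el_zz h F 0] at e2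
    refine B.mem_GG.2 ⟨r', by simp, hw', ?_⟩
    rw [LinearMap.mulLeft_apply, AlgHom.toLinearMap_apply, mul_left_comm, e2, ← mul_assoc, ← C_pow,
      ← C_mul, inv_mul_cancel₀ hz, C_1, one_mul]
  · refine (Nat.mul_le_mul_right _ (hLead k p K b e m).1).trans ?_
    let u := Module.finBasis K (OO π c)
    let x := Module.finBasis K (W0 k p K b e m)
    have h1 := linearIndependent_smul (u.linearIndependent.map' (OO π c).subtype (by simp))
      (indep_map (L := L) (x.linearIndependent.map' (W0 k p K b e m).subtype (by simp)))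
    have h2 := finrank_span_eq_card h1
    rw [Fintype.card_prod, Fintype.card_fin, Fintype.card_fin] at h2
    rw [mul_comm, hh, ← h2]
    refine Submodule.finrank_mono (Submodule.span_le.2 ?_)
    rintro _ ⟨⟨i, j⟩, rfl⟩
    obtain ⟨g, hg, e1⟩ := (u i).2
    refine B.mem_GG.2 ⟨b0 k g * ir k K 0 (x j).1, Ideal.mul_mem_left _ _
      ((hCram k p d0 K F hS.hom b).2.1 0 _ (x j).2.1), ?_, ?_⟩
    · simpa using (B.b0_w3 (k := k) hg).mul (B.ir_w3 0 (x j).2.2)
    · rw [map_mul, B.el_b0 h, B.el_ir h, show π g = u i from e1, C_mul']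
      rfl

end Pool.Agent.Lib.MP_45f16c_ag.VG

end partEndP

section partAlg
/-! The lower bound for the space of jet differentials. -/

open MvPolynomial Module Finset

namespace Pool.Agent.Lib.MP_45f16c_ag.VG

theorem algS (hTri : TriStmt) (hEl : ElStmt) (hTelR : TelRStmt) (hTelG : TelGStmt)
    (hUpN : UpNStmt) (hLoN : LoNStmt) (hGood : GoodStmt) (hEnd : EndStmt) (hQueue : QueueStmt) :
    AlgStmt := by
  intro k p d0 K L L' _ _ _ _ _ F π π' y el hS hS' h0 hy hP h
  obtain ⟨hR, hN, -⟩ := hTri k p d0 K F hS.hom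
  obtain ⟨elN, hn⟩ := hEl k p d0 K L F _ π _ hS hN 0
  obtain ⟨el', h'⟩ := hEl k p d0 K L' F _ π' _ hS' hR 0
  obtain ⟨elN', hn'⟩ := hEl k p d0 K L' F _ π' _ hS' hN 0
  obtain ⟨⟨c1, hE1⟩, hE2⟩ := hEnd k p d0 K L F _ π elN 0 hS hP h0 hn
  obtain ⟨c2, hG⟩ := hGood k p d0 K L' F _ π' elN' y hS' hP hy hn'
  obtain ⟨hT1, hT2⟩ := hTelG k p d0 K L L' F π π' elN elN' hS hS' h0 hn hn'
  refine ⟨c1 + c2, fun m b c γ hγ hb he hc => ?_⟩
  have hmc : m ≤ c := by
    have := Nat.mul_le_mul_right d0 hb
    omega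
  have key : ∀ n, finrank K (GamR d0 F el (k * m) (c + n) m) +
      ∑ e ∈ range (m + 1), finrank K (GG elN b (γ + (m - e)) e m) ≤
      finrank K (GamR d0 F el (k * m) c m) +
      ∑ e ∈ range (m + 1), (finrank K (GG elN b (γ + (m - e) + n) e m) +
        badE k p b e m * hh π (c + n - e)) := by
    intro n
    induction n with
    | zero => exact Nat.add_le_add_left (sum_le_sum fun e _ => Nat.le_add_right _ _) _
    | succ n ih =>
      have h1 := hTelR k p d0 K L L' F π π' _ el el' hS hS' h0 hR h h' (k * m) (c + n) m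
      have h2 := hUpN k p d0 K L' F _ π' _ el' elN' hS' hR h' hn' (k * m) (c + n + 1) m (by omega)
      have h3 : ∑ e ∈ range (m + 1), finrank K (GamN d0 F elN' (k * m) (c + n + 1 - e) e m) +
          ∑ e ∈ range (m + 1), (finrank K (GG elN b (γ + (m - e) + n) e m) +
            badE k p b e m * hh π (c + n - e)) ≤
          ∑ e ∈ range (m + 1), (finrank K (GG elN b (γ + (m - e) + (n + 1)) e m) +
            badE k p b e m * hh π (c + (n + 1) - e)) := by
        rw [← sum_add_distrib]
        refine sum_le_sum fun e he' => ?_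
        have hem : e ≤ m := Nat.lt_succ_iff.1 (mem_range.1 he')
        have a1 := hG (k * m) b (c + n + 1 - e) (γ + (m - e) + n + 1) e m (by omega) (by omega)
        have a2 := hT1 b (γ + (m - e) + n) e m
        have a3 := Nat.mul_le_mul_left (badE k p b e m) (hT2 (c + n - e))
        rw [show c + n - e + 1 = c + n + 1 - e by omega, mul_add] at a3
        rw [← add_assoc c, ← add_assoc (γ + (m - e))]
        omega
      rw [← add_assoc c]
      rw [← add_assoc c] at h3
      omega
  obtain ⟨n, hn0⟩ : ∃ n, c + n = m + (c1 + c2) + k * m * d0 :=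
    ⟨m + (c1 + c2) + k * m * d0 - c, by omega⟩
  have h1 := key n
  have h2 := hLoN k p d0 K L F _ π _ el elN hS hR h hn (m + (c1 + c2)) m (by omega)
  have h3 : ∑ e ∈ range (m + 1), (finrank K (GG elN b (γ + (m - e) + n) e m) +
      badE k p b e m * hh π (c + n - e)) ≤
      ∑ e ∈ range (m + 1), finrank K (GG elN 0 (m + (c1 + c2) - e) e m) +
      badT k p b m * hh π (k * m * d0 + m + (c1 + c2)) := by
    rw [← ((hQueue k p).2 b m).2, sum_mul, ← sum_add_distrib]
    refine sum_le_sum fun e he' => add_le_add ?_ (Nat.mul_le_mul_left _ (B.hh_mono h0 (by omega)))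
    have hem : e ≤ m := Nat.lt_succ_iff.1 (mem_range.1 he')
    rw [show γ + (m - e) + n = m + (c1 + c2) - e + b * d0 by omega]
    exact hE1 b _ e m (by omega)
  have h4 : goodT k p b m * hh π γ ≤
      ∑ e ∈ range (m + 1), finrank K (GG elN b (γ + (m - e)) e m) := by
    rw [← ((hQueue k p).2 b m).1, sum_mul]
    exact sum_le_sum fun e _ => (Nat.mul_le_mul_left _ (B.hh_mono h0 (by omega))).trans
      (hE2 b _ e m)
  rw [hn0] at h1 h3
  omega

end Pool.Agent.Lib.MP_45f16c_ag.VG

end partAlg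

section partUpper
/-! The upper bound for the space of jet differentials. -/

open MvPolynomial Module

namespace Pool.Agent.Lib.MP_45f16c_ag.VG

namespace UpperAux

variable {σ L : Type} [CommRing L] {ξ : σ → L}

theorem van_zero (r : ℕ) : Van ξ r 0 := by
  induction r with
  | zero => simp [Van]
  | succ r ih => exact ⟨by simp, fun v => by rwa [map_zero]⟩

theorem van_add {r : ℕ} : ∀ {P Q : MvPolynomial σ L}, Van ξ r P → Van ξ r Q → Van ξ r (P + Q) := by
  induction r with
  | zero => intro P Q hP hQ; simp only [Van] at *; rw [map_add, hP, hQ, add_zero]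
  | succ r ih =>
    intro P Q hP hQ
    exact ⟨by rw [map_add, hP.1, hQ.1, add_zero], fun v => by
      rw [map_add]; exact ih (hP.2 v) (hQ.2 v)⟩

theorem van_smul {r : ℕ} (a : L) : ∀ {P : MvPolynomial σ L}, Van ξ r P → Van ξ r (a • P) := by
  induction r with
  | zero => intro P hP; simp only [Van] at *; rw [smul_eval, hP, mul_zero]
  | succ r ih =>
    intro P hP
    exact ⟨by rw [smul_eval, hP.1, mul_zero], fun v => by
      rw [Derivation.map_smul]; exact ih (hP.2 v)⟩

end UpperAux

open UpperAux in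
theorem upperS (hCoord : CoordStmt) (hCoef : CoefStmt) (hWDim : WDimStmt) : UpperStmt := by
  intro k p d0 K L _ _ _ _ F gens π G el y ξ v0 hS hy h hv hξ T0 c m r hV
  have hc : ∀ P ∈ GamR d0 F el T0 c m, IsWeightedHomogeneous (wc k p) P m ∧
      ∀ α, coeff α P ∈ OO π (c - α.degree) := by
    rintro _ ⟨⟨q, hq, hw, rfl⟩, -⟩
    exact (hCoef k p d0 K L F gens π G 0 el hS h q hq).2.1 c m hw
  let W := Submodule.span L (GamR d0 F el T0 c m : Set (CC k p L))
  have hW : ∀ P ∈ W, IsWeightedHomogeneous (wc k p) P m ∧ Van ξ r P := fun P hP => by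
    induction hP using Submodule.span_induction with
    | mem x hx => exact ⟨(hc x hx).1, hV x hx⟩
    | zero => exact ⟨isWeightedHomogeneous_zero _ _ _, van_zero r⟩
    | add x y _ _ hx hy => exact ⟨hx.1.add hy.1, van_add hx.2 hy.2⟩
    | smul a x _ hx =>
      exact ⟨(weightedHomogeneousSubmodule L (wc k p) m).smul_mem a hx.1, van_smul a hx.2⟩
  have := B.fin_wc (k := k) (p := p) (K := L) m
  have : FiniteDimensional L W := Submodule.finiteDimensional_of_le
    (S₂ := weightedHomogeneousSubmodule L (wc k p) m) fun P hP => (hW P hP).1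
  refine (hCoord _ K L W _ (fun α => OO π (c - α.degree)) (hh π c)
    (fun α => ⟨inferInstance, B.hh_mono hy (Nat.sub_le _ _)⟩)
    (fun P hP => Submodule.subset_span hP) fun P hP => (hc P hP).2).trans ?_
  exact Nat.mul_le_mul_right _ (hWDim k p L ξ v0 m r W hv hξ hW)

end Pool.Agent.Lib.MP_45f16c_ag.VG

end partUpper

section partNonVan
/-! The lower bound beats the upper bound. -/

open MvPolynomial Module

namespace Pool.Agent.Lib.MP_45f16c_ag.VG

theorem nonVanS (hAlg : AlgStmt) (hUpper : UpperStmt) (hHilb : HilbStmt) (hCount : CountStmt) :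
    NonVanStmt := by
  intro p l k d0 hl hlp hp hk hd K L L' _ _ _ _ _ _ F π π' y el ξ v0 hS hS' h0 hy hP h hv hξ
  obtain ⟨c1, hA⟩ := hAlg k p d0 K L L' F π π' y el hS hS' h0 hy hP h
  obtain ⟨B0, hC⟩ := hCount p l k hl hlp hp hk v0 hv
  obtain ⟨b, hb⟩ : ∃ b, b = B0 + 12 + c1 + p := ⟨_, rfl⟩
  have hC' := hC b (by omega)
  set m := 30 * k * p * b with hm
  set r := 3000 * p * l * b with hr
  have hp1 : 1 ≤ p := by omega
  have hk1 : 1 ≤ k := by rw [hk]; exact Nat.mul_pos (by omega) (by omega)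
  have ha : 2 * (60 * k * p + 3000 * p * l * (7 * k + 1)) ≤ d0 := by
    refine le_trans ?_ hd
    have h1 : 3000 * p * l * (7 * k + 1) ≤ 3000 * p * l * (8 * k) :=
      Nat.mul_le_mul_left _ (by omega)
    have h2 : 2 * (p ^ 2 * l) ≤ p ^ 2 * l ^ 2 := by
      rw [pow_two l, ← mul_assoc (p ^ 2), mul_comm 2]; exact Nat.mul_le_mul_left _ hl
    have h3 : 60 * k * p = 960 * (p ^ 2 * l) := by rw [hk]; ring
    have h4 : 3000 * p * l * (8 * k) = 384000 * (p ^ 2 * l ^ 2) := by rw [hk]; ring
    rw [mul_assoc 800000]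
    omega
  have hd1 : 1 ≤ d0 := le_trans (by
    have : 0 < 60 * k * p := by positivity
    omega) ha
  have hb1 : 2 * (2 * m + r * (7 * k + 1)) ≤ b * d0 := by
    have := Nat.mul_le_mul_left b ha
    rw [hm, hr]; nlinarith
  have hb2 : 12 * d0 ≤ b * d0 := Nat.mul_le_mul_right _ (by omega)
  have hbm : b ≤ k * m := by
    rw [hm, show k * (30 * k * p * b) = (k * (30 * k * p)) * b by ring]
    exact Nat.le_mul_of_pos_left _ (by positivity)
  have hb3 : b * d0 ≤ k * m * d0 := Nat.mul_le_mul_right _ hbm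
  have hb4 : b ≤ b * d0 := Nat.le_mul_of_pos_right _ hd1
  obtain ⟨c, hc⟩ : ∃ c, c + m + r * (7 * k + 1) + 1 = k * m * d0 :=
    ⟨k * m * d0 - (m + r * (7 * k + 1) + 1), by omega⟩
  obtain ⟨g, hg⟩ : ∃ g, g + (d0 + 1) + 2 * m + r * (7 * k + 1) + 1 = b * d0 :=
    ⟨b * d0 - (d0 + 1 + 2 * m + r * (7 * k + 1) + 1), by omega⟩
  refine ⟨k * m, c, m, r, by omega, ?_⟩
  by_contra hV
  push Not at hV
  have h1 := hA m b c (g + (d0 + 1)) ?_ hbm (by omega) (by omega)
  swap
  · have : 2 * b ≤ b * d0 := by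
      rw [mul_comm]; refine Nat.mul_le_mul_left _ (le_trans ?_ ha)
      have : 0 < 60 * k * p := by positivity
      omega
    have : 120 * b ≤ b * d0 := by
      rw [mul_comm]; refine Nat.mul_le_mul_left _ (le_trans ?_ ha)
      have : 1 ≤ k * p := Nat.mul_pos hk1 hp1
      rw [mul_assoc 60]; omega
    omega
  have h2 := hUpper k p d0 K L F _ π _ el 0 ξ v0 hS h0 h hv hξ (k * m) c m r hV
  have hF : F ≠ 0 := fun e => hS.zne 0 (by rw [e, map_zero, map_zero])
  obtain ⟨h3, h4⟩ := hHilb p (d0 + 1) K L F π hp1 (by omega) hF hS.hom hS.ker g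
    (k * m * d0 + m + c1) (244 * k ^ 2 * p) (by
      have e1 : b * d0 ≤ 4 * g := by omega
      have e2 : k * m * d0 = 30 * (k ^ 2 * p * (b * d0)) := by rw [hm]; ring
      have e3 : m ≤ k * m * d0 := (Nat.le_mul_of_pos_left _ hk1).trans
        (Nat.le_mul_of_pos_right _ hd1)
      have e4 : b * d0 ≤ k ^ 2 * p * (b * d0) := Nat.le_mul_of_pos_left _ (by positivity)
      have e5 : k ^ 2 * p * (b * d0) ≤ k ^ 2 * p * (4 * g) := Nat.mul_le_mul_left _ e1
      have e6 : 244 * k ^ 2 * p * g = 61 * (k ^ 2 * p * (4 * g)) := by ring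
      omega)
  have h5 : hh π c ≤ hh π (k * m * d0 + m + c1) := B.hh_mono h0 (by omega)
  have h6 := Nat.mul_lt_mul_of_pos_right hC' h4
  have h7 := Nat.mul_le_mul_left (rho v0 m r + badT k p b m) h3
  have h8 := Nat.mul_le_mul_left (rho v0 m r) h5
  rw [mul_assoc] at h6
  rw [add_mul] at h7
  omega

end Pool.Agent.Lib.MP_45f16c_ag.VG

end partNonVan
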