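import Pool.Agent.Lib.MP_45f16c_ag.VG.B

/-! Very generic hyperbolicity: counting monomials. -/

set_option autoImplicit false

section partWDim
/-! Weighted homogeneous polynomials vanishing to high order at a regular point. -/

open MvPolynomial Module

namespace Pool.Agent.Lib.MP_45f16c_ag.VG

namespace WDimAux

variable {σ L : Type} [Field L]

/-- Translation. -/
noncomputable def tr (ξ : σ → L) : MvPolynomial σ L →ₐ[L] MvPolynomial σ L :=
  aeval fun v => X v + C (ξ v)

theorem eval_tr (ξ y : σ → L) (P : MvPolynomial σ L) : eval y (tr ξ P) = eval (y + ξ) P := by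
  induction P using MvPolynomial.induction_on with
  | C a => simp [tr]
  | add f g hf hg => simp only [map_add, hf, hg]
  | mul_X f v hf => rw [map_mul, map_mul, hf, map_mul]; simp [tr]

theorem pderiv_tr (ξ : σ → L) (v : σ) (P : MvPolynomial σ L) :
    pderiv v (tr ξ P) = tr ξ (pderiv v P) := by
  classical
  induction P using MvPolynomial.induction_on with
  | C a => simp [tr]
  | add f g hf hg => simp only [map_add, hf, hg]
  | mul_X f u hf =>
    simp only [map_mul, Derivation.leibniz, smul_eq_mul, map_add, hf]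
    by_cases h : u = v <;> simp [tr, pderiv_X, h]

theorem low [CharZero L] (ξ : σ → L) (r : ℕ) : ∀ P, Van ξ r P → ∀ β : σ →₀ ℕ, β.degree ≤ r →
    coeff β (tr ξ P) = 0 := by
  have h0 : ∀ P, eval ξ P = 0 → coeff 0 (tr ξ P) = 0 := fun P h => by
    have := eval_tr ξ 0 P
    rwa [zero_add, h, eval_zero] at this
  induction r with
  | zero =>
    intro P h β hβ
    rw [(Finsupp.degree_eq_zero_iff β).1 (Nat.le_zero.1 hβ)]
    exact h0 P h
  | succ r ih =>
    intro P h β hβ
    by_cases hb : β = 0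
    · rw [hb]; exact h0 P h.1
    obtain ⟨v, hv⟩ := Finsupp.support_nonempty_iff.2 hb
    have e : β = (β - Finsupp.single v 1) + Finsupp.single v 1 := by
      rw [tsub_add_cancel_of_le]
      exact Finsupp.single_le_iff.2 (Nat.one_le_iff_ne_zero.2 (Finsupp.mem_support_iff.1 hv))
    rw [e, map_add, Finsupp.degree_single] at hβ
    have := ih _ (h.2 v) _ (Nat.le_of_succ_le_succ hβ)
    rw [← pderiv_tr, coeff_pderiv, ← e] at this
    exact (mul_eq_zero.1 this).resolve_right (Nat.cast_add_one_ne_zero _)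

/-- All monomials have weight at most `n`. -/
def Wle (w : σ → ℕ) (n : ℕ) (P : MvPolynomial σ L) : Prop :=
  ∀ β ∈ P.support, Finsupp.weight w β ≤ n

theorem Wle.add {w : σ → ℕ} {n : ℕ} {P Q : MvPolynomial σ L} (h : Wle w n P) (h' : Wle w n Q) :
    Wle w n (P + Q) := by
  classical
  exact fun β hβ => (Finset.mem_union.1 (support_add hβ)).elim (h β) (h' β)

theorem Wle.mul {w : σ → ℕ} {n n' : ℕ} {P Q : MvPolynomial σ L} (h : Wle w n P) (h' : Wle w n' Q) :
    Wle w (n + n') (P * Q) := by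
  classical
  intro β hβ
  obtain ⟨a, ha, b, hb, rfl⟩ := Finset.mem_add.1 (support_mul P Q hβ)
  rw [map_add]
  exact add_le_add (h a ha) (h' b hb)

theorem Wle.of_hom {w : σ → ℕ} {n n' : ℕ} {P : MvPolynomial σ L}
    (h : IsWeightedHomogeneous w P n) (hn : n ≤ n') : Wle w n' P :=
  fun _ hβ => (h (mem_support_iff.1 hβ)).le.trans hn

theorem wle_mon (w : σ → ℕ) (ξ : σ → L) (a : L) (α : σ →₀ ℕ) :
    Wle w (Finsupp.weight w α) (tr ξ (monomial α a)) := by
  induction α using Finsupp.induction_linear generalizing a with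
  | zero =>
    rw [show (monomial 0 a : MvPolynomial σ L) = C a from rfl, tr, algHom_C]
    exact .of_hom (isWeightedHomogeneous_C _ _) (Nat.zero_le _)
  | add α β hα hβ =>
    rw [← mul_one a, ← monomial_mul, map_mul, map_add]
    exact (hα _).mul (hβ _)
  | single v n =>
    rw [← C_mul_X_pow_eq_monomial, map_mul, map_pow, Finsupp.weight_single, tr, algHom_C, aeval_X,
      ← zero_add (n • w v)]
    refine Wle.mul (.of_hom (isWeightedHomogeneous_C _ _) le_rfl) ?_
    induction n with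
    | zero => exact .of_hom (isWeightedHomogeneous_one _ _) (Nat.zero_le _)
    | succ n ih =>
      rw [pow_succ, succ_nsmul]
      exact ih.mul ((Wle.of_hom (isWeightedHomogeneous_X _ _ _) le_rfl).add
        (.of_hom (isWeightedHomogeneous_C _ _) (Nat.zero_le _)))

theorem wle_tr {w : σ → ℕ} (ξ : σ → L) {m : ℕ} {P : MvPolynomial σ L}
    (h : IsWeightedHomogeneous w P m) : Wle w m (tr ξ P) := by
  induction h using IsWeightedHomogeneous.induction_on with
  | zero => intro β hβ; simp at hβ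
  | add P Q _ _ hP hQ => rw [map_add]; exact hP.add hQ
  | monomial α a hα => exact hα ▸ wle_mon w ξ a α

theorem scale [Fintype σ] {w : σ → ℕ} {m : ℕ} {P : MvPolynomial σ L}
    (h : IsWeightedHomogeneous w P m) (x : σ → L) (l : L) :
    eval (fun v => l ^ w v * x v) P = l ^ m * eval x P := by
  rw [eval_eq', eval_eq', Finset.mul_sum]
  refine Finset.sum_congr rfl fun γ hγ => ?_
  have h := h (mem_support_iff.1 hγ)
  rw [Finsupp.weight_apply, Finsupp.sum_fintype _ _ (by simp)] at h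
  simp only [mul_pow, Finset.prod_mul_distrib, ← pow_mul, Finset.prod_pow_eq_pow_sum]
  rw [← h, mul_left_comm]
  simp only [smul_eq_mul, mul_comm]

theorem inj [Fintype σ] [CharZero L] {w : σ → ℕ} {m : ℕ} {P : MvPolynomial σ L} {ξ : σ → L}
    {v0 : σ} (h1 : w v0 = 1) (hξ : ξ v0 ≠ 0) (h : IsWeightedHomogeneous w P m)
    (hz : ∀ β : σ →₀ ℕ, β v0 = 0 → coeff β (tr ξ P) = 0) : P = 0 := by
  have : Infinite L := Infinite.of_injective _ Nat.cast_injective
  have key : ∀ y : σ → L, y v0 = ξ v0 → eval y P = 0 := fun y hy => by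
    rw [← sub_add_cancel y ξ, ← eval_tr, eval_eq']
    refine Finset.sum_eq_zero fun β hβ => ?_
    rw [Finset.prod_eq_zero (Finset.mem_univ v0), mul_zero]
    rw [Pi.sub_apply, hy, sub_self]
    exact zero_pow fun e => mem_support_iff.1 hβ (hz β e)
  refine (mul_eq_zero.1 (MvPolynomial.funext (p := X v0 * P) fun x => ?_)).resolve_left
    (X_ne_zero v0)
  rw [map_mul, eval_X, map_zero]
  by_cases hx : x v0 = 0
  · rw [hx, zero_mul]
  have := scale h x (ξ v0 / x v0)
  rw [key _ (by simp only [h1, pow_one]; exact div_mul_cancel₀ _ hx)] at this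
  rw [(mul_eq_zero.1 this.symm).resolve_left (pow_ne_zero _ (div_ne_zero hξ hx)), mul_zero]

end WDimAux

open WDimAux in
theorem wdimS : WDimStmt := by
  intro k p L _ _ ξ v0 m r W hv hξ hW
  have hf : {β : Ch k p →₀ ℕ | β v0 = 0 ∧ Finsupp.weight (wc k p) β ≤ m ∧ r < β.degree}.Finite :=
    (Finsupp.finite_of_nat_weight_le (wc k p) (fun v => Nat.succ_ne_zero _) m).subset
      fun β h => h.2.1
  let Λ : W →ₗ[L] (hf.toFinset → L) :=
    (LinearMap.pi fun β => lcoeff L β.1) ∘ₗ (tr ξ).toLinearMap ∘ₗ W.subtype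
  have hΛ : Function.Injective Λ := by
    refine (injective_iff_map_eq_zero Λ).2 fun P hP => Subtype.ext ?_
    obtain ⟨h1, h2⟩ := hW P P.2
    refine inj (w := wc k p) (by simp [wc, hv]) hξ h1 fun β hβ => ?_
    by_contra hne
    refine hne (congrFun hP ⟨β, hf.mem_toFinset.2 ⟨hβ, wle_tr ξ h1 β (mem_support_iff.2 hne), ?_⟩⟩)
    exact not_le.1 fun hle => hne (low ξ r P h2 β hle)
  have := LinearMap.finrank_le_finrank_of_injective hΛ
  rwa [finrank_fintype_fun_eq_card, Fintype.card_coe, ← Set.ncard_eq_toFinset_card _ hf] at this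

end Pool.Agent.Lib.MP_45f16c_ag.VG

end partWDim

section partRankin
/-! Rankin's bound. -/

open Finset

namespace Pool.Agent.Lib.MP_45f16c_ag.VG

namespace RankinAux

theorem geom {u : ℝ} (hu : 0 < u) (N : ℕ) :
    ∑ n ∈ range N, Real.exp (-(u * n)) ≤ Real.exp u / u := by
  have h1 : Real.exp (-u) < 1 := Real.exp_lt_one_iff.2 (by linarith)
  have h2 := mul_neg_geom_sum (Real.exp (-u)) N
  have h3 : ∑ n ∈ range N, Real.exp (-(u * n)) = ∑ n ∈ range N, Real.exp (-u) ^ n :=
    sum_congr rfl fun n _ => by rw [← Real.exp_nat_mul]; congr 1; ring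
  have h4 : 0 ≤ ∑ n ∈ range N, Real.exp (-u) ^ n := sum_nonneg fun _ _ => by positivity
  have h5 : Real.exp u * Real.exp (-u) = 1 := by rw [← Real.exp_add]; simp
  have h6 := Real.add_one_le_exp u
  have h7 : 0 ≤ Real.exp (-u) ^ N := by positivity
  have h8 := Real.exp_pos u
  rw [h3, le_div_iff₀ hu]
  set S := ∑ n ∈ range N, Real.exp (-u) ^ n
  have h9 : (Real.exp u - 1) * S = Real.exp u * (1 - Real.exp (-u) ^ N) := by
    rw [← h2]; linear_combination S * h5
  nlinarith [mul_nonneg h8.le h7]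

end RankinAux

open RankinAux in
theorem rankinS : RankinStmt := by
  intro ι U u τ hu
  classical
  set S := {β : ι →₀ ℕ | (∀ v ∉ U, β v = 0) ∧ ∑ v ∈ U, u v * β v ≤ τ} with hS
  obtain ⟨N, hN⟩ : ∃ N : ℕ, ∀ v ∈ U, τ < u v * N := by
    obtain ⟨N, hN⟩ := exists_nat_gt (∑ v ∈ U, |τ| / u v)
    refine ⟨N, fun v hv => ?_⟩
    have := (single_le_sum (f := fun v => |τ| / u v)
      (fun v hv => div_nonneg (abs_nonneg τ) (hu v hv).le) hv).trans_lt hN
    rw [div_lt_iff₀ (hu v hv)] at this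
    linarith [le_abs_self τ]
  let r : (ι →₀ ℕ) → U → ℕ := fun β v => β v
  have inj : Set.InjOn r S := fun β hβ β' hβ' e => Finsupp.ext fun v => by
    by_cases hv : v ∈ U
    · exact congrFun e ⟨v, hv⟩
    · rw [hβ.1 v hv, hβ'.1 v hv]
  let T := (Fintype.piFinset fun _ : U => range N).filter fun f => ∑ v : U, u v * f v ≤ τ
  have maps : ∀ β ∈ S, r β ∈ (T : Set (U → ℕ)) := fun β hβ => by
    refine mem_coe.2 (mem_filter.2 ⟨Fintype.mem_piFinset.2 fun v => mem_range.2 ?_, ?_⟩)
    · have h1 := (single_le_sum (f := fun v => u v * β v)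
        (fun v hv => mul_nonneg (hu v hv).le (Nat.cast_nonneg _)) v.2).trans hβ.2
      exact_mod_cast lt_of_mul_lt_mul_left (h1.trans_lt (hN v v.2)) (hu v v.2).le
    · rw [sum_coe_sort U fun v => u v * β v]; exact hβ.2
  refine ⟨Set.Finite.of_injOn maps inj T.finite_toSet, ?_⟩
  have h1 : S.ncard ≤ T.card := by
    simpa using Set.ncard_le_ncard_of_injOn r maps inj T.finite_toSet
  refine (Nat.cast_le.2 h1).trans ?_
  calc (T.card : ℝ) = ∑ f ∈ T, (1 : ℝ) := by simp
    _ ≤ ∑ f ∈ T, Real.exp τ * ∏ v : U, Real.exp (-(u v * f v)) := sum_le_sum fun f hf => by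
        rw [← Real.exp_sum, ← Real.exp_add, sum_neg_distrib]
        exact Real.one_le_exp (by linarith [(mem_filter.1 hf).2])
    _ ≤ ∑ f ∈ Fintype.piFinset fun _ : U => range N,
        Real.exp τ * ∏ v : U, Real.exp (-(u v * f v)) :=
        sum_le_sum_of_subset_of_nonneg (filter_subset _ _) fun _ _ _ => by positivity
    _ = Real.exp τ * ∏ v : U, ∑ n ∈ range N, Real.exp (-(u v * n)) := by
        rw [← mul_sum, prod_univ_sum]
    _ ≤ Real.exp τ * ∏ v : U, (Real.exp (u v) / u v) := by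
        gcongr with v
        exact geom (hu v v.2) N
    _ = _ := by
        rw [prod_coe_sort U fun v => Real.exp (u v) / u v, prod_div_distrib, Real.exp_add,
          Real.exp_sum, mul_div_assoc]

end Pool.Agent.Lib.MP_45f16c_ag.VG

end partRankin

section partTot
/-! Lower bound for the number of monomials. -/

open Finset

namespace Pool.Agent.Lib.MP_45f16c_ag.VG

namespace TotAux

theorem fact_le {D : ℕ} (hD : 0 < D) :
    (D.factorial : ℝ) ≤ Real.exp 1 * D * (D / Real.exp 1) ^ D := by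
  obtain ⟨n, rfl⟩ := Nat.exists_eq_succ_of_ne_zero hD.ne'
  have h := Stirling.stirlingSeq'_antitone (Nat.zero_le n)
  simp only [Function.comp, Nat.succ_eq_add_one, zero_add, Stirling.stirlingSeq_one] at h
  have h1 : (1 : ℝ) ≤ (n + 1 : ℕ) := by exact_mod_cast hD
  rw [Stirling.stirlingSeq, div_le_iff₀ (by positivity), Real.sqrt_mul (by norm_num)] at h
  refine h.trans ?_
  have h2 : √((n + 1 : ℕ) : ℝ) ≤ (n + 1 : ℕ) := Real.sqrt_le_iff.2 ⟨by positivity, by nlinarith⟩
  calc _ = Real.exp 1 * √((n + 1 : ℕ) : ℝ) * (((n + 1 : ℕ) : ℝ) / Real.exp 1) ^ (n + 1) := by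
        field_simp
    _ ≤ _ := by gcongr

theorem count {ι : Type} [Fintype ι] [DecidableEq ι] (w : ι → ℕ) (hw : ∀ v, w v ≠ 0) (v0 : ι)
    (h0 : w v0 = 1) (m : ℕ) : (Fintype.card ι + m - 1).choose m ≤
      (∏ v ∈ univ.erase v0, w v) * {α : ι →₀ ℕ | Finsupp.weight w α = m}.ncard := by
  have hf := Finsupp.finite_of_nat_weight_eq w hw m
  let f : (ι →₀ ℕ) → ι →₀ ℕ := fun γ => Finsupp.equivFunOnFinite.symm fun v =>
    if v = v0 then m - ∑ u ∈ univ.erase v0, γ u / w u * w u else γ v / w v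
  rw [Set.ncard_eq_toFinset_card _ hf, ← card_univ, ← card_finsuppAntidiag_nat_eq_choose]
  refine card_le_mul_card_image_of_maps_to (f := f) (fun γ hγ => ?_) _ fun α _ => ?_
  · have h1 := (mem_finsuppAntidiag.1 hγ).1
    have h2 : ∑ u ∈ univ.erase v0, γ u / w u * w u ≤ m := by
      rw [← h1]
      exact (sum_le_sum fun u _ => Nat.div_mul_le_self _ _).trans
        (sum_le_sum_of_subset (erase_subset _ _))
    rw [Set.Finite.mem_toFinset, Set.mem_ofPred_eq, Finsupp.weight_apply,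
      Finsupp.sum_fintype _ _ (by simp), ← add_sum_erase _ _ (mem_univ v0),
      sum_congr rfl (g := fun u => γ u / w u * w u) fun u hu => by simp [f, ne_of_mem_erase hu]]
    simp only [f, Finsupp.equivFunOnFinite_symm_apply_apply, if_true, h0, smul_eq_mul]
    omega
  · rw [← mul_one (∏ v ∈ univ.erase v0, w v), ← h0, prod_erase_mul _ _ (mem_univ v0),
      prod_congr rfl fun v _ => (card_range (w v)).symm, ← Fintype.card_piFinset]
    refine card_le_card_of_injOn (fun γ v => γ v % w v) (fun γ _ => mem_coe.2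
      (Fintype.mem_piFinset.2 fun v => mem_range.2 (Nat.mod_lt _ (Nat.pos_of_ne_zero (hw v)))))
      fun γ hγ γ' hγ' e => ?_
    obtain ⟨a1, a2⟩ := mem_filter.1 (mem_coe.1 hγ)
    obtain ⟨b1, b2⟩ := mem_filter.1 (mem_coe.1 hγ')
    have key : ∀ v ∈ univ.erase v0, γ v = γ' v := fun v hv => by
      have e1 := DFunLike.congr_fun (a2.trans b2.symm) v
      simp only [f, Finsupp.equivFunOnFinite_symm_apply_apply, ne_of_mem_erase hv, if_false] at e1
      rw [← Nat.div_add_mod (γ v) (w v), ← Nat.div_add_mod (γ' v) (w v), e1,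
        show γ v % w v = γ' v % w v from congrFun e v]
    have c1 := (mem_finsuppAntidiag.1 a1).1
    have c2 := (mem_finsuppAntidiag.1 b1).1
    rw [← add_sum_erase _ _ (mem_univ v0)] at c1 c2
    rw [sum_congr rfl key] at c1
    refine Finsupp.ext fun v => ?_
    by_cases hv : v = v0
    · rw [hv]; exact Nat.add_right_cancel (c1.trans c2.symm)
    · exact key v (mem_erase.2 ⟨hv, mem_univ v⟩)

end TotAux

open TotAux in
theorem totS : TotStmt := by
  intro k p v0 b m hv hkp
  have hw : ∀ v, wc k p v ≠ 0 := fun v => Nat.succ_ne_zero _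
  have h1 := count (wc k p) hw v0 (by simp [wc, hv]) m
  have hf := Finsupp.finite_of_nat_weight_eq (wc k p) hw m
  have h2 : {α : Ch k p →₀ ℕ | Finsupp.weight (wc k p) α = m}.ncard =
      goodT k p b m + badT k p b m := by
    rw [goodT, badT, ← Set.ncard_union_eq (Set.disjoint_left.2 fun α h h' => h'.2 h.2)
      (hf.subset fun α h => h.1) (hf.subset fun α h => h.1)]
    congr 1
    ext α
    simp only [Set.mem_ofPred_eq, Set.mem_union]
    tauto
  obtain ⟨D, hD⟩ : ∃ D, k * p = D + 1 := ⟨k * p - 1, by omega⟩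
  have hD0 : 0 < D := by omega
  rw [h2, Fintype.card_prod, Fintype.card_fin, Fintype.card_fin, hD,
    show D + 1 + m - 1 = m + D by omega, Nat.choose_symm_add] at h1
  have h3 : m ^ D ≤ D.factorial * (m + D).choose D := by
    rw [← Nat.ascFactorial_eq_factorial_mul_choose]
    exact (Nat.pow_le_pow_left (Nat.le_succ m) D).trans (Nat.pow_succ_le_ascFactorial _ _)
  have h4 : (m : ℝ) ^ D ≤ D.factorial * ((∏ v ∈ univ.erase v0, (wc k p v : ℝ)) *
      (goodT k p b m + badT k p b m)) := by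
    exact_mod_cast h3.trans (Nat.mul_le_mul_left _ h1)
  have hP : 0 < ∏ v ∈ univ.erase v0, (wc k p v : ℝ) :=
    prod_pos fun v _ => Nat.cast_pos.2 (Nat.succ_pos _)
  have hD' : (0 : ℝ) < D := Nat.cast_pos.2 hD0
  rw [YY, hD, Nat.add_sub_cancel, div_le_iff₀ hP]
  calc (Real.exp 1 * m / D) ^ D = (m : ℝ) ^ D / (D / Real.exp 1) ^ D := by
        rw [← div_pow]; congr 1; field_simp
    _ ≤ _ := by
        rw [div_le_iff₀ (by positivity)]
        refine h4.trans ((mul_le_mul_of_nonneg_right (fact_le hD0) (by positivity)).trans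
          (le_of_eq (by ring)))

end Pool.Agent.Lib.MP_45f16c_ag.VG

end partTot

section partRho
/-! Monomials of large degree. -/

open Finset

namespace Pool.Agent.Lib.MP_45f16c_ag.VG

namespace RhoAux

theorem col (k : ℕ) : ∏ s ∈ range (k + 1), (((s + 1 : ℕ) : ℝ) / ((s + 1 : ℕ) - 1 / 2)) ≤
    2 * (k + 1 : ℕ) := by
  induction k with
  | zero => norm_num
  | succ k ih =>
    rw [prod_range_succ]
    have hk : (0 : ℝ) ≤ k := Nat.cast_nonneg k
    refine (mul_le_mul_of_nonneg_right ih (by push_cast; apply div_nonneg <;> linarith)).trans ?_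
    push_cast
    rw [← mul_div_assoc, div_le_iff₀ (by linarith)]
    nlinarith

theorem cells {k p : ℕ} (hk : 0 < k) (U : Finset (Ch k p)) :
    ∏ v ∈ U, ((wc k p v : ℝ) / (wc k p v - 1 / 2)) ≤ (2 * k) ^ p := by
  have h1 : ∀ v, (1 : ℝ) ≤ (wc k p v : ℝ) / (wc k p v - 1 / 2) := fun v => by
    have : (0 : ℝ) ≤ v.1.val := Nat.cast_nonneg _
    rw [le_div_iff₀ (by simp only [wc]; push_cast; linarith)]
    linarith
  refine (prod_le_prod_of_subset_of_one_le (subset_univ U) (fun v _ => zero_le_one.trans (h1 v))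
    fun v _ _ => h1 v).trans ?_
  rw [Fintype.prod_prod_type_right]
  simp only [wc, prod_const, card_univ, Fintype.card_fin]
  obtain ⟨k, rfl⟩ := Nat.exists_eq_succ_of_ne_zero hk.ne'
  rw [Fin.prod_univ_eq_prod_range (fun s => (((s + 1 : ℕ) : ℝ) / ((s + 1 : ℕ) - 1 / 2)))]
  exact pow_le_pow_left₀ (prod_nonneg fun s _ => by
    have : (0 : ℝ) ≤ s := Nat.cast_nonneg _
    push_cast; apply div_nonneg <;> linarith) (col k) p

theorem card_U {k p : ℕ} (v0 : Ch k p) : (univ.erase v0).card = k * p - 1 := by simp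

theorem sum_U {k p : ℕ} {v0 : Ch k p} {β : Ch k p →₀ ℕ} (h : β v0 = 0) (w : Ch k p → ℕ) :
    ∑ v ∈ univ.erase v0, (w v : ℝ) * β v = Finsupp.weight w β := by
  rw [Finsupp.weight_apply, Finsupp.sum_fintype _ _ (by simp), 
    ← sum_erase (f := fun v => β v • w v) (a := v0) univ (by simp [h])]
  push_cast [smul_eq_mul]
  exact sum_congr rfl fun v _ => mul_comm _ _

theorem wc_le {k p : ℕ} (v : Ch k p) : (1 : ℝ) ≤ wc k p v ∧ (wc k p v : ℝ) ≤ k :=
  ⟨by exact_mod_cast Nat.le_add_left 1 _, by exact_mod_cast v.1.2⟩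

theorem small {k p m : ℕ} (hm : 16 * (k * p) ^ 2 * k ≤ m) (hm0 : (0 : ℝ) < m) :
    ((k * p - 1 : ℕ) : ℝ) * (((k * p - 1 : ℕ) : ℝ) / m * (16 * k)) ≤ 1 := by
  have h1 : ((k * p - 1 : ℕ) : ℝ) ≤ (k * p : ℕ) := Nat.cast_le.2 (Nat.sub_le _ _)
  have h2 : ((16 * (k * p) ^ 2 * k : ℕ) : ℝ) ≤ m := Nat.cast_le.2 hm
  rw [div_mul_eq_mul_div, ← mul_div_assoc, div_le_one hm0]
  refine le_trans ?_ h2
  push_cast at h1 ⊢
  have : ((k * p - 1 : ℕ) : ℝ) * ((k * p - 1 : ℕ) : ℝ) ≤ (k * p : ℝ) * (k * p) :=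
    mul_le_mul h1 h1 (Nat.cast_nonneg _) (by positivity)
  nlinarith [Nat.cast_nonneg (α := ℝ) k]

theorem YY_eq {k p : ℕ} (v0 : Ch k p) {m : ℕ} (hD : (0 : ℝ) < (k * p - 1 : ℕ)) (hm : (0 : ℝ) < m) :
    YY v0 m = Real.exp (k * p - 1 : ℕ) /
      ∏ v ∈ univ.erase v0, (((k * p - 1 : ℕ) : ℝ) / m * wc k p v) := by
  rw [YY, prod_mul_distrib, prod_const, card_U, mul_div_assoc, mul_pow, ← Real.exp_nat_mul,
    mul_one, div_pow, div_pow]
  field_simp

end RhoAux

open RhoAux in
theorem rhoS (hR : RankinStmt) : RhoStmt := by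
  intro k p v0 m r hkp hm
  have hk : 0 < k := Nat.pos_of_ne_zero fun e => by simp [e] at hkp
  have hm0 : (0 : ℝ) < m := by
    have : 0 < 16 * (k * p) ^ 2 * k := by positivity
    exact_mod_cast this.trans_le hm
  have hD : (0 : ℝ) < (k * p - 1 : ℕ) := by exact_mod_cast (by omega : 0 < k * p - 1)
  have hs := small hm hm0
  rw [YY_eq v0 hD hm0]
  set D : ℝ := ((k * p - 1 : ℕ) : ℝ) with hDd
  set θ := D / m with hθ
  have hθ0 : 0 < θ := div_pos hD hm0
  have hu : ∀ v : Ch k p, 0 < θ * (wc k p v - 1 / 2) := fun v =>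
    mul_pos hθ0 (by linarith [(wc_le v).1])
  obtain ⟨h1, h2⟩ := hR _ (univ.erase v0) (fun v => θ * (wc k p v - 1 / 2)) (D - D * r / (2 * m))
    fun v _ => hu v
  refine (Nat.cast_le.2 (Set.ncard_le_ncard ?_ h1)).trans (h2.trans ?_)
  · rintro β ⟨b1, b2, b3⟩
    refine ⟨fun v hv => by simpa [show v = v0 by simpa using hv] using b1, ?_⟩
    have e1 := sum_U b1 (wc k p)
    have e2 := sum_U b1 fun _ => 1
    rw [← Finsupp.degree_eq_weight_one] at e2
    have e3 : ∑ v ∈ univ.erase v0, θ * (wc k p v - 1 / 2) * β v =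
        θ * (Finsupp.weight (wc k p) β - 1 / 2 * β.degree) := by
      rw [← e1, ← e2, mul_sum, ← sum_sub_distrib, mul_sum]
      exact sum_congr rfl fun v _ => by simp; ring
    have b2' : (Finsupp.weight (wc k p) β : ℝ) ≤ m := by exact_mod_cast b2
    have b3' : (r : ℝ) ≤ β.degree := by exact_mod_cast b3.le
    rw [e3, show D - D * r / (2 * m) = θ * (m - 1 / 2 * r) by rw [hθ]; field_simp]
    exact mul_le_mul_of_nonneg_left (by linarith) hθ0.le
  · have e1 : ∑ v ∈ univ.erase v0, θ * (wc k p v - 1 / 2) ≤ 1 := by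
      refine (sum_le_card_nsmul _ _ (θ * (16 * k)) fun v _ => mul_le_mul_of_nonneg_left
        (by linarith [(wc_le v).1, (wc_le v).2]) hθ0.le).trans ?_
      rwa [card_U, nsmul_eq_mul]
    have e2 : ∏ v ∈ univ.erase v0, θ * wc k p v ≤
        (2 * k) ^ p * ∏ v ∈ univ.erase v0, θ * (wc k p v - 1 / 2) := by
      refine le_trans (le_of_eq ?_) (mul_le_mul_of_nonneg_right (cells hk (univ.erase v0))
        (prod_nonneg fun v _ => (hu v).le))
      rw [← prod_mul_distrib]
      refine prod_congr rfl fun v _ => ?_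
      have : (wc k p v : ℝ) - 1 / 2 ≠ 0 := by linarith [(wc_le v).1]
      rw [mul_left_comm, div_mul_cancel₀ _ this]
    have p1 : 0 < ∏ v ∈ univ.erase v0, θ * wc k p v :=
      prod_pos fun v _ => mul_pos hθ0 (by linarith [(wc_le v).1])
    rw [← mul_div_assoc, div_le_div_iff₀ (prod_pos fun v _ => hu v) p1]
    have e3 : Real.exp (D - D * r / (2 * m) + ∑ v ∈ univ.erase v0, θ * (wc k p v - 1 / 2)) ≤
        Real.exp 1 * Real.exp (-(D * r / (2 * m))) * Real.exp D := by
      rw [← Real.exp_add, ← Real.exp_add]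
      exact Real.exp_le_exp.2 (by linarith)
    refine (mul_le_mul e3 e2 p1.le (by positivity)).trans (le_of_eq (by ring))

end Pool.Agent.Lib.MP_45f16c_ag.VG

end partRho

section partBad
/-! Bad monomials. -/

open Finset

namespace Pool.Agent.Lib.MP_45f16c_ag.VG

namespace BadAux

theorem erase_inj {k p m : ℕ} {v0 : Ch k p} (hv : v0.1.val = 0) :
    Set.InjOn (Finsupp.erase v0) {α : Ch k p →₀ ℕ | Finsupp.weight (wc k p) α = m} := by
  intro α hα β hβ e
  have h1 := congrArg (Finsupp.weight (wc k p)) (Finsupp.erase_add_single v0 α)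
  have h2 := congrArg (Finsupp.weight (wc k p)) (Finsupp.erase_add_single v0 β)
  rw [map_add, Finsupp.weight_single] at h1 h2
  simp only [Set.mem_ofPred_eq] at hα hβ
  simp only [wc, hv, smul_eq_mul] at h1 h2
  rw [← Finsupp.erase_add_single v0 α, ← Finsupp.erase_add_single v0 β, e,
    show α v0 = β v0 by rw [e] at h1; omega]

theorem erase_le {k p : ℕ} (v0 : Ch k p) (α : Ch k p →₀ ℕ) :
    Finsupp.weight (wc k p) (α.erase v0) ≤ Finsupp.weight (wc k p) α := by
  conv_rhs => rw [← Finsupp.erase_add_single v0 α, map_add]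
  exact Nat.le_add_right _ _

end BadAux

open RhoAux BadAux in
theorem badS (hR : RankinStmt) (hQ : QueueStmt) : BadStmt := by
  intro k p v0 b m hv hkp hm
  have hk : 0 < k := Nat.pos_of_ne_zero fun e => by simp [e] at hkp
  have hp : 0 < p := Nat.pos_of_ne_zero fun e => by simp [e] at hkp
  have hm0 : (0 : ℝ) < m := by
    have : 0 < 16 * (k * p) ^ 2 * k := by positivity
    exact_mod_cast this.trans_le hm
  have hD : (0 : ℝ) < (k * p - 1 : ℕ) := by exact_mod_cast (by omega : 0 < k * p - 1)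
  have hs := small hm hm0
  rw [YY_eq v0 hD hm0]
  set D : ℝ := ((k * p - 1 : ℕ) : ℝ) with hDd
  set θ := D / m with hθ
  have hθ0 : 0 < θ := div_pos hD hm0
  have hk' : (0 : ℝ) < k := Nat.cast_pos.2 hk
  obtain ⟨col, hcol⟩ := (hQ k p).1 hp
  let Z : Finset (Fin k) → Finset (Ch k p) := fun T => (T.image fun s => (s, col T s)).erase v0
  let u : Finset (Fin k) → Ch k p → ℝ := fun T v =>
    θ * wc k p v + if v ∈ Z T then 15 * θ * k else 0
  have hw : ∀ v, 0 < θ * wc k p v := fun v => mul_pos hθ0 (by linarith [(wc_le v).1])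
  have hu : ∀ T v, 0 < u T v := fun T v => add_pos_of_pos_of_nonneg (hw v) (by positivity)
  let S : Finset (Fin k) → Set (Ch k p →₀ ℕ) := fun T => {β | (∀ v ∉ univ.erase v0, β v = 0) ∧
    ∑ v ∈ univ.erase v0, u T v * β v ≤ D + 15 * θ * k * b}
  let I := univ.filter fun T : Finset (Fin k) => k + 1 ≤ T.card + p
  have hfin : ∀ T, (S T).Finite := fun T => (hR _ _ (u T) _ fun v _ => hu T v).1
  have h1 : badT k p b m ≤ ∑ T ∈ I, (S T).ncard := by
    refine le_trans (Set.ncard_le_ncard_of_injOn (t := ⋃ T ∈ I, S T) (Finsupp.erase v0) ?_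
      ((erase_inj hv).mono fun α hα => hα.1) (I.finite_toSet.biUnion fun T _ => hfin T))
      (Finset.set_ncard_biUnion_le I S)
    rintro α ⟨a1, a2⟩
    obtain ⟨T, t1, t2⟩ := hcol b α a2
    refine Set.mem_biUnion (mem_coe.2 (mem_filter.2 ⟨mem_univ T, t1⟩))
      ⟨fun v hv => by simp [show v = v0 by simpa using hv], ?_⟩
    have e1 := sum_U (β := α.erase v0) (v0 := v0) (by simp) (wc k p)
    have e2 : (Finsupp.weight (wc k p) (α.erase v0) : ℝ) ≤ m := by
      exact_mod_cast a1 ▸ erase_le v0 α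
    have e3 : ∑ v ∈ Z T, ((α.erase v0) v : ℝ) ≤ b := by
      have : ∑ v ∈ Z T, (α.erase v0) v ≤ ∑ s ∈ T, α (s, col T s) :=
        (sum_le_sum fun v hv => (Finsupp.erase_ne (ne_of_mem_erase hv)).le).trans
          ((sum_le_sum_of_subset (erase_subset _ _)).trans (le_of_eq
            (sum_image fun s _ s' _ e => congrArg Prod.fst e)))
      exact_mod_cast this.trans t2.le
    have e4 : ∑ v ∈ univ.erase v0, u T v * (α.erase v0) v =
        θ * Finsupp.weight (wc k p) (α.erase v0) + 15 * θ * k * ∑ v ∈ Z T, ((α.erase v0) v : ℝ) := by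
      simp only [u, add_mul, sum_add_distrib, ite_mul, zero_mul, mul_assoc θ, ← mul_sum, e1]
      rw [sum_ite_mem, inter_eq_right.2 (erase_subset_erase _ (subset_univ _)), mul_sum]
    rw [e4]
    refine add_le_add ?_ (mul_le_mul_of_nonneg_left e3 (by positivity))
    rw [show D = θ * m by rw [hθ]; field_simp]
    exact mul_le_mul_of_nonneg_left e2 hθ0.le
  have p1 : 0 < ∏ v ∈ univ.erase v0, θ * wc k p v := prod_pos fun v _ => hw v
  have h2 : ∀ T ∈ I, ((S T).ncard : ℝ) ≤ Real.exp 1 * Real.exp (15 * D * k * b / m) *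
      (16 ^ p / 16 ^ k) * (Real.exp D / ∏ v ∈ univ.erase v0, θ * wc k p v) := fun T hT => by
    refine (hR _ _ (u T) _ fun v _ => hu T v).2.trans ?_
    have e1 : ∑ v ∈ univ.erase v0, u T v ≤ 1 := by
      refine (sum_le_card_nsmul _ _ (θ * (16 * k)) fun v _ => ?_).trans
        (by rwa [card_U, nsmul_eq_mul])
      have := mul_le_mul_of_nonneg_left (wc_le v).2 hθ0.le
      have : 0 < θ * k := mul_pos hθ0 hk'
      simp only [u]
      split_ifs <;> linarith
    have e2 : 16 ^ (Z T).card * ∏ v ∈ univ.erase v0, θ * wc k p v ≤ ∏ v ∈ univ.erase v0, u T v := by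
      rw [← prod_const, ← inter_eq_right.2 (show Z T ⊆ univ.erase v0 from
        erase_subset_erase _ (subset_univ _)), ← prod_ite_mem, ← prod_mul_distrib]
      refine prod_le_prod (fun v _ => mul_nonneg (by split_ifs <;> norm_num) (hw v).le)
        fun v _ => ?_
      have := mul_le_mul_of_nonneg_left (wc_le v).2 hθ0.le
      simp only [u]
      split_ifs <;> linarith
    have e3 : (16 : ℝ) ^ k ≤ 16 ^ p * 16 ^ (Z T).card := by
      rw [← pow_add]
      refine pow_le_pow_right₀ (by norm_num) ?_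
      have a1 := (mem_filter.1 hT).2
      have a2 := pred_card_le_card_erase (s := T.image fun s => (s, col T s)) (a := v0)
      rw [card_image_of_injective _ fun s s' e => congrArg Prod.fst e] at a2
      simp only [Z]
      omega
    have e4 : Real.exp (D + 15 * θ * k * b + ∑ v ∈ univ.erase v0, u T v) ≤
        Real.exp 1 * Real.exp (15 * D * k * b / m) * Real.exp D := by
      rw [← Real.exp_add, ← Real.exp_add, show 15 * D * k * b / m = 15 * θ * k * b by
        rw [hθ]; ring]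
      exact Real.exp_le_exp.2 (by linarith)
    refine (div_le_div₀ (by positivity) e4 (by positivity) e2).trans ?_
    rw [div_le_iff₀ (by positivity)]
    have e5 : (1 : ℝ) ≤ 16 ^ p / 16 ^ k * 16 ^ (Z T).card := by
      rwa [div_mul_eq_mul_div, one_le_div (by positivity)]
    refine (le_mul_of_one_le_right (by positivity) e5).trans (le_of_eq ?_)
    field_simp
  refine (Nat.cast_le.2 h1).trans ?_
  rw [Nat.cast_sum]
  refine (sum_le_card_nsmul _ _ _ h2).trans ?_
  have : (I.card : ℝ) ≤ 2 ^ k := by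
    exact_mod_cast (card_filter_le _ _).trans (by simp)
  rw [nsmul_eq_mul]
  refine (mul_le_mul_of_nonneg_right this (by positivity)).trans (le_of_eq (by ring))

end Pool.Agent.Lib.MP_45f16c_ag.VG

end partBad

section partCount
/-! The numerical inequality. -/


namespace Pool.Agent.Lib.MP_45f16c_ag.VG

namespace CountAux

theorem nat_bounds {p l k : ℕ} (hl : 2 ≤ l) (hlp : l ≤ p) (hp : p ≤ 2 ^ l) (hk : k = 16 * p * l) :
    32 * (k * p) * (2 * k * (244 * k ^ 2 * p)) ^ p ≤ 2 ^ (22 * (p * l)) ∧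
    32 * (k * p) * (16 * (244 * k ^ 2 * p)) ^ p ≤ 2 ^ (19 * (p * l)) := by
  set y := 2 ^ l with hy
  have hy4 : 4 ≤ y := Nat.pow_le_pow_right (n := 2) (by norm_num) hl
  have h1 : k ≤ y ^ 4 := by
    calc k ≤ 16 * y * y := hk ▸ Nat.mul_le_mul (Nat.mul_le_mul_left _ hp) (hlp.trans hp)
      _ ≤ (y * y) * y * y := by gcongr; nlinarith
      _ = y ^ 4 := by ring
  have h244 : 244 ≤ y ^ 4 := le_trans (by norm_num) (Nat.pow_le_pow_left hy4 4)
  have h2 : 32 * (k * p) ≤ 2 ^ (4 * (p * l)) := by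
    calc 32 * (k * p) ≤ y ^ 3 * (y ^ 4 * y) := by
          gcongr
          exact le_trans (by norm_num) (Nat.pow_le_pow_left hy4 3)
      _ = 2 ^ (4 * (2 * l)) := by rw [hy]; ring
      _ ≤ _ := Nat.pow_le_pow_right (by norm_num) (by gcongr; omega)
  have h3 : 2 * k * (244 * k ^ 2 * p) ≤ 2 ^ (18 * l) := by
    calc 2 * k * (244 * k ^ 2 * p) ≤ y * y ^ 4 * (y ^ 4 * (y ^ 4) ^ 2 * y) := by gcongr; omega
      _ = _ := by rw [hy]; ring
  have h4 : 16 * (244 * k ^ 2 * p) ≤ 2 ^ (15 * l) := by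
    calc 16 * (244 * k ^ 2 * p) ≤ y ^ 2 * (y ^ 4 * (y ^ 4) ^ 2 * y) := by gcongr; nlinarith
      _ = _ := by rw [hy]; ring
  constructor
  · calc _ ≤ 2 ^ (4 * (p * l)) * (2 ^ (18 * l)) ^ p := by gcongr
      _ = _ := by ring
  · calc _ ≤ 2 ^ (4 * (p * l)) * (2 ^ (15 * l)) ^ p := by gcongr
      _ = _ := by ring

end CountAux

open CountAux in
theorem countS (hTot : TotStmt) (hRho : RhoStmt) (hBad : BadStmt) : CountStmt := by
  intro p l k hl hlp hp hk v0 hv
  refine ⟨k * k * p + 1, fun b hb => ?_⟩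
  have hp2 : 2 ≤ p := hl.trans hlp
  have hk1 : 1 ≤ k := by rw [hk]; exact Nat.mul_pos (by omega) (by omega)
  have hkp : 2 ≤ k * p := le_trans hp2 (Nat.le_mul_of_pos_left _ hk1)
  have hm : 16 * (k * p) ^ 2 * k ≤ 30 * k * p * b :=
    calc 16 * (k * p) ^ 2 * k = 16 * k * p * (k * k * p) := by ring
      _ ≤ 30 * k * p * b := by gcongr <;> omega
  have h1 := hTot k p v0 b (30 * k * p * b) hv hkp
  have h2 := hRho k p v0 _ (3000 * p * l * b) hkp hm
  have h3 := hBad k p v0 b _ hv hkp hm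
  obtain ⟨n1, n2⟩ := nat_bounds hl hlp hp hk
  have hD1 : ((k * p - 1 : ℕ) : ℝ) ≤ k * p := by exact_mod_cast Nat.sub_le _ _
  have hD2 : (k * p : ℝ) ≤ 2 * ((k * p - 1 : ℕ) : ℝ) := by exact_mod_cast (by omega)
  have hk' : (1 : ℝ) ≤ k := by exact_mod_cast hk1
  have hp' : (2 : ℝ) ≤ p := by exact_mod_cast hp2
  have hb' : (0 : ℝ) < b := by exact_mod_cast (by omega : 0 < b)
  have hD0 : (0 : ℝ) < ((k * p - 1 : ℕ) : ℝ) := by exact_mod_cast (by omega : 0 < k * p - 1)
  have hY : 0 < YY v0 (30 * k * p * b) := by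
    unfold YY
    refine div_pos (pow_pos (div_pos (mul_pos (Real.exp_pos 1) ?_) hD0) _)
      (Finset.prod_pos fun v _ => by simp only [wc]; positivity)
    push_cast; positivity
  set D : ℝ := ((k * p - 1 : ℕ) : ℝ)
  set Y := YY v0 (30 * k * p * b)
  have e2 : (2 : ℝ) ≤ Real.exp 1 := by linarith [Real.add_one_le_exp 1]
  have e8 : Real.exp 1 * Real.exp 1 ≤ 8 := by
    have := Real.exp_one_lt_d9
    nlinarith [Real.exp_pos 1]
  have x1 : Real.exp (-(D * (3000 * p * l * b : ℕ) / (2 * (30 * k * p * b : ℕ)))) ≤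
      1 / 2 ^ (25 * (p * l)) := by
    rw [Real.exp_neg, one_div]
    refine inv_anti₀ (by positivity) ((pow_le_pow_left₀ (by norm_num) e2 _).trans ?_)
    rw [← Real.exp_nat_mul]
    refine Real.exp_le_exp.2 ?_
    push_cast
    rw [le_div_iff₀ (by positivity)]
    have : (0 : ℝ) ≤ 1500 * p * l * b := by positivity
    nlinarith [mul_le_mul_of_nonneg_left hD2 this]
  have x2 : Real.exp (15 * D * k * b / (30 * k * p * b : ℕ)) ≤ 2 ^ k := by
    have a1 : Real.exp (1 / 2) ≤ 2 := by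
      have : Real.exp (1 / 2) * Real.exp (1 / 2) = Real.exp 1 := by rw [← Real.exp_add]; norm_num
      have := Real.exp_one_lt_d9
      nlinarith [Real.exp_pos (1 / 2)]
    refine le_trans ?_ (pow_le_pow_left₀ (Real.exp_pos _).le a1 k)
    rw [← Real.exp_nat_mul]
    refine Real.exp_le_exp.2 ?_
    push_cast
    rw [div_le_iff₀ (by positivity)]
    have : (0 : ℝ) ≤ 15 * k * b := by positivity
    nlinarith [mul_le_mul_of_nonneg_left hD1 this]
  have hpl : 1 ≤ p * l := Nat.mul_pos (by omega) (by omega)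
  set Λ : ℝ := (244 * k ^ 2 * p) ^ p with hΛ
  have hΛ1 : 1 ≤ Λ := one_le_pow₀ (by nlinarith [one_le_pow₀ (n := 2) hk'])
  have y1 : 32 * (k * p) * ((2 * k) ^ p * Λ) ≤ (1 / 2 : ℝ) * 2 ^ (25 * (p * l)) := by
    have : (32 * (k * p) * (2 * k * (244 * k ^ 2 * p)) ^ p : ℝ) ≤ 2 ^ (22 * (p * l)) := by
      exact_mod_cast n1
    rw [mul_pow] at this
    refine this.trans ?_
    rw [show 25 * (p * l) = (25 * (p * l) - 1) + 1 by omega, pow_succ]
    linarith [pow_le_pow_right₀ (one_le_two (α := ℝ)) (show 22 * (p * l) ≤ 25 * (p * l) - 1 by omega)]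
  have y2 : 32 * (k * p) * (16 ^ p * Λ) ≤ (1 / 2 : ℝ) * 4 ^ k := by
    have : (32 * (k * p) * (16 * (244 * k ^ 2 * p)) ^ p : ℝ) ≤ 2 ^ (19 * (p * l)) := by
      exact_mod_cast n2
    rw [mul_pow] at this
    refine this.trans ?_
    rw [show (4 : ℝ) ^ k = 2 ^ (32 * (p * l) - 1 + 1) by
      rw [show 32 * (p * l) - 1 + 1 = 2 * k by rw [hk, mul_assoc 16]; omega, pow_mul]; norm_num,
      pow_succ]
    linarith [pow_le_pow_right₀ (one_le_two (α := ℝ)) (show 19 * (p * l) ≤ 32 * (p * l) - 1 by omega)]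
  set ρ : ℝ := (rho v0 (30 * k * p * b) (3000 * p * l * b) : ℝ) with hρ
  set β : ℝ := (badT k p b (30 * k * p * b) : ℝ) with hβ
  set γ : ℝ := (goodT k p b (30 * k * p * b) : ℝ) with hγ
  have hE := Real.exp_pos 1
  have z1 : 8 * (Real.exp 1 * D) * (ρ * Λ) ≤ Y := by
    calc _ ≤ 8 * (Real.exp 1 * (k * p)) *
          (Real.exp 1 * (2 * k) ^ p * (1 / 2 ^ (25 * (p * l))) * Y * Λ) := by
          gcongr
          exact h2.trans (by gcongr)
      _ = (Real.exp 1 * Real.exp 1) * (8 * (k * p) * ((2 * k) ^ p * Λ)) *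
          (1 / 2 ^ (25 * (p * l))) * Y := by ring
      _ ≤ 8 * (1 / 8 * 2 ^ (25 * (p * l))) * (1 / 2 ^ (25 * (p * l))) * Y := by
          gcongr ?_ * ?_ * _ * _ <;> linarith
      _ = Y := by field_simp
  have z2 : 8 * (Real.exp 1 * D) * (β * Λ) ≤ Y := by
    calc _ ≤ 8 * (Real.exp 1 * (k * p)) *
          (2 ^ k * Real.exp 1 * 2 ^ k * (16 ^ p / 16 ^ k) * Y * Λ) := by
          gcongr
          exact h3.trans (by gcongr)
      _ = (Real.exp 1 * Real.exp 1) * (8 * (k * p) * (16 ^ p * Λ)) * (2 ^ k * 2 ^ k / 16 ^ k) * Y := by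
          ring
      _ ≤ 8 * (1 / 8 * 4 ^ k) * (2 ^ k * 2 ^ k / 16 ^ k) * Y := by
          gcongr ?_ * ?_ * _ * _ <;> linarith
      _ = Y := by
          rw [show (16 : ℝ) ^ k = 4 ^ k * (2 ^ k * 2 ^ k) by rw [← mul_pow, ← mul_pow]; norm_num]
          field_simp
  have hβ0 : 0 ≤ β := Nat.cast_nonneg _
  have z3 : β ≤ β * Λ := le_mul_of_one_le_right hβ0 hΛ1
  have z4 : (ρ + β) * Λ < γ := by
    refine lt_of_mul_lt_mul_left (a := Real.exp 1 * D) ?_ (by positivity)
    have := mul_le_mul_of_nonneg_left z3 (show 0 ≤ Real.exp 1 * D by positivity)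
    nlinarith
  rw [hρ, hβ, hγ, hΛ] at z4
  exact_mod_cast z4

end Pool.Agent.Lib.MP_45f16c_ag.VG

end partCount

section partQueue
/-! Disjoint diagonals or a small cut; splitting the counts by degree. -/


namespace Pool.Agent.Lib.MP_45f16c_ag.VG

namespace QueueAux

/-- The number of customers that left station `i` before time `s`. -/
def qa (B : ℕ) (f : ℕ → ℕ → ℕ) : ℕ → ℕ → ℕ
  | _, 0 => B
  | 0, _ + 1 => 0
  | s + 1, i + 1 => min (qa B f s (i + 1) + f s i) (qa B f s i)

variable {B : ℕ} {f : ℕ → ℕ → ℕ}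

theorem qa_zero (s : ℕ) : qa B f s 0 = B := by cases s <;> rfl

theorem qa_init (i : ℕ) : qa B f 0 (i + 1) = 0 := rfl

theorem qa_succ (s i : ℕ) :
    qa B f (s + 1) (i + 1) = min (qa B f s (i + 1) + f s i) (qa B f s i) := rfl

theorem qa_step {s : ℕ} (h : ∀ i, qa B f s (i + 1) ≤ qa B f s i) (i : ℕ) :
    qa B f s i ≤ qa B f (s + 1) i := by
  cases i with
  | zero => rw [qa_zero, qa_zero]
  | succ i => rw [qa_succ]; exact le_min (Nat.le_add_right _ _) (h i)

theorem qa_anti (s : ℕ) : ∀ i, qa B f s (i + 1) ≤ qa B f s i := by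
  induction s with
  | zero => intro i; rw [qa_init]; exact Nat.zero_le _
  | succ s ih => intro i; rw [qa_succ]; exact (min_le_right _ _).trans (qa_step ih i)

theorem qa_anti' (s : ℕ) : Antitone (qa B f s) := antitone_nat_of_succ_le (qa_anti s)

theorem qa_mono (i : ℕ) : Monotone fun s => qa B f s i :=
  monotone_nat_of_le_succ fun s => qa_step (qa_anti s) i

theorem exists_row {k i l : ℕ} (h : l < qa B f k (i + 1)) :
    ∃ s, s < k ∧ qa B f s (i + 1) ≤ l ∧ l < qa B f (s + 1) (i + 1) := by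
  induction k with
  | zero => rw [qa_init] at h; omega
  | succ k ih =>
    by_cases hk : l < qa B f k (i + 1)
    · obtain ⟨s, hs, h2⟩ := ih hk
      exact ⟨s, by omega, h2⟩
    · exact ⟨k, by omega, by omega, h⟩

/-- The number of rows strictly between `u` and `s` that are not in `T`. -/
def cnt (T : Finset ℕ) (u s : ℕ) : ℕ := ((Finset.Ioo u s).filter fun x => x ∉ T).card

theorem cnt_self (T : Finset ℕ) (s : ℕ) : cnt T s (s + 1) = 0 := by
  rw [cnt, Finset.card_eq_zero]
  ext x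
  simp only [Finset.mem_filter, Finset.mem_Ioo, Finset.notMem_empty, iff_false]
  omega

theorem cnt_insert (T : Finset ℕ) (u s : ℕ) : cnt (insert s T) u (s + 1) = cnt T u s := by
  unfold cnt
  refine congrArg Finset.card ?_
  ext x
  simp only [Finset.mem_filter, Finset.mem_Ioo, Finset.mem_insert, not_or]
  constructor
  · rintro ⟨⟨h1, h2⟩, h3, h4⟩
    exact ⟨⟨h1, by omega⟩, h4⟩
  · rintro ⟨⟨h1, h2⟩, h4⟩
    exact ⟨⟨h1, by omega⟩, by omega, h4⟩

theorem cnt_succ {T : Finset ℕ} {u s : ℕ} (hu : u < s) (hs : s ∉ T) :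
    cnt T u (s + 1) = cnt T u s + 1 := by
  unfold cnt
  rw [← Finset.card_insert_of_notMem (a := s) (by simp)]
  refine congrArg Finset.card ?_
  ext x
  simp only [Finset.mem_filter, Finset.mem_Ioo, Finset.mem_insert]
  constructor
  · rintro ⟨⟨h1, h2⟩, h4⟩
    by_cases hx : x = s
    · exact Or.inl hx
    · exact Or.inr ⟨⟨h1, by omega⟩, h4⟩
  · rintro (rfl | ⟨⟨h1, h2⟩, h4⟩)
    · exact ⟨⟨hu, by omega⟩, hs⟩
    · exact ⟨⟨h1, by omega⟩, h4⟩

theorem cut (s : ℕ) : ∀ i, qa B f s i < B → ∃ T : Finset ℕ, (∀ u ∈ T, u < s) ∧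
    s + 1 ≤ T.card + i ∧ ∑ u ∈ T, f u (i - 1 - cnt T u s) ≤ qa B f s i := by
  induction s with
  | zero =>
    intro i h
    cases i with
    | zero => rw [qa_zero] at h; omega
    | succ i => exact ⟨∅, by simp, by simp, by simp⟩
  | succ s ih =>
    intro i h
    cases i with
    | zero => rw [qa_zero] at h; omega
    | succ i =>
      rw [qa_succ] at h ⊢
      rcases le_total (qa B f s (i + 1) + f s i) (qa B f s i) with h1 | h1
      · rw [min_eq_left h1] at h ⊢
        obtain ⟨T, hT, hc, hs⟩ := ih (i + 1) (by omega)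
        have hn : s ∉ T := fun hs => lt_irrefl _ (hT s hs)
        refine ⟨insert s T, fun u hu => ?_, ?_, ?_⟩
        · rcases Finset.mem_insert.1 hu with rfl | hu
          · omega
          · have := hT u hu
            omega
        · rw [Finset.card_insert_of_notMem hn]; omega
        · rw [Finset.sum_insert hn, cnt_self]
          simp only [cnt_insert]
          simp only [Nat.add_sub_cancel, Nat.sub_zero] at hs ⊢
          omega
      · rw [min_eq_right h1] at h ⊢
        obtain ⟨T, hT, hc, hs⟩ := ih i h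
        have hn : s ∉ T := fun hs => lt_irrefl _ (hT s hs)
        refine ⟨T, fun u hu => ?_, by omega, le_trans (le_of_eq ?_) hs⟩
        · have := hT u hu
          omega
        · refine Finset.sum_congr rfl fun u hu => ?_
          rw [cnt_succ (hT u hu) hn]
          refine congrArg (f u) ?_
          omega

/-- An exponent as a function on pairs of natural numbers. -/
def ext {k p : ℕ} (α : Ch k p →₀ ℕ) (s i : ℕ) : ℕ :=
  if h : s < k ∧ i < p then α (⟨s, h.1⟩, ⟨i, h.2⟩) else 0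

theorem ext_apply {k p : ℕ} (α : Ch k p →₀ ℕ) (s : Fin k) (i : Fin p) :
    ext α s.val i.val = α (s, i) := by
  rw [ext, dif_pos ⟨s.2, i.2⟩]

theorem good_of_le {k p : ℕ} {α : Ch k p →₀ ℕ} (h : B ≤ qa B (ext α) k p) : Good B α := by
  classical
  have h1 : ∀ (l : Fin B) (i : Fin p), ∃ s : Fin k, qa B (ext α) s.val (i.val + 1) ≤ l.val ∧
      l.val < qa B (ext α) (s.val + 1) (i.val + 1) := fun l i => by
    have h2 : l.val < qa B (ext α) k (i.val + 1) :=
      lt_of_lt_of_le l.2 (h.trans (qa_anti' k (Nat.succ_le_of_lt i.2)))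
    obtain ⟨s, hs, h3⟩ := exists_row h2
    exact ⟨⟨s, hs⟩, h3⟩
  choose A hA hA' using h1
  refine ⟨A, fun l i j hij => ?_, fun v => ?_⟩
  · have hij' : i.val + 1 ≤ j.val := hij
    have a1 := hA' l j
    rw [qa_succ] at a1
    have a2 : l.val < qa B (ext α) (A l j).val (i.val + 1) :=
      lt_of_lt_of_le (lt_of_lt_of_le a1 (min_le_right _ _)) (qa_anti' _ hij')
    by_contra hc
    have hc' : (A l j).val ≤ (A l i).val := not_lt.1 hc
    have a3 : qa B (ext α) (A l j).val (i.val + 1) ≤ qa B (ext α) (A l i).val (i.val + 1) :=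
      qa_mono _ hc'
    have := hA l i
    omega
  · obtain ⟨s, i⟩ := v
    have e : (∑ l, ∑ b, Finsupp.single (A l b, b) 1 : Ch k p →₀ ℕ) (s, i) =
        (Finset.univ.filter fun l => A l i = s).card := by
      rw [Finsupp.finsetSum_apply, Finset.card_filter]
      refine Finset.sum_congr rfl fun l _ => ?_
      rw [Finsupp.finsetSum_apply, Finset.sum_eq_single i]
      · simp [Finsupp.single_apply]
      · intro b _ hb
        simp [hb]
      · simp
    rw [e]
    have c : (Finset.univ.filter fun l => A l i = s).card ≤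
        (Finset.Ico (qa B (ext α) s.val (i.val + 1))
          (qa B (ext α) (s.val + 1) (i.val + 1))).card := by
      refine Finset.card_le_card_of_injOn (fun l => l.val) (fun l hl => ?_)
        fun x _ y _ hxy => Fin.ext hxy
      have hl' : A l i = s := (Finset.mem_filter.1 (Finset.mem_coe.1 hl)).2
      have b1 := hA l i
      have b2 := hA' l i
      rw [hl'] at b1 b2
      exact Finset.mem_coe.2 (Finset.mem_Ico.2 ⟨b1, b2⟩)
    rw [Nat.card_Ico, qa_succ, ext_apply] at c
    have := min_le_left (qa B (ext α) s.val (i.val + 1) + α (s, i)) (qa B (ext α) s.val i.val)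
    omega

theorem exists_col {k p : ℕ} (hp : 0 < p) : ∃ col : Finset (Fin k) → Fin k → Fin p,
    ∀ (B : ℕ) (α : Ch k p →₀ ℕ), ¬Good B α →
      ∃ T : Finset (Fin k), k + 1 ≤ T.card + p ∧ ∑ s ∈ T, α (s, col T s) < B := by
  refine ⟨fun T s => ⟨p - 1 - cnt (T.map Fin.valEmbedding) s.val k, by omega⟩, fun B α h => ?_⟩
  have h1 : qa B (ext α) k p < B := not_le.1 fun h2 => h (good_of_le h2)
  obtain ⟨T, hT, hc, hs⟩ := cut k p h1
  refine ⟨T.attachFin hT, by rwa [Finset.card_attachFin],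
    lt_of_le_of_lt (le_trans (le_of_eq ?_) hs) h1⟩
  conv_rhs => rw [← Finset.map_valEmbedding_attachFin hT, Finset.sum_map]
  refine Finset.sum_congr rfl fun s _ => ?_
  rw [← ext_apply]
  rfl

theorem split (k p m : ℕ) (P : (Ch k p →₀ ℕ) → Prop) :
    ∑ e ∈ Finset.range (m + 1),
      {α : Ch k p →₀ ℕ | Finsupp.weight (wc2 k p) α = (e, m) ∧ P α}.ncard =
      {α : Ch k p →₀ ℕ | Finsupp.weight (wc k p) α = m ∧ P α}.ncard := by
  classical
  have h2 : ∀ α : Ch k p →₀ ℕ, (Finsupp.weight (wc2 k p) α).2 = Finsupp.weight (wc k p) α :=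
    fun α => (B.weight_comp (wc2 k p) (AddMonoidHom.snd ℕ ℕ) α).symm
  have h1 : ∀ α : Ch k p →₀ ℕ, (Finsupp.weight (wc2 k p) α).1 ≤ Finsupp.weight (wc k p) α :=
    fun α => by
      have := B.weight_comp (wc2 k p) (AddMonoidHom.fst ℕ ℕ) α
      rw [AddMonoidHom.coe_fst] at this
      rw [← this]
      simp only [Finsupp.weight_apply, Finsupp.sum]
      refine Finset.sum_le_sum fun u _ => Nat.mul_le_mul_left _ ?_
      simp [wc, wc2]
  have hf : {α : Ch k p →₀ ℕ | Finsupp.weight (wc k p) α = m ∧ P α}.Finite :=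
    (Finsupp.finite_of_nat_weight_le (wc k p) (fun v => by simp [wc]) m).subset
      fun α hα => le_of_eq hα.1
  rw [Set.ncard_eq_toFinset_card _ hf, Finset.card_eq_sum_card_fiberwise
    (f := fun α => (Finsupp.weight (wc2 k p) α).1) (t := Finset.range (m + 1))]
  · refine Finset.sum_congr rfl fun e _ => ?_
    rw [← Set.ncard_coe_finset]
    refine congrArg Set.ncard ?_
    ext α
    simp only [Set.mem_ofPred_eq, Finset.coe_filter, Set.Finite.mem_toFinset, Prod.ext_iff, h2]
    tauto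
  · intro α hα
    have hα' := (Set.Finite.mem_toFinset hf).1 (Finset.mem_coe.1 hα)
    have := h1 α
    rw [hα'.1] at this
    exact Finset.mem_coe.2 (Finset.mem_range.2 (Nat.lt_succ_of_le this))

end QueueAux

theorem queueS : QueueStmt := fun k p =>
  ⟨QueueAux.exists_col, fun B m =>
    ⟨QueueAux.split k p m (Good B), QueueAux.split k p m fun α => ¬Good B α⟩⟩

end Pool.Agent.Lib.MP_45f16c_ag.VG

end partQueue
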