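import Pool.Agent.Lib.MP_45f16c_ag.VG.B

/-! Very generic hyperbolicity: the generic form and the reduction to a generic point. -/

set_option autoImplicit false

section partPrime
/-! The universal form and its hyperplane section are prime. -/

open MvPolynomial

namespace Pool.Agent.Lib.MP_45f16c_ag.VG

noncomputable section

variable {p d : ℕ}

/-- The part of the universal form with exponents in a given set. -/
def primeG (p d : ℕ) (P : Mon (p + 1) d → Prop) [DecidablePred P] : PP p (R0 p d) :=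
  ∑ μ, if P μ then monomial μ.1 (X μ) else 0

/-- The exponent of a pure power. -/
def primeE (d : ℕ) (a : Fin (p + 1)) : Mon (p + 1) d :=
  ⟨Finsupp.single a d, Finset.mem_finsuppAntidiag.2 ⟨by simp, by simp⟩⟩

theorem prime_comm {σ ι : Type} (μ : σ →₀ ℕ) (i : ι) :
    commAlgEquiv ℚ σ ι (monomial μ (X i)) = (monomial μ (1 : ℚ) : MvPolynomial σ ℚ) • X i := by
  rw [monomial_eq, monomial_eq, map_mul, commAlgEquiv_C_X, map_finsuppProd, smul_eq_C_mul, C_1,
    one_mul, map_finsuppProd, mul_comm]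
  simp

theorem prime_G {P : Mon (p + 1) d → Prop} [DecidablePred P] {a b : Fin (p + 1)} (hab : a ≠ b)
    (ha : P (primeE d a)) (hb : P (primeE d b)) : Prime (primeG p d P) := by
  let c : Mon (p + 1) d →₀ PP p ℚ :=
    Finsupp.equivFunOnFinite.symm fun μ => if P μ then monomial μ.1 1 else 0
  have e : commAlgEquiv ℚ _ _ (primeG p d P) = sumSMulX c := by
    rw [primeG, map_sum, sumSMulX, Finsupp.linearCombination_apply,
      Finsupp.sum_fintype _ _ (by simp)]
    refine Finset.sum_congr rfl fun μ _ => ?_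
    simp only [c, Finsupp.coe_equivFunOnFinite_symm]
    split_ifs
    · exact prime_comm _ _
    · simp
  have k : ∀ a, P (primeE d a) → c (primeE d a) = X a ^ d := fun a h =>
    (if_pos h).trans X_pow_eq_monomial.symm
  rw [← MulEquiv.prime_iff (commAlgEquiv ℚ (Fin (p + 1)) (Mon (p + 1) d)), e]
  refine (irreducible_sumSMulX c ⟨primeE d a, ?_⟩ fun r hr => ?_).prime
  · rw [Finsupp.mem_support_iff, k a ha]
    exact pow_ne_zero _ (X_ne_zero a)
  · have h : IsRelPrime (X a : PP p ℚ) (X b) :=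
      X_prime.irreducible.isRelPrime_iff_not_dvd.2 fun h => hab (X_dvd_X.1 h)
    exact h.pow (k a ha ▸ hr _) (k b hb ▸ hr _)

attribute [local instance] MvPolynomial.algebraMvPolynomial in
theorem prime_loc {P : Mon (p + 1) d → Prop} [DecidablePred P] (hd : 1 ≤ d)
    (h : Prime (primeG p d P)) (K : Type) [Field K] [Algebra (R0 p d) K]
    [IsFractionRing (R0 p d) K] :
    (Ideal.span {MvPolynomial.map (algebraMap (R0 p d) K) (primeG p d P)}).IsPrime := by
  have h1 := IsLocalization.isPrime_of_isPrime_disjoint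
    ((nonZeroDivisors (R0 p d)).map (C (σ := Fin (p + 1)))) (PP p K) _
    ((Ideal.span_singleton_prime h.ne_zero).2 h) (Set.disjoint_left.2 ?_)
  · rwa [Ideal.map_span, Set.image_singleton] at h1
  rintro _ ⟨a, ha, rfl⟩ k
  obtain ⟨q, hq⟩ := Ideal.mem_span_singleton.1 k
  have h2 : constantCoeff (primeG p d P) = 0 := by
    rw [primeG, map_sum]
    refine Finset.sum_eq_zero fun μ _ => ?_
    have : μ.1 ≠ 0 := fun e => by
      have := B.mon_degree μ
      rw [e, map_zero] at this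
      omega
    split_ifs <;> simp [constantCoeff_monomial, this]
  have h3 := congrArg constantCoeff hq
  rw [constantCoeff_C, map_mul, h2, zero_mul] at h3
  exact nonZeroDivisors.ne_zero ha h3

theorem primeS : PrimeStmt := by
  intro p d hp hd
  refine ⟨?_, fun hp2 K _ _ _ => ?_⟩
  · have := prime_G (d := d) (P := fun _ => True) (a := (0 : Fin (p + 1))) (b := ⟨1, by omega⟩)
      (by simp [Fin.ext_iff]) trivial trivial
    simpa [primeG, Fu] using this
  let φ : PP p K →ₐ[K] PP p K := aeval fun i => if i = 0 then 0 else X i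
  have h1 : ∀ q, q - φ q ∈ Ideal.span {FK p d K, X 0} := fun q => by
    induction q using MvPolynomial.induction_on with
    | C a => simp [φ]
    | add q r hq hr =>
      rw [map_add, add_sub_add_comm]
      exact add_mem hq hr
    | mul_X q i hq =>
      rw [map_mul, aeval_X]
      split_ifs with e
      · rw [mul_zero, sub_zero, e]
        exact Ideal.mul_mem_left _ _ (Ideal.subset_span (by simp))
      · rw [← sub_mul]
        exact Ideal.mul_mem_right _ _ hq
  have h2 : ∀ (μ : Fin (p + 1) →₀ ℕ) (a : K),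
      φ (monomial μ a) = if μ 0 = 0 then monomial μ a else 0 := fun μ a => by
    rw [aeval_monomial, algebraMap_eq]
    split_ifs with e
    · rw [monomial_eq]
      congr 1
      refine Finsupp.prod_congr fun i hi => ?_
      rw [if_neg fun k : i = 0 => Finsupp.mem_support_iff.1 hi (k ▸ e)]
    · rw [Finsupp.prod, Finset.prod_eq_zero (Finsupp.mem_support_iff.2 e) (by simp [e]), mul_zero]
  have h3 : φ (FK p d K) =
      MvPolynomial.map (algebraMap (R0 p d) K) (primeG p d fun μ => μ.1 0 = 0) := by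
    rw [FK, Fu, primeG, map_sum, map_sum, map_sum]
    refine Finset.sum_congr rfl fun μ _ => ?_
    rw [map_monomial, h2]
    split_ifs <;> simp
  have h4 := prime_loc hd (prime_G (p := p) (d := d) (P := fun μ => μ.1 0 = 0) (a := ⟨1, by omega⟩)
    (b := ⟨2, by omega⟩) (by simp) (Finsupp.single_eq_of_ne (by simp [Fin.ext_iff]))
    (Finsupp.single_eq_of_ne (by simp [Fin.ext_iff]))) K
  rw [← h3] at h4
  convert h4.comap φ
  refine le_antisymm (Ideal.span_le.2 ?_) fun q hq => ?_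
  · rintro _ (rfl | rfl)
    · exact Ideal.subset_span rfl
    · simp [φ]
  · obtain ⟨r, hr⟩ := Ideal.mem_span_singleton.1 (Ideal.mem_comap.1 hq)
    have : q = q - φ q - (FK p d K - φ (FK p d K)) * r + FK p d K * r := by
      rw [hr]
      ring
    rw [this]
    exact add_mem (sub_mem (h1 q) (Ideal.mul_mem_right _ _ (h1 _)))
      (Ideal.mul_mem_right _ _ (Ideal.subset_span (by simp)))

end

end Pool.Agent.Lib.MP_45f16c_ag.VG

end partPrime

section partSmooth
/-! The generic form is smooth. -/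

open MvPolynomial

namespace Pool.Agent.Lib.MP_45f16c_ag.VG

namespace SmoothAux

variable {p d0 D : ℕ} {R R' : Type} [CommRing R] [CommRing R'] (j : Mon (p + 1) D → Fin (p + 1))

/-- The multiples of the derivatives. -/
noncomputable def gg (d0 : ℕ) (F : PP p R) (γ : Mon (p + 1) D) : PP p R :=
  monomial (γ.1 - Finsupp.single (j γ) d0) 1 * pderiv (j γ) F

/-- Their matrix. -/
noncomputable def mm (d0 : ℕ) (F : PP p R) : Matrix (Mon (p + 1) D) (Mon (p + 1) D) R :=
  Matrix.of fun γ δ => coeff δ.1 (gg j d0 F γ)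

theorem mm_map (f : R →+* R') (F : PP p R) :
    mm j d0 (MvPolynomial.map f F) = f.mapMatrix (mm j d0 F) := by
  ext γ δ
  simp [mm, gg, ← coeff_map, pderiv_map]

variable (hj : ∀ γ : Mon (p + 1) D, d0 ≤ γ.1 (j γ))
include hj

theorem sub_add (γ : Mon (p + 1) D) :
    γ.1 - Finsupp.single (j γ) d0 + Finsupp.single (j γ) d0 = γ.1 :=
  tsub_add_cancel_of_le (Finsupp.single_le_iff.2 (hj γ))

theorem gg_hom {F : PP p R} (hF : F.IsHomogeneous (d0 + 1)) (γ : Mon (p + 1) D) :
    (gg j d0 F γ).IsHomogeneous D := by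
  have h := B.mon_degree γ
  rw [← sub_add j hj γ, map_add, Finsupp.degree_single] at h
  have := (isHomogeneous_monomial (d := γ.1 - Finsupp.single (j γ) d0) (1 : R) rfl).mul
    (hF.pderiv (i := j γ))
  rwa [Nat.add_sub_cancel, h] at this

theorem mm_fermat :
    mm j d0 (∑ i, X i ^ (d0 + 1) : PP p ℚ) = Matrix.diagonal fun _ => (d0 + 1 : ℚ) := by
  ext γ δ
  have h : pderiv (j γ) (∑ i, X i ^ (d0 + 1) : PP p ℚ) =
      monomial (Finsupp.single (j γ) d0) (d0 + 1 : ℚ) := by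
    rw [map_sum, Finset.sum_eq_single (j γ) (fun i _ h => by simp [h]) (by simp),
      X_pow_eq_monomial, pderiv_monomial_single]
    simp
  rw [mm, Matrix.of_apply, gg, h, monomial_mul, sub_add j hj, one_mul, coeff_monomial,
    Matrix.diagonal_apply]
  simp only [Subtype.ext_iff]

end SmoothAux

open SmoothAux in
theorem smoothS : SmoothStmt := by
  intro p d0 _ K _ _ _ i
  have : ∀ γ : Mon (p + 1) ((p + 1) * d0), ∃ j, d0 ≤ γ.1 j := fun γ => by
    obtain ⟨j, -, h⟩ := Finset.exists_le_of_sum_le (f := fun _ => d0) (g := γ.1)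
      Finset.univ_nonempty (by rw [← Finsupp.degree_eq_sum, B.mon_degree]; simp)
    exact ⟨j, h⟩
  choose j hj using this
  have hF : (∑ i, X i ^ (d0 + 1) : PP p ℚ).IsHomogeneous (d0 + 1) :=
    IsHomogeneous.sum _ _ _ fun i _ => isHomogeneous_X_pow _ _
  have h1 : MvPolynomial.map (eval fun μ : Mon (p + 1) (d0 + 1) =>
      coeff μ.1 (∑ i, X i ^ (d0 + 1) : PP p ℚ)) (Fu p (d0 + 1)) = ∑ i, X i ^ (d0 + 1) := by
    conv_rhs => rw [← B.sum_mon hF]
    simp only [Fu, map_sum, map_monomial, eval_X]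
  have h2 : (mm j d0 (Fu p (d0 + 1))).det ≠ 0 := fun h => by
    have := mm_fermat j hj
    rw [← h1, mm_map] at this
    have e := congrArg Matrix.det this
    rw [← RingHom.map_det, h, map_zero, Matrix.det_diagonal] at e
    exact Finset.prod_ne_zero_iff.2 (fun _ _ => by positivity) e.symm
  have h3 : (mm j d0 (FK p (d0 + 1) K)).det ≠ 0 := by
    rw [FK, mm_map, ← RingHom.map_det]
    exact (map_ne_zero_iff _ (IsFractionRing.injective _ _)).2 h2
  have h4 := Matrix.nonsing_inv_mul _ h3.isUnit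
  obtain ⟨δ, hδ⟩ : ∃ δ : Mon (p + 1) ((p + 1) * d0), δ.1 = Finsupp.single i ((p + 1) * d0) :=
    ⟨⟨_, B.mem_mon (Finsupp.degree_single _ _)⟩, rfl⟩
  have h5 : (monomial δ.1 1 : PP p K) =
      ∑ γ, C ((mm j d0 (FK p (d0 + 1) K))⁻¹ δ γ) * gg j d0 (FK p (d0 + 1) K) γ := by
    calc _ = ∑ μ, monomial μ.1
          (((mm j d0 (FK p (d0 + 1) K))⁻¹ * mm j d0 (FK p (d0 + 1) K)) δ μ) := by
          rw [h4, Finset.sum_eq_single δ (fun μ _ h => by rw [Matrix.one_apply_ne' h, map_zero])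
            (by simp), Matrix.one_apply_eq]
      _ = _ := by
          simp only [Matrix.mul_apply, map_sum]
          rw [Finset.sum_comm]
          refine Finset.sum_congr rfl fun γ _ => ?_
          rw [← B.sum_mon (gg_hom j hj (B.FK_hom K) γ), Finset.mul_sum]
          simp only [C_mul_monomial]
          rfl
  refine ⟨(p + 1) * d0, ?_⟩
  rw [X_pow_eq_monomial, ← hδ, h5]
  exact Ideal.sum_mem _ fun γ _ => Ideal.mul_mem_left _ _
    (Ideal.mul_mem_left _ _ (Ideal.subset_span ⟨j γ, rfl⟩))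

end Pool.Agent.Lib.MP_45f16c_ag.VG

end partSmooth

section partGen
/-! What a generic point of the universal cone provides. -/

open MvPolynomial

namespace Pool.Agent.Lib.MP_45f16c_ag.VG

namespace Gen

theorem coeff_low {σ R : Type} [CommRing R] {G Q : MvPolynomial σ R} {d : ℕ}
    (hG : G.IsHomogeneous d) (h : G ∣ Q) {m : σ →₀ ℕ} (hm : m.degree < d) : coeff m Q = 0 := by
  classical
  obtain ⟨a, rfl⟩ := h
  rw [coeff_mul]
  refine Finset.sum_eq_zero fun u hu => ?_
  rw [hG.coeff_eq_zero, zero_mul]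
  rw [← Finset.HasAntidiagonal.mem_antidiagonal.1 hu, map_add] at hm
  omega

theorem coeff_span {p d e : ℕ} {R : Type} [CommRing R] (hp : 1 ≤ p) {G Q : PP p R}
    (hG : G.IsHomogeneous d) (h : Q ∈ Ideal.span ({G, X 0} : Set (PP p R))) (he : e < d) :
    coeff (Finsupp.single 1 e) Q = 0 := by
  classical
  obtain ⟨a, b, rfl⟩ := Ideal.mem_span_pair.1 h
  have h1 : (1 : Fin (p + 1)) ≠ 0 := by
    obtain ⟨q, rfl⟩ : ∃ q, p = q + 1 := ⟨p - 1, by omega⟩
    exact one_ne_zero
  rw [coeff_add, coeff_low hG (dvd_mul_left G a) (by simpa using he), coeff_mul_X', if_neg,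
    add_zero]
  simp [h1]

theorem clear {σ R K : Type} [CommRing R] [IsDomain R] [Field K] [Algebra R K]
    [IsFractionRing R K] (g : MvPolynomial σ K) : ∃ (c : R) (Q : MvPolynomial σ R), c ≠ 0 ∧
      C (algebraMap R K c) * g = MvPolynomial.map (algebraMap R K) Q := by
  induction g using MvPolynomial.induction_on with
  | C a =>
    obtain ⟨u, v, hv, rfl⟩ := IsFractionRing.div_surjective (A := R) a
    have h := nonZeroDivisors.ne_zero hv
    refine ⟨v, C u, h, ?_⟩
    rw [map_C, ← C_mul, mul_div_cancel₀ _ ((map_ne_zero_iff _ (IsFractionRing.injective R K)).2 h)]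
  | add f g hf hg =>
    obtain ⟨c, Q, h1, h2⟩ := hf
    obtain ⟨c', Q', h1', h2'⟩ := hg
    refine ⟨c * c', C c' * Q + C c * Q', mul_ne_zero h1 h1', ?_⟩
    rw [map_add, map_mul, map_mul, map_mul, map_mul, map_C, map_C, ← h2, ← h2']
    ring
  | mul_X f i hf =>
    obtain ⟨c, Q, h1, h2⟩ := hf
    exact ⟨c, Q * X i, h1, by rw [map_mul, map_X, ← h2, mul_assoc]⟩

theorem coeff_pd {p d0 : ℕ} (K : Type) [Field K] [Algebra (R0 p (d0 + 1)) K]
    [IsFractionRing (R0 p (d0 + 1)) K] (j : Fin (p + 1)) :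
    coeff (Finsupp.single 1 d0) (pderiv j (FK p (d0 + 1) K)) ≠ 0 := by
  have hi := IsFractionRing.injective (R0 p (d0 + 1)) K
  have : CharZero K := charZero_of_injective_algebraMap hi
  have h := B.coeff_Fu (p := p) (d := d0 + 1)
    ⟨Finsupp.single 1 d0 + Finsupp.single j 1, B.mem_mon (by simp)⟩
  rw [coeff_pderiv, FK, coeff_map, h]
  exact mul_ne_zero ((map_ne_zero_iff _ hi).2 (X_ne_zero _)) (Nat.cast_add_one_ne_zero _)

end Gen

open Gen in
theorem genS (hP : PrimeStmt) (hS : SmoothStmt) : GenStmt := by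
  intro p d0 F x hp hd hF hx hG
  refine ⟨(injective_iff_map_eq_zero _).2 fun a ha => ?_, fun i hi => ?_, fun K _ _ _ _ hK => ?_⟩
  · simpa using coeff_low B.Fu_hom (hG (C a) (by rw [eval₂_C, ha])) (m := 0) (by simp)
  · simpa using coeff_low B.Fu_hom (hG (X i) (by rw [eval₂_X, hi])) (m := Finsupp.single i 1)
      (by simp; omega)
  have hc : (algebraMap K ℂ).comp (algebraMap (R0 p (d0 + 1)) K) = evA (d0 + 1) F :=
    RingHom.ext hK
  have hev : ∀ (y : Fin (p + 1) → ℂ) (Q : PP p (R0 p (d0 + 1))),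
      aeval y (MvPolynomial.map (algebraMap (R0 p (d0 + 1)) K) Q) =
        eval y (MvPolynomial.map (evA (d0 + 1) F) Q) := fun y Q => by
    rw [aeval_def, eval₂_map, hc, eval₂_eq_eval_map]
  have hh := B.FK_hom (p := p) (d := d0 + 1) K
  have hker : ∀ g : PP p K, aeval x g = 0 ↔ g ∈ Ideal.span {FK p (d0 + 1) K} := by
    intro g
    rw [Ideal.mem_span_singleton]
    refine ⟨fun h => ?_, ?_⟩
    · obtain ⟨c, Q, h1, h2⟩ := clear (R := R0 p (d0 + 1)) g
      have h3 := _root_.map_dvd (MvPolynomial.map (algebraMap (R0 p (d0 + 1)) K))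
        (hG Q (by rw [eval₂_eq_eval_map, ← hev, ← h2, map_mul, h, mul_zero]))
      rw [← h2] at h3
      exact ((IsUnit.mk0 _ ((map_ne_zero_iff _ (IsFractionRing.injective _ K)).2 h1)).map
        C).dvd_mul_left.1 h3
    · rintro ⟨a, rfl⟩
      rw [map_mul, FK, hev, B.map_Fu hF, hx, zero_mul]
  refine ⟨⟨hh, fun g hg => ⟨_, hg ▸ hh⟩, hker, fun j h => coeff_pd (d0 := d0) K j ?_⟩,
    fun y hy _ => ?_, ?_⟩
  · exact coeff_low hh (Ideal.mem_span_singleton.1 ((hker _).1 h)) (by simp)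
  · by_contra h
    push Not at h
    refine hy (funext fun i => ?_)
    obtain ⟨D, hD⟩ := hS p d0 hd K i
    have h1 : Ideal.span (Set.range fun j => pderiv j (FK p (d0 + 1) K)) ≤
        RingHom.ker (aeval y : PP p K →ₐ[K] ℂ) := by
      refine Ideal.span_le.2 ?_
      rintro _ ⟨j, rfl⟩
      show aeval y (pderiv j (FK p (d0 + 1) K)) = 0
      rw [FK, pderiv_map, hev, ← pderiv_map, B.map_Fu hF, h]
    have h2 : aeval y ((X i : PP p K) ^ D) = 0 := h1 hD
    rw [map_pow, aeval_X] at h2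
    exact eq_zero_of_pow_eq_zero h2
  · have := (hP p (d0 + 1) (by omega) (by omega)).2 hp K
    obtain ⟨I, hI⟩ : ∃ I : Ideal (PP p K), I = Ideal.span {FK p (d0 + 1) K, X 0} := ⟨_, rfl⟩
    rw [← hI] at this
    have hk : ∀ g, ((IsScalarTower.toAlgHom K (PP p K ⧸ I) (FractionRing (PP p K ⧸ I))).comp
        (Ideal.Quotient.mkₐ K I)) g = 0 ↔ g ∈ Ideal.span {FK p (d0 + 1) K, X 0} := fun g => by
      rw [← hI, ← Ideal.Quotient.eq_zero_iff_mem]
      exact map_eq_zero_iff _ (IsFractionRing.injective (PP p K ⧸ I) _)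
    refine ⟨FractionRing (PP p K ⧸ I), inferInstance, inferInstance, _,
      ⟨hh, ?_, hk, fun j h => coeff_pd (d0 := d0) K j ?_⟩, fun h => ?_⟩
    · rintro g (rfl | rfl)
      exacts [⟨_, hh⟩, ⟨_, isHomogeneous_X _ _⟩]
    · exact coeff_span (by omega) hh ((hk _).1 h) (by omega)
    · simpa using coeff_span (e := 1) (by omega) hh ((hk _).1 h) (by omega)

end Pool.Agent.Lib.MP_45f16c_ag.VG

end partGen

section partRk
/-! The transcendence rank. -/

open MvPolynomial

namespace Pool.Agent.Lib.MP_45f16c_ag.VG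

theorem rk_mem {s : Set ℂ} {a : ℂ} : a ∈ (AlgebraicIndependent.matroid ℚ ℂ).closure s ↔
    IsAlgebraic (Algebra.adjoin ℚ s) a := by
  rw [AlgebraicIndependent.matroid_closure_eq, SetLike.mem_coe,
    Subalgebra.mem_algebraicClosure]

theorem rk_a (s t : Set ℂ) (h : s ⊆ IntermediateField.adjoin ℚ t) : rk s ≤ rk t := by
  rw [rk, rk, ← Matroid.eRk_closure_eq _ t]
  refine Matroid.eRk_mono _ fun a ha => rk_mem.2 ?_
  rw [← IntermediateField.isAlgebraic_adjoin_iff]
  exact isAlgebraic_algebraMap (⟨a, h ha⟩ : IntermediateField.adjoin ℚ t)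

theorem rk_enc {ι : Type} [Fintype ι] (c : ι → ℂ) :
    (Set.range c).encard ≤ Fintype.card ι := by
  rw [← Set.image_univ]
  refine (Set.encard_image_le _ _).trans ?_
  rw [Set.encard_univ, ENat.card_eq_coe_fintype_card]

theorem rk_ind {ι : Type} [Fintype ι] {c : ι → ℂ} (h : AlgebraicIndependent ℚ c) :
    rk (Set.range c) = Fintype.card ι := by
  rw [rk, (AlgebraicIndependent.matroid_indep_iff.2 h.to_subtype_range).eRk_eq_encard,
    ← Set.image_univ, h.injective.injOn.encard_image, Set.encard_univ,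
    ENat.card_eq_coe_fintype_card]

theorem rk_b (ι : Type) [Fintype ι] (c : ι → ℂ) : rk (Set.range c) ≤ Fintype.card ι ∧
    (AlgebraicIndependent ℚ c ↔ (Fintype.card ι : ℕ∞) ≤ rk (Set.range c)) := by
  have h1 : rk (Set.range c) ≤ (Set.range c).encard := Matroid.eRk_le_encard _ _
  refine ⟨h1.trans (rk_enc c), fun h => (rk_ind h).ge, fun h => ?_⟩
  have h2 := (Matroid.indep_iff_eRk_eq_encard_of_finite (M := AlgebraicIndependent.matroid ℚ ℂ)
    (Set.finite_range c)).2 (le_antisymm h1 ((rk_enc c).trans h))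
  have h3 : Set.InjOn c Set.univ := by
    refine Set.finite_univ.injOn_of_encard_image_eq ?_
    rw [Set.image_univ, Set.encard_univ, ENat.card_eq_coe_fintype_card]
    exact le_antisymm (rk_enc c) (h.trans h1)
  exact AlgebraicIndependent.of_subtype_range (Set.injOn_univ.1 h3)
    (AlgebraicIndependent.matroid_indep_iff.1 h2)

theorem rk_basis {ι : Type} [Fintype ι] (c : ι → ℂ) : ∃ (n : ℕ) (g : Fin n → ι),
    AlgebraicIndependent ℚ (c ∘ g) ∧
      ∀ Y, rk (Set.range (c ∘ g) ∪ Y) = rk (Set.range c ∪ Y) := by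
  obtain ⟨I, hI⟩ := (AlgebraicIndependent.matroid ℚ ℂ).exists_isBasis (Set.range c)
  have hf : I.Finite := (Set.finite_range c).subset hI.subset
  obtain ⟨n, ⟨e⟩⟩ := hf.to_subtype.exists_equiv_fin
  choose g hg using fun i : I => hI.subset i.2
  have h1 : c ∘ (g ∘ e.symm) = Subtype.val ∘ e.symm := funext fun i => hg _
  refine ⟨n, g ∘ e.symm, ?_, fun Y => ?_⟩
  · rw [h1]
    exact (AlgebraicIndependent.matroid_indep_iff.1 hI.indep).comp _ e.symm.injective
  · rw [h1, e.symm.surjective.range_comp, Subtype.range_coe]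
    exact hI.eRk_eq_eRk_union Y

theorem rk_c (ι κ : Type) [Fintype ι] [Fintype κ] (c : ι → ℂ) : ∃ b : κ → ℂ,
    AlgebraicIndependent (IntermediateField.adjoin ℚ (Set.range c)) b ∧
    rk (Set.range c ∪ Set.range b) = rk (Set.range c) + Fintype.card κ := by
  obtain ⟨v, hv⟩ := exists_isTranscendenceBasis (IntermediateField.adjoin ℚ (Set.range c)) ℂ
  have h0 : Cardinal.mk (IntermediateField.adjoin ℚ (Set.range c)) ≤ Cardinal.aleph0 := by
    refine (IntermediateField.cardinalMk_adjoin_le ℚ _).trans ?_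
    simp
  have h1 : Cardinal.aleph0 < Cardinal.mk ℂ := by
    rw [Cardinal.mk_complex]; exact Cardinal.aleph0_lt_continuum
  have h2 := IsAlgClosed.cardinal_eq_cardinal_transcendence_basis_of_aleph0_lt' _ hv h0 h1
  have : Infinite v := Cardinal.infinite_iff.2 (h2 ▸ h1.le)
  obtain ⟨e⟩ : Nonempty (κ ↪ v) :=
    ⟨(Fintype.equivFin κ).toEmbedding.trans (Fin.valEmbedding.trans (Infinite.natEmbedding v))⟩
  have hb := hv.1.comp e e.injective
  refine ⟨_, hb, ?_⟩
  obtain ⟨n, g, h3, h4⟩ := rk_basis c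
  have h5 := rk_ind (h3.sumElim_of_tower (S := IntermediateField.adjoin ℚ (Set.range c)) (by
    rintro _ ⟨i, rfl⟩
    exact ⟨⟨_, IntermediateField.subset_adjoin _ _ ⟨g i, rfl⟩⟩, rfl⟩) hb)
  have h6 := h4 ∅
  rw [Set.union_empty, Set.union_empty, rk_ind h3] at h6
  rw [Set.Sum.elim_range, Set.union_comm, h4] at h5
  rw [h5, ← h6, Fintype.card_sum, Nat.cast_add, add_comm]

theorem rk_d (ι : Type) [Fintype ι] (c c' : ι → ℂ)
    (h : ∀ Q : MvPolynomial ι ℚ, aeval c' Q = 0 → aeval c Q = 0)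
    (h' : ∃ Q : MvPolynomial ι ℚ, aeval c Q = 0 ∧ aeval c' Q ≠ 0) :
    rk (Set.range c) + 1 ≤ rk (Set.range c') := by
  obtain ⟨Q, hQ, hQ'⟩ := h'
  obtain ⟨n, g, h3, h4⟩ := rk_basis c
  have h5 : AlgebraicIndependent ℚ (c' ∘ g) := by
    rw [algebraicIndependent_iff] at h3 ⊢
    intro P hP
    refine h3 P ?_
    rw [← aeval_rename] at hP ⊢
    exact h _ hP
  have h6 : ¬ IsAlgebraic (Algebra.adjoin ℚ (Set.range (c' ∘ g))) (aeval c' Q) := by
    intro ha
    obtain ⟨q, hq0, hq⟩ := ha.exists_nonzero_coeff_and_aeval_eq_zero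
      (mem_nonZeroDivisors_of_ne_zero hQ')
    obtain ⟨q0, rfl⟩ := Polynomial.map_surjective
      h5.aevalEquiv.toRingEquiv.toRingHom h5.aevalEquiv.surjective q
    have e1 : ∀ x : ι → ℂ, aeval x (q0.eval₂ (rename g : _ →ₐ[ℚ] _) Q) =
        q0.eval₂ (aeval (x ∘ g) : _ →ₐ[ℚ] ℂ) (aeval x Q) := fun x => by
      refine (Polynomial.hom_eval₂ q0 _ ((aeval x : _ →ₐ[ℚ] ℂ) : _ →+* ℂ) Q).trans ?_
      congr 1
      ext <;> simp
    have e2 : aeval c' (q0.eval₂ (rename g : _ →ₐ[ℚ] _) Q) = 0 := by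
      rw [e1, ← hq, Polynomial.aeval_def, Polynomial.eval₂_map]
      congr 1
    have e3 := h _ e2
    rw [e1, hQ, Polynomial.eval₂_at_zero] at e3
    refine hq0 ?_
    rw [Polynomial.coeff_map, algebraicIndependent_iff.1 h3 _ e3, map_zero]
  have h7 := h4 ∅
  rw [Set.union_empty, Set.union_empty, rk_ind h3, ← rk_ind h5] at h7
  rw [← h7, rk, ← Matroid.eRk_insert_eq_add_one ⟨Set.mem_univ _, fun hm => h6 (rk_mem.1 hm)⟩]
  refine rk_a _ _ (Set.insert_subset ?_ ?_)
  · refine IntermediateField.algebra_adjoin_le_adjoin ℚ _ ?_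
    rw [Algebra.adjoin_range_eq_range_aeval]
    exact ⟨Q, rfl⟩
  · rintro _ ⟨i, rfl⟩
    exact IntermediateField.subset_adjoin _ _ ⟨g i, rfl⟩

theorem rk_e (ν ν' d : ℕ) (S : Matrix (Fin ν') (Fin ν) ℂ) (G : MvPolynomial (Fin ν') ℂ)
    (hG : G.IsHomogeneous d) : (lin S G).IsHomogeneous d ∧
    (∀ x, eval x (lin S G) = eval (S.mulVec x) G) ∧
    ∀ E : IntermediateField ℚ ℂ, Set.range (cf d G) ⊆ E → (∀ i j, S i j ∈ E) →
      Set.range (cf d (lin S G)) ⊆ E := by
  refine ⟨?_, fun x => ?_, fun E hE hS => ?_⟩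
  · have := hG.aeval (n := 1) (fun i => ∑ j, C (S i j) * X j) fun i =>
      IsHomogeneous.sum _ _ _ fun j _ => (isHomogeneous_X ℂ j).C_mul _
    rwa [one_mul] at this
  · have e : (aeval x : _ →ₐ[ℂ] ℂ).comp (aeval fun i => ∑ j, C (S i j) * X j) =
        aeval (S.mulVec x) := by
      ext i
      simp [Matrix.mulVec, dotProduct]
    exact AlgHom.congr_fun e G
  · have hC : ∀ a ∈ E, (C a : MvPolynomial (Fin ν) ℂ) ∈ (map (algebraMap E ℂ)).range :=
      fun a ha => ⟨C ⟨a, ha⟩, map_C _ _⟩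
    have hc : ∀ μ, coeff μ G ∈ E := fun μ => by
      by_cases hμ : μ.degree = d
      · exact hE ⟨⟨μ, B.mem_mon hμ⟩, rfl⟩
      · rw [hG.coeff_eq_zero hμ]; exact zero_mem _
    have h1 : lin S G ∈ (map (algebraMap E ℂ)).range := by
      rw [lin, aeval_def, eval₂_eq]
      refine sum_mem fun μ _ => mul_mem (hC _ (hc μ)) (prod_mem fun i _ => pow_mem
        (sum_mem fun j _ => mul_mem (hC _ (hS i j)) ⟨X j, map_X _ _⟩) _)
    obtain ⟨P, hP⟩ := h1
    rintro _ ⟨μ, rfl⟩
    rw [cf, ← hP, coeff_map]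
    exact (coeff μ.1 P).2

theorem rkS : RkStmt := ⟨rk_a, rk_b, rk_c, rk_d, rk_e⟩

end Pool.Agent.Lib.MP_45f16c_ag.VG

end partRk

section partInit
/-! Moving the point to the first basis vector. -/


namespace Pool.Agent.Lib.MP_45f16c_ag.VG

open MvPolynomial Matrix

namespace InitAux

/-- An invertible matrix with entries in the field of `x` which moves `x` to `e_0`. -/
theorem exists_mat {p : ℕ} {x : Fin (p + 1) → ℂ} (hx : x ≠ 0) :
    ∃ T : Matrix (Fin (p + 1)) (Fin (p + 1)) ℂ, Function.Injective T.mulVec ∧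
      T.mulVec x = Pi.single 0 1 ∧
      ∀ E : IntermediateField ℚ ℂ, Set.range x ⊆ E → ∀ i j, T i j ∈ E := by
  obtain ⟨a, ha⟩ := Function.ne_iff.1 hx
  have ha' : x a ≠ 0 := ha
  let T : Matrix (Fin (p + 1)) (Fin (p + 1)) ℂ := Matrix.of fun l =>
    if l = 0 then Pi.single a (x a)⁻¹
    else Pi.single (Equiv.swap 0 a l) 1 - Pi.single a (x (Equiv.swap 0 a l) / x a)
  have h0 : ∀ y, T.mulVec y 0 = (x a)⁻¹ * y a := fun y => by
    show Pi.single a (x a)⁻¹ ⬝ᵥ y = _
    rw [single_dotProduct]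
  have h1 : ∀ y l, l ≠ 0 →
      T.mulVec y l = y (Equiv.swap 0 a l) - x (Equiv.swap 0 a l) / x a * y a := fun y l hl => by
    show (if l = 0 then _ else _) ⬝ᵥ y = _
    rw [if_neg hl, sub_dotProduct, single_dotProduct, single_dotProduct, one_mul]
  refine ⟨T, ?_, ?_, fun E hE i j => ?_⟩
  · refine (injective_iff_map_eq_zero T.mulVecLin).2 fun y hy => ?_
    have hy' : T.mulVec y = 0 := hy
    have h2 : y a = 0 := by
      have := h0 y
      rw [hy', Pi.zero_apply] at this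
      exact (mul_eq_zero.1 this.symm).resolve_left (inv_ne_zero ha')
    funext i
    by_cases hi : i = a
    · rw [hi]; exact h2
    · have h3 : Equiv.swap 0 a i ≠ 0 := fun h => hi (by
        rw [Equiv.swap_apply_eq_iff, Equiv.swap_apply_left] at h; exact h)
      have := h1 y _ h3
      rw [hy', Pi.zero_apply, Equiv.swap_apply_self, h2, mul_zero, sub_zero] at this
      exact this.symm
  · funext l
    by_cases hl : l = 0
    · rw [hl, h0, inv_mul_cancel₀ ha', Pi.single_eq_same]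
    · rw [h1 x l hl, div_mul_cancel₀ _ ha', sub_self, Pi.single_eq_of_ne hl]
  · have h2 : ∀ (b : Fin (p + 1)) (c : ℂ), c ∈ E → (Pi.single b c : Fin (p + 1) → ℂ) j ∈ E :=
      fun b c hc => by
        rw [Pi.single_apply]
        split_ifs
        · exact hc
        · exact zero_mem _
    have h3 : ∀ l, x l ∈ E := fun l => hE ⟨l, rfl⟩
    show (if i = 0 then _ else _ : Fin (p + 1) → ℂ) j ∈ E
    split_ifs
    · exact h2 _ _ (inv_mem (h3 a))
    · exact sub_mem (h2 _ _ (one_mem _)) (h2 _ _ (div_mem (h3 _) (h3 a)))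

end InitAux

theorem initS (hRk : RkStmt) : InitStmt := by
  intro p d F x hF hA hx h0
  obtain ⟨hmono, hcard, -, -, hlin⟩ := hRk
  obtain ⟨T, hT, hTx, hE⟩ := InitAux.exists_mat hx
  obtain ⟨k1, k2, -⟩ := hlin _ _ d T⁻¹ F hF
  have hu : IsUnit T.det := (Matrix.isUnit_iff_isUnit_det T).1
    (Matrix.mulVec_injective_iff_isUnit.1 hT)
  have k3 : ∀ y, eval (T.mulVec y) (lin T⁻¹ F) = eval y F := fun y => by
    rw [k2, Matrix.mulVec_mulVec, Matrix.nonsing_inv_mul T hu, Matrix.one_mulVec]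
  refine ⟨lin T⁻¹ F, T.mulVecLin, hT, hTx, k3, k1, by rw [← hTx, k3, h0], ?_⟩
  obtain ⟨-, l2, l3⟩ := hlin _ _ d T (lin T⁻¹ F) k1
  have e : lin T (lin T⁻¹ F) = F := MvPolynomial.funext fun y => by rw [l2, k3]
  have h1 := l3 (IntermediateField.adjoin ℚ (Set.range (cf d (lin T⁻¹ F)) ∪ Set.range x))
    (Set.subset_union_left.trans (IntermediateField.subset_adjoin _ _))
    (hE _ (Set.subset_union_right.trans (IntermediateField.subset_adjoin _ _)))
  rw [e] at h1
  have h2 := (hcard _ x).1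
  rw [Fintype.card_fin] at h2
  calc (Fintype.card (Mon (p + 1) d) : ℕ∞) ≤ rk (Set.range (cf d F)) := (hcard _ _).2.1 hA
    _ ≤ rk (Set.range (cf d (lin T⁻¹ F)) ∪ Set.range x) := hmono _ _ h1
    _ ≤ rk (Set.range (cf d (lin T⁻¹ F))) + rk (Set.range x) :=
      Matroid.eRk_union_le_eRk_add_eRk _ _ _
    _ ≤ rk (Set.range (cf d (lin T⁻¹ F))) + ((p + 1 : ℕ) : ℕ∞) := by gcongr
    _ = _ := by push_cast; ring

end Pool.Agent.Lib.MP_45f16c_ag.VG

end partInit

section partFinP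
/-! Moving the point `e_0` to a generic point of the universal cone. -/

open MvPolynomial

namespace Pool.Agent.Lib.MP_45f16c_ag.VG

noncomputable section

namespace FinP

variable (p d : ℕ)

/-- The exponent of `x_0 ^ d`. -/
def top : Mon (p + 1) d := ⟨Finsupp.single 0 d, B.mem_mon (by simp)⟩

/-- The free parameters of the universal cone. -/
abbrev Par : Type := {μ : Mon (p + 1) d // μ ≠ top p d} ⊕ Fin (p + 1)

/-- Polynomials in the free parameters. -/
def jj : MvPolynomial (Par p d) ℚ →ₐ[ℚ] PP p (R0 p d) :=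
  aeval (Sum.elim (fun μ => C (X μ.1)) X)

theorem top_eq : ∃ Q, X 0 ^ d * C (X (top p d)) - jj p d Q = Fu p d := by
  classical
  refine ⟨-∑ μ : {μ : Mon (p + 1) d // μ ≠ top p d},
    X (Sum.inl μ) * μ.1.1.prod fun i e => X (Sum.inr i) ^ e, ?_⟩
  rw [Fu, Fintype.sum_eq_add_sum_subtype_ne _ (top p d), map_neg, sub_neg_eq_add, map_sum]
  refine congrArg₂ (· + ·) ?_ (Finset.sum_congr rfl fun μ _ => ?_)
  · rw [mul_comm, C_mul_X_pow_eq_monomial]
    rfl
  · rw [monomial_eq, map_mul, map_finsuppProd]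
    simp only [jj, map_pow, aeval_X, Sum.elim_inl, Sum.elim_inr]

theorem red (Q : PP p (R0 p d)) : ∃ (N : ℕ) (Q' : MvPolynomial (Par p d) ℚ),
    Fu p d ∣ X 0 ^ N * Q - jj p d Q' := by
  have hadd : ∀ Q1 Q2 : PP p (R0 p d), (∃ (N : ℕ) (Q' : MvPolynomial (Par p d) ℚ),
      Fu p d ∣ X 0 ^ N * Q1 - jj p d Q') → (∃ (N : ℕ) (Q' : MvPolynomial (Par p d) ℚ),
      Fu p d ∣ X 0 ^ N * Q2 - jj p d Q') → ∃ (N : ℕ) (Q' : MvPolynomial (Par p d) ℚ),
      Fu p d ∣ X 0 ^ N * (Q1 + Q2) - jj p d Q' := by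
    rintro Q1 Q2 ⟨N1, P1, h1⟩ ⟨N2, P2, h2⟩
    refine ⟨N1 + N2, X (Sum.inr 0) ^ N2 * P1 + X (Sum.inr 0) ^ N1 * P2, ?_⟩
    have e : jj p d (X (Sum.inr 0)) = X 0 := by simp [jj]
    have := (h1.mul_left (X 0 ^ N2)).add (h2.mul_left (X 0 ^ N1))
    rw [map_add, map_mul, map_mul, map_pow, map_pow, e]
    refine this.trans (dvd_of_eq ?_)
    ring
  have hmul : ∀ Q1 Q2 : PP p (R0 p d), (∃ (N : ℕ) (Q' : MvPolynomial (Par p d) ℚ),
      Fu p d ∣ X 0 ^ N * Q1 - jj p d Q') → (∃ (N : ℕ) (Q' : MvPolynomial (Par p d) ℚ),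
      Fu p d ∣ X 0 ^ N * Q2 - jj p d Q') → ∃ (N : ℕ) (Q' : MvPolynomial (Par p d) ℚ),
      Fu p d ∣ X 0 ^ N * (Q1 * Q2) - jj p d Q' := by
    rintro Q1 Q2 ⟨N1, P1, h1⟩ ⟨N2, P2, h2⟩
    refine ⟨N1 + N2, P1 * P2, ?_⟩
    have := (h1.mul_right (X 0 ^ N2 * Q2)).add (h2.mul_left (jj p d P1))
    rw [map_mul]
    refine this.trans (dvd_of_eq ?_)
    ring
  induction Q using MvPolynomial.induction_on with
  | C a =>
    induction a using MvPolynomial.induction_on with
    | C r => exact ⟨0, C r, by simp [jj, MvPolynomial.algebraMap_apply]⟩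
    | add f g hf hg => rw [map_add]; exact hadd _ _ hf hg
    | mul_X f μ hf =>
      rw [map_mul]
      refine hmul _ _ hf ?_
      by_cases h : μ = top p d
      · obtain ⟨Q, hQ⟩ := top_eq p d
        exact ⟨d, Q, by rw [h, hQ]⟩
      · exact ⟨0, X (Sum.inl ⟨μ, h⟩), by simp [jj]⟩
  | add f g hf hg => exact hadd _ _ hf hg
  | mul_X f i hf => exact hmul _ _ hf ⟨0, X (Sum.inr i), by simp [jj]⟩

variable {p d}

/-- The values of the free parameters. -/
def val (d : ℕ) (F : PP p ℂ) (y : Fin (p + 1) → ℂ) : Par p d → ℂ :=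
  Sum.elim (fun μ => cf d F μ.1) y

theorem ev_jj (F : PP p ℂ) (y : Fin (p + 1) → ℂ) (Q : MvPolynomial (Par p d) ℚ) :
    eval₂ (evA d F) y (jj p d Q) = aeval (val d F y) Q := by
  induction Q using MvPolynomial.induction_on with
  | C a => simp [jj, MvPolynomial.algebraMap_apply, evA]
  | add f g hf hg => rw [map_add, eval₂_add, hf, hg, map_add]
  | mul_X f i hf =>
    rw [map_mul, eval₂_mul, hf, map_mul]
    rcases i with μ | i <;> simp [jj, val, B.evA_X, cf]

theorem ev_Fu {F : PP p ℂ} (hF : F.IsHomogeneous d) (y : Fin (p + 1) → ℂ) :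
    eval₂ (evA d F) y (Fu p d) = eval y F := by
  rw [eval₂_eq_eval_map, B.map_Fu hF]

theorem gen (hP : Prime (Fu p d)) {F : PP p ℂ} (hF : F.IsHomogeneous d) {y : Fin (p + 1) → ℂ}
    (h0 : eval y F = 0) (hI : AlgebraicIndependent ℚ (val d F y)) : GenPt d F y := by
  intro Q hQ
  have hk : ∀ G, Fu p d ∣ G → eval₂ (evA d F) y G = 0 := by
    rintro _ ⟨G, rfl⟩
    rw [eval₂_mul, ev_Fu hF, h0, zero_mul]
  obtain ⟨N, Q', h⟩ := red p d Q
  have h1 := hk _ h
  rw [eval₂_sub, eval₂_mul, hQ, mul_zero, zero_sub, neg_eq_zero, ev_jj] at h1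
  rw [hI.eq_zero_of_aeval_eq_zero Q' h1, map_zero, sub_zero] at h
  refine (hP.dvd_or_dvd h).resolve_left fun h2 => hI.ne_zero (Sum.inr 0) ?_
  simpa [val] using hk _ (hP.dvd_of_dvd_pow h2)

theorem cf_mem {F : PP p ℂ} (hF : F.IsHomogeneous d) {y : Fin (p + 1) → ℂ} (h0 : eval y F = 0)
    (hy : y 0 ≠ 0) :
    Set.range (cf d F) ⊆ IntermediateField.adjoin ℚ (Set.range (val d F y)) := by
  rintro _ ⟨μ, rfl⟩
  by_cases h : μ = top p d
  · obtain ⟨Q, hQ⟩ := top_eq p d
    have h1 := congrArg (eval₂ (evA d F) y) hQ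
    rw [ev_Fu hF, h0, eval₂_sub, ev_jj, eval₂_mul, eval₂_pow, eval₂_X, eval₂_C, B.evA_X,
      sub_eq_zero] at h1
    have h2 : cf d F μ = aeval (val d F y) Q / y 0 ^ d := by
      rw [← h1, h, mul_div_cancel_left₀ _ (pow_ne_zero _ hy)]
      rfl
    rw [h2]
    refine div_mem (IntermediateField.algebra_adjoin_le_adjoin ℚ _ ?_)
      (pow_mem (IntermediateField.subset_adjoin ℚ _ (Set.mem_range_self (Sum.inr 0))) _)
    rw [Algebra.adjoin_range_eq_range_aeval]
    exact ⟨Q, rfl⟩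
  · exact IntermediateField.subset_adjoin ℚ _ ⟨Sum.inl ⟨μ, h⟩, rfl⟩

theorem card_Par : Fintype.card (Par p d) + 1 =
    Fintype.card (Mon (p + 1) d) + Fintype.card (Fin (p + 1)) := by
  have h : 0 < Fintype.card (Mon (p + 1) d) := Fintype.card_pos_iff.2 ⟨top p d⟩
  rw [Fintype.card_sum, Fintype.card_subtype_compl, Fintype.card_subtype_eq]
  omega

/-- The matrix of the change of coordinates. -/
def mat (y : Fin (p + 1) → ℂ) (σ : Equiv.Perm (Fin (p + 1))) :
    Matrix (Fin (p + 1)) (Fin (p + 1)) ℂ :=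
  fun j l => (if l = 0 then y j else 0) + if j ≠ 0 ∧ l = σ j then 1 else 0

theorem mat_mul (y : Fin (p + 1) → ℂ) (σ : Equiv.Perm (Fin (p + 1))) (u : Fin (p + 1) → ℂ)
    (j : Fin (p + 1)) : (mat y σ).mulVec u j = y j * u 0 + if j ≠ 0 then u (σ j) else 0 := by
  by_cases h : j = 0 <;>
    simp [mat, Matrix.mulVec, dotProduct, add_mul, Finset.sum_add_distrib, h]

end FinP

open FinP in
theorem finS (hRk : RkStmt) (hP : PrimeStmt) : FinStmt := by
  rintro p d F v i1 hd ⟨hF, h0, hr⟩ ⟨i, hi, hv⟩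
  obtain ⟨ra, rb, rc, -, re⟩ := hRk
  obtain ⟨y, hy, hr'⟩ := rc _ (Fin (p + 1)) (cf d F)
  have hy0 : y 0 ≠ 0 := hy.ne_zero 0
  obtain ⟨σ, hσ0, hσ⟩ : ∃ σ : Equiv.Perm (Fin (p + 1)), σ 0 = 0 ∧ σ i1.succ = i :=
    ⟨Equiv.swap i1.succ i, Equiv.swap_apply_of_ne_of_ne (Fin.succ_ne_zero _).symm hi.symm,
      Equiv.swap_apply_left _ _⟩
  have hσ' : ∀ j, j ≠ 0 → σ j ≠ 0 := fun j hj e => hj (σ.injective (e.trans hσ0.symm))
  have hinj : Function.Injective (mat y σ).mulVecLin := by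
    refine (injective_iff_map_eq_zero _).2 fun u hu => ?_
    have h1 : ∀ j, y j * u 0 + (if j ≠ 0 then u (σ j) else 0) = 0 := fun j =>
      (mat_mul y σ u j).symm.trans (congrFun hu j)
    have h2 : u 0 = 0 := by simpa [hy0] using h1 0
    funext l
    obtain ⟨j, rfl⟩ := σ.surjective l
    by_cases h : j = 0
    · rw [h, hσ0, h2]; rfl
    · simpa [h, h2] using h1 j
  have hU : IsUnit (mat y σ).det :=
    (Matrix.isUnit_iff_isUnit_det _).1 (Matrix.mulVec_injective_iff_isUnit.1 hinj)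
  have he : (mat y σ).mulVec (Pi.single 0 1) = y := by
    funext j
    rw [mat_mul]
    by_cases h : j = 0
    · simp [h]
    · simp [h, hσ' j h]
  obtain ⟨h1, h2, -⟩ := re _ _ d (mat y σ)⁻¹ F hF
  obtain ⟨F', hF'⟩ : ∃ F', F' = lin (mat y σ)⁻¹ F := ⟨_, rfl⟩
  rw [← hF'] at h1 h2
  have h3 : ∀ u, eval ((mat y σ).mulVec u) F' = eval u F := fun u => by
    rw [h2, Matrix.mulVec_mulVec, Matrix.nonsing_inv_mul _ hU, Matrix.one_mulVec]
  have h4 : eval y F' = 0 := by rw [← he, h3, h0]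
  obtain ⟨-, h5, h6⟩ := re _ _ d (mat y σ) F' h1
  have h7 : lin (mat y σ) F' = F := MvPolynomial.funext fun u => by rw [h5, h3]
  have hyE : ∀ j, y j ∈ IntermediateField.adjoin ℚ (Set.range (val d F' y)) := fun j =>
    IntermediateField.subset_adjoin ℚ _ ⟨Sum.inr j, rfl⟩
  have h8 := h6 _ (cf_mem h1 h4 hy0) fun j l => by
    refine add_mem ?_ ?_ <;> split_ifs
    exacts [hyE j, zero_mem _, one_mem _, zero_mem _]
  rw [h7] at h8
  have h9 := ra _ _ (Set.union_subset h8 (Set.range_subset_iff.2 hyE))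
  have hI : AlgebraicIndependent ℚ (val d F' y) := by
    refine (rb _ _).2.2 (le_trans ?_ h9)
    rw [hr', ← ENat.add_le_add_iff_right (k := 1) ENat.one_ne_top, add_right_comm]
    have h10 : (Fintype.card (Par p d) : ℕ∞) + 1 =
        Fintype.card (Mon (p + 1) d) + Fintype.card (Fin (p + 1)) := by exact_mod_cast card_Par
    rw [h10]
    rw [Nat.cast_zero, add_zero] at hr
    exact add_le_add_left hr _
  refine ⟨F', (mat y σ).mulVecLin, hinj, h1, h3, ?_, ?_⟩
  · rw [Matrix.mulVecLin_apply, he]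
    exact gen (hP p d i1.pos hd).1 h1 h4 hI
  · rw [Matrix.mulVecLin_apply, Matrix.mulVecLin_apply, he, mat_mul, mat_mul,
      if_pos (Fin.succ_ne_zero _), if_neg (not_not.2 rfl), hσ]
    intro h
    exact mul_ne_zero hy0 hv (by linear_combination h)

end

end Pool.Agent.Lib.MP_45f16c_ag.VG

end partFinP

section partRY
/-! The reduction to a generic point. -/

open MvPolynomial

namespace Pool.Agent.Lib.MP_45f16c_ag.VG

theorem ryS (hInit : InitStmt) (hStep : StepStmt) (hFin : FinStmt) : RYStmt := by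
  intro p d F x v i1 hd hF hI hxv hx
  have key : ∀ c ≤ p, ∃ (F' : PP (p + c) ℂ) (T : (Fin (p + 1) → ℂ) →ₗ[ℂ] (Fin (p + c + 1) → ℂ)),
      Function.Injective T ∧ T x = Pi.single 0 1 ∧ (∀ y, eval (T y) F' = eval y F) ∧
      Nf d (p - c) F' := by
    intro c
    induction c with
    | zero => exact fun _ => hInit p d F x hF hI (hxv.ne_zero 0) hx
    | succ c ih =>
      intro hc
      obtain ⟨F', T, hT, hTx, hTF, hN⟩ := ih (by omega)
      rw [show p - c = p - (c + 1) + 1 by omega] at hN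
      obtain ⟨F'', T', hT', hT'x, hT'F, hN'⟩ := hStep (p + c) d _ F' hd hN
      exact ⟨F'', T'.comp T, hT'.comp hT, by rw [LinearMap.comp_apply, hTx, hT'x],
        fun y => by rw [LinearMap.comp_apply, hT'F, hTF], hN'⟩
  obtain ⟨F', T, hT, hTx, hTF, hN⟩ := key p le_rfl
  rw [Nat.sub_self] at hN
  have hv : ∃ i, i ≠ 0 ∧ T v i ≠ 0 := by
    by_contra h
    push Not at h
    have e : T v = T (T v 0 • x) := by
      rw [map_smul, hTx]
      funext i
      by_cases hi : i = 0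
      · subst hi; simp
      · simp [hi, h i hi]
    have := (LinearIndependent.pair_iff.1 hxv) (T v 0) (-1) (by
      rw [← hT e]; simp)
    simpa using this.2
  obtain ⟨F'', T', hT', hF'', hT'F, hG, hw⟩ := hFin (p + p) d F' (T v) i1 hd hN hv
  refine ⟨F'', T'.comp T, hT'.comp hT, hF'', fun y => by rw [LinearMap.comp_apply, hT'F, hTF],
    ?_, ?_⟩ <;> simp only [LinearMap.comp_apply, hTx]
  · exact hG
  · exact hw

end Pool.Agent.Lib.MP_45f16c_ag.VG

end partRY
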