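import Pool.Agent.Lib.MP_45f16c_ag.VG.B

/-! Very generic hyperbolicity: one more variable; compensating forms. -/

set_option autoImplicit false

section partStep
/-! One step of the reduction of Riedl and Yang: one more variable lowers the defect. -/

open MvPolynomial

namespace Pool.Agent.Lib.MP_45f16c_ag.VG

noncomputable section

namespace StepAux

/-- If the relations are stable under all derivatives, there is no relation. -/
theorem indep_of_stable {κ : Type} (c : κ → ℂ)
    (h : ∀ (Q : MvPolynomial κ ℚ) (i : κ), aeval c Q = 0 → aeval c (pderiv i Q) = 0) :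
    AlgebraicIndependent ℚ c := by
  classical
  rw [algebraicIndependent_iff]
  have key : ∀ (n : ℕ) (Q : MvPolynomial κ ℚ), (∀ m ∈ Q.support, m.degree < n) →
      aeval c Q = 0 → Q = 0 := by
    intro n
    induction n with
    | zero =>
      intro Q hQ _
      rw [← support_eq_empty, Finset.eq_empty_iff_forall_notMem]
      intro m hm
      exact absurd (hQ m hm) (Nat.not_lt_zero _)
    | succ n ih =>
      intro Q hQ h0
      have hd : ∀ i, pderiv i Q = 0 := fun i => by
        refine ih _ (fun m hm => ?_) (h Q i h0)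
        rw [mem_support_iff, coeff_pderiv] at hm
        have := hQ _ (mem_support_iff.2 (left_ne_zero_of_mul hm))
        rw [map_add, Finsupp.degree_single] at this
        omega
      have hC : Q = C (coeff 0 Q) := by
        ext m
        rw [coeff_C]
        split_ifs with hm
        · rw [hm]
        · obtain ⟨i, hi⟩ : ∃ i, m i ≠ 0 := by
            by_contra hc
            push Not at hc
            exact hm (Finsupp.ext fun i => (hc i).symm)
          have e1 : m = (m - Finsupp.single i 1) + Finsupp.single i 1 := by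
            rw [tsub_add_cancel_of_le]
            exact Finsupp.single_le_iff.2 (Nat.one_le_iff_ne_zero.2 hi)
          have := coeff_pderiv (i := i) Q (m - Finsupp.single i 1)
          rw [hd i, coeff_zero, ← e1] at this
          rcases mul_eq_zero.1 this.symm with h1 | h1
          · exact h1
          · exact absurd h1 (by positivity)
      rw [hC] at h0 ⊢
      rw [aeval_C] at h0
      rw [(map_eq_zero_iff _ (algebraMap ℚ ℂ).injective).1 h0, map_zero]
  intro Q hQ
  refine key (Q.totalDegree + 1) Q (fun m hm => ?_) hQ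
  exact Nat.lt_succ_of_le (le_totalDegree hm)

/-- Relations are stable under derivatives in the free variables. -/
theorem stable_new {ι : Type} (P : ι → Prop) (c : ι → ℂ) (K : IntermediateField ℚ ℂ)
    (hK : ∀ μ, ¬P μ → c μ ∈ K) (hb : AlgebraicIndependent K fun μ : {μ // P μ} => c μ.1)
    (Q : MvPolynomial ι ℚ) (μ : ι) (hμ : P μ) (h0 : aeval c Q = 0) :
    aeval c (pderiv μ Q) = 0 := by
  classical
  let ψ : MvPolynomial ι ℚ →ₐ[ℚ] MvPolynomial {μ // P μ} K :=
    aeval fun ν => if h : P ν then X ⟨ν, h⟩ else C ⟨c ν, hK ν h⟩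
  have h1 : ∀ Q, aeval (fun μ : {μ // P μ} => c μ.1) (ψ Q) = aeval c Q := by
    intro Q
    induction Q using MvPolynomial.induction_on with
    | C a =>
      simp only [ψ, aeval_C]
      rw [MvPolynomial.algebraMap_apply, aeval_C]
      rfl
    | add f g hf hg => simp only [map_add, hf, hg]
    | mul_X f ν hf =>
      rw [map_mul, map_mul, hf, map_mul]
      congr 1
      simp only [ψ, aeval_X]
      split_ifs with h
      · rw [aeval_X]
      · rw [aeval_C]; rfl
  have h2 : ∀ Q, ψ (pderiv μ Q) = pderiv ⟨μ, hμ⟩ (ψ Q) := by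
    intro Q
    induction Q using MvPolynomial.induction_on with
    | C a =>
      simp only [ψ, aeval_C, pderiv_C, map_zero]
      rw [MvPolynomial.algebraMap_apply, pderiv_C]
    | add f g hf hg => simp only [map_add, hf, hg]
    | mul_X f ν hf =>
      rw [pderiv_mul, map_add, map_mul, map_mul, map_mul, pderiv_mul, hf]
      congr 2
      simp only [ψ, aeval_X]
      by_cases e : ν = μ
      · subst e
        rw [pderiv_X_self, map_one, dif_pos hμ, pderiv_X_self]
      · rw [pderiv_X_of_ne e, map_zero]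
        split_ifs with h
        · rw [pderiv_X_of_ne fun h' => e (congrArg Subtype.val h')]
        · rw [pderiv_C]
  have h3 : ψ Q = 0 := algebraicIndependent_iff.1 hb _ (by rw [h1, h0])
  rw [← h1, h2, h3, map_zero, map_zero]

/-- The substitution interpolating between the identity and a permutation. -/
def sub {ι R : Type} [CommRing R] (s : R) (σ : ι → ι) : MvPolynomial ι R →ₐ[R] MvPolynomial ι R :=
  aeval fun j => C (1 - s) * X j + C s * X (σ j)

theorem sub_hom {ι R : Type} [CommRing R] (s : R) (σ : ι → ι) {G : MvPolynomial ι R} {d : ℕ}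
    (h : G.IsHomogeneous d) : (sub s σ G).IsHomogeneous d := by
  have := h.aeval (n := 1) (fun j => C (1 - s) * X j + C s * X (σ j)) fun j =>
    ((isHomogeneous_X R j).C_mul _).add ((isHomogeneous_X R (σ j)).C_mul _)
  rwa [one_mul] at this

theorem eval_sub {ι R : Type} [CommRing R] (s : R) (σ : ι → ι) (G : MvPolynomial ι R)
    (x : ι → R) : eval x (sub s σ G) = eval (fun j => (1 - s) * x j + s * x (σ j)) G := by
  induction G using MvPolynomial.induction_on with
  | C a => simp [sub]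
  | add f g hf hg => simp only [map_add, hf, hg]
  | mul_X f j hf => rw [map_mul, map_mul, hf, map_mul]; simp [sub]

theorem map_sub' {ι R S : Type} [CommRing R] [CommRing S] (f : R →+* S) (s : R) (σ : ι → ι)
    (G : MvPolynomial ι R) :
    MvPolynomial.map f (sub s σ G) = sub (f s) σ (MvPolynomial.map f G) := by
  induction G using MvPolynomial.induction_on with
  | C a => simp [sub]
  | add f g hf hg => simp only [map_add, hf, hg]
  | mul_X g j hg => rw [map_mul, map_mul, hg, map_mul, map_mul]; simp [sub]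

theorem sub_zero' {ι R : Type} [CommRing R] (σ : ι → ι) (G : MvPolynomial ι R) :
    sub (0 : R) σ G = G := by
  simp [sub]

theorem sub_one' {ι R : Type} [CommRing R] (σ : ι → ι) (G : MvPolynomial ι R) :
    sub (1 : R) σ G = rename σ G := by
  simp [sub, rename_eq_aeval, Function.comp_def]

/-- A generic member of the family satisfies only the relations that hold identically. -/
theorem exists_generic {ν d : ℕ} (σ : Fin ν → Fin ν) (G : MvPolynomial (Fin ν) ℂ) :
    ∃ s : ℂ, 2 * s - 1 ≠ 0 ∧ ∀ Q : MvPolynomial (Mon ν d) ℚ,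
      aeval (cf d (sub s σ G)) Q = 0 → ∀ t : ℂ, aeval (cf d (sub t σ G)) Q = 0 := by
  classical
  let G' : MvPolynomial (Fin ν) (Polynomial ℂ) :=
    sub Polynomial.X σ (MvPolynomial.map Polynomial.C G)
  let φ : MvPolynomial (Mon ν d) ℚ →ₐ[ℚ] Polynomial ℂ := aeval fun μ => coeff μ.1 G'
  have hφ : ∀ (t : ℂ) Q, (φ Q).eval t = aeval (cf d (sub t σ G)) Q := by
    intro t Q
    have e : MvPolynomial.map (Polynomial.evalRingHom t) G' = sub t σ G := by
      simp only [G']
      rw [map_sub', map_map]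
      have : (Polynomial.evalRingHom t).comp Polynomial.C = RingHom.id ℂ := by
        ext x; simp
      rw [this, map_id]
      simp
    induction Q using MvPolynomial.induction_on with
    | C a =>
      simp only [φ, aeval_C]
      rw [Polynomial.algebraMap_apply, Polynomial.eval_C]
    | add f g hf hg => simp only [map_add, Polynomial.eval_add, hf, hg]
    | mul_X f μ hf =>
      rw [map_mul, Polynomial.eval_mul, hf, map_mul]
      congr 1
      simp only [φ, aeval_X, cf]
      rw [← e, coeff_map]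
      rfl
  have : Countable (MvPolynomial (Mon ν d) ℚ) := by
    refine Function.Injective.countable (f := fun Q : MvPolynomial (Mon ν d) ℚ =>
      (AddMonoidAlgebra.coeff Q : (Mon ν d →₀ ℕ) →₀ ℚ)) ?_
    intro a b h
    exact AddMonoidAlgebra.ext h
  have hc : (insert (1 / 2 : ℂ) (⋃ Q : MvPolynomial (Mon ν d) ℚ,
      ((φ Q).roots.toFinset : Set ℂ))).Countable :=
    (Set.countable_iUnion fun Q => (Finset.countable_toSet _)).insert _
  obtain ⟨s, hs⟩ : ∃ s : ℂ, s ∉ insert (1 / 2 : ℂ) (⋃ Q : MvPolynomial (Mon ν d) ℚ,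
      ((φ Q).roots.toFinset : Set ℂ)) := by
    by_contra hn
    push Not at hn
    exact not_countable_complex (hc.mono fun s _ => hn s)
  rw [Set.mem_insert_iff, not_or] at hs
  refine ⟨s, fun h => hs.1 (by linear_combination h / 2), fun Q hQ t => ?_⟩
  have : φ Q = 0 := by
    by_contra hne
    refine hs.2 (Set.mem_iUnion.2 ⟨Q, ?_⟩)
    rw [Finset.mem_coe, Multiset.mem_toFinset, Polynomial.mem_roots hne, Polynomial.IsRoot, hφ]
    exact hQ
  rw [← hφ, this, Polynomial.eval_zero]

/-- The inverse substitution after the inclusion. -/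
theorem exists_T {p : ℕ} (s : ℂ) (hs : 2 * s - 1 ≠ 0) (σ : Fin (p + 1 + 1) → Fin (p + 1 + 1))
    (hσ : ∀ j, σ (σ j) = j) (h0 : σ 0 = 0) :
    ∃ T : (Fin (p + 1) → ℂ) →ₗ[ℂ] (Fin (p + 1 + 1) → ℂ), Function.Injective T ∧
      T (Pi.single 0 1) = Pi.single 0 1 ∧
      ∀ y, (fun j => (1 - s) * T y j + s * T y (σ j)) = Fin.snoc (α := fun _ => ℂ) y 0 := by
  let I : (Fin (p + 1) → ℂ) →ₗ[ℂ] (Fin (p + 1 + 1) → ℂ) :=
    { toFun := fun y => Fin.snoc (α := fun _ => ℂ) y 0
      map_add' := fun x y => by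
        funext j
        refine Fin.lastCases ?_ (fun i => ?_) j <;> simp
      map_smul' := fun a x => by
        funext j
        refine Fin.lastCases ?_ (fun i => ?_) j <;> simp }
  let t : ℂ := s / (2 * s - 1)
  let U : (Fin (p + 1 + 1) → ℂ) →ₗ[ℂ] (Fin (p + 1 + 1) → ℂ) :=
    { toFun := fun z j => (1 - t) * z j + t * z (σ j)
      map_add' := fun x y => by funext j; simp only [Pi.add_apply]; ring
      map_smul' := fun a x => by
        funext j; simp only [Pi.smul_apply, smul_eq_mul, RingHom.id_apply]; ring }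
  have ht : t * (2 * s - 1) = s := div_mul_cancel₀ _ hs
  have key : ∀ y, (fun j => (1 - s) * (U.comp I) y j + s * (U.comp I) y (σ j)) =
      Fin.snoc (α := fun _ => ℂ) y 0 := by
    intro y
    funext j
    change (1 - s) * ((1 - t) * I y j + t * I y (σ j)) +
      s * ((1 - t) * I y (σ j) + t * I y (σ (σ j))) = I y j
    rw [hσ]
    linear_combination (I y j - I y (σ j)) * ht
  refine ⟨U.comp I, fun x y h => ?_, ?_, key⟩
  · have h1 := key x
    rw [h, key y] at h1
    funext i
    simpa using (congrFun h1 i.castSucc).symm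
  · have e : I (Pi.single 0 1) = Pi.single 0 1 := by
      funext j
      change Fin.snoc (α := fun _ => ℂ) (Pi.single 0 1) 0 j = _
      refine Fin.lastCases ?_ (fun i => ?_) j
      · rw [Fin.snoc_last, Pi.single_eq_of_ne (Fin.last_pos).ne']
      · rw [Fin.snoc_castSucc]
        by_cases hi : i = 0
        · subst hi; simp
        · rw [Pi.single_eq_of_ne hi, Pi.single_eq_of_ne (by simpa using hi)]
    funext j
    change (1 - t) * I (Pi.single 0 1) j + t * I (Pi.single 0 1) (σ j) = _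
    rw [e]
    by_cases hj : j = 0
    · subst hj; rw [h0]; simp
    · have : σ j ≠ 0 := fun h => hj (by rw [← hσ j, h, h0])
      rw [Pi.single_eq_of_ne hj, Pi.single_eq_of_ne this]; simp

theorem degree_mapDomain {α β : Type} (f : α → β) (μ : α →₀ ℕ) :
    (μ.mapDomain f).degree = μ.degree := by
  induction μ using Finsupp.induction_linear with
  | zero => simp
  | add a b ha hb => rw [Finsupp.mapDomain_add, map_add, map_add, ha, hb]
  | single a n => simp [Finsupp.mapDomain_single]

/-- Renaming of exponent vectors. -/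
def mm {ν ν' d : ℕ} (f : Fin ν → Fin ν') (μ : Mon ν d) : Mon ν' d :=
  ⟨μ.1.mapDomain f, B.mem_mon (by rw [degree_mapDomain, B.mon_degree])⟩

theorem cf_rename {ν ν' d : ℕ} {f : Fin ν → Fin ν'} (hf : Function.Injective f)
    (G : MvPolynomial (Fin ν) ℂ) (μ : Mon ν d) : cf d (rename f G) (mm f μ) = cf d G μ :=
  coeff_rename_mapDomain f hf G μ.1

theorem mm_mm {ν d : ℕ} {f : Fin ν → Fin ν} (hf : ∀ j, f (f j) = j) (μ : Mon ν d) :
    mm f (mm f μ) = μ := by
  refine Subtype.ext ?_
  change (μ.1.mapDomain f).mapDomain f = μ.1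
  rw [← Finsupp.mapDomain_comp, show f ∘ f = id from funext hf, Finsupp.mapDomain_id]

theorem exists_old {p d : ℕ} (μ : Mon (p + 1 + 1) d) (h : μ.1 (Fin.last (p + 1)) = 0) :
    ∃ ν : Mon (p + 1) d, mm Fin.castSucc ν = μ := by
  have hs : (μ.1.support : Set (Fin (p + 1 + 1))) ⊆ Set.range Fin.castSucc := by
    intro j hj
    rw [Finset.mem_coe, Finsupp.mem_support_iff] at hj
    refine Fin.lastCases (motive := fun j => μ.1 j ≠ 0 → j ∈ Set.range Fin.castSucc)
      (fun h' => absurd h h') (fun i _ => ⟨i, rfl⟩) j hj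
  have e := Finsupp.mapDomain_comapDomain _ (Fin.castSucc_injective (p + 1)) μ.1 hs
  refine ⟨⟨_, B.mem_mon ?_⟩, Subtype.ext e⟩
  exact (degree_mapDomain Fin.castSucc _).symm.trans
    ((congrArg Finsupp.degree e).trans (B.mon_degree μ))

/-- The form with one more variable and free new coefficients. -/
theorem exists_ext {p d : ℕ} (F : PP p ℂ) (hF : F.IsHomogeneous d)
    (b : {μ : Mon (p + 1 + 1) d // μ.1 (Fin.last (p + 1)) ≠ 0} → ℂ) :
    ∃ G : PP (p + 1) ℂ, G.IsHomogeneous d ∧
      (∀ y, eval (Fin.snoc (α := fun _ => ℂ) y 0) G = eval y F) ∧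
      (∀ ν, cf d G (mm Fin.castSucc ν) = cf d F ν) ∧ ∀ μ, cf d G μ.1 = b μ := by
  classical
  refine ⟨rename Fin.castSucc F + ∑ μ, monomial μ.1.1 (b μ), ?_, fun y => ?_, fun ν => ?_,
    fun μ => ?_⟩
  · exact hF.rename_isHomogeneous.add
      (IsHomogeneous.sum _ _ _ fun μ _ => isHomogeneous_monomial _ (B.mon_degree μ.1))
  · rw [map_add, eval_rename, map_sum, Finset.sum_eq_zero, add_zero]
    · congr 2
      funext i
      simp
    · intro μ _
      rw [eval_monomial, Finsupp.prod, Finset.prod_eq_zero (Finsupp.mem_support_iff.2 μ.2),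
        mul_zero]
      rw [Fin.snoc_last, zero_pow μ.2]
  · rw [← cf_rename (Fin.castSucc_injective (p + 1)) F ν]
    simp only [cf, coeff_add, coeff_sum, coeff_monomial]
    rw [Finset.sum_eq_zero, add_zero]
    intro μ _
    refine if_neg fun h => μ.2 ?_
    rw [h]
    exact Finsupp.mapDomain_of_notMem_range _ _ (by simp)
  · simp only [cf, coeff_add, coeff_sum, coeff_monomial]
    rw [coeff_rename_eq_zero, zero_add, Finset.sum_eq_single μ, if_pos rfl]
    · intro ν _ hν
      exact if_neg fun h => hν (Subtype.ext (Subtype.ext h))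
    · simp
    · intro u hu
      refine absurd ?_ μ.2
      rw [← hu]
      exact Finsupp.mapDomain_of_notMem_range _ _ (by simp)

end StepAux

open StepAux in
theorem stepS (hRk : RkStmt) : StepStmt := by
  classical
  obtain ⟨hA, hB, hC, hD, -⟩ := hRk
  intro p d c F _ ⟨hF, hF0, hrk⟩
  obtain ⟨b, hb, hbr⟩ := hC (Mon (p + 1) d)
    {μ : Mon (p + 1 + 1) d // μ.1 (Fin.last (p + 1)) ≠ 0} (cf d F)
  obtain ⟨G, hG, hGe, hGo, hGn⟩ := exists_ext F hF b
  have mono : ∀ s t : Set ℂ, s ⊆ t → rk s ≤ rk t := fun s t h =>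
    hA s t (h.trans (IntermediateField.subset_adjoin ℚ t))
  have hcard : Fintype.card (Mon (p + 1 + 1) d) ≤ Fintype.card (Mon (p + 1) d) +
      Fintype.card {μ : Mon (p + 1 + 1) d // μ.1 (Fin.last (p + 1)) ≠ 0} := by
    rw [← Fintype.card_sum]
    refine Fintype.card_le_of_surjective (Sum.elim (mm Fin.castSucc) Subtype.val) fun μ => ?_
    by_cases h : μ.1 (Fin.last (p + 1)) = 0
    · obtain ⟨ν, e⟩ := exists_old μ h
      exact ⟨Sum.inl ν, e⟩
    · exact ⟨Sum.inr ⟨μ, h⟩, rfl⟩
  have hrG : (Fintype.card (Mon (p + 1 + 1) d) : ℕ∞) ≤ rk (Set.range (cf d G)) + 1 + 1 + c := by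
    have h1 : rk (Set.range (cf d F) ∪ Set.range b) ≤ rk (Set.range (cf d G)) := by
      refine mono _ _ ?_
      rintro _ (⟨ν, rfl⟩ | ⟨μ, rfl⟩)
      · exact ⟨_, hGo ν⟩
      · exact ⟨_, hGn μ⟩
    rw [hbr] at h1
    calc (Fintype.card (Mon (p + 1 + 1) d) : ℕ∞) ≤ (Fintype.card (Mon (p + 1) d) : ℕ∞) +
          (Fintype.card {μ : Mon (p + 1 + 1) d // μ.1 (Fin.last (p + 1)) ≠ 0} : ℕ∞) := by
          exact_mod_cast hcard
      _ ≤ (rk (Set.range (cf d F)) + 1 + ((c + 1 : ℕ) : ℕ∞)) +
          (Fintype.card {μ : Mon (p + 1 + 1) d // μ.1 (Fin.last (p + 1)) ≠ 0} : ℕ∞) := by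
          gcongr
      _ = (rk (Set.range (cf d F)) +
          (Fintype.card {μ : Mon (p + 1 + 1) d // μ.1 (Fin.last (p + 1)) ≠ 0} : ℕ∞)) +
          1 + 1 + c := by
          push_cast; ring
      _ ≤ _ := by gcongr
  have fin : ∀ (s : ℂ) (σ : Fin (p + 1 + 1) → Fin (p + 1 + 1)), 2 * s - 1 ≠ 0 →
      (∀ j, σ (σ j) = j) → σ 0 = 0 →
      (Fintype.card (Mon (p + 1 + 1) d) : ℕ∞) ≤ rk (Set.range (cf d (sub s σ G))) + 1 + c →
      ∃ (F' : PP (p + 1) ℂ) (T : (Fin (p + 1) → ℂ) →ₗ[ℂ] (Fin (p + 1 + 1) → ℂ)),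
        Function.Injective T ∧ T (Pi.single 0 1) = Pi.single 0 1 ∧
        (∀ y, eval (T y) F' = eval y F) ∧ Nf d c F' := by
    intro s σ hs hσ h0 hr
    obtain ⟨T, hT, hT0, hTe⟩ := exists_T s hs σ hσ h0
    have he : ∀ y, eval (T y) (sub s σ G) = eval y F := fun y => by
      rw [StepAux.eval_sub, hTe, hGe]
    refine ⟨sub s σ G, T, hT, hT0, he, sub_hom s σ hG, ?_, hr⟩
    rw [← hT0, he, hF0]
  by_cases hcase : (Fintype.card (Mon (p + 1 + 1) d) : ℕ∞) ≤ rk (Set.range (cf d G)) + 1 + c
  · exact fin 0 id (by simp) (fun _ => rfl) rfl (by rwa [sub_zero'])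
  let top : Mon (p + 1 + 1) d := ⟨Finsupp.single 0 d, B.mem_mon (Finsupp.degree_single _ _)⟩
  have hdep : ¬AlgebraicIndependent ℚ fun μ : {μ // μ ≠ top} => cf d G μ.1 := by
    intro hi
    refine hcase ?_
    have h1 := ((hB _ _).2.1 hi).trans (mono _ (Set.range (cf d G)) (by
      rintro _ ⟨μ, rfl⟩; exact ⟨_, rfl⟩))
    have h2 : Fintype.card (Mon (p + 1 + 1) d) = Fintype.card {μ // μ ≠ top} + 1 := by
      rw [Fintype.card_subtype_compl, Fintype.card_subtype_eq, Nat.sub_add_cancel]
      exact Fintype.card_pos_iff.2 ⟨top⟩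
    rw [h2]
    push_cast
    exact le_add_right (by gcongr)
  have hnew : ∀ (Q : MvPolynomial (Mon (p + 1 + 1) d) ℚ) (μ : Mon (p + 1 + 1) d),
      μ.1 (Fin.last (p + 1)) ≠ 0 → aeval (cf d G) Q = 0 → aeval (cf d G) (pderiv μ Q) = 0 := by
    refine stable_new _ _ (IntermediateField.adjoin ℚ (Set.range (cf d F))) (fun μ h => ?_) ?_
    · obtain ⟨ν, rfl⟩ := exists_old μ (not_not.1 h)
      rw [hGo]
      exact IntermediateField.subset_adjoin ℚ _ ⟨ν, rfl⟩
    · rwa [show (fun μ : {μ : Mon (p + 1 + 1) d // μ.1 (Fin.last (p + 1)) ≠ 0} => cf d G μ.1) = b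
        from funext hGn]
  obtain ⟨i, hi, Q, hQ, hQ'⟩ : ∃ i : Fin (p + 1 + 1), i ≠ 0 ∧
      ∃ Q : MvPolynomial (Mon (p + 1 + 1) d) ℚ, aeval (cf d G) Q = 0 ∧
        aeval (cf d G) (rename (mm (Equiv.swap i (Fin.last (p + 1)))) Q) ≠ 0 := by
    by_contra hn
    push Not at hn
    refine hdep (indep_of_stable _ fun Q μ h0 => ?_)
    obtain ⟨i, hi, hμ⟩ : ∃ i, i ≠ 0 ∧ μ.1.1 i ≠ 0 := by
      by_contra hc
      push Not at hc
      refine μ.2 (Subtype.ext ?_)
      have e : μ.1.1 = Finsupp.single 0 (μ.1.1 0) := by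
        ext j
        by_cases hj : j = 0
        · subst hj; simp
        · rw [hc j hj, Finsupp.single_eq_of_ne hj]
      have e2 := B.mon_degree μ.1
      rw [e, Finsupp.degree_single] at e2
      rw [e, e2]
    have hinv : ∀ ν : Mon (p + 1 + 1) d, mm (Equiv.swap i (Fin.last (p + 1)))
        (mm (Equiv.swap i (Fin.last (p + 1))) ν) = ν := mm_mm (Equiv.swap_apply_self _ _)
    have hinj : Function.Injective
        (mm (d := d) (Equiv.swap i (Fin.last (p + 1)))) := Function.LeftInverse.injective hinv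
    have h1 : aeval (cf d G) (rename Subtype.val Q) = 0 := by rwa [aeval_rename]
    have h2 := hnew _ (mm (Equiv.swap i (Fin.last (p + 1))) μ.1) (by
      change Finsupp.mapDomain _ μ.1.1 _ ≠ 0
      rw [← Equiv.swap_apply_left i (Fin.last (p + 1)), Equiv.swap_apply_left,
        Finsupp.mapDomain_equiv_apply]
      simpa using hμ) (hn i hi _ h1)
    have h3 := hn i hi _ h2
    rw [pderiv_rename hinj, rename_rename, show mm (Equiv.swap i (Fin.last (p + 1))) ∘
      mm (d := d) (Equiv.swap i (Fin.last (p + 1))) = id from funext hinv, rename_id_apply,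
      pderiv_rename Subtype.val_injective, aeval_rename] at h3
    exact h3
  obtain ⟨s, hs, hgen⟩ := exists_generic (d := d) (Equiv.swap i (Fin.last (p + 1))) G
  refine fin s (Equiv.swap i (Fin.last (p + 1))) hs (Equiv.swap_apply_self _ _)
    (Equiv.swap_apply_of_ne_of_ne hi.symm (Fin.last_pos).ne) (hrG.trans ?_)
  have := hD _ (cf d G) (cf d (sub s (Equiv.swap i (Fin.last (p + 1))) G))
    (fun R hR => by simpa only [sub_zero'] using hgen R hR 0)
    ⟨Q, hQ, fun h => hQ' (by
      have h1 := hgen Q h 1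
      rw [sub_one'] at h1
      rw [aeval_rename, ← h1]
      congr 2
      funext μ
      have := cf_rename (Equiv.swap i (Fin.last (p + 1))).injective G
        (mm (Equiv.swap i (Fin.last (p + 1))) μ)
      rw [mm_mm (Equiv.swap_apply_self _ _)] at this
      exact this.symm)⟩
  gcongr

end

end Pool.Agent.Lib.MP_45f16c_ag.VG

end partStep

section partLift
/-! Compensating forms, and generators of the forms vanishing on the generic jet. -/

open MvPolynomial

namespace Pool.Agent.Lib.MP_45f16c_ag.VG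

noncomputable section

namespace Lift

variable {k p : ℕ} {R : Type} [CommRing R]

theorem BH_C {a : SS k p R} {N : ℕ} (h : IsWeightedHomogeneous (wo k p) a N) :
    BH (C a : PP p (SS k p R)) 0 N := by
  classical
  refine ⟨isHomogeneous_C _ _, fun μ => ?_⟩
  rw [coeff_C]
  split_ifs
  · exact h
  · exact isWeightedHomogeneous_zero _ _ _

theorem BH_mon {μ : Fin (p + 1) →₀ ℕ} {n : ℕ} (h : μ.degree = n) :
    BH (monomial μ 1 : PP p (SS k p R)) n 0 := by
  classical
  refine ⟨isHomogeneous_monomial _ h, fun ν => ?_⟩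
  rw [coeff_monomial]
  split_ifs
  · exact isWeightedHomogeneous_one _ _
  · exact isWeightedHomogeneous_zero _ _ _

theorem BH_X (i : Fin (p + 1)) : BH (X i : PP p (SS k p R)) 1 0 :=
  BH_mon (Finsupp.degree_single _ _)

theorem BH_sum {ι : Type} (s : Finset ι) (f : ι → PP p (SS k p R)) {n N : ℕ}
    (h : ∀ i ∈ s, BH (f i) n N) : BH (∑ i ∈ s, f i) n N :=
  ⟨IsHomogeneous.sum _ _ _ fun i hi => (h i hi).1, fun μ => by
    rw [coeff_sum]
    exact IsWeightedHomogeneous.sum _ _ _ fun i hi => (h i hi).2 μ⟩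

theorem BH_sub {G G' : PP p (SS k p R)} {n N : ℕ} (h : BH G n N) (h' : BH G' n N) :
    BH (G - G') n N :=
  ⟨h.1.sub h'.1, fun μ => by
    rw [coeff_sub]
    exact (weightedHomogeneousSubmodule R (wo k p) N).sub_mem (h.2 μ) (h'.2 μ)⟩

theorem BH_pow {G : PP p (SS k p R)} {n N : ℕ} (h : BH G n N) (j : ℕ) :
    BH (G ^ j) (j * n) (j * N) := by
  induction j with
  | zero => simpa using BH_mon (k := k) (R := R) (μ := (0 : Fin (p + 1) →₀ ℕ)) (n := 0) (by simp)
  | succ j ih =>
    rw [pow_succ, Nat.succ_mul, Nat.succ_mul]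
    exact B.BH.mul ih h

theorem BH_cast {G : PP p (SS k p R)} {n N n' N' : ℕ} (h : BH G n N) (e : n = n') (e' : N = N') :
    BH G n' N' := e ▸ e' ▸ h

theorem wo_X (v : Jet k p) : IsWeightedHomogeneous (wo k p) (X v : SS k p R) (v.1.val + 1) :=
  isWeightedHomogeneous_X R (wo k p) v

theorem BH_ell (i : Fin (p + 1)) : BH (ell (k := k) R i) 1 1 :=
  BH_sub (B.BH.mul (BH_C (wo_X (0, 0))) (BH_X i)) (B.BH.mul (BH_C (wo_X (0, i))) (BH_X 0))

theorem hm_wo {s1 : Fin (k + 1)} (hs : s1.val = 1) (i : Fin (p + 1)) :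
    IsWeightedHomogeneous (wo k p) (hm R s1 i) (7 * k + 1) := by
  have h1 : IsWeightedHomogeneous (wo k p) (wr R s1 i) 3 := by
    have a1 := (wo_X (R := R) ((0, 0) : Jet k p)).mul (wo_X (s1, i))
    have a2 := (wo_X (R := R) ((0, i) : Jet k p)).mul (wo_X (s1, 0))
    simp only [hs, Fin.val_zero] at a1 a2
    exact (weightedHomogeneousSubmodule R (wo k p) 3).sub_mem a1 a2
  have h2 := ((wo_X (R := R) ((0, 0) : Jet k p)).pow (k + 1)).mul (h1.pow (2 * k))
  have e : (k + 1) • ((((0, 0) : Jet k p).1.val) + 1) + (2 * k) • 3 = 7 * k + 1 := by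
    simp only [Fin.val_zero, smul_eq_mul]; ring
  rwa [e] at h2

theorem wr_ne [Nontrivial R] {s1 : Fin (k + 1)} (hs : s1.val = 1) {i : Fin (p + 1)} (hi : i ≠ 0) :
    wr R s1 i ≠ 0 := fun h => by
  classical
  have h0 : s1 ≠ 0 := fun e => by simp [e] at hs
  have := congrArg (eval fun v : Jet k p => if v = (0, 0) ∨ v = (s1, i) then (1 : R) else 0) h
  simp [wr, hi, h0, h0.symm, hi.symm] at this

/-- reduction to monomials -/
theorem of_mon {N : Type} [AddCommGroup N] [Module (SS k p R) N] (T : Submodule (SS k p R) N)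
    (f : PP p (SS k p R) →ₗ[SS k p R] N) {m : ℕ}
    (hf : ∀ μ : Fin (p + 1) →₀ ℕ, μ.degree = m → f (monomial μ 1) ∈ T) {G : PP p (SS k p R)}
    (hG : G.IsHomogeneous m) : f G ∈ T := by
  rw [G.as_sum, map_sum]
  refine T.sum_mem fun μ hμ => ?_
  rw [show monomial μ (coeff μ G) = coeff μ G • (monomial μ 1 : PP p (SS k p R)) by
    simp [smul_monomial], map_smul]
  refine T.smul_mem _ (hf μ ?_)
  rw [Finsupp.degree_eq_weight_one]; exact hG (mem_support_iff.1 hμ)

theorem split {μ : Fin (p + 1) →₀ ℕ} {a b : ℕ} (h : μ.degree = a + b) :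
    ∃ ν ν' : Fin (p + 1) →₀ ℕ, ν.degree = a ∧ ν'.degree = b ∧
      (monomial μ 1 : PP p (SS k p R)) = monomial ν 1 * monomial ν' 1 := by
  obtain ⟨g, hg, e⟩ := Finsupp.exists_le_degree_eq μ b (by omega)
  obtain ⟨ν, rfl⟩ := exists_add_of_le hg
  rw [map_add] at h
  exact ⟨ν, g, by omega, e, by rw [monomial_mul, one_mul, add_comm g ν]⟩

/-- the interpolating form, up to the factor `X 0` -/
def AA (i : Fin (p + 1)) (c : Fin (k + 1) → Fin (k + 1) → SS k p R)
    (φ : Polynomial (SS k p R)) : PP p (SS k p R) :=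
  ∑ s : Fin (k + 1), ∑ j : Fin (k + 1),
    C (φ.coeff s.val * c s j) * (X 0 ^ (k - j.val) * ell R i ^ j.val)

variable {s1 : Fin (k + 1)} {i : Fin (p + 1)} {c : Fin (k + 1) → Fin (k + 1) → SS k p R}

theorem BH_M (a j : ℕ) : BH (X 0 ^ a * ell (k := k) R i ^ j) (a + j) j :=
  BH_cast (B.BH.mul (BH_pow (BH_X 0) a) (BH_pow (BH_ell i) j)) (by ring) (by ring)

theorem AA_hom (φ : Polynomial (SS k p R)) : (AA i c φ).IsHomogeneous k := by
  refine IsHomogeneous.sum _ _ _ fun s _ => IsHomogeneous.sum _ _ _ fun j _ => ?_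
  have := (isHomogeneous_C (Fin (p + 1)) (φ.coeff s.val * c s j)).mul
    (BH_M (k := k) (R := R) (i := i) (k - j.val) j.val).1
  rwa [show 0 + (k - j.val + j.val) = k by omega] at this

theorem AA_BH (hc : ∀ s j, IsWeightedHomogeneous (wo k p) (c s j) (6 * k - s.val - j.val))
    {φ : Polynomial (SS k p R)} {N : ℕ}
    (hφ : ∀ s ≤ k, IsWeightedHomogeneous (wo k p) (φ.coeff s) (N + s - 6 * k))
    (hN : ∀ s ≤ k, N + s < 6 * k → φ.coeff s = 0) : BH (AA i c φ) k N := by
  refine BH_sum _ _ fun s _ => BH_sum _ _ fun j _ => ?_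
  by_cases h : N + s.val < 6 * k
  · rw [hN s.val (by omega) h, zero_mul, C_0, zero_mul]
    simpa using BH_sum (k := k) (p := p) (R := R) (∅ : Finset ℕ) (fun _ => 0) (n := k) (N := N)
      (by simp)
  · exact BH_cast (B.BH.mul (BH_C ((hφ s.val (by omega)).mul (hc s j))) (BH_M _ _)) (by omega)
      (by omega)

theorem AA_sg (hc : ∀ s, Polynomial.X ^ (k + 1) ∣
      sg k R (∑ j, C (c s j) * (X 0 ^ (k + 1 - j.val) * ell R i ^ j.val)) -
        Polynomial.C (hm R s1 i) * Polynomial.X ^ s.val) (φ : Polynomial (SS k p R)) :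
    Polynomial.X ^ (k + 1) ∣ sg k R (X 0 * AA i c φ) - Polynomial.C (hm R s1 i) * φ := by
  have e1 : X 0 * AA i c φ = ∑ s : Fin (k + 1), φ.coeff s.val •
      ∑ j, C (c s j) * (X 0 ^ (k + 1 - j.val) * ell R i ^ j.val) := by
    simp only [AA, Finset.mul_sum, Finset.smul_sum]
    refine Finset.sum_congr rfl fun s _ => Finset.sum_congr rfl fun j _ => ?_
    rw [show k + 1 - j.val = (k - j.val) + 1 by omega, smul_eq_C_mul, C_mul]
    ring
  have h2 : Polynomial.X ^ (k + 1) ∣
      ∑ s : Fin (k + 1), φ.coeff s.val • (Polynomial.X : Polynomial (SS k p R)) ^ s.val - φ := by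
    refine Polynomial.X_pow_dvd_iff.2 fun d hd => ?_
    rw [Polynomial.coeff_sub, Polynomial.finsetSum_coeff,
      Finset.sum_eq_single (⟨d, hd⟩ : Fin (k + 1)) (fun b _ hb => by
        rw [Polynomial.coeff_smul, Polynomial.coeff_X_pow,
          if_neg (fun e => hb (Fin.ext e.symm)), smul_zero]) (by simp)]
    simp
  have h3 := dvd_add (Finset.dvd_sum fun s (_ : s ∈ Finset.univ) =>
    (hc s).mul_left (Polynomial.C (φ.coeff s.val))) (h2.mul_left (Polynomial.C (hm R s1 i)))
  convert h3 using 1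
  rw [e1, map_sum]
  simp only [map_smul, Polynomial.smul_eq_C_mul, mul_sub, Finset.sum_sub_distrib, Finset.mul_sum]
  have : ∀ s : Fin (k + 1), Polynomial.C (φ.coeff s.val) *
      (Polynomial.C (hm R s1 i) * Polynomial.X ^ s.val) =
      Polynomial.C (hm R s1 i) * (Polynomial.C (φ.coeff s.val) * Polynomial.X ^ s.val) :=
    fun s => by ring
  simp only [this]
  ring

theorem sg_C (a : SS k p R) : sg k R (C a : PP p (SS k p R)) = Polynomial.C a := by
  simp [sg]

theorem part1 (hc : ∀ s j, IsWeightedHomogeneous (wo k p) (c s j) (6 * k - s.val - j.val))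
    (hd : ∀ s, Polynomial.X ^ (k + 1) ∣
      sg k R (∑ j, C (c s j) * (X 0 ^ (k + 1 - j.val) * ell R i ^ j.val)) -
        Polynomial.C (hm R s1 i) * Polynomial.X ^ s.val)
    (n N s : ℕ) (Y : PP p (SS k p R)) (hn : k ≤ n) (hs : s ≤ k) (hY : BH Y n N) :
    ∃ G : PP p (SS k p R), BH G (n + 1) (N + 7 * k - s) ∧ Polynomial.X ^ (k + 1) ∣
      sg k R G - Polynomial.C (hm R s1 i) * Polynomial.X ^ s * sg k R Y := by
  have H : ∀ μ ∈ Y.support, ∃ G : PP p (SS k p R), BH G (n + 1) (N + 7 * k - s) ∧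
      Polynomial.X ^ (k + 1) ∣ sg k R G - Polynomial.C (hm R s1 i) * Polynomial.X ^ s *
        sg k R (monomial μ (coeff μ Y)) := fun μ hμ => by
    have e : μ.degree = (n - k) + k := by
      rw [Nat.sub_add_cancel hn, Finsupp.degree_eq_weight_one]; exact hY.1 (mem_support_iff.1 hμ)
    obtain ⟨ν, ν', h1, h2, h3⟩ := split (k := k) (R := R) e
    refine ⟨C (coeff μ Y) * monomial ν 1 *
      (X 0 * AA i c (Polynomial.X ^ s * sg k R (monomial ν' 1))), ?_, ?_⟩
    · refine BH_cast (B.BH.mul (B.BH.mul (BH_C (hY.2 μ)) (BH_mon h1)) (B.BH.mul (BH_X 0)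
        (AA_BH (N := 7 * k - s) hc (fun u hu => ?_) fun u hu h => ?_))) (by omega) (by omega)
      · rw [Polynomial.coeff_X_pow_mul']
        split_ifs with h
        · have := B.sg_hom (BH_mon (k := k) (R := R) h2) (u - s)
          rwa [show 0 + k + (u - s) = 7 * k - s + u - 6 * k by omega] at this
        · exact isWeightedHomogeneous_zero _ _ _
      · omega
    · have := (AA_sg hd (Polynomial.X ^ s * sg k R (monomial ν' 1))).mul_left
        (sg k R (C (coeff μ Y) * monomial ν 1))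
      convert this using 1
      rw [← mul_one (coeff μ Y), ← C_mul_monomial, h3, mul_one]
      simp only [map_mul]
      ring
  choose! G h1 h2 using H
  refine ⟨∑ μ ∈ Y.support, G μ, BH_sum _ _ h1, ?_⟩
  have := Finset.dvd_sum h2
  rwa [Finset.sum_sub_distrib, ← Finset.mul_sum, ← map_sum, ← map_sum, ← Y.as_sum] at this

theorem gen_mem (hs : s1.val = 1)
    (hc : ∀ s j, IsWeightedHomogeneous (wo k p) (c s j) (6 * k - s.val - j.val))
    (hd : ∀ s, Polynomial.X ^ (k + 1) ∣
      sg k R (∑ j, C (c s j) * (X 0 ^ (k + 1 - j.val) * ell R i ^ j.val)) -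
        Polynomial.C (hm R s1 i) * Polynomial.X ^ s.val)
    {Y Γ : PP p (SS k p R)} {a : ℕ} (hY : BH Y a 0) (hΓ : BH Γ (k + 1) 0) :
    BH (Y * (C (hm R s1 i) * Γ - X 0 * AA i c (sg k R Γ))) (a + (k + 1)) (7 * k + 1) ∧
      Polynomial.X ^ (k + 1) ∣ sg k R (Y * (C (hm R s1 i) * Γ - X 0 * AA i c (sg k R Γ))) := by
  constructor
  · refine BH_cast (B.BH.mul hY (BH_sub (n := k + 1) (N := 7 * k + 1)
      (BH_cast (B.BH.mul (BH_C (hm_wo hs i)) hΓ) (by omega) (by omega))
      (BH_cast (B.BH.mul (BH_X 0) (AA_BH (N := 7 * k + 1) hc (fun u hu => ?_)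
        fun u hu h => by omega)) (by omega) (by omega)))) rfl (by omega)
    have := B.sg_hom hΓ u
    rwa [show 0 + (k + 1) + u = 7 * k + 1 + u - 6 * k by omega] at this
  · rw [map_mul, map_sub, map_mul, sg_C]
    exact (dvd_sub_comm.1 (AA_sg hd _)).mul_left _

theorem reduce (hs : s1.val = 1)
    (hc : ∀ s j, IsWeightedHomogeneous (wo k p) (c s j) (6 * k - s.val - j.val))
    (hd : ∀ s, Polynomial.X ^ (k + 1) ∣
      sg k R (∑ j, C (c s j) * (X 0 ^ (k + 1 - j.val) * ell R i ^ j.val)) -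
        Polynomial.C (hm R s1 i) * Polynomial.X ^ s.val) (d e : ℕ) :
    ∀ a : ℕ, a + (k + 1 + e) = d → ∀ Γ : PP p (SS k p R), Γ.IsHomogeneous (k + 1 + e) →
      hm R s1 i ^ (e + 1) • (X 0 ^ a * Γ) ∈
        Submodule.span (SS k p R) {G' : PP p (SS k p R) | BH G' d (7 * k + 1) ∧
          Polynomial.X ^ (k + 1) ∣ sg k R G'} ⊔
        Submodule.span (SS k p R) (Set.range fun j : Fin (k + 1) =>
          (X 0 ^ (d - j.val) * ell R i ^ j.val : PP p (SS k p R))) := by
  induction e with
  | zero =>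
    intro a ha Γ hΓ
    refine of_mon _ (hm R s1 i ^ (0 + 1) • LinearMap.mulLeft (SS k p R) (X 0 ^ a))
      (fun μ hμ => ?_) hΓ
    have h1 := gen_mem hs hc hd (BH_pow (BH_X 0) a) (BH_mon hμ)
    rw [mul_one, show a + (k + 1) = d from ha] at h1
    have e : (hm R s1 i ^ (0 + 1) • LinearMap.mulLeft (SS k p R) (X 0 ^ a)) (monomial μ 1) =
        X 0 ^ a * (C (hm R s1 i) * monomial μ 1 - X 0 * AA i c (sg k R (monomial μ 1))) +
        ∑ s : Fin (k + 1), ∑ j : Fin (k + 1), ((sg k R (monomial μ 1)).coeff s.val * c s j) •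
          (X 0 ^ (d - j.val) * ell R i ^ j.val : PP p (SS k p R)) := by
      have e2 : X 0 ^ a * (X 0 * AA i c (sg k R (monomial μ 1))) =
          ∑ s : Fin (k + 1), ∑ j : Fin (k + 1), ((sg k R (monomial μ 1)).coeff s.val * c s j) •
            (X 0 ^ (d - j.val) * ell R i ^ j.val : PP p (SS k p R)) := by
        simp only [AA, Finset.mul_sum]
        refine Finset.sum_congr rfl fun s _ => Finset.sum_congr rfl fun j _ => ?_
        rw [show d - j.val = a + 1 + (k - j.val) by omega, smul_eq_C_mul]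
        ring
      rw [← e2, LinearMap.smul_apply, LinearMap.mulLeft_apply, smul_eq_C_mul, zero_add, pow_one]
      ring
    rw [e]
    exact Submodule.add_mem_sup (Submodule.subset_span h1)
      (Submodule.sum_mem _ fun s _ => Submodule.sum_mem _ fun j _ =>
        Submodule.smul_mem _ _ (Submodule.subset_span ⟨j, rfl⟩))
  | succ e ih =>
    intro a ha Γ hΓ
    refine of_mon _ (hm R s1 i ^ (e + 1 + 1) • LinearMap.mulLeft (SS k p R) (X 0 ^ a))
      (fun μ hμ => ?_) hΓ
    obtain ⟨ν, ν', h1, h2, h3⟩ := split (k := k) (R := R) (a := e + 1) (b := k + 1)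
      (hμ.trans (by omega))
    have h4 := gen_mem hs hc hd (B.BH.mul (BH_cast (BH_pow (BH_X 0) a) (mul_one a) (mul_zero a))
      (BH_mon h1)) (BH_mon h2)
    rw [show a + (e + 1) + (k + 1) = d by omega] at h4
    have h5 := ih (a + 1) (by omega) (monomial ν 1 * AA i c (sg k R (monomial ν' 1))) (by
      have := (isHomogeneous_monomial (1 : SS k p R) h1).mul
        (AA_hom (i := i) (c := c) (sg k R (monomial ν' 1)))
      rwa [show e + 1 + k = k + 1 + e by omega] at this)
    have e2 : (hm R s1 i ^ (e + 1 + 1) • LinearMap.mulLeft (SS k p R) (X 0 ^ a)) (monomial μ 1) =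
        hm R s1 i ^ (e + 1) • (X 0 ^ a * monomial ν 1 *
          (C (hm R s1 i) * monomial ν' 1 - X 0 * AA i c (sg k R (monomial ν' 1)))) +
        hm R s1 i ^ (e + 1) • (X 0 ^ (a + 1) *
          (monomial ν 1 * AA i c (sg k R (monomial ν' 1)))) := by
      rw [LinearMap.smul_apply, LinearMap.mulLeft_apply, h3]
      simp only [smul_eq_C_mul, C_pow]
      ring
    rw [e2]
    exact Submodule.add_mem _ (Submodule.mem_sup_left (Submodule.smul_mem _ _
      (Submodule.subset_span h4))) h5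

theorem indep [IsDomain R] (hs : s1.val = 1) (hi : i ≠ 0) (d : ℕ) (a : Fin (k + 1) → SS k p R)
    (h : Polynomial.X ^ (k + 1) ∣ sg k R (∑ j : Fin (k + 1),
      a j • (X 0 ^ (d - j.val) * ell R i ^ j.val : PP p (SS k p R)))) : ∀ j, a j = 0 := by
  have hx : ∀ m, sg k R (X m : PP p (SS k p R)) = xt k R m := fun m => by simp [sg]
  have h0 : ∀ m : Fin (p + 1), (xt k R m).coeff 0 = X (0, m) := fun m => B.xt_coeff m 0
  have h1 : ∀ m : Fin (p + 1), (xt k R m).coeff 1 = X (s1, m) := fun m => by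
    have := B.xt_coeff (R := R) m s1
    rwa [hs] at this
  obtain ⟨L, hL⟩ : Polynomial.X ∣ sg k R (ell R i) := by
    rw [Polynomial.X_dvd_iff, ell, map_sub, map_mul, map_mul, sg_C, sg_C, hx, hx,
      Polynomial.coeff_sub, Polynomial.coeff_C_mul, Polynomial.coeff_C_mul, h0, h0]
    ring
  have hL0 : L.coeff 0 = wr R s1 i := by
    rw [← Polynomial.coeff_X_mul, ← hL, ell, map_sub, map_mul, map_mul, sg_C, sg_C, hx, hx,
      Polynomial.coeff_sub, Polynomial.coeff_C_mul, Polynomial.coeff_C_mul, zero_add, h1, h1, wr]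
  have e : sg k R (∑ j : Fin (k + 1),
      a j • (X 0 ^ (d - j.val) * ell R i ^ j.val : PP p (SS k p R))) =
      ∑ j : Fin (k + 1), a j • (Polynomial.X ^ j.val * (xt k R 0 ^ (d - j.val) * L ^ j.val)) := by
    rw [map_sum]
    refine Finset.sum_congr rfl fun j _ => ?_
    rw [map_smul, map_mul, map_pow, map_pow, hx, hL, mul_pow, mul_left_comm]
  rw [e, Polynomial.X_pow_dvd_iff] at h
  intro j
  induction j using WellFoundedLT.induction with
  | ind j ih =>
    have h2 := h j.val j.2
    rw [Polynomial.finsetSum_coeff, Finset.sum_eq_single j (fun b _ hb => by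
      rcases lt_or_gt_of_ne hb with h3 | h3
      · rw [ih b h3, zero_smul, Polynomial.coeff_zero]
      · rw [Polynomial.coeff_smul, Polynomial.coeff_X_pow_mul',
          if_neg (not_le.2 (Fin.lt_def.1 h3)), smul_zero])
      (by simp), Polynomial.coeff_smul, Polynomial.coeff_X_pow_mul', if_pos le_rfl, Nat.sub_self,
      Polynomial.mul_coeff_zero, Polynomial.coeff_zero_eq_eval_zero,
      Polynomial.coeff_zero_eq_eval_zero, Polynomial.eval_pow, Polynomial.eval_pow,
      ← Polynomial.coeff_zero_eq_eval_zero, ← Polynomial.coeff_zero_eq_eval_zero, h0, hL0,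
      smul_eq_mul] at h2
    exact (mul_eq_zero.1 h2).resolve_right
      (mul_ne_zero (pow_ne_zero _ (X_ne_zero _)) (pow_ne_zero _ (wr_ne hs hi)))

end Lift

theorem liftS (hT : ThetaStmt) : LiftStmt := by
  intro k p R _ _ s1 i hs hi
  obtain ⟨c, hc, hd⟩ := hT k p R s1 i hs hi
  refine ⟨Lift.part1 hc hd, fun d G hk hG hX => ⟨d - (k + 1) + 1, ?_⟩⟩
  have h := Lift.reduce hs hc hd d (d - (k + 1)) 0 (by omega) G
    (by rwa [show k + 1 + (d - (k + 1)) = d by omega])
  rw [pow_zero, one_mul] at h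
  obtain ⟨y, hy, z, hz, e⟩ := Submodule.mem_sup.1 h
  obtain ⟨a, rfl⟩ := (Submodule.mem_span_range_iff_exists_fun _).1 hz
  have hy' : Polynomial.X ^ (k + 1) ∣ sg k R y := by
    refine Submodule.span_induction (p := fun y _ => Polynomial.X ^ (k + 1) ∣ sg k R y)
      (fun x hx => hx.2) (by simp) (fun x y _ _ h1 h2 => by rw [map_add]; exact dvd_add h1 h2)
      (fun r x _ h1 => ?_) hy
    rw [map_smul, Polynomial.smul_eq_C_mul]
    exact h1.mul_left _
  have ha := Lift.indep hs hi d a (by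
    rw [← dvd_add_right hy', ← map_add, e, map_smul, Polynomial.smul_eq_C_mul]
    exact hX.mul_left _)
  rw [← e, Finset.sum_eq_zero fun j _ => by rw [ha j, zero_smul], add_zero]
  exact hy

end

end Pool.Agent.Lib.MP_45f16c_ag.VG

end partLift
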