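import Pool.Agent.Lib.MP_45f16c_ag.VG.B

/-! Very generic hyperbolicity: curves and jets. -/

set_option autoImplicit false

section partZal
/-! The rescaling argument of Brody and Zalcman. -/

open Filter Metric
open scoped Topology

namespace Pool.Agent.Lib.MP_45f16c_ag.VG

namespace ZalAux

variable {ν : ℕ} {f : ℂ → Fin ν → ℂ}

theorem hasDerivAt_coord (hf : Differentiable ℂ f) (z : ℂ) (i : Fin ν) :
    HasDerivAt (fun w => f w i) (deriv f z i) z :=
  hasDerivAt_pi.1 (hf z).hasDerivAt i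

/-- If all Wronskians vanish the curve is projectively constant. -/
theorem const_of_wz (hf : Differentiable ℂ f) (h0 : ∀ z, f z ≠ 0) (h : ∀ z i j, wz f z i j = 0)
    (z w : ℂ) (i j : Fin ν) : f z i * f w j = f z j * f w i := by
  obtain ⟨m, hm⟩ := Function.ne_iff.1 (h0 w)
  have hm : f w m ≠ 0 := hm
  have hc : ∀ i, Differentiable ℂ fun u => f u i := fun i u =>
    (hasDerivAt_coord hf u i).differentiableAt
  have hopen : IsOpen {u | f u m ≠ 0} := isOpen_ne_fun (hc m).continuous continuous_const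
  obtain ⟨r, hr, hball⟩ := Metric.isOpen_iff.1 hopen w hm
  have key : ∀ i u, f u i = f w i / f w m * f u m := by
    intro i
    have hd : ∀ u ∈ ball w r, HasDerivAt (fun u => f u i / f u m) 0 u := fun u hu => by
      have := (hasDerivAt_coord hf u i).div (hasDerivAt_coord hf u m) (hball hu)
      have e := h u m i
      unfold wz at e
      rw [show deriv f u i * f u m - f u i * deriv f u m = 0 by linear_combination e,
        zero_div] at this
      exact this
    have h1 : ∀ u ∈ ball w r, f u i / f u m = f w i / f w m := fun u hu =>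
      isOpen_ball.is_const_of_deriv_eq_zero (convex_ball w r).isPreconnected
        (fun u hu => (hd u hu).differentiableAt.differentiableWithinAt)
        (fun u hu => (hd u hu).deriv) hu (mem_ball_self hr)
    have h2 : (fun u => f u i) =ᶠ[𝓝 w] fun u => f w i / f w m * f u m := by
      filter_upwards [ball_mem_nhds w hr] with u hu
      rw [← h1 u hu, div_mul_cancel₀ _ (hball hu)]
    have h3 := AnalyticOnNhd.eq_of_eventuallyEq
      (fun u _ => (hc i).analyticAt u)
      (fun u _ => ((hc m).const_mul (f w i / f w m)).analyticAt u) h2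
    exact fun u => congrFun h3 u
  rw [key i z, key j z]
  field_simp

/-- The size of the projective derivative. -/
noncomputable def Dz (f : ℂ → Fin ν → ℂ) (z : ℂ) : ℝ :=
  ‖fun ij : Fin ν × Fin ν => wz f z ij.1 ij.2‖ / ‖f z‖ ^ 2

theorem continuous_Dz (hf : Differentiable ℂ f) (h0 : ∀ z, f z ≠ 0) : Continuous (Dz f) := by
  have h1 : Continuous f := hf.continuous
  have h2 : Continuous (deriv f) := hf.deriv.continuous
  refine Continuous.div ?_ (by fun_prop) fun z => pow_ne_zero _ (norm_ne_zero_iff.2 (h0 z))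
  refine Continuous.norm (continuous_pi fun ij => ?_)
  unfold wz
  fun_prop

theorem Dz_nonneg (z : ℂ) : 0 ≤ Dz f z := by unfold Dz; positivity

theorem wz_le (h0 : ∀ z, f z ≠ 0) (z : ℂ) (i j : Fin ν) : ‖wz f z i j‖ ≤ Dz f z * ‖f z‖ ^ 2 := by
  unfold Dz
  rw [div_mul_cancel₀ _ (pow_ne_zero _ (norm_ne_zero_iff.2 (h0 z)))]
  exact norm_le_pi_norm (fun ij : Fin ν × Fin ν => wz f z ij.1 ij.2) (i, j)

theorem exists_wz_ge (h0 : ∀ z, f z ≠ 0) {z : ℂ} (h : 0 < Dz f z) :
    ∃ i j, Dz f z * ‖f z‖ ^ 2 ≤ ‖wz f z i j‖ := by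
  by_contra! hlt
  have hp : 0 < ‖f z‖ ^ 2 := pow_pos (norm_pos_iff.2 (h0 z)) 2
  have := (pi_norm_lt_iff (x := fun ij : Fin ν × Fin ν => wz f z ij.1 ij.2)
    (mul_pos h hp)).2 fun ij => hlt ij.1 ij.2
  unfold Dz at this
  rw [div_mul_cancel₀ _ hp.ne'] at this
  exact lt_irrefl _ this

theorem wz_comp (hf : Differentiable ℂ f) (a t z : ℂ) (i j : Fin ν) :
    wz (fun u => f (a + t * u)) z i j = t * wz f (a + t * z) i j := by
  have h1 : HasDerivAt (fun u : ℂ => a + t * u) t z := by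
    simpa using ((hasDerivAt_id z).const_mul t).const_add a
  have h2 := ((hf (a + t * z)).hasDerivAt.scomp z h1).deriv
  unfold wz
  rw [show deriv (fun u => f (a + t * u)) z = t • deriv f (a + t * z) from h2]
  simp only [Pi.smul_apply, smul_eq_mul]
  ring

end ZalAux

open ZalAux in
theorem zalS : ZalStmt := by
  intro ν f hf h0 hne R
  obtain ⟨z0, hz0⟩ : ∃ z0, 0 < Dz f z0 := by
    by_contra! hle
    obtain ⟨z, w, i, j, hij⟩ := hne
    refine hij (const_of_wz hf h0 (fun u i j => ?_) z w i j)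
    have := wz_le h0 u i j
    rw [le_antisymm (hle u) (Dz_nonneg u), zero_mul] at this
    exact norm_le_zero_iff.1 this
  set ρ : ℝ := (2 * |R| + 1) / Dz f z0 with hρ
  have hR := abs_nonneg R
  have hρ0 : 0 < ρ := by positivity
  have hcont : Continuous fun z => (ρ - ‖z - z0‖) * Dz f z := by
    have := continuous_Dz hf h0
    fun_prop
  obtain ⟨a, ha, hmax⟩ := (isCompact_closedBall z0 ρ).exists_isMaxOn
    (nonempty_closedBall.2 hρ0.le) hcont.continuousOn
  have hδ : 0 ≤ ρ - ‖a - z0‖ := by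
    rw [mem_closedBall, dist_eq_norm] at ha
    linarith
  have h1 : 2 * |R| + 1 ≤ (ρ - ‖a - z0‖) * Dz f a := by
    have := hmax (mem_closedBall_self hρ0.le)
    simp only [Set.mem_ofPred_eq, sub_self, norm_zero, sub_zero] at this
    rwa [hρ, div_mul_cancel₀ _ hz0.ne'] at this
  have hDa : 0 < Dz f a := by
    rcases (Dz_nonneg (f := f) a).eq_or_lt with h | h
    · rw [← h, mul_zero] at h1
      linarith
    · exact h
  have hδ0 : 0 < ρ - ‖a - z0‖ := by
    rcases hδ.eq_or_lt with h | h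
    · rw [← h, zero_mul] at h1
      linarith
    · exact h
  set t : ℝ := (Dz f a)⁻¹ with ht
  have ht0 : 0 < t := inv_pos.2 hDa
  have htD : t * Dz f a = 1 := inv_mul_cancel₀ hDa.ne'
  have hnt : ‖(t : ℂ)‖ = t := by rw [Complex.norm_real, Real.norm_of_nonneg ht0.le]
  refine ⟨fun u => f (a + t * u), hf.comp (by fun_prop), fun u => ⟨_, rfl⟩, ?_, ?_⟩
  · obtain ⟨i, j, hij⟩ := exists_wz_ge h0 hDa
    refine ⟨i, j, ?_⟩
    rw [wz_comp hf, norm_mul, hnt]
    simp only [mul_zero, add_zero]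
    calc ‖f a‖ ^ 2 = t * (Dz f a * ‖f a‖ ^ 2) := by rw [← mul_assoc, htD, one_mul]
      _ ≤ _ := mul_le_mul_of_nonneg_left hij ht0.le
  · intro z hz i j
    rw [mem_ball, dist_zero_right] at hz
    have h2 : ‖(t : ℂ) * z‖ ≤ (ρ - ‖a - z0‖) / 2 := by
      rw [norm_mul, hnt]
      have h3 : ‖z‖ ≤ |R| := hz.le.trans (le_abs_self R)
      have h4 : t * (2 * |R| + 1) ≤ ρ - ‖a - z0‖ := by
        calc t * (2 * |R| + 1) ≤ t * ((ρ - ‖a - z0‖) * Dz f a) :=
              mul_le_mul_of_nonneg_left h1 ht0.le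
          _ = (ρ - ‖a - z0‖) * (t * Dz f a) := by ring
          _ = _ := by rw [htD, mul_one]
      nlinarith [mul_le_mul_of_nonneg_left h3 ht0.le]
    have h5 : ‖a + t * z - z0‖ ≤ ‖a - z0‖ + (ρ - ‖a - z0‖) / 2 := by
      rw [show a + t * z - z0 = (a - z0) + t * z by ring]
      exact (norm_add_le _ _).trans (by linarith)
    have h6 : a + t * z ∈ closedBall z0 ρ := by
      rw [mem_closedBall, dist_eq_norm]
      linarith
    have h7 : (ρ - ‖a + t * z - z0‖) * Dz f (a + t * z) ≤ (ρ - ‖a - z0‖) * Dz f a := hmax h6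
    have h8 : Dz f (a + t * z) ≤ 2 * Dz f a := by
      have h9 : (ρ - ‖a - z0‖) / 2 * Dz f (a + t * z) ≤
          (ρ - ‖a + t * z - z0‖) * Dz f (a + t * z) :=
        mul_le_mul_of_nonneg_right (by linarith) (Dz_nonneg _)
      refine le_of_mul_le_mul_left ?_ (half_pos hδ0)
      linarith
    rw [wz_comp hf, norm_mul, hnt]
    calc t * ‖wz f (a + t * z) i j‖ ≤ t * (2 * Dz f a * ‖f (a + t * z)‖ ^ 2) := by
          refine mul_le_mul_of_nonneg_left ((wz_le h0 _ i j).trans ?_) ht0.le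
          exact mul_le_mul_of_nonneg_right h8 (by positivity)
      _ = 2 * (t * Dz f a) * ‖f (a + t * z)‖ ^ 2 := by ring
      _ = _ := by rw [htD, mul_one]

end Pool.Agent.Lib.MP_45f16c_ag.VG

end partZal

section partGauge
/-! Local gauges: on a small disc one coordinate of the lifted curve dominates the others. -/

open Metric Set Filter Topology

namespace Pool.Agent.Lib.MP_45f16c_ag.VG

noncomputable section

namespace Gauge

theorem exists_max {ν : ℕ} (v : Fin ν → ℂ) (hv : v ≠ 0) : ∃ i, ‖v‖ ≤ ‖v i‖ := by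
  have hne : (Finset.univ : Finset (Fin ν)).Nonempty := by
    by_contra h
    apply hv
    funext i
    exact absurd ⟨i, Finset.mem_univ i⟩ h
  obtain ⟨i, -, hi⟩ := Finset.exists_max_image Finset.univ (fun i => ‖v i‖) hne
  exact ⟨i, (pi_norm_le_iff_of_nonneg (norm_nonneg _)).2 fun j => hi j (Finset.mem_univ j)⟩

theorem dominate {ν : ℕ} {g : ℂ → Fin ν → ℂ} {a : ℂ} (hg : DifferentiableOn ℂ g (ball a 1))
    (hw : ∀ z ∈ ball a 1, g z ≠ 0 ∧ ∀ i j, ‖wz g z i j‖ ≤ 2 * ‖g z‖ ^ 2) {i : Fin ν}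
    (hi : ‖g a‖ ≤ ‖g a i‖) {z : ℂ} (hz : z ∈ ball a (1 / 8)) : ‖g z‖ ≤ 2 * ‖g z i‖ := by
  have hr : ‖z - a‖ < 1 / 8 := by simpa [dist_eq_norm] using hz
  set γ : ℝ → ℂ := fun t => a + (t : ℂ) * (z - a) with hγ
  have hγc : Continuous γ := by fun_prop
  have hγm : ∀ t ∈ Icc (0 : ℝ) 1, γ t ∈ ball a 1 := by
    intro t ht
    have h1 : ‖(t : ℂ)‖ ≤ 1 := by
      rw [Complex.norm_real, Real.norm_eq_abs, abs_of_nonneg ht.1]; exact ht.2
    have : ‖γ t - a‖ ≤ ‖z - a‖ := by
      simp only [hγ, add_sub_cancel_left, norm_mul]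
      nlinarith [norm_nonneg (z - a)]
    rw [mem_ball, dist_eq_norm]
    linarith
  have hgd : ∀ t ∈ Icc (0 : ℝ) 1, DifferentiableAt ℂ g (γ t) := fun t ht =>
    hg.differentiableAt (isOpen_ball.mem_nhds (hγm t ht))
  have hF : ∀ t ∈ Icc (0 : ℝ) 1,
      ContinuousAt (fun s : ℝ => 2 * ‖g (γ s) i‖ - ‖g (γ s)‖) t := by
    intro t ht
    have h1 : ContinuousAt (fun s : ℝ => g (γ s)) t :=
      ContinuousAt.comp (f := γ) (hgd t ht).continuousAt hγc.continuousAt
    have h2 : ContinuousAt (fun s : ℝ => g (γ s) i) t :=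
      (continuous_apply i).continuousAt.comp h1
    exact (continuousAt_const.mul h2.norm).sub h1.norm
  set S : Set ℝ := {t | 0 ≤ 2 * ‖g (γ t) i‖ - ‖g (γ t)‖} with hS
  have hcl : IsClosed (S ∩ Icc (0 : ℝ) 1) := by
    have hco : ContinuousOn (fun s : ℝ => 2 * ‖g (γ s) i‖ - ‖g (γ s)‖) (Icc 0 1) :=
      fun t ht => (hF t ht).continuousWithinAt
    have := hco.preimage_isClosed_of_isClosed isClosed_Icc (isClosed_Ici (a := (0 : ℝ)))
    rw [inter_comm]
    exact this
  have hγ0 : γ 0 = a := by simp [hγ]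
  have h0 : (0 : ℝ) ∈ S := by
    simp only [hS, mem_ofPred_eq, hγ0]
    linarith [norm_nonneg (g a i)]
  have key : Icc (0 : ℝ) 1 ⊆ S := by
    refine hcl.Icc_subset_of_forall_mem_nhdsGT_of_Icc_subset h0 ?_
    intro t ht hsub
    have htI : t ∈ Icc (0 : ℝ) 1 := Ico_subset_Icc_self ht
    have hI : ∀ s ∈ Icc (0 : ℝ) t, s ∈ Icc (0 : ℝ) 1 := fun s hs => ⟨hs.1, hs.2.trans htI.2⟩
    have hne : ∀ s ∈ Icc (0 : ℝ) t, g (γ s) i ≠ 0 := by
      intro s hs h
      have h1 := hsub hs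
      simp only [hS, mem_ofPred_eq, h, norm_zero] at h1
      have h2 := (hw _ (hγm s (hI s hs))).1
      exact h2 (norm_le_zero_iff.1 (by linarith))
    have hb : ∀ j, ‖g (γ t) j‖ ≤ (1 + 8 * ‖z - a‖) * ‖g (γ t) i‖ := by
      intro j
      have hder : ∀ s ∈ Icc (0 : ℝ) t, HasDerivWithinAt (fun s : ℝ => g (γ s) j / g (γ s) i)
          (wz g (γ s) i j / g (γ s) i ^ 2 * (z - a)) (Icc 0 t) s := by
        intro s hs
        have hd := (hgd s (hI s hs)).hasDerivAt
        have hj : HasDerivAt (fun w => g w j) (deriv g (γ s) j) (γ s) := hasDerivAt_pi.1 hd j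
        have hii : HasDerivAt (fun w => g w i) (deriv g (γ s) i) (γ s) := hasDerivAt_pi.1 hd i
        have hq := hj.div hii (hne s hs)
        have hlin : HasDerivAt (fun u : ℂ => a + u * (z - a)) (z - a) (s : ℂ) := by
          simpa using ((hasDerivAt_id (s : ℂ)).mul_const (z - a)).const_add a
        have hc := HasDerivAt.comp (s : ℂ) (h₂ := fun w => g w j / g w i) hq hlin
        have hc2 := hc.comp_ofReal
        have e : wz g (γ s) i j / g (γ s) i ^ 2 * (z - a) =
            (deriv g (γ s) j * g (γ s) i - g (γ s) j * deriv g (γ s) i) / g (γ s) i ^ 2 *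
              (z - a) := by
          simp only [wz]; ring
        rw [e]
        exact hc2.hasDerivWithinAt
      have hbd : ∀ s ∈ Ico (0 : ℝ) t,
          ‖wz g (γ s) i j / g (γ s) i ^ 2 * (z - a)‖ ≤ 8 * ‖z - a‖ := by
        intro s hs
        have hs' : s ∈ Icc (0 : ℝ) t := Ico_subset_Icc_self hs
        have h1 := hsub hs'
        simp only [hS, mem_ofPred_eq] at h1
        have h2 := (hw _ (hγm s (hI s hs'))).2 i j
        have h3 : 0 < ‖g (γ s) i‖ := norm_pos_iff.2 (hne s hs')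
        rw [norm_mul, norm_div, norm_pow]
        refine mul_le_mul_of_nonneg_right ?_ (norm_nonneg _)
        rw [div_le_iff₀ (by positivity)]
        nlinarith [norm_nonneg (g (γ s))]
      have hmv := norm_image_sub_le_of_norm_deriv_le_segment' hder hbd t ⟨ht.1, le_rfl⟩
      have ha0 : 0 < ‖g a i‖ := by
        have := hne 0 ⟨le_rfl, ht.1⟩
        rw [hγ0] at this
        exact norm_pos_iff.2 this
      have h1 : ‖g (γ 0) j / g (γ 0) i‖ ≤ 1 := by
        rw [hγ0, norm_div, div_le_one ha0]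
        exact (norm_le_pi_norm _ j).trans hi
      have h2 : ‖g (γ t) j / g (γ t) i‖ ≤ 1 + 8 * ‖z - a‖ := by
        have h3 := norm_le_norm_add_norm_sub' (g (γ t) j / g (γ t) i) (g (γ 0) j / g (γ 0) i)
        have h4 : 8 * ‖z - a‖ * (t - 0) ≤ 8 * ‖z - a‖ := by
          nlinarith [norm_nonneg (z - a), ht.1, ht.2]
        linarith
      have h5 : 0 < ‖g (γ t) i‖ := norm_pos_iff.2 (hne t ⟨ht.1, le_rfl⟩)
      rwa [norm_div, div_le_iff₀ h5] at h2
    have h5 : 0 < ‖g (γ t) i‖ := norm_pos_iff.2 (hne t ⟨ht.1, le_rfl⟩)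
    have h6 : ‖g (γ t)‖ ≤ (1 + 8 * ‖z - a‖) * ‖g (γ t) i‖ :=
      (pi_norm_le_iff_of_nonneg (by positivity)).2 hb
    have h7 : 0 < 2 * ‖g (γ t) i‖ - ‖g (γ t)‖ := by nlinarith
    have h8 : ∀ᶠ s in 𝓝 t, 0 < 2 * ‖g (γ s) i‖ - ‖g (γ s)‖ :=
      (hF t htI).eventually (lt_mem_nhds h7)
    exact mem_nhdsWithin_of_mem_nhds (h8.mono fun s hs => le_of_lt hs)
  have h1 := key (⟨zero_le_one, le_rfl⟩ : (1 : ℝ) ∈ Icc (0 : ℝ) 1)
  have hγ1 : γ 1 = z := by simp [hγ]
  simp only [hS, mem_ofPred_eq, hγ1] at h1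
  linarith

end Gauge

theorem gaugeS : GaugeStmt := by
  intro ν g a hg hw
  obtain ⟨i, hi⟩ := Gauge.exists_max (g a) (hw a (mem_ball_self one_pos)).1
  have hsub : ball a (1 / 8) ⊆ ball a 1 := ball_subset_ball (by norm_num)
  have hdom : ∀ z ∈ ball a (1 / 8), ‖g z‖ ≤ 2 * ‖g z i‖ := fun z hz =>
    Gauge.dominate hg hw hi hz
  have hne : ∀ z ∈ ball a (1 / 8), g z i ≠ 0 := by
    intro z hz h
    have h1 := hdom z hz
    rw [h, norm_zero, mul_zero] at h1
    exact (hw z (hsub hz)).1 (norm_le_zero_iff.1 h1)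
  refine ⟨fun z => (g z i)⁻¹, ?_, ?_⟩
  · exact ((differentiableOn_pi.1 hg i).mono hsub).inv hne
  · intro z hz
    have h0 : 0 < ‖g z i‖ := norm_pos_iff.2 (hne z hz)
    rw [norm_smul, norm_inv]
    constructor
    · rw [le_inv_mul_iff₀ h0, mul_one]
      exact norm_le_pi_norm _ i
    · rw [inv_mul_le_iff₀ h0]
      linarith [hdom z hz]

end

end Pool.Agent.Lib.MP_45f16c_ag.VG

end partGauge

section partSeq
/-! Brody sequences. -/


open MvPolynomial Filter Topology Metric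

namespace Pool.Agent.Lib.MP_45f16c_ag.VG

namespace SeqAux

theorem eval_smul' {ν d : ℕ} {F : MvPolynomial (Fin ν) ℂ} (hF : F.IsHomogeneous d) (c : ℂ)
    (x : Fin ν → ℂ) : eval (c • x) F = c ^ d * eval x F := by
  rw [eval_eq, eval_eq, Finset.mul_sum]
  refine Finset.sum_congr rfl fun m hm => ?_
  have h : ∑ i ∈ m.support, m i = d := by
    simpa [Finsupp.weight_apply, Finsupp.sum] using hF (mem_support_iff.1 hm)
  simp only [Pi.smul_apply, smul_eq_mul, mul_pow, Finset.prod_mul_distrib,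
    Finset.prod_pow_eq_pow_sum, h]
  ring

theorem deriv_le {ν : ℕ} {h : ℂ → Fin ν → ℂ} (hd : DifferentiableOn ℂ h (ball 0 (1 / 8)))
    (hb : ∀ z ∈ ball (0 : ℂ) (1 / 8), ‖h z‖ ≤ 2) : ‖deriv h 0‖ ≤ 32 := by
  have h1 : closedBall (0 : ℂ) (1 / 16) ⊆ ball 0 (1 / 8) := closedBall_subset_ball (by norm_num)
  have := Complex.norm_deriv_le_of_forall_mem_sphere_norm_le (R := 1 / 16) (by norm_num)
    (hd.diffContOnCl_ball h1) fun z hz => hb z (h1 (sphere_subset_closedBall hz))
  linarith [show (2 : ℝ) / (1 / 16) = 32 by norm_num]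

theorem wz_smul {ν : ℕ} {g : ℂ → Fin ν → ℂ} {φ : ℂ → ℂ} {z : ℂ} (hg : DifferentiableAt ℂ g z)
    (hφ : DifferentiableAt ℂ φ z) (i j : Fin ν) :
    wz (fun w => φ w • g w) z i j = φ z ^ 2 * wz g z i j := by
  simp only [wz, deriv_fun_smul hφ hg, Pi.smul_apply, Pi.add_apply, smul_eq_mul]
  ring

theorem indep {ν : ℕ} {x v : Fin ν → ℂ} {i j : Fin ν} (h : x i * v j - x j * v i ≠ 0) :
    LinearIndependent ℂ ![x, v] := by
  refine LinearIndependent.pair_iff.2 fun s t e => ?_
  have e1 : s * x i + t * v i = 0 := congrFun e i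
  have e2 : s * x j + t * v j = 0 := congrFun e j
  exact ⟨mul_right_cancel₀ h (by linear_combination v j * e1 - v i * e2),
    mul_right_cancel₀ h (by linear_combination x i * e2 - x j * e1)⟩

end SeqAux

open SeqAux

theorem seqS (hZ : ZalStmt) (hG : GaugeStmt) : SeqStmt := by
  refine ⟨fun ν d F f hF hf h0 hX hne => ?_, fun ν ν' F F' T x v hT hF h => ?_⟩
  · choose g g1 g2 g3 g4 using fun n : ℕ => hZ ν f hf h0 hne (n + 1)
    have g0 : ∀ n z, g n z ≠ 0 := fun n z => by
      obtain ⟨w, e⟩ := g2 n z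
      exact e ▸ h0 w
    have gX : ∀ n z, eval (g n z) F = 0 := fun n z => by
      obtain ⟨w, e⟩ := g2 n z
      exact e ▸ hX w
    have ex : ∀ (n : ℕ) (a : ℂ), ∃ φ : ℂ → ℂ, ‖a‖ ≤ n → DifferentiableOn ℂ φ (ball a (1 / 8)) ∧
        ∀ z ∈ ball a (1 / 8), 1 ≤ ‖φ z • g n z‖ ∧ ‖φ z • g n z‖ ≤ 2 := fun n a => by
      by_cases ha : ‖a‖ ≤ n
      · obtain ⟨φ, h⟩ := hG ν (g n) a (g1 n).differentiableOn fun z hz => ⟨g0 n z, g4 n z (by
          rw [mem_ball_zero_iff]
          linarith [norm_le_norm_add_norm_sub' z a, mem_ball_iff_norm.1 hz])⟩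
        exact ⟨φ, fun _ => h⟩
      · exact ⟨0, fun h => absurd h ha⟩
    choose φ hφ using ex
    have p0 := fun n : ℕ => hφ n 0 (by simp)
    have m0 : (0 : ℂ) ∈ ball (0 : ℂ) (1 / 8) := mem_ball_self (by norm_num)
    obtain ⟨⟨x, v⟩, -, σ, hσ, hl⟩ := tendsto_subseq_of_bounded
      (isBounded_closedBall (x := (0 : (Fin ν → ℂ) × (Fin ν → ℂ))) (r := 32))
      (x := fun n => (φ n 0 0 • g n 0, deriv (fun z => φ n 0 z • g n z) 0)) fun n => by
        rw [mem_closedBall_zero_iff, Prod.norm_mk, max_le_iff]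
        exact ⟨((p0 n).2 0 m0).2.trans (by norm_num),
          deriv_le ((p0 n).1.smul (g1 n).differentiableOn) fun z hz => ((p0 n).2 z hz).2⟩
    have c1 : Continuous fun y : (Fin ν → ℂ) × (Fin ν → ℂ) =>
        ‖fun ij : Fin ν × Fin ν => y.1 ij.1 * y.2 ij.2 - y.1 ij.2 * y.2 ij.1‖ := by fun_prop
    have h1 := ge_of_tendsto' ((c1.tendsto _).comp hl) (b := 1) fun n => by
      obtain ⟨i, j, e⟩ := g3 (σ n)
      refine le_trans ?_ (norm_le_pi_norm _ (i, j))
      have e1 := wz_smul (g1 (σ n) 0) ((p0 (σ n)).1.differentiableAt (isOpen_ball.mem_nhds m0)) i j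
      have e2 := ((p0 (σ n)).2 0 m0).1
      refine le_trans ?_ (congrArg norm e1).ge
      rw [norm_smul] at e2
      rw [norm_mul, norm_pow]
      nlinarith [mul_le_mul_of_nonneg_left e (sq_nonneg ‖φ (σ n) 0 0‖)]
    refine ⟨x, v, ⟨fun n => g (σ n), 1 / 8, 2, fun n => φ (σ n), ⟨by norm_num, two_pos,
      fun n => g1 _, fun n => gX _, fun n a ha => ?_⟩, (continuous_fst.tendsto _).comp hl,
      (continuous_snd.tendsto _).comp hl⟩, ?_, ?_⟩
    · obtain ⟨k1, k2⟩ := hφ (σ n) a (ha.trans (Nat.cast_le.2 (hσ.le_apply)))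
      exact ⟨k1, fun z hz => ⟨le_trans (by norm_num) (k2 z hz).1, (k2 z hz).2⟩⟩
    · by_contra hn
      have : (fun ij : Fin ν × Fin ν => x ij.1 * v ij.2 - x ij.2 * v ij.1) = 0 :=
        funext fun ij => not_not.1 fun e => hn (indep e)
      rw [this, norm_zero] at h1
      linarith
    · have := ((continuous_eval F).tendsto _).comp ((continuous_fst.tendsto _).comp hl)
      refine tendsto_nhds_unique this (tendsto_const_nhds.congr fun n => ?_)
      simp only [Function.comp_apply, eval_smul' hF, gX, mul_zero]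
  · obtain ⟨f, ρ, M, φ, B, l1, l2⟩ := h
    let L := LinearMap.toContinuousLinearMap T
    obtain ⟨K, K0, hK⟩ := T.exists_antilipschitzWith (LinearMap.ker_eq_bot.2 hT)
    have hK' : ∀ y, ‖y‖ ≤ K * ‖T y‖ := fun y => by simpa using hK.le_mul_dist y 0
    have hM := B.Mpos
    have K1 : (0 : ℝ) < K := K0
    have e : ∀ (c : ℂ) y, c • T y = L (c • y) := fun c y => (map_smul T c y).symm
    refine ⟨fun n z => T (f n z), ρ, (‖L‖ + K) * M, φ, ⟨B.ρpos, by positivity,
      fun n => L.differentiable.comp (B.diff n), fun n z => (hF _).trans (B.onX n z),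
      fun n a ha => ⟨(B.gauge n a ha).1, fun z hz => ?_⟩⟩, ?_, ?_⟩
    · obtain ⟨k1, k2⟩ := (B.gauge n a ha).2 z hz
      rw [e]
      constructor
      · rw [mul_inv, inv_mul_le_iff₀ (by positivity)]
        exact (k1.trans (hK' _)).trans (mul_le_mul_of_nonneg_right
          (le_add_of_nonneg_left (norm_nonneg _)) (norm_nonneg _))
      · exact (L.le_opNorm _).trans (mul_le_mul (le_add_of_nonneg_right K1.le) k2 (norm_nonneg _)
          (by positivity))
    · simp only [e]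
      exact (L.continuous.tendsto x).comp l1
    · refine ((L.continuous.tendsto v).comp l2).congr fun n => ?_
      have hd : DifferentiableAt ℂ (fun z => φ n 0 z • f n z) 0 :=
        (((B.gauge n 0 (by simp)).1.differentiableAt
          (isOpen_ball.mem_nhds (mem_ball_self B.ρpos))).smul (B.diff n 0))
      simp only [e]
      exact (L.hasFDerivAt.comp_hasDerivAt 0 hd.hasDerivAt).deriv.symm

end Pool.Agent.Lib.MP_45f16c_ag.VG

end partSeq

section partW
/-! Properties of the gauge invariant jets. -/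

open MvPolynomial Filter Metric
open scoped Topology

namespace Pool.Agent.Lib.MP_45f16c_ag.VG

theorem w_diff {p : ℕ} {U : Set ℂ} {f : ℂ → Fin (p + 1) → ℂ} (hU : IsOpen U)
    (hf : DifferentiableOn ℂ f U) (s : ℕ) : DifferentiableOn ℂ (Wj f s) U := by
  induction s with
  | zero => exact hf
  | succ s ih =>
    have h0 : DifferentiableOn ℂ (fun w => f w 0) U := differentiableOn_pi.1 hf 0
    refine differentiableOn_pi.2 fun i => ?_
    have hi : DifferentiableOn ℂ (fun w => Wj f s w i) U := differentiableOn_pi.1 ih i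
    show DifferentiableOn ℂ (fun z => (f z 0 * deriv (fun w => Wj f s w i) z -
      (s + 1) * deriv (fun w => f w 0) z * Wj f s z i) / (s + 1)) U
    exact ((h0.mul (hi.deriv hU)).sub
      (((h0.deriv hU).const_mul _).mul hi)).div_const _

theorem w_gauge {p : ℕ} {U : Set ℂ} {f : ℂ → Fin (p + 1) → ℂ} (hU : IsOpen U)
    (hf : DifferentiableOn ℂ f U) {φ : ℂ → ℂ} (hφ : DifferentiableOn ℂ φ U) (s : ℕ) :
    ∀ z ∈ U, Wj (fun w => φ w • f w) s z = φ z ^ (s + 1) • Wj f s z := by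
  induction s with
  | zero => intro z _; simp [Wj]
  | succ s ih =>
    intro z hz
    funext i
    have hn := hU.mem_nhds hz
    have h0 : HasDerivAt (fun w => f w 0) (deriv (fun w => f w 0) z) z :=
      ((differentiableOn_pi.1 hf 0).differentiableAt hn).hasDerivAt
    have hi : HasDerivAt (fun w => Wj f s w i) (deriv (fun w => Wj f s w i) z) z :=
      ((differentiableOn_pi.1 (w_diff hU hf s) i).differentiableAt hn).hasDerivAt
    have hp : HasDerivAt φ (deriv φ z) z := (hφ.differentiableAt hn).hasDerivAt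
    have e1 : (fun w => Wj (fun w => φ w • f w) s w i) =ᶠ[𝓝 z]
        fun w => φ w ^ (s + 1) * Wj f s w i := by
      filter_upwards [hn] with w hw
      rw [ih w hw]; rfl
    have e2 : deriv (fun w => Wj (fun w => φ w • f w) s w i) z =
        ((s + 1 : ℕ) * φ z ^ s * deriv φ z) * Wj f s z i +
          φ z ^ (s + 1) * deriv (fun w => Wj f s w i) z := by
      rw [e1.deriv_eq]
      exact ((hp.pow (s + 1)).mul hi).deriv
    have e3 : deriv (fun w => (φ w • f w) 0) z =
        deriv φ z * f z 0 + φ z * deriv (fun w => f w 0) z := (hp.mul h0).deriv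
    show ((φ z • f z) 0 * deriv (fun w => Wj (fun w => φ w • f w) s w i) z -
      (s + 1) * deriv (fun w => (φ w • f w) 0) z * Wj (fun w => φ w • f w) s z i) / (s + 1) =
      φ z ^ (s + 1 + 1) * ((f z 0 * deriv (fun w => Wj f s w i) z -
        (s + 1) * deriv (fun w => f w 0) z * Wj f s z i) / (s + 1))
    rw [e2, e3, ih z hz]
    simp only [Pi.smul_apply, smul_eq_mul]
    push_cast
    ring

theorem w_cauchy {h : ℂ → ℂ} {a : ℂ} {ρ C : ℝ} (hρ : 0 < ρ) (hd : DifferentiableOn ℂ h (ball a ρ))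
    (hb : ∀ z ∈ ball a (ρ / 2), ‖h z‖ ≤ C) : ‖deriv h a‖ ≤ C / (ρ / 4) := by
  have hs : closedBall a (ρ / 4) ⊆ ball a (ρ / 2) := closedBall_subset_ball (by linarith)
  refine Complex.norm_deriv_le_of_forall_mem_sphere_norm_le (by linarith) ?_
    fun z hz => hb z (hs (sphere_subset_closedBall hz))
  refine DifferentiableOn.diffContOnCl (hd.mono ?_)
  rw [closure_ball a (by linarith : ρ / 4 ≠ 0)]
  exact hs.trans (ball_subset_ball (by linarith))

theorem w_bound (p s : ℕ) (M : ℝ) : ∀ ρ : ℝ, 0 < ρ → ∃ Cst : ℝ,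
    ∀ (g : ℂ → Fin (p + 1) → ℂ) (a : ℂ), DifferentiableOn ℂ g (ball a ρ) →
      (∀ z ∈ ball a ρ, ‖g z‖ ≤ M) → ‖Wj g s a‖ ≤ Cst := by
  induction s with
  | zero => exact fun ρ hρ => ⟨M, fun g a _ hb => hb a (mem_ball_self hρ)⟩
  | succ s ih =>
    intro ρ hρ
    obtain ⟨C, hC⟩ := ih (ρ / 2) (by linarith)
    refine ⟨M * (C / (ρ / 4)) + (s + 1) * (M / (ρ / 4)) * C, fun g a hd hb => ?_⟩
    have hsub : ∀ z ∈ ball a (ρ / 2), ball z (ρ / 2) ⊆ ball a ρ := fun z hz =>
      ball_subset_ball' (by have := mem_ball.1 hz; linarith)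
    have hW : ∀ z ∈ ball a (ρ / 2), ‖Wj g s z‖ ≤ C := fun z hz =>
      hC g z (hd.mono (hsub z hz)) fun w hw => hb w (hsub z hz hw)
    have ha : a ∈ ball a (ρ / 2) := mem_ball_self (by linarith)
    have hM : 0 ≤ M := (norm_nonneg _).trans (hb a (mem_ball_self hρ))
    have hC0 : 0 ≤ C := (norm_nonneg _).trans (hW a ha)
    refine (pi_norm_le_iff_of_nonneg (by positivity)).2 fun i => ?_
    have d1 : ‖deriv (fun w => Wj g s w i) a‖ ≤ C / (ρ / 4) :=
      w_cauchy hρ (differentiableOn_pi.1 (w_diff isOpen_ball hd s) i)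
        fun z hz => (norm_le_pi_norm _ i).trans (hW z hz)
    have d2 : ‖deriv (fun w => g w 0) a‖ ≤ M / (ρ / 4) :=
      w_cauchy hρ (differentiableOn_pi.1 hd 0) fun z hz =>
        (norm_le_pi_norm _ 0).trans (hb z (ball_subset_ball (by linarith) hz))
    have d3 : ‖g a 0‖ ≤ M := (norm_le_pi_norm _ 0).trans (hb a (mem_ball_self hρ))
    have d4 : ‖Wj g s a i‖ ≤ C := (norm_le_pi_norm _ i).trans (hW a ha)
    have d5 : ‖((s : ℂ) + 1)‖ = (s : ℝ) + 1 := by exact_mod_cast Complex.norm_natCast (s + 1)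
    show ‖(g a 0 * deriv (fun w => Wj g s w i) a -
      (s + 1) * deriv (fun w => g w 0) a * Wj g s a i) / (s + 1)‖ ≤ _
    rw [norm_div, d5]
    refine (div_le_self (norm_nonneg _) (by linarith [(Nat.cast_nonneg s : (0 : ℝ) ≤ s)])).trans
      ((norm_sub_le _ _).trans ?_)
    rw [norm_mul, norm_mul, norm_mul, d5]
    gcongr

theorem w_eval {k p N : ℕ} {q : SS k p ℂ} (ξ : Jet k p → ℂ) (l : ℂ)
    (hq : IsWeightedHomogeneous (wo k p) q N) :
    eval (fun v => l ^ (v.1.val + 1) * ξ v) q = l ^ N * eval ξ q := by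
  rw [eval_eq', eval_eq', Finset.mul_sum]
  refine Finset.sum_congr rfl fun γ hγ => ?_
  have h := hq (mem_support_iff.1 hγ)
  rw [Finsupp.weight_apply, Finsupp.sum_fintype _ _ (by simp)] at h
  simp only [mul_pow, Finset.prod_mul_distrib, ← pow_mul, Finset.prod_pow_eq_pow_sum]
  have : ∑ v : Jet k p, (v.1.val + 1) * γ v = N := by
    rw [← h]
    exact Finset.sum_congr rfl fun v _ => by simp [wo, mul_comm]
  rw [this]
  ring

theorem wS : WStmt := by
  intro p
  refine ⟨fun U f hU hf s => ⟨w_diff hU hf s, fun φ hφ => w_gauge hU hf hφ s⟩,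
    fun s ρ M hρ => w_bound p s M ρ hρ, fun k N q ξ l hq => w_eval ξ l hq, ?_⟩
  rintro k F x v ⟨f, ρ, M, φ, hB, hx, hv⟩
  set g : ℕ → ℂ → Fin (p + 1) → ℂ := fun n z => φ n 0 z • f n z with hg
  have hd : ∀ n, DifferentiableOn ℂ (g n) (ball 0 ρ) := fun n =>
    (hB.gauge n 0 (by simp)).1.smul (hB.diff n).differentiableOn
  have hb : ∀ n, ∀ z ∈ ball (0 : ℂ) ρ, ‖g n z‖ ≤ M := fun n z hz =>
    ((hB.gauge n 0 (by simp)).2 z hz).2
  choose C hC using fun s => w_bound p s M ρ hB.ρpos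
  have hbd : ∀ n, jw k (g n) 0 ∈ closedBall (0 : Jet k p → ℂ) (∑ s : Fin (k + 1), |C s.val|) := by
    intro n
    rw [mem_closedBall_zero_iff]
    refine (pi_norm_le_iff_of_nonneg (Finset.sum_nonneg fun _ _ => abs_nonneg _)).2 fun u => ?_
    exact ((norm_le_pi_norm (Wj (g n) u.1.val 0) u.2).trans (hC _ _ _ (hd n) (hb n))).trans
      ((le_abs_self _).trans (Finset.single_le_sum (f := fun s : Fin (k + 1) => |C s.val|)
        (fun _ _ => abs_nonneg _) (Finset.mem_univ u.1)))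
  obtain ⟨ξ, -, σ, hσ, hξ⟩ := tendsto_subseq_of_bounded isBounded_closedBall hbd
  have hx' : ∀ i, Tendsto (fun n => g (σ n) 0 i) atTop (𝓝 (x i)) := fun i =>
    tendsto_pi_nhds.1 (hx.comp hσ.tendsto_atTop) i
  have hv' : ∀ i, Tendsto (fun n => deriv (fun w => g (σ n) w i) 0) atTop (𝓝 (v i)) := by
    intro i
    refine (tendsto_pi_nhds.1 (hv.comp hσ.tendsto_atTop) i).congr fun n => ?_
    exact (hasDerivAt_pi.1 ((hd (σ n)).differentiableAt
      (ball_mem_nhds 0 hB.ρpos)).hasDerivAt i).deriv.symm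
  refine ⟨ξ, ⟨fun n => f (σ n), ρ, M, fun n => φ (σ n), ⟨hB.ρpos, hB.Mpos, fun n => hB.diff _,
    fun n => hB.onX _, fun n a ha => hB.gauge _ a
      (ha.trans (Nat.cast_le.2 (hσ.id_le n)))⟩, hξ⟩, fun i => ?_, fun s hs i => ?_⟩
  · exact tendsto_nhds_unique (tendsto_pi_nhds.1 hξ (0, i)) (hx' i)
  · refine tendsto_nhds_unique (tendsto_pi_nhds.1 hξ (s, i))
      ((((hx' 0).mul (hv' i)).sub ((hv' 0).mul (hx' i))).congr fun n => ?_)
    simp [jw, hs, Wj]

end Pool.Agent.Lib.MP_45f16c_ag.VG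

end partW

section partJEq
/-! The gauge invariant jets of a curve on the cone satisfy the jet equations. -/

open MvPolynomial Filter Metric
open scoped Topology

namespace Pool.Agent.Lib.MP_45f16c_ag.VG

namespace JEqAux

theorem diff_iter {V : Set ℂ} (hV : IsOpen V) {g : ℂ → ℂ} (hg : DifferentiableOn ℂ g V) (s : ℕ) :
    DifferentiableOn ℂ (iteratedDeriv s g) V := by
  induction s with
  | zero => simpa using hg
  | succ s ih => rw [iteratedDeriv_succ]; exact ih.deriv hV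

theorem wj_eq {p : ℕ} {V : Set ℂ} (hV : IsOpen V) {f : ℂ → Fin (p + 1) → ℂ}
    (hf : DifferentiableOn ℂ f V) (h0 : ∀ w ∈ V, f w 0 ≠ 0) (i : Fin (p + 1)) (s : ℕ) :
    ∀ w ∈ V, Wj f s w i =
      f w 0 ^ (s + 1) * iteratedDeriv s (fun u => f u i / f u 0) w / (s.factorial : ℂ) := by
  have hf0 : DifferentiableOn ℂ (fun u => f u 0) V := differentiableOn_pi.1 hf 0
  have hg : DifferentiableOn ℂ (fun u => f u i / f u 0) V :=
    (differentiableOn_pi.1 hf i).div hf0 h0
  induction s with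
  | zero =>
    intro w hw
    have := h0 w hw
    simp only [Wj, iteratedDeriv_zero, Nat.factorial_zero, Nat.cast_one, zero_add, pow_one]
    field_simp
  | succ s ih =>
    intro w hw
    have hw' : V ∈ 𝓝 w := hV.mem_nhds hw
    have he : (fun u => Wj f s u i) =ᶠ[𝓝 w] fun u =>
        f u 0 ^ (s + 1) * iteratedDeriv s (fun u => f u i / f u 0) u / (s.factorial : ℂ) := by
      filter_upwards [hw'] with u hu using ih u hu
    have h1 : HasDerivAt (fun u => f u 0) (deriv (fun u => f u 0) w) w :=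
      (hf0.differentiableAt hw').hasDerivAt
    have h2 : HasDerivAt (iteratedDeriv s (fun u => f u i / f u 0))
        (iteratedDeriv (s + 1) (fun u => f u i / f u 0) w) w := by
      rw [iteratedDeriv_succ]
      exact ((diff_iter hV hg s).differentiableAt hw').hasDerivAt
    have h3 := (((h1.fun_pow (s + 1)).fun_mul h2).div_const (s.factorial : ℂ)).deriv
    have hs : ((s.factorial : ℕ) : ℂ) ≠ 0 := Nat.cast_ne_zero.2 s.factorial_ne_zero
    have hs1 : ((s : ℂ) + 1) ≠ 0 := Nat.cast_add_one_ne_zero s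
    simp only [Wj]
    rw [he.deriv_eq, h3, ih w hw, Nat.factorial_succ]
    simp only [Nat.add_sub_cancel, Nat.cast_mul, Nat.cast_add, Nat.cast_one]
    field_simp
    ring

theorem cd_eval {p : ℕ} {γ : ℂ → Fin (p + 1) → ℂ} {z : ℂ} (n : ℕ)
    (hγ : ∀ i, ContDiffAt ℂ n (fun w => γ w i) z) (G : PP p ℂ) :
    ContDiffAt ℂ n (fun w => eval (γ w) G) z := by
  induction G using MvPolynomial.induction_on with
  | C a => simpa using contDiffAt_const
  | add G H hG hH => simpa using hG.add hH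
  | mul_X G i hG => simpa using hG.mul (hγ i)

theorem jeq_eval {k p : ℕ} {γ : ℂ → Fin (p + 1) → ℂ} {z c : ℂ} {ξ : Jet k p → ℂ}
    (hγ : ∀ (n : ℕ) i, ContDiffAt ℂ n (fun w => γ w i) z)
    (hξ : ∀ (s : Fin (k + 1)) i, ξ (s, i) =
      c ^ s.val * iteratedDeriv s.val (fun w => γ w i) z / (s.val.factorial : ℂ))
    (G : PP p ℂ) : ∀ s ≤ k, eval ξ (jeq k G s) =
      c ^ s * iteratedDeriv s (fun w => eval (γ w) G) z / (s.factorial : ℂ) := by
  induction G using MvPolynomial.induction_on with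
  | C a =>
    intro s _
    simp only [jeq, eval_C, iteratedDeriv_const, aeval_C, Polynomial.algebraMap_apply,
      Polynomial.coeff_C]
    split_ifs with h
    · subst h; simp
    · simp
  | add G H hG hH =>
    intro s hs
    have e : (fun w => eval (γ w) (G + H)) =
        (fun w => eval (γ w) G) + fun w => eval (γ w) H := by
      funext w; simp
    rw [e, iteratedDeriv_add (cd_eval s (hγ s) G) (cd_eval s (hγ s) H)]
    simp only [jeq, map_add, Polynomial.coeff_add] at *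
    rw [hG s hs, hH s hs]
    ring
  | mul_X G i hG =>
    intro s hs
    have e : (fun w => eval (γ w) (G * X i)) = (fun w => eval (γ w) G) * fun w => γ w i := by
      funext w; simp
    rw [e, iteratedDeriv_mul (cd_eval s (hγ s) G) (hγ s i)]
    simp only [jeq, map_mul, aeval_X, Polynomial.coeff_mul, map_sum] at hG ⊢
    rw [Finset.Nat.sum_antidiagonal_eq_sum_range_succ
      (fun a b => eval ξ ((aeval (xt k ℂ) G).coeff a) * eval ξ ((xt k ℂ i).coeff b)) s,
      Finset.mul_sum, Finset.sum_div]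
    refine Finset.sum_congr rfl fun j hj => ?_
    have hj' : j ≤ s := Nat.lt_succ_iff.1 (Finset.mem_range.1 hj)
    have hb : s - j < k + 1 := by omega
    have hx := B.xt_coeff (k := k) (R := ℂ) i ⟨s - j, hb⟩
    simp only at hx
    rw [hG j (hj'.trans hs), hx, eval_X, hξ, Nat.cast_choose ℂ hj']
    simp only
    have h1 : ((s.factorial : ℕ) : ℂ) ≠ 0 := Nat.cast_ne_zero.2 s.factorial_ne_zero
    have h2 : ((j.factorial : ℕ) : ℂ) ≠ 0 := Nat.cast_ne_zero.2 j.factorial_ne_zero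
    have h3 : (((s - j).factorial : ℕ) : ℂ) ≠ 0 := Nat.cast_ne_zero.2 (s - j).factorial_ne_zero
    have h4 : c ^ s = c ^ j * c ^ (s - j) := by rw [← pow_add, Nat.add_sub_cancel' hj']
    rw [h4]
    field_simp

theorem eval_smul {p d : ℕ} {F : PP p ℂ} (hF : F.IsHomogeneous d) (l : ℂ)
    (x : Fin (p + 1) → ℂ) : eval (fun i => l * x i) F = l ^ d * eval x F := by
  rw [eval_eq', eval_eq', Finset.mul_sum]
  refine Finset.sum_congr rfl fun m hm => ?_
  have h := hF (mem_support_iff.1 hm)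
  have h2 : ∑ i, m i = d := by
    rw [← h, Finsupp.weight_apply, Finsupp.sum_fintype _ _ (by simp)]
    simp
  simp only [mul_pow, Finset.prod_mul_distrib, Finset.prod_pow_eq_pow_sum, h2]
  ring

end JEqAux

open JEqAux in
theorem jeqS : JEqStmt := by
  intro k p d F U f hF hU hf hX z hz h0 s hs
  have hf0 : DifferentiableOn ℂ (fun u => f u 0) U := differentiableOn_pi.1 hf 0
  have hV : IsOpen (U ∩ (fun u => f u 0) ⁻¹' {0}ᶜ) :=
    hf0.continuousOn.isOpen_inter_preimage hU isOpen_compl_singleton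
  set V := U ∩ (fun u => f u 0) ⁻¹' {0}ᶜ with hVd
  have hzV : z ∈ V := ⟨hz, h0⟩
  have hfV : DifferentiableOn ℂ f V := hf.mono Set.inter_subset_left
  have hne : ∀ w ∈ V, f w 0 ≠ 0 := fun w hw => hw.2
  have hg : ∀ i, DifferentiableOn ℂ (fun u => f z 0 * (f u i / f u 0)) V := fun i =>
    ((differentiableOn_pi.1 hfV i).div (differentiableOn_pi.1 hfV 0) hne).const_mul _
  have hγ : ∀ (n : ℕ) i, ContDiffAt ℂ n (fun u => f z 0 * (f u i / f u 0)) z := fun n i =>
    ((hg i).analyticAt (hV.mem_nhds hzV)).contDiffAt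
  have key := jeq_eval (k := k) (γ := fun u i => f z 0 * (f u i / f u 0)) (z := z) (c := f z 0)
    (ξ := jw k f z) hγ (fun s i => by
      simp only [jw]
      rw [wj_eq hV hfV hne i s.val z hzV, iteratedDeriv_const_mul_field]
      ring) F s hs
  have he : (fun w => eval (fun i => f z 0 * (f w i / f w 0)) F) =ᶠ[𝓝 z] fun _ => (0 : ℂ) := by
    filter_upwards [hV.mem_nhds hzV] with w hw
    have e : (fun i => f z 0 * (f w i / f w 0)) = fun i => (f z 0 / f w 0) * f w i := by
      funext i; ring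
    rw [e, eval_smul hF, hX w hw.1, mul_zero]
  rw [key, he.iteratedDeriv_eq, iteratedDeriv_const]
  simp

end Pool.Agent.Lib.MP_45f16c_ag.VG

end partJEq

section partPsi
/-! The value of a jet differential along a curve, and its uniform bound. -/

open MvPolynomial Filter Metric
open scoped Topology

namespace Pool.Agent.Lib.MP_45f16c_ag.VG

theorem psiS (hW : WStmt) : PsiStmt := by
  intro k p d0 F ρ M t N Q q hF hsm hρ hM hq hN
  obtain ⟨W1, W2, W3, -⟩ := hW p
  choose Cs hC using fun s : Fin (k + 1) => W2 s.val ρ M hρ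
  have ez : ∀ (ξ : Jet k p → ℂ) j, eval ξ (zz k F j) = eval (fun i => ξ (0, i)) (pderiv j F) :=
    fun ξ j => B.eval_b0 ξ _
  have pos : ∀ ξ : Jet k p → ℂ, M⁻¹ ≤ ‖fun i => ξ (0, i)‖ → eval (fun i => ξ (0, i)) F = 0 →
      0 < ∑ j, ‖eval ξ (zz k F j ^ t)‖ := fun ξ h1 h2 => by
    obtain ⟨j, hj⟩ := hsm _ (norm_pos_iff.1 ((inv_pos.2 hM).trans_le h1)) h2
    refine Finset.sum_pos' (fun _ _ => norm_nonneg _) ⟨j, Finset.mem_univ j, norm_pos_iff.2 ?_⟩
    rw [map_pow, ez]
    exact pow_ne_zero _ hj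
  obtain ⟨C1, hC1⟩ := ((isCompact_closedBall (0 : Jet k p → ℂ) (∑ s, |Cs s|)).inter_right
    (t := {ξ | M⁻¹ ≤ ‖fun i => ξ (0, i)‖} ∩ {ξ | eval (fun i => ξ (0, i)) F = 0})
    ((isClosed_le continuous_const (by fun_prop)).inter (isClosed_eq
      ((continuous_eval F).comp (by fun_prop)) continuous_const))).exists_bound_of_continuousOn
    (f := fun ξ => (∑ j, ‖eval ξ (q j)‖) / ∑ j, ‖eval ξ (zz k F j ^ t)‖)
    ((continuous_finsetSum _ fun j _ => (continuous_eval _).norm).continuousOn.div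
      (continuous_finsetSum _ fun j _ => (continuous_eval _).norm).continuousOn
      fun ξ h => (pos ξ h.2.1 h.2.2).ne')
  refine ⟨M ^ Q * C1, fun f R hf hX hg hE => ?_⟩
  have df : ∀ r : SS k p ℂ, Differentiable ℂ fun z => eval (jw k f z) r := fun r =>
    differentiableOn_univ.1 ((AnalyticOnNhd.eval_mvPolynomial r).differentiableOn.comp
      (differentiableOn_pi.2 fun v => differentiableOn_pi.1
        (W1 _ f isOpen_univ hf.differentiableOn v.1.val).1 v.2) (Set.mapsTo_univ _ _))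
  have nz : ∀ a ∈ ball (0 : ℂ) R, ∃ j, eval (jw k f a) (zz k F j ^ t) ≠ 0 := fun a ha => by
    obtain ⟨φ, -, h⟩ := hg a ha
    obtain ⟨j, hj⟩ := hsm (f a) (fun e => by
      have := (h a (mem_ball_self hρ)).1
      rw [e, smul_zero, norm_zero] at this
      exact this.not_gt (inv_pos.2 hM)) (hX a)
    exact ⟨j, by rw [map_pow, ez]; exact pow_ne_zero _ hj⟩
  choose! ψ hψ using fun a (ha : a ∈ ball (0 : ℂ) R) =>
    show ∃ c, ∀ j, eval (jw k f a) (zz k F j ^ t) * c = eval (jw k f a) (q j) by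
      obtain ⟨i, hi⟩ := nz a ha
      refine ⟨eval (jw k f a) (q i) / eval (jw k f a) (zz k F i ^ t), fun j => ?_⟩
      have := hE a j i
      rw [map_sub, map_mul, map_mul, sub_eq_zero] at this
      rw [← mul_div_assoc, this, mul_div_cancel_left₀ _ hi]
  refine ⟨ψ, fun a ha => ?_, fun a ha => ⟨fun j => ?_, fun i => ?_⟩⟩
  · obtain ⟨i, hi⟩ := nz a ha
    refine (((df (q i) a).div (df _ a) hi).congr_of_eventuallyEq ?_).differentiableWithinAt
    filter_upwards [isOpen_ball.mem_nhds ha, (df _).continuous.continuousAt.eventually_ne hi]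
      with z h1 h2
    exact eq_div_of_mul_eq h2 ((mul_comm _ _).trans (hψ z h1 i))
  · rw [← hψ a ha j, map_pow, ez]
    rfl
  obtain ⟨φ, dφ, h⟩ := hg a ha
  have h0 := h a (mem_ball_self hρ)
  have ga : ∀ {r : SS k p ℂ} {n : ℕ}, IsWeightedHomogeneous (wo k p) r n →
      eval (jw k (fun w => φ w • f w) a) r = φ a ^ n * eval (jw k f a) r := fun {r n} hr => by
    rw [← W3 k n r _ _ hr]
    congr 2
    funext v
    exact congrFun ((W1 _ f isOpen_ball hf.differentiableOn v.1.val).2 φ dφ a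
      (mem_ball_self hρ)) v.2
  have X0 : eval (fun i => jw k (fun w => φ w • f w) a (0, i)) F = 0 := by
    rw [← B.eval_b0, ga (B.wo_of_w2 (B.b0_w2 hF)), B.eval_b0]
    exact mul_eq_zero_of_right _ (hX a)
  have bd := (le_abs_self _).trans (hC1 (jw k (fun w => φ w • f w) a) ⟨mem_closedBall_zero_iff.2
    ((pi_norm_le_iff_of_nonneg (by positivity)).2 fun v => (norm_le_pi_norm _ v.2).trans
      ((hC v.1 _ a (dφ.smul hf.differentiableOn) fun z hz => (h z hz).2).trans
        ((le_abs_self _).trans (Finset.single_le_sum (f := fun s => |Cs s|)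
          (fun _ _ => abs_nonneg _) (Finset.mem_univ _))))), h0.1, X0⟩)
  have P := pos (jw k (fun w => φ w • f w) a) h0.1 X0
  have e : ‖ψ a * f a i ^ Q‖ = ‖(φ a • f a) i‖ ^ Q *
      ((∑ j, ‖eval (jw k (fun w => φ w • f w) a) (q j)‖) /
        ∑ j, ‖eval (jw k (fun w => φ w • f w) a) (zz k F j ^ t)‖) := by
    rw [← mul_div_assoc, eq_div_iff P.ne', Finset.mul_sum, Finset.mul_sum]
    refine Finset.sum_congr rfl fun j _ => ?_
    rw [← norm_pow, ← norm_mul, ← norm_mul, ga (hq j), ga ((B.zz_wo hF j).pow t), ← hψ a ha j,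
      smul_eq_mul, ← hN, Pi.smul_apply, smul_eq_mul]
    congr 1
    ring
  rw [e]
  exact mul_le_mul (pow_le_pow_left₀ (norm_nonneg _) ((norm_le_pi_norm _ i).trans h0.2) Q) bd
    (by positivity) (by positivity)

end Pool.Agent.Lib.MP_45f16c_ag.VG

end partPsi
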