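import Pool.Agent.Lib.MP_45f16c_ag.VG.B

/-! Very generic hyperbolicity: vanishing theorem and derivations. -/

set_option autoImplicit false

section partVanish
/-! The vanishing theorem for jet differentials of negative twist. -/

open MvPolynomial Filter Metric
open scoped Topology

namespace Pool.Agent.Lib.MP_45f16c_ag.VG

namespace VanishAux

variable {k p : ℕ}

theorem diff_eval (hW : WStmt) {U : Set ℂ} {f : ℂ → Fin (p + 1) → ℂ} (hU : IsOpen U)
    (hf : DifferentiableOn ℂ f U) (q : SS k p ℂ) :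
    DifferentiableOn ℂ (fun z => eval (jw k f z) q) U := by
  have h1 : DifferentiableOn ℂ (jw k f) U := differentiableOn_pi.2 fun v =>
    differentiableOn_pi.1 ((hW p).1 U f hU hf v.1.val).1 v.2
  exact ((AnalyticOnNhd.eval_mvPolynomial q).differentiableOn).comp h1 (Set.mapsTo_univ _ _)

theorem eval_gauge (hW : WStmt) {U : Set ℂ} {f : ℂ → Fin (p + 1) → ℂ} {φ : ℂ → ℂ} (hU : IsOpen U)
    (hf : DifferentiableOn ℂ f U) (hφ : DifferentiableOn ℂ φ U) {z : ℂ} (hz : z ∈ U)
    {q : SS k p ℂ} {N : ℕ} (hq : IsWeightedHomogeneous (wo k p) q N) :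
    eval (jw k (fun w => φ w • f w) z) q = φ z ^ N * eval (jw k f z) q := by
  rw [← (hW p).2.2.1 k N q (jw k f z) (φ z) hq]
  congr 2
  funext v
  simp only [jw]
  rw [((hW p).1 U f hU hf v.1.val).2 φ hφ z hz]
  rfl

theorem X_wo (v : Jet k p) : IsWeightedHomogeneous (wo k p) (X v : SS k p ℂ) (v.1.val + 1) :=
  isWeightedHomogeneous_X ℂ (wo k p) v

theorem glue (hW : WStmt) (hJ : JEqStmt) {d : ℕ} {F : PP p ℂ} (hF : F.IsHomogeneous d)
    {f : ℂ → Fin (p + 1) → ℂ} {φ : ℂ → ℂ} {ρ : ℝ} (hρ : 0 < ρ) (hf : Differentiable ℂ f)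
    (hX : ∀ z, eval (f z) F = 0) (hφ : DifferentiableOn ℂ φ (ball 0 ρ))
    (hne : ∀ z ∈ ball (0 : ℂ) ρ, φ z ≠ 0) {u E : SS k p ℂ} {n : ℕ}
    (hE : IsWeightedHomogeneous (wo k p) E n)
    (hm : u * E ∈ Ideal.span (Set.range fun s : Fin (k + 1) => jeq k F s.val))
    (hu : eval (jw k (fun w => φ w • f w) 0) u ≠ 0)
    (h0 : jw k (fun w => φ w • f w) 0 (0, 0) ≠ 0) (z : ℂ) : eval (jw k f z) E = 0 := by
  have hg : DifferentiableOn ℂ (fun w => φ w • f w) (ball 0 ρ) := hφ.smul hf.differentiableOn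
  have hb : ball (0 : ℂ) ρ ∈ 𝓝 (0 : ℂ) := ball_mem_nhds 0 hρ
  have hc : ∀ r : SS k p ℂ, eval (jw k (fun w => φ w • f w) 0) r ≠ 0 →
      ∀ᶠ w in 𝓝 (0 : ℂ), eval (jw k (fun w => φ w • f w) w) r ≠ 0 := fun r hr =>
    ((diff_eval hW isOpen_ball hg r).continuousOn.continuousAt hb).eventually_ne hr
  have hgX : ∀ w ∈ ball (0 : ℂ) ρ, eval (φ w • f w) F = 0 := fun w hw => by
    have h1 := eval_gauge (k := k) hW isOpen_ball hf.differentiableOn hφ hw
      (B.wo_of_w2 (B.b0_w2 hF))
    rw [B.eval_b0, B.eval_b0] at h1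
    exact h1.trans (by rw [show (fun i => jw k f w (0, i)) = f w from rfl, hX, mul_zero])
  have h2 : (fun w => eval (jw k f w) E) =ᶠ[𝓝 0] 0 := by
    filter_upwards [hb, hc u hu, hc (X (0, 0)) (by rwa [eval_X])] with w hw h3 h4
    rw [eval_X] at h4
    have h5 : Ideal.span (Set.range fun s : Fin (k + 1) => jeq k F s.val) ≤
        RingHom.ker (eval (jw k (fun w => φ w • f w) w)) := by
      rw [Ideal.span_le]
      rintro _ ⟨s, rfl⟩
      exact hJ k p d F _ _ hF isOpen_ball hg hgX w hw h4 s.val (Nat.lt_succ_iff.1 s.2)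
    have h6 := RingHom.mem_ker.1 (h5 hm)
    rw [map_mul, eval_gauge hW isOpen_ball hf.differentiableOn hφ hw hE] at h6
    exact (mul_eq_zero.1 ((mul_eq_zero.1 h6).resolve_left h3)).resolve_left
      (pow_ne_zero _ (hne w hw))
  have h7 : AnalyticOnNhd ℂ (fun w => eval (jw k f w) E) Set.univ :=
    (diff_eval hW isOpen_univ hf.differentiableOn E).analyticOnNhd isOpen_univ
  exact h7.eqOn_zero_of_preconnected_of_eventuallyEq_zero isPreconnected_univ (Set.mem_univ 0) h2
    (Set.mem_univ z)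

theorem cauchy {Ψ : ℂ → ℂ} {R C : ℝ} (hR : 0 < R) (hd : DifferentiableOn ℂ Ψ (ball 0 R))
    (hC : ∀ z ∈ ball (0 : ℂ) R, ‖Ψ z‖ ≤ C) : ‖deriv Ψ 0‖ ≤ C / (R / 2) := by
  have hs : closedBall (0 : ℂ) (R / 2) ⊆ ball 0 R := closedBall_subset_ball (half_lt_self hR)
  exact Complex.norm_deriv_le_of_forall_mem_sphere_norm_le (half_pos hR)
    (hd.diffContOnCl_ball hs) fun z hz => hC z (hs (sphere_subset_closedBall hz))

theorem deriv_eq {ψ a : ℂ → ℂ} (hψ : DifferentiableAt ℂ ψ 0) (ha : DifferentiableAt ℂ a 0) (Q : ℕ) :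
    deriv (fun z => ψ z * a z ^ (Q + 1)) 0 =
      deriv ψ 0 * a 0 ^ (Q + 1) + ψ 0 * ((Q + 1) * a 0 ^ Q * deriv a 0) := by
  have := (hψ.hasDerivAt.fun_mul (ha.hasDerivAt.fun_pow (Q + 1))).deriv
  simpa using this

end VanishAux

open VanishAux

theorem vanishS (hW : WStmt) (hJ : JEqStmt) (hP : PsiStmt) : VanishStmt := by
  rintro k p d0 F ξ s1 i1 hF hS ⟨f, ρ, M, φ, hB, hξ⟩ hs1 h00 h0i h1i t N q hq hN
  obtain ⟨Q, hQ⟩ : ∃ Q, N + (Q + 1) = t * d0 := ⟨t * d0 - N - 1, by omega⟩
  obtain ⟨Cst, hC⟩ := hP k p d0 F ρ M t N (Q + 1) q hF hS hB.ρpos hB.Mpos hq.hom hQ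
  set J : ℕ → Jet k p → ℂ := fun n => jw k (fun z => φ n 0 z • f n z) 0 with hJd
  have hev : ∀ r : SS k p ℂ, Tendsto (fun n => eval (J n) r) atTop (𝓝 (eval ξ r)) := fun r =>
    ((continuous_eval r).tendsto ξ).comp hξ
  have hJv : ∀ v, Tendsto (fun n => J n v) atTop (𝓝 (ξ v)) := fun v =>
    ((continuous_apply v).tendsto ξ).comp hξ
  have hg0 : ∀ n : ℕ, ‖(0 : ℂ)‖ ≤ n := fun n => by simp
  have hφ : ∀ n, DifferentiableOn ℂ (φ n 0) (ball 0 ρ) := fun n => (hB.gauge n 0 (hg0 n)).1
  have hne : ∀ n, ∀ z ∈ ball (0 : ℂ) ρ, φ n 0 z ≠ 0 := fun n z hz e => by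
    have h1 := ((hB.gauge n 0 (hg0 n)).2 z hz).1
    rw [e, zero_smul, norm_zero] at h1
    exact h1.not_gt (inv_pos.2 hB.Mpos)
  have hgl : ∀ᶠ n in atTop, ∀ i j z,
      eval (jw k (f n) z) (zz k F i ^ t * q j - zz k F j ^ t * q i) = 0 := by
    refine eventually_all.2 fun i => eventually_all.2 fun j => ?_
    obtain ⟨u, hu, hm⟩ := hq.glue i j
    filter_upwards [(hev u).eventually_ne hu, (hJv (0, 0)).eventually_ne h00] with n h1 h2 z
    exact glue hW hJ hF hB.ρpos (hB.diff n) (hB.onX n) (hφ n) (hne n)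
      ((((B.zz_wo hF i).pow t).mul (hq.hom j)).sub (((B.zz_wo hF j).pow t).mul (hq.hom i)))
      hm h1 h2 z
  have key : ∀ᶠ n : ℕ in atTop, ∃ D0 D1 : ℂ, ‖D0‖ ≤ Cst / (n / 2) ∧ ‖D1‖ ≤ Cst / (n / 2) ∧
      eval (J n) (q 0) * J n (0, 0) ^ (Q + 1) * ((Q + 1) * J n (0, i1) ^ Q * J n (s1, i1)) =
        eval (J n) (zz k F 0) ^ t * J n (0, 0) *
          (D1 * J n (0, 0) ^ (Q + 1) - D0 * J n (0, i1) ^ (Q + 1)) := by
    filter_upwards [hgl, eventually_gt_atTop 0] with n h1 hn
    have hn' : (0 : ℝ) < n := Nat.cast_pos.2 hn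
    obtain ⟨ψ, hψ, h2⟩ := hC (f n) n (hB.diff n) (hB.onX n)
      (fun a ha => ⟨φ n a, hB.gauge n a (mem_ball_zero_iff.1 ha).le⟩) fun z i j => h1 i j z
    have hfi : ∀ i, Differentiable ℂ fun z => f n z i := differentiable_pi.1 (hB.diff n)
    have hD : ∀ i, ‖deriv (fun z => ψ z * f n z i ^ (Q + 1)) 0‖ ≤ Cst / (n / 2) := fun i =>
      cauchy hn' (hψ.mul ((hfi i).pow _).differentiableOn) fun z hz => (h2 z hz).2 i
    refine ⟨_, _, hD 0, hD i1, ?_⟩
    have hψ0 : DifferentiableAt ℂ ψ 0 := hψ.differentiableAt (ball_mem_nhds 0 hn')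
    have hg : ∀ {r : SS k p ℂ} {m : ℕ}, IsWeightedHomogeneous (wo k p) r m →
        eval (J n) r = φ n 0 0 ^ m * eval (jw k (f n) 0) r := fun hr =>
      eval_gauge hW isOpen_ball (hB.diff n).differentiableOn (hφ n) (mem_ball_self hB.ρpos) hr
    have e0 : ∀ i, J n (0, i) = φ n 0 0 * f n 0 i := fun i => rfl
    have e1 : J n (s1, i1) = φ n 0 0 ^ 2 * (f n 0 0 * deriv (fun z => f n z i1) 0 -
        deriv (fun z => f n z 0) 0 * f n 0 i1) := by
      have h3 := hg (X_wo (s1, i1))
      rw [eval_X, eval_X] at h3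
      rw [h3]
      simp [jw, hs1, Wj]
    have e2 : eval (jw k (f n) 0) (zz k F 0) = eval (f n 0) (pderiv 0 F) := B.eval_b0 _ _
    have e3 : (φ n 0 0 ^ d0) ^ t = φ n 0 0 ^ N * φ n 0 0 ^ (Q + 1) := by
      rw [← pow_mul, ← pow_add, hQ, mul_comm]
    rw [deriv_eq hψ0 (hfi 0 0), deriv_eq hψ0 (hfi i1 0), hg (hq.hom 0), hg (B.zz_wo hF 0), e0, e0,
      e1, e2, ← (h2 0 (mem_ball_self hn')).1 0, mul_pow (φ n 0 0 ^ d0), e3]
    ring
  have hlim : Tendsto (fun n : ℕ => Cst / ((n : ℝ) / 2)) atTop (𝓝 0) :=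
    tendsto_const_nhds.div_atTop (tendsto_natCast_atTop_atTop.atTop_div_const two_pos)
  have hL : Tendsto (fun n => eval (J n) (q 0) * J n (0, 0) ^ (Q + 1) *
      ((Q + 1) * J n (0, i1) ^ Q * J n (s1, i1))) atTop
      (𝓝 (eval ξ (q 0) * ξ (0, 0) ^ (Q + 1) * ((Q + 1) * ξ (0, i1) ^ Q * ξ (s1, i1)))) :=
    ((hev _).mul ((hJv _).pow _)).mul ((((hJv _).pow _).const_mul _).mul (hJv _))
  have hR : Tendsto (fun n => ‖eval (J n) (zz k F 0) ^ t * J n (0, 0)‖ *
      (Cst / ((n : ℝ) / 2) * ‖J n (0, 0) ^ (Q + 1)‖ + Cst / ((n : ℝ) / 2) * ‖J n (0, i1) ^ (Q + 1)‖))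
      atTop (𝓝 (‖eval ξ (zz k F 0) ^ t * ξ (0, 0)‖ *
        (0 * ‖ξ (0, 0) ^ (Q + 1)‖ + 0 * ‖ξ (0, i1) ^ (Q + 1)‖))) :=
    (((hev _).pow _).mul (hJv _)).norm.mul
      ((hlim.mul ((hJv _).pow _).norm).add (hlim.mul ((hJv _).pow _).norm))
  have hz := le_of_tendsto_of_tendsto hL.norm hR (by
    filter_upwards [key] with n ⟨D0, D1, h1, h2, h3⟩
    rw [h3, norm_mul]
    refine mul_le_mul_of_nonneg_left ((norm_sub_le _ _).trans ?_) (norm_nonneg _)
    rw [norm_mul, norm_mul]
    exact add_le_add (mul_le_mul_of_nonneg_right h2 (norm_nonneg _))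
      (mul_le_mul_of_nonneg_right h1 (norm_nonneg _)))
  rw [zero_mul, zero_mul, add_zero, mul_zero, norm_le_zero_iff] at hz
  have hQ1 : ((Q : ℂ) + 1) ≠ 0 := Nat.cast_add_one_ne_zero Q
  exact (mul_eq_zero.1 ((mul_eq_zero.1 hz).resolve_right
    (mul_ne_zero (mul_ne_zero hQ1 (pow_ne_zero _ h0i)) h1i))).resolve_right (pow_ne_zero _ h00)

end Pool.Agent.Lib.MP_45f16c_ag.VG

end partVanish

section partTheta
/-! Interpolation with a multiplier of small degree. -/

open MvPolynomial

namespace Pool.Agent.Lib.MP_45f16c_ag.VG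

namespace ThetaAux

section poly
variable {A : Type} [CommRing A]

theorem coeff_scale (a : A) (P : Polynomial A) (n : ℕ) :
    (P.comp (Polynomial.C a * Polynomial.X)).coeff n = P.coeff n * a ^ n :=
  Polynomial.comp_C_mul_X_coeff

/-- Unitriangular families span the truncated polynomials. -/
theorem unitri (k : ℕ) (U : ℕ → Polynomial A) (hU : ∀ j, Polynomial.X ∣ U j - 1) (n : ℕ) :
    ∀ P : Polynomial A, Polynomial.X ^ (k + 1 - n) ∣ P → ∃ c : Fin (k + 1) → A,
      Polynomial.X ^ (k + 1) ∣ ∑ j, Polynomial.C (c j) * (Polynomial.X ^ j.val * U j.val) - P := by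
  induction n with
  | zero => exact fun P hP => ⟨0, by simpa using hP⟩
  | succ n ih =>
    intro P hP
    by_cases hn : k + 1 ≤ n
    · exact ih P (by rw [Nat.sub_eq_zero_of_le hn, pow_zero]; exact one_dvd _)
    obtain ⟨s, hs⟩ : ∃ s : Fin (k + 1), s.val = k + 1 - (n + 1) := ⟨⟨k + 1 - (n + 1), by omega⟩, rfl⟩
    rw [← hs] at hP
    obtain ⟨Q, rfl⟩ := hP
    obtain ⟨Q', hQ'⟩ : Polynomial.X ∣ Q - Polynomial.C (Q.coeff 0) := by
      simp [Polynomial.X_dvd_iff]
    obtain ⟨U', hU'⟩ := hU s.val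
    obtain ⟨c, hc⟩ := ih (Polynomial.X ^ s.val * Q -
        Polynomial.C (Q.coeff 0) * (Polynomial.X ^ s.val * U s.val))
      ⟨Q' - Polynomial.C (Q.coeff 0) * U', by
        rw [show k + 1 - n = s.val + 1 by omega]
        linear_combination Polynomial.X ^ s.val * hQ' -
          Polynomial.C (Q.coeff 0) * Polynomial.X ^ s.val * hU'⟩
    refine ⟨c + Pi.single s (Q.coeff 0), ?_⟩
    convert hc using 1
    simp only [Pi.add_apply, map_add, add_mul, Finset.sum_add_distrib]
    rw [Finset.sum_eq_single s (f := fun j : Fin (k + 1) => Polynomial.C ((Pi.single s (Q.coeff 0) :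
      Fin (k + 1) → A) j) * (Polynomial.X ^ j.val * U j.val)) (fun j _ hj => by simp [hj]) (by simp)]
    simp only [Pi.single_eq_same]
    ring

theorem scale0 (P : Polynomial A) (u w : A) (h : P.coeff 0 = u) : ∃ V : Polynomial A,
    P.comp (Polynomial.C (u * w) * Polynomial.X) = Polynomial.C u * (1 + Polynomial.X * V) := by
  refine ⟨Polynomial.C w * P.divX.comp (Polynomial.C (u * w) * Polynomial.X), ?_⟩
  conv_lhs => rw [← P.divX_mul_X_add, h]
  simp only [Polynomial.add_comp, Polynomial.mul_comp, Polynomial.X_comp, Polynomial.C_comp,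
    map_mul]
  ring

theorem scale1 (P : Polynomial A) (u w : A) (h0 : P.coeff 0 = 0) (h1 : P.coeff 1 = w) :
    ∃ V : Polynomial A, P.comp (Polynomial.C (u * w) * Polynomial.X) =
      Polynomial.C (u * w ^ 2) * Polynomial.X * (1 + Polynomial.X * V) := by
  refine ⟨Polynomial.C u * P.divX.divX.comp (Polynomial.C (u * w) * Polynomial.X), ?_⟩
  conv_lhs => rw [← P.divX_mul_X_add, h0, ← P.divX.divX_mul_X_add, Polynomial.coeff_divX, h1]
  simp only [Polynomial.add_comp, Polynomial.mul_comp, Polynomial.X_comp, Polynomial.C_comp,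
    map_mul, map_pow, map_zero, Polynomial.zero_comp]
  ring

theorem interp [IsDomain A] (k : ℕ) (P Q : Polynomial A) (u w : A) (hu : u ≠ 0) (hw : w ≠ 0)
    (hP : P.coeff 0 = u) (h0 : Q.coeff 0 = 0) (h1 : Q.coeff 1 = w) (s : ℕ) :
    ∃ c : Fin (k + 1) → A, Polynomial.X ^ (k + 1) ∣
      ∑ j, Polynomial.C (c j) * (P ^ (k + 1 - j.val) * Q ^ j.val) -
        Polynomial.C (u ^ (k + 1) * w ^ (2 * k)) * Polynomial.X ^ s := by
  obtain ⟨V, hV⟩ := scale0 P u w hP
  obtain ⟨V', hV'⟩ := scale1 Q u w h0 h1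
  obtain ⟨c, hc⟩ := unitri k
    (fun j => (1 + Polynomial.X * V) ^ (k + 1 - j) * (1 + Polynomial.X * V') ^ j)
    (fun j => by simp [Polynomial.X_dvd_iff, Polynomial.coeff_zero_eq_eval_zero]) (k + 1)
    (Polynomial.C ((u * w) ^ s) * Polynomial.X ^ s) (by simp)
  refine ⟨fun j => c j * w ^ (2 * (k - j.val)), Polynomial.X_pow_dvd_iff.2 fun n hn => ?_⟩
  refine (mul_eq_zero.1 ?_).resolve_right (pow_ne_zero n (mul_ne_zero hu hw))
  rw [← coeff_scale]
  refine Polynomial.X_pow_dvd_iff.1 ?_ n hn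
  convert hc.mul_left (Polynomial.C (u ^ (k + 1) * w ^ (2 * k))) using 1
  simp only [Polynomial.sub_comp, Polynomial.sum_comp, Polynomial.mul_comp, Polynomial.pow_comp,
    Polynomial.C_comp, Polynomial.X_comp, hV, hV', mul_sub, Finset.mul_sum]
  congr 1
  · refine Finset.sum_congr rfl fun j _ => ?_
    obtain ⟨j, hj⟩ := j
    obtain ⟨a, rfl⟩ := Nat.exists_eq_add_of_le (Nat.lt_succ_iff.1 hj)
    simp only [show j + a + 1 - j = a + 1 by omega, Nat.add_sub_cancel_left, map_mul, map_pow,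
      mul_pow]
    ring
  · simp only [map_mul, map_pow]; ring

end poly

variable {k p : ℕ} {R : Type} [CommRing R]

theorem BH_X (i : Fin (p + 1)) : BH (X i : PP p (SS k p R)) 1 0 := by
  simpa using B.BH_map_C (k := k) (isHomogeneous_X R i)

theorem BH_C {a : SS k p R} {N : ℕ} (h : IsWeightedHomogeneous (wo k p) a N) :
    BH (C a : PP p (SS k p R)) 0 N := by
  classical
  refine ⟨isHomogeneous_C _ _, fun μ => ?_⟩
  rw [coeff_C]
  split_ifs
  · exact h
  · exact isWeightedHomogeneous_zero _ _ _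

theorem BH_pow {G : PP p (SS k p R)} {d N : ℕ} (h : BH G d N) (n : ℕ) :
    BH (G ^ n) (n * d) (n * N) := by
  induction n with
  | zero => simpa using BH_C (isWeightedHomogeneous_one R (wo k p))
  | succ n ih => rw [pow_succ, add_mul, add_mul, one_mul, one_mul]; exact B.BH.mul ih h

theorem BH_ell (i : Fin (p + 1)) : BH (ell R i : PP p (SS k p R)) 1 1 := by
  have h1 := fun a b => B.BH.mul (BH_C (isWeightedHomogeneous_X R (wo k p) (0, a))) (BH_X b)
  exact ⟨(h1 0 i).1.sub (h1 i 0).1, fun μ => by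
    rw [ell, coeff_sub]; exact ((h1 0 i).2 μ).sub ((h1 i 0).2 μ)⟩

theorem wr_hom {s1 : Fin (k + 1)} (hs : s1.val = 1) (i : Fin (p + 1)) :
    IsWeightedHomogeneous (wo k p) (wr R s1 i) 3 := by
  have h := fun a b => (isWeightedHomogeneous_X R (wo k p) (0, a)).mul
    (isWeightedHomogeneous_X R (wo k p) (s1, b))
  simp only [wo, hs] at h
  exact (h 0 i).sub (h i 0)

theorem hm_hom {s1 : Fin (k + 1)} (hs : s1.val = 1) (i : Fin (p + 1)) :
    IsWeightedHomogeneous (wo k p) (hm R s1 i) (7 * k + 1) := by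
  have := ((isWeightedHomogeneous_X R (wo k p) (0, 0)).pow (k + 1)).mul
    ((wr_hom (R := R) hs i).pow (2 * k))
  rwa [show (k + 1) • wo k p (0, 0) + (2 * k) • 3 = 7 * k + 1 by simp [wo]; ring] at this

theorem wr_ne [Nontrivial R] {s1 : Fin (k + 1)} (hs : s1.val = 1) {i : Fin (p + 1)} (hi : i ≠ 0) :
    wr R s1 i ≠ 0 := by
  classical
  intro h
  have hs0 : s1 ≠ 0 := fun e => by simp [e] at hs
  have := congrArg (eval fun v : Jet k p => if v = (0, 0) ∨ v = (s1, i) then (1 : R) else 0) h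
  simp [wr, hi, hs0, hs0.symm, hi.symm] at this

end ThetaAux

open ThetaAux in
theorem thetaS : ThetaStmt := by
  intro k p R _ _ s1 i1 hs hi
  have h := fun s : Fin (k + 1) => interp k (sg k R (X 0)) (sg k R (ell R i1)) (X (0, 0))
    (wr R s1 i1) (X_ne_zero _) (wr_ne hs hi) (by simpa [sg] using B.xt_coeff 0 0)
    (by
      have h0 := fun i => B.xt_coeff (k := k) (R := R) (p := p) i 0
      simp only [Fin.val_zero] at h0
      simp [sg, ell, h0, mul_comm])
    (by
      have h0 := fun i => B.xt_coeff (k := k) (R := R) (p := p) i s1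
      simp only [hs] at h0
      simp [sg, ell, wr, h0]) s.val
  choose c hc using h
  refine ⟨fun s j => weightedHomogeneousComponent (wo k p) (6 * k - s.val - j.val) (c s j),
    fun s j => weightedHomogeneousComponent_isWeightedHomogeneous _ _, fun s => ?_⟩
  refine Polynomial.X_pow_dvd_iff.2 fun n hn => ?_
  have h1 := congrArg (weightedHomogeneousComponent (wo k p) (7 * k + 1 - s.val + n))
    (Polynomial.X_pow_dvd_iff.1 (hc s) n hn)
  rw [map_zero] at h1
  rw [← h1]
  simp only [map_sum, map_mul, map_pow, Polynomial.coeff_sub, Polynomial.finsetSum_coeff,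
    Polynomial.coeff_C_mul, map_sub, show ∀ a, sg k R (C a : PP p (SS k p R)) = Polynomial.C a from
      fun a => by simp [sg]]
  have hs' := s.2
  congr 1
  · refine Finset.sum_congr rfl fun j _ => ?_
    have hj := j.2
    have h2 := B.sg_hom (B.BH.mul (BH_pow (BH_X (k := k) (R := R) 0) (k + 1 - j.val))
      (BH_pow (BH_ell i1) j.val)) n
    rw [map_mul, map_pow, map_pow] at h2
    rw [mul_comm (c s j), mul_comm, ← B.comp_mul (wo k p) h2]
    congr 2
    omega
  · rw [← map_pow, ← map_pow, ← map_mul, Polynomial.coeff_C_mul, Polynomial.coeff_X_pow]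
    split_ifs with h
    · rw [mul_one, mul_one, show 7 * k + 1 - s.val + n = 7 * k + 1 by omega]
      exact (hm_hom hs i1).weightedHomogeneousComponent_same.symm
    · simp

end Pool.Agent.Lib.MP_45f16c_ag.VG

end partTheta

section partDm
/-! The derivation with given values on the coefficients and on the jet variables. -/

open MvPolynomial

namespace Pool.Agent.Lib.MP_45f16c_ag.VG

noncomputable section

namespace DmAux

variable {σ R : Type} [CommRing R] [Algebra ℚ R] (D : Derivation ℚ R R)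

/-- The derivation acting on the coefficients. -/
def cD : Derivation ℚ (MvPolynomial σ R) (MvPolynomial σ R) :=
  Derivation.mk'
    { toFun := AddMonoidAlgebra.map D.toLinearMap.toAddMonoidHom
      map_add' := fun a b => MvPolynomial.ext _ _ fun _ => D.map_add _ _
      map_smul' := fun c a => MvPolynomial.ext _ _ fun _ => D.map_smul c _ }
    fun a b => MvPolynomial.ext _ _ fun α => by
      classical
      change D (coeff α (a * b)) = _
      rw [smul_eq_mul, smul_eq_mul, mul_comm b, coeff_add, coeff_mul, coeff_mul, coeff_mul, map_sum,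
        ← Finset.sum_add_distrib]
      refine Finset.sum_congr rfl fun x _ => ?_
      rw [D.leibniz, smul_eq_mul, smul_eq_mul, mul_comm (coeff x.2 b)]
      rfl

theorem coeff_cD (q : MvPolynomial σ R) (α : σ →₀ ℕ) : coeff α (cD D q) = D (coeff α q) := rfl

theorem cD_monomial (α : σ →₀ ℕ) (a : R) : cD D (monomial α a) = monomial α (D a) := by
  classical
  refine MvPolynomial.ext _ _ fun β => ?_
  rw [coeff_cD, coeff_monomial, coeff_monomial, apply_ite D, map_zero]

theorem cD_C (a : R) : cD D (C a : MvPolynomial σ R) = C (D a) := cD_monomial D 0 a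

theorem cD_X (v : σ) : cD D (X v : MvPolynomial σ R) = 0 :=
  (cD_monomial D _ 1).trans (by rw [D.map_one_eq_zero, monomial_zero])

/-- The derivation acting on the coefficients of a polynomial in one variable. -/
def tD : Derivation ℚ (Polynomial R) (Polynomial R) :=
  PolynomialModule.equivPolynomialSelf.compDer D.mapCoeffs

theorem coeff_tD (P : Polynomial R) (s : ℕ) : (tD D P).coeff s = D (P.coeff s) := rfl

theorem tD_monomial (s : ℕ) (a : R) :
    tD D (Polynomial.monomial s a) = Polynomial.monomial s (D a) :=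
  Polynomial.ext fun n => by
    rw [coeff_tD, Polynomial.coeff_monomial, Polynomial.coeff_monomial, apply_ite D, map_zero]

theorem chain [Fintype σ] (x : σ → Polynomial R) (H : MvPolynomial σ R) :
    tD D (aeval x H) = aeval x (cD D H) + ∑ i, aeval x (pderiv i H) * tD D (x i) := by
  classical
  induction H using MvPolynomial.induction_on with
  | C a =>
    simp only [cD_C, aeval_C, pderiv_C, map_zero, zero_mul, Finset.sum_const_zero, add_zero]
    exact tD_monomial D 0 a
  | add f g hf hg =>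
    simp only [map_add, hf, hg, add_mul, Finset.sum_add_distrib]
    ring
  | mul_X f j hf =>
    have e : ∑ i, aeval x (pderiv i (X j : MvPolynomial σ R)) * tD D (x i) = tD D (x j) := by
      rw [Finset.sum_eq_single j (fun i _ h => by rw [pderiv_X_of_ne h.symm, map_zero, zero_mul])
        (fun h => absurd (Finset.mem_univ j) h), pderiv_X_self, map_one, one_mul]
    simp only [map_mul, Derivation.leibniz, hf, cD_X, aeval_X, smul_eq_mul, map_add, add_mul,
      Finset.sum_add_distrib, mul_assoc, ← Finset.mul_sum, e, mul_zero, zero_add]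
    ring

theorem sum_app {ι : Type} (s : Finset ι) (E : ι → Derivation ℚ R R) (q : R) :
    (∑ i ∈ s, E i) q = ∑ i ∈ s, E i q :=
  (congrFun (map_sum Derivation.coeFnAddMonoidHom E s) q).trans (Finset.sum_apply q s _)

omit [Algebra ℚ R] in
theorem hom_pderiv {w : σ → ℕ} {q η : MvPolynomial σ R} {N κ : ℕ} {v : σ}
    (hq : IsWeightedHomogeneous w q N) (hη : IsWeightedHomogeneous w η (w v + κ)) :
    IsWeightedHomogeneous w (η * pderiv v q) (N + κ) := by
  by_cases h : w v ≤ N
  · have := hη.mul (hq.pderiv (Nat.sub_add_cancel h))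
    rwa [show w v + κ + (N - w v) = N + κ by omega] at this
  · have : pderiv v q = 0 := MvPolynomial.ext _ _ fun α => by
      rw [coeff_pderiv, coeff_zero, hq.coeff_eq_zero _ (by
        rw [map_add, Finsupp.weight_single, smul_eq_mul]; omega), zero_mul]
    rw [this, mul_zero]
    exact isWeightedHomogeneous_zero _ _ _

end DmAux

open DmAux

theorem dmS : DmStmt := by
  intro k p d
  let Dm : (PP p (SS k p (R0 p d)) × (Jet k p → SS k p (R0 p d))) →ₗ[SS k p (R0 p d)]
      Derivation ℚ (SS k p (R0 p d)) (SS k p (R0 p d)) :=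
    ∑ μ : Mon (p + 1) d, (lcoeff _ μ.1 ∘ₗ LinearMap.fst _ _ _).smulRight (cD (pderiv μ)) +
      ∑ v : Jet k p, (LinearMap.proj v ∘ₗ LinearMap.snd _ _ _).smulRight
        ((pderiv v).restrictScalars ℚ)
  have hD : ∀ G η q, Dm (G, η) q = ∑ μ : Mon (p + 1) d, coeff μ.1 G * cD (pderiv μ) q +
      ∑ v, η v * pderiv v q := fun G η q => by
    simp only [Dm, LinearMap.add_apply, LinearMap.sum_apply, Derivation.add_apply,
      sum_app]
    rfl
  refine ⟨Dm, fun G η hG s => ?_, fun G η κ hG hη q N hq => ?_, fun η q => ?_⟩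
  · classical
    have h1 : ∀ v, Dm (G, η) (X v) = η v := fun v => by
      simp [hD, cD_X, pderiv_X, Pi.single_apply]
    have h2 : ∀ μ : Mon (p + 1) d, Dm (G, η) (C (X μ)) = coeff μ.1 G := fun μ => by
      simp [hD, cD_C, pderiv_X, Pi.single_apply, apply_ite C]
    have h3 : cD (Dm (G, η)) (MvPolynomial.map C (Fu p d)) = G := by
      rw [Fu, map_sum, map_sum]
      simp only [map_monomial, cD_monomial, h2]
      exact B.sum_mon hG
    rw [B.jeq_eq_sg, ← coeff_tD, sg, chain, h3]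
    simp only [xt, map_sum, tD_monomial, h1, pderiv_map]
  · rw [hD]
    refine (IsWeightedHomogeneous.sum _ _ _ fun μ _ => ?_).add
      (IsWeightedHomogeneous.sum _ _ _ fun v _ => hom_pderiv hq (hη v))
    rw [add_comm N]
    exact (hG μ.1).mul fun α h => hq fun e => h (by rw [coeff_cD, e, map_zero])
  · simp only [hD, coeff_zero, zero_mul, Finset.sum_const_zero, zero_add]

end

end Pool.Agent.Lib.MP_45f16c_ag.VG

end partDm

section partDer
/-! The fibre derivations are generated by derivations of small cost. -/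

open MvPolynomial

namespace Pool.Agent.Lib.MP_45f16c_ag.VG

namespace DerAux

variable {k p : ℕ} {R : Type} [CommRing R]

/-- The truncated series with coefficients `η (·, i)`. -/
noncomputable def ser (η : Jet k p → SS k p R) (i : Fin (p + 1)) : Polynomial (SS k p R) :=
  ∑ u : Fin (k + 1), Polynomial.monomial u.val (η (u, i))

/-- The variation of `F (x (t))`. -/
noncomputable def vr (F : PP p R) : (Jet k p → SS k p R) →ₗ[SS k p R] Polynomial (SS k p R) where
  toFun η := ∑ i, sg k R (MvPolynomial.map C (pderiv i F)) * ser η i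
  map_add' η η' := by simp [ser, Finset.sum_add_distrib, mul_add]
  map_smul' a η := by
    simp only [ser, Pi.smul_apply, RingHom.id_apply, Finset.smul_sum, Finset.mul_sum,
      ← Polynomial.smul_monomial, mul_smul_comm]

theorem vr_single (F : PP p R) (v : Jet k p) : vr F (Pi.single v 1) =
    Polynomial.X ^ v.1.val * sg k R (MvPolynomial.map C (pderiv v.2 F)) := by
  obtain ⟨s, i⟩ := v
  change ∑ j, _ * ser _ j = _
  rw [Finset.sum_eq_single i (fun j _ hj => by simp [ser, hj]) (by simp), ser,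
    Finset.sum_eq_single s (fun j _ hj => by simp [hj]) (by simp)]
  simp [Polynomial.monomial_one_right_eq_X_pow, mul_comm]

theorem ser_trunc (P : Fin (p + 1) → Polynomial (SS k p R)) (i : Fin (p + 1)) :
    Polynomial.X ^ (k + 1) ∣ ser (fun v => (P v.2).coeff v.1.val) i - P i := by
  refine Polynomial.X_pow_dvd_iff.2 fun n hn => ?_
  simp only [ser, Polynomial.coeff_sub, Polynomial.finsetSum_coeff, Polynomial.coeff_monomial]
  rw [Finset.sum_eq_single ⟨n, hn⟩ (fun j _ hj => if_neg fun e => hj (Fin.ext e)) (by simp)]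
  simp

theorem inv_trunc {A : Type} [CommRing A] (n : ℕ) (P : Polynomial A) : ∃ Q : Polynomial A,
    Polynomial.X ^ n ∣ Polynomial.C (P.coeff 0) ^ n - P * Q := by
  obtain ⟨Q, hQ⟩ := sub_dvd_pow_sub_pow (Polynomial.C (P.coeff 0))
    (Polynomial.C (P.coeff 0) - P) n
  refine ⟨Q, ?_⟩
  rw [sub_sub_cancel] at hQ
  rw [← hQ, sub_sub_cancel]
  exact pow_dvd_pow_of_dvd (by simp [Polynomial.X_dvd_iff]) n

theorem sg_coeff_zero (G : PP p R) : (sg k R (MvPolynomial.map C G)).coeff 0 = b0 k G := by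
  induction G using MvPolynomial.induction_on with
  | C a => simp [sg, b0]
  | add f g hf hg => simp only [map_add, Polynomial.coeff_add, hf, hg]
  | mul_X f i hf =>
    rw [map_mul, map_mul, Polynomial.mul_coeff_zero, hf, map_mul, map_X, B.b0_X, sg, aeval_X]
    exact congrArg _ (B.xt_coeff i 0)

theorem hm_hom {s1 : Fin (k + 1)} (hs : s1.val = 1) (i : Fin (p + 1)) :
    IsWeightedHomogeneous (wo k p) (hm R s1 i) (7 * k + 1) := by
  have h := fun a b => (isWeightedHomogeneous_X R (wo k p) (0, a)).mul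
    (isWeightedHomogeneous_X R (wo k p) (s1, b))
  simp only [wo, hs] at h
  have := ((isWeightedHomogeneous_X R (wo k p) (0, 0)).pow (k + 1)).mul
    (((h 0 i).sub (h i 0)).pow (2 * k))
  rwa [show (k + 1) • wo k p (0, 0) + (2 * k) • ((0 : Fin (k + 1)).val + 1 + (1 + 1)) =
    7 * k + 1 by simp [wo]; ring] at this

theorem sum_single {ι A : Type} [Fintype ι] [DecidableEq ι] [CommRing A] (a h : A) (η : ι → A) :
    (a * h) • η = ∑ v, (a * η v) • h • (Pi.single v 1 : ι → A) := by
  funext w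
  simp [Pi.single_apply, mul_right_comm]

theorem pderiv_chart {q : SS k p R} (hq : q ∈ supported R (chart k (0 : Fin (p + 1))))
    {s : Fin (k + 1)} (hs : s ≠ 0) : pderiv (s, 0) q = 0 :=
  pderiv_eq_zero_of_notMem_vars fun h => by simpa [chart, hs] using mem_supported.1 hq h

end DerAux

open DerAux in
theorem derS (hL : LiftStmt) (hD : DmStmt) : DerStmt := by
  intro k p d0 s1 i1 hk hs hi s i
  obtain ⟨Dm, hD1, hD2, hD3⟩ := hD k p (d0 + 1)
  obtain ⟨hL1, hL2⟩ := hL k p (R0 p (d0 + 1)) s1 i1 hs hi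
  set F := Fu p (d0 + 1) with hFd
  have hF : F.IsHomogeneous (d0 + 1) := B.Fu_hom
  have mem : ∀ G η, BH G (d0 + 1) (7 * k + 1) →
      (∀ v, IsWeightedHomogeneous (wo k p) (η v) (wo k p v + (7 * k + 1))) →
      Polynomial.X ^ (k + 1) ∣ sg k _ G + vr F η → Dm (G, η) ∈ DD k p (d0 + 1) :=
    fun G η hG hη hd => ⟨fun s hs => (hD1 G η hG.1 s).trans
      (Polynomial.X_pow_dvd_iff.1 hd s (Nat.lt_succ_of_le hs)), hD2 G η _ hG.2 hη⟩
  choose G hG hG' using fun v : Jet k p => hL1 d0 0 v.1.val (MvPolynomial.map C (pderiv v.2 F)) hk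
    (Nat.lt_succ_iff.1 v.1.2) (B.BH_map_C hF.pderiv)
  set u : SS k p (R0 p (d0 + 1)) := X (0, 0) with hu
  set h := hm (R0 p (d0 + 1)) s1 i1 with hh
  have hdv : ∀ v, Polynomial.X ^ (k + 1) ∣ sg k _ (-G v) + vr F (h • Pi.single v 1) := fun v => by
    rw [map_smul, vr_single, map_neg, ← dvd_neg]
    convert hG' v using 1
    rw [Polynomial.smul_eq_C_mul]; ring
  have hun : ∀ n, IsWeightedHomogeneous (wo k p) (u ^ n) n := fun n => by
    simpa [wo] using (isWeightedHomogeneous_X (R0 p (d0 + 1)) (wo k p) (0, 0)).pow n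
  have m1 : ∀ v : Jet k p, Dm (u ^ (v.1.val + 1) • (-G v, h • Pi.single v 1)) ∈ DD k p (d0 + 1) := by
    intro v
    refine mem _ _ ⟨?_, fun μ => ?_⟩ (fun w => ?_) ?_
    · exact (homogeneousSubmodule _ _ _).smul_mem _ (hG v).1.neg
    · have := (hun (v.1.val + 1)).mul ((hG v).2 μ).neg
      have hv := v.1.2
      rw [show v.1.val + 1 + (0 + 7 * k - v.1.val) = 7 * k + 1 by omega] at this
      rwa [coeff_smul, coeff_neg, smul_eq_mul]
    · by_cases hw : w = v
      · subst hw
        simpa [wo] using (hun (w.1.val + 1)).mul (hm_hom hs i1)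
      · simpa [hw] using isWeightedHomogeneous_zero _ _ _
    · rw [map_smul, map_smul, ← smul_add, Polynomial.smul_eq_C_mul]
      exact (hdv v).mul_left _
  obtain ⟨χ, hχ⟩ := inv_trunc (k + 1) (sg k _ (MvPolynomial.map C (pderiv 0 F)))
  rw [sg_coeff_zero] at hχ
  let P : Fin (p + 1) → Polynomial (SS k p (R0 p (d0 + 1))) := fun j =>
    if j = 0 then -(Polynomial.X ^ (s.val + 1) * χ * sg k _ (MvPolynomial.map C (pderiv i.succ F)))
    else if j = i.succ then Polynomial.C (zz k F 0 ^ (k + 1)) * Polynomial.X ^ (s.val + 1) else 0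
  let η : Jet k p → SS k p (R0 p (d0 + 1)) := fun v => (P v.2).coeff v.1.val
  have hη : Polynomial.X ^ (k + 1) ∣ vr F η := by
    have h1 : Polynomial.X ^ (k + 1) ∣ vr F η -
        ∑ j, sg k _ (MvPolynomial.map C (pderiv j F)) * P j := by
      change _ ∣ ∑ j, _ * ser _ j - _
      rw [← Finset.sum_sub_distrib]
      exact Finset.dvd_sum fun j _ => by rw [← mul_sub]; exact (ser_trunc P j).mul_left _
    rw [Fin.sum_univ_succ, Finset.sum_eq_single i (fun j _ hj => by
      simp [P, Fin.succ_ne_zero, hj]) (by simp)] at h1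
    simp only [P, if_true, Fin.succ_ne_zero, if_false] at h1
    convert h1.add (hχ.mul_left (Polynomial.X ^ (s.val + 1) *
      sg k _ (MvPolynomial.map C (pderiv i.succ F)))) using 1
    rw [map_pow, zz]; ring
  let G' : PP p (SS k p (R0 p (d0 + 1))) := ∑ v, (u ^ (k + 1) * η v) • -G v
  have hsum : ∑ v : Jet k p, (u ^ (k - v.1.val) * η v) • u ^ (v.1.val + 1) •
      ((-G v, h • Pi.single v 1) : PP p (SS k p (R0 p (d0 + 1))) × (Jet k p → _)) =
      (G', (u ^ (k + 1) * h) • η) := by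
    have e : ∀ v : Jet k p, u ^ (k - v.1.val) * η v * u ^ (v.1.val + 1) = u ^ (k + 1) * η v :=
      fun v => by
        have hv := v.1.2
        rw [mul_right_comm, ← pow_add, show k - v.1.val + (v.1.val + 1) = k + 1 by omega]
    rw [Finset.sum_congr rfl fun v _ => by rw [smul_smul, e], sum_single]
    exact Prod.ext (by rw [Prod.fst_sum]; rfl) (by rw [Prod.snd_sum]; rfl)
  have hG'1 : G'.IsHomogeneous (d0 + 1) := (homogeneousSubmodule _ _ _).sum_mem fun v _ =>
    (homogeneousSubmodule _ _ _).smul_mem _ (hG v).1.neg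
  have hG'2 : Polynomial.X ^ (k + 1) ∣ sg k _ G' := by
    have h1 : Polynomial.X ^ (k + 1) ∣ sg k _ G' + vr F ((u ^ (k + 1) * h) • η) := by
      rw [sum_single, map_sum, map_sum, ← Finset.sum_add_distrib]
      refine Finset.dvd_sum fun v _ => ?_
      rw [map_smul, map_smul, ← smul_add, Polynomial.smul_eq_C_mul]
      exact (hdv v).mul_left _
    rw [map_smul, Polynomial.smul_eq_C_mul] at h1
    exact (dvd_add_left (hη.mul_left _)).1 h1
  obtain ⟨n, hn⟩ := hL2 (d0 + 1) G' (by omega) hG'1 hG'2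
  have m2 : Dm (h ^ n • G', 0) ∈
      Submodule.span (SS k p (R0 p (d0 + 1))) (DD k p (d0 + 1)) := by
    have := Submodule.mem_map_of_mem (f := Dm.comp (LinearMap.inl _ _ _)) hn
    rw [Submodule.map_span] at this
    refine Submodule.span_mono ?_ this
    rintro _ ⟨G'', ⟨h1, h2⟩, rfl⟩
    exact mem G'' 0 h1 (fun v => isWeightedHomogeneous_zero _ _ _) (by rwa [map_zero, add_zero])
  have m3 : Dm (G', (u ^ (k + 1) * h) • η) ∈
      Submodule.span (SS k p (R0 p (d0 + 1))) (DD k p (d0 + 1)) := by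
    rw [← hsum, map_sum]
    exact Submodule.sum_mem _ fun v _ => by
      rw [map_smul]; exact Submodule.smul_mem _ _ (Submodule.subset_span (m1 v))
  refine ⟨(k + 1) * (n + 2), 2 * k * (n + 1), k + 1, Dm (0, (h ^ n * (u ^ (k + 1) * h)) • η), ?_,
    fun q hq => ?_⟩
  · have := sub_mem (Submodule.smul_mem _ (h ^ n) m3) m2
    rwa [← map_smul, ← map_sub, Prod.smul_mk, Prod.mk_sub_mk, sub_self, sub_zero, smul_smul] at this
  · rw [hD3, Finset.sum_eq_single (s.succ, i.succ) (fun v _ hv => ?_) (by simp)]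
    · simp only [Pi.smul_apply, smul_eq_mul, η, P, Fin.succ_ne_zero, if_false, if_true,
        Fin.val_succ, Polynomial.coeff_C_mul, Polynomial.coeff_X_pow, hh, hm, ← hu]
      ring
    · obtain ⟨a, j⟩ := v
      by_cases hj : j = 0
      · subst hj
        by_cases ha : a = 0
        · subst ha
          simp [η, P, Polynomial.mul_coeff_zero]
        · rw [pderiv_chart hq ha, mul_zero]
      · by_cases hj' : j = i.succ
        · subst hj'
          have : a.val ≠ s.val + 1 := fun e => hv (by rw [show a = s.succ from Fin.ext e])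
          simp only [Pi.smul_apply, η, P, Fin.succ_ne_zero, if_false, if_true,
            Polynomial.coeff_C_mul, Polynomial.coeff_X_pow, this]
          simp
        · simp [η, P, hj, hj']

end Pool.Agent.Lib.MP_45f16c_ag.VG

end partDer

section partSec
/-! Differentiating jet differentials of very negative twist. -/

open MvPolynomial

namespace Pool.Agent.Lib.MP_45f16c_ag.VG

namespace SecAux

section abstract
variable {A : Type} [CommRing A] [Algebra ℚ A] (ev : A →+* ℂ) (𝒟 : Set (Derivation ℚ A A))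

/-- All derivatives of order at most `r` along `𝒟` vanish at the point. -/
def V : ℕ → A → Prop
  | 0, g => ev g = 0
  | r + 1, g => ev g = 0 ∧ ∀ D ∈ 𝒟, V r (D g)

variable {ev 𝒟}

theorem V.zero (r : ℕ) : V ev 𝒟 r 0 := by
  induction r with
  | zero => exact map_zero ev
  | succ r ih => exact ⟨map_zero ev, fun D _ => by rwa [map_zero]⟩

theorem V.ev0 {r : ℕ} {g : A} (h : V ev 𝒟 r g) : ev g = 0 := by
  cases r with
  | zero => exact h
  | succ r => exact h.1

theorem V.down {r : ℕ} : ∀ {g : A}, V ev 𝒟 (r + 1) g → V ev 𝒟 r g := by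
  induction r with
  | zero => exact fun h => h.1
  | succ r ih => exact fun h => ⟨h.1, fun D hD => ih (h.2 D hD)⟩

theorem V.add {r : ℕ} : ∀ {g g' : A}, V ev 𝒟 r g → V ev 𝒟 r g' → V ev 𝒟 r (g + g') := by
  induction r with
  | zero => intro g g' h h'; show _ = _; rw [map_add, h.ev0, h'.ev0, add_zero]
  | succ r ih =>
    intro g g' h h'
    exact ⟨by rw [map_add, h.1, h'.1, add_zero], fun D hD => by
      rw [map_add]; exact ih (h.2 D hD) (h'.2 D hD)⟩

theorem V.mul {r : ℕ} : ∀ (a : A) {g : A}, V ev 𝒟 r g → V ev 𝒟 r (a * g) := by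
  induction r with
  | zero => intro a g h; show _ = _; rw [map_mul, h.ev0, mul_zero]
  | succ r ih =>
    intro a g h
    refine ⟨by rw [map_mul, h.1, mul_zero], fun D hD => ?_⟩
    rw [Derivation.leibniz, smul_eq_mul, smul_eq_mul, mul_comm g]
    exact (ih _ (h.2 D hD)).add (ih _ h.down)

theorem V.cancel {r : ℕ} {u : A} (hu : ev u ≠ 0) : ∀ {g : A}, V ev 𝒟 r (u * g) → V ev 𝒟 r g := by
  induction r with
  | zero =>
    intro g h
    have := h.ev0
    rw [map_mul] at this
    exact (mul_eq_zero.1 this).resolve_left hu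
  | succ r ih =>
    intro g h
    have h0 := ih h.down
    refine ⟨h0.ev0, fun D hD => ih ?_⟩
    have := (h.2 D hD).add (h0.mul (-D u))
    rw [Derivation.leibniz, smul_eq_mul, smul_eq_mul] at this
    convert this using 1
    ring

theorem V.span {r : ℕ} {g : A} (h : V ev 𝒟 (r + 1) g) {E : Derivation ℚ A A}
    (hE : E ∈ Submodule.span A 𝒟) : V ev 𝒟 r (E g) := by
  induction hE using Submodule.span_induction with
  | mem D hD => exact h.2 D hD
  | zero => exact V.zero r
  | add D D' _ _ h1 h2 => exact h1.add h2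
  | smul a D _ h1 => exact h1.mul a

theorem der_span {T : Set A} {D : Derivation ℚ A A} (hD : ∀ g ∈ T, D g = 0) {q : A}
    (hq : q ∈ Ideal.span T) : D q ∈ Ideal.span T := by
  induction hq using Submodule.span_induction with
  | mem g hg => rw [hD g hg]; exact zero_mem _
  | zero => rw [map_zero]; exact zero_mem _
  | add x y _ _ hx hy => rw [map_add]; exact add_mem hx hy
  | smul a x hx h =>
    rw [smul_eq_mul, Derivation.leibniz, smul_eq_mul, smul_eq_mul]
    exact add_mem (Ideal.mul_mem_left _ _ h) (Ideal.mul_mem_right _ _ hx)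

theorem der_pow (D : Derivation ℚ A A) (z : A) (t : ℕ) : z * D (z ^ t) = t * z ^ t * D z := by
  cases t with
  | zero => simp
  | succ t => rw [Derivation.leibniz_pow]; simp [pow_succ]; ring

end abstract

variable {k p d0 : ℕ}

theorem derive {ev : SS k p (R0 p (d0 + 1)) →+* ℂ} {t N : ℕ}
    {q : Fin (p + 1) → SS k p (R0 p (d0 + 1))} (h : Sec (Fu p (d0 + 1)) ev t N q)
    {D : Derivation ℚ (SS k p (R0 p (d0 + 1))) (SS k p (R0 p (d0 + 1)))}
    (hD : D ∈ DD k p (d0 + 1)) : Sec (Fu p (d0 + 1)) ev (t + 1) (d0 + (N + (7 * k + 1))) fun j =>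
      zz k (Fu p (d0 + 1)) j * D (q j) - t * (q j * D (zz k (Fu p (d0 + 1)) j)) := by
  refine ⟨fun j => ?_, fun i j => ?_⟩
  · have hz := B.zz_wo (k := k) (B.Fu_hom (p := p) (d := d0 + 1)) j
    refine (hz.mul (hD.2 _ _ (h.hom j))).sub ?_
    have := ((h.hom j).mul (hD.2 _ _ hz)).C_mul (t : R0 p (d0 + 1))
    rw [map_natCast] at this
    convert this using 1
    omega
  · obtain ⟨u, hu, e⟩ := h.glue i j
    refine ⟨u * u, by rw [map_mul]; exact mul_ne_zero hu hu, ?_⟩
    have e' := der_span (D := D) (by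
      rintro _ ⟨s, rfl⟩
      exact hD.1 _ (Nat.lt_succ_iff.1 s.2)) e
    set zi := zz k (Fu p (d0 + 1)) i
    set zj := zz k (Fu p (d0 + 1)) j
    have := sub_mem (Ideal.mul_mem_left _ (u * (zi * zj)) e')
      (Ideal.mul_mem_left _ (D u * (zi * zj) + u * (t * (zi * D zj + zj * D zi))) e)
    convert this using 1
    have h1 := der_pow D zi t
    have h2 := der_pow D zj t
    simp only [Derivation.leibniz, map_sub, smul_eq_mul]
    linear_combination (-(u * u * zj * q j)) * h1 + (u * u * zi * q i) * h2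

theorem pderiv_supp {R : Type} [CommRing R] {s : Set (Jet k p)} (v : Jet k p) {q : SS k p R}
    (hq : q ∈ supported R s) : pderiv v q ∈ supported R s := by
  classical
  induction hq using Algebra.adjoin_induction with
  | mem x hx =>
    obtain ⟨u, -, rfl⟩ := hx
    rw [pderiv_X, Pi.single_apply]
    split_ifs
    · exact one_mem _
    · exact zero_mem _
  | algebraMap r => simp [zero_mem]
  | add x y _ _ hx hy => rw [map_add]; exact add_mem hx hy
  | mul x y h1 h2 hx hy =>
    rw [Derivation.leibniz, smul_eq_mul, smul_eq_mul]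
    exact add_mem (mul_mem h1 hy) (mul_mem h2 hx)

theorem chart_cases {v : Jet k p} (h : v ∈ chart k (0 : Fin (p + 1))) :
    (∃ i, v = (0, i)) ∨ ∃ s i, v = (Fin.succ s, Fin.succ i) := by
  obtain ⟨s, i⟩ := v
  rcases Fin.eq_zero_or_eq_succ s with rfl | ⟨s, rfl⟩
  · exact Or.inl ⟨i, rfl⟩
  · obtain ⟨i, rfl⟩ := Fin.exists_succ_eq.2 (h.resolve_left (Fin.succ_ne_zero s))
    exact Or.inr ⟨s, i, rfl⟩

theorem el_chart {R : Type} [CommRing R] {f : R →+* ℂ} {ξ : Jet k p → ℂ}
    {el : SS k p R →+* CC k p ℂ} (hC : ∀ a, el (C a) = C (f a))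
    (h0 : ∀ i, el (X (0, i)) = C (ξ (0, i)))
    (h1 : ∀ s i, el (X (Fin.succ s, Fin.succ i)) = X (s, i)) {q : SS k p R}
    (hq : q ∈ supported R (chart k (0 : Fin (p + 1)))) :
    eval (fun v : Ch k p => ξ (v.1.succ, v.2.succ)) (el q) = eval₂Hom f ξ q ∧
      ∀ v : Ch k p, pderiv v (el q) = el (pderiv (v.1.succ, v.2.succ) q) := by
  classical
  induction hq using Algebra.adjoin_induction with
  | mem x hx =>
    obtain ⟨u, hu, rfl⟩ := hx
    rcases chart_cases hu with ⟨i, rfl⟩ | ⟨s, i, rfl⟩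
    · exact ⟨by simp [h0], fun v => by
        simp [h0, pderiv_X, (Fin.succ_ne_zero _).symm]⟩
    · refine ⟨by simp [h1], fun v => ?_⟩
      simp only [h1, pderiv_X, Pi.single_apply, Prod.ext_iff, Fin.succ_inj]
      split_ifs <;> simp
  | algebraMap r => simp [hC]
  | add x y _ _ hx hy => exact ⟨by simp only [map_add, hx.1, hy.1], fun v => by
      simp only [map_add, hx.2, hy.2]⟩
  | mul x y _ _ hx hy => exact ⟨by simp only [map_mul, hx.1, hy.1], fun v => by
      simp only [map_mul, Derivation.leibniz, smul_eq_mul, map_add, hx.2, hy.2]⟩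

end SecAux

open SecAux in
theorem secS (hV : VanishStmt) (hD : DerStmt) : SecStmt := by
  intro k p d0 F ξ s1 i1 hk hF hsm hJ hs h00 h01 h11 h10 hz r t N q hq hlt c q' hq' hc e el hC h0 h1
  have hev : ∀ g : SS k p (R0 p (d0 + 1)), eval₂Hom (evA (d0 + 1) F) ξ g =
      eval ξ (MvPolynomial.map (evA (d0 + 1) F) g) := fun g => by
    rw [coe_eval₂Hom, eval₂_eq_eval_map]
  set ev := eval₂Hom (evA (d0 + 1) F) ξ with hevd
  have hz' : ev (zz k (Fu p (d0 + 1)) 0) ≠ 0 := by rwa [hev, B.map_zz, B.map_Fu hF]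
  have base : ∀ t N q, Sec (Fu p (d0 + 1)) ev t N q → N < t * d0 → ev (q 0) = 0 := by
    intro t N q hq hlt
    rw [hev]
    refine hV k p d0 F ξ s1 i1 hF hsm hJ hs h00 h01 h11 t N
      (fun j => MvPolynomial.map (evA (d0 + 1) F) (q j))
      ⟨fun j => B.hom_mapc _ (hq.hom j), fun i j => ?_⟩ hlt
    obtain ⟨u, hu, e⟩ := hq.glue i j
    refine ⟨MvPolynomial.map (evA (d0 + 1) F) u, by rwa [← hev], ?_⟩
    have := Ideal.mem_map_of_mem (MvPolynomial.map (σ := Jet k p) (evA (d0 + 1) F)) e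
    rw [Ideal.map_span, ← Set.range_comp] at this
    simpa only [map_mul, map_sub, map_pow, B.map_zz, B.map_Fu hF, Function.comp_def, B.map_jeq]
      using this
  have key : ∀ r t N q, Sec (Fu p (d0 + 1)) ev t N q → N + r * (7 * k + 1) < t * d0 →
      V ev (DD k p (d0 + 1)) r (q 0) := by
    intro r
    induction r with
    | zero => exact fun t N q hq hlt => base t N q hq (by omega)
    | succ r ih =>
      intro t N q hq hlt
      rw [add_mul, one_mul] at hlt
      refine ⟨base t N q hq (by omega), fun D hD => V.cancel hz' ?_⟩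
      have := (ih _ _ _ (derive hq hD) (by rw [add_mul]; omega)).add
        ((ih t N q hq (by omega)).mul (t * D (zz k (Fu p (d0 + 1)) 0)))
      convert this using 1
      ring
  have hi : i1 ≠ 0 := fun e => h11 (e ▸ h10)
  have fin : ∀ r, ∀ q' ∈ supported (R0 p (d0 + 1)) (chart k (0 : Fin (p + 1))),
      V ev (DD k p (d0 + 1)) r q' → Van (fun v : Ch k p => ξ (v.1.succ, v.2.succ)) r (el q') := by
    intro r
    induction r with
    | zero => exact fun q' hq' h => ((el_chart hC h0 h1 hq').1).trans h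
    | succ r ih =>
      intro q' hq' h
      refine ⟨((el_chart hC h0 h1 hq').1).trans h.1, fun v => ?_⟩
      rw [(el_chart hC h0 h1 hq').2]
      obtain ⟨a, b, e, E, hE, hE'⟩ := hD k p d0 s1 i1 hk hs hi v.1 v.2
      have := h.span hE
      rw [hE' q' hq'] at this
      refine ih _ (pderiv_supp _ hq') (V.cancel ?_ this)
      rw [map_mul, map_mul, map_pow, map_pow, map_pow]
      refine mul_ne_zero (mul_ne_zero (pow_ne_zero _ ?_) (pow_ne_zero _ ?_)) (pow_ne_zero _ hz')
      · simpa [hevd] using h00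
      · simpa [hevd, wr, h10] using ⟨h00, h11⟩
  exact fin r q' hq' (V.cancel hc (e ▸ key r t N q hq hlt))

end Pool.Agent.Lib.MP_45f16c_ag.VG

end partSec

section partBridge
/-! Clearing denominators: from the generic form over the fraction field to the universal form. -/

open MvPolynomial Filter Module

namespace Pool.Agent.Lib.MP_45f16c_ag.VG

namespace BridgeAux

theorem van_mul {σ L : Type} [CommRing L] (ξ : σ → L) (a : L) (r : ℕ) :
    ∀ P : MvPolynomial σ L, Van ξ r P → Van ξ r (C a * P) := by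
  induction r with
  | zero => exact fun P h => by rw [Van, map_mul, show eval ξ P = 0 from h, mul_zero]
  | succ r ih =>
    exact fun P h => ⟨by rw [map_mul, h.1, mul_zero], fun v => by
      rw [pderiv_C_mul]
      exact ih _ (h.2 v)⟩

variable {R K σ : Type} [CommRing R] [IsDomain R] [Field K] [Algebra R K] [IsFractionRing R K]

attribute [local instance] MvPolynomial.algebraMvPolynomial

theorem clear {ι : Type} [Finite ι] (q : ι → MvPolynomial σ K) :
    ∃ b : R, b ≠ 0 ∧ ∃ q' : ι → MvPolynomial σ R,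
      ∀ i, MvPolynomial.map (algebraMap R K) (q' i) = C (algebraMap R K b) * q i := by
  obtain ⟨⟨_, b, hb, rfl⟩, h⟩ := IsLocalization.exist_integer_multiples_of_finite
    ((nonZeroDivisors R).map (C (σ := σ))) q
  choose q' h using h
  exact ⟨b, nonZeroDivisors.ne_zero hb, q', fun i => by
    simpa [Algebra.smul_def] using h i⟩

theorem descend {I : Ideal (MvPolynomial σ R)} {x : MvPolynomial σ R}
    (h : MvPolynomial.map (algebraMap R K) x ∈ I.map (MvPolynomial.map (algebraMap R K))) :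
    ∃ a : R, a ≠ 0 ∧ C a * x ∈ I := by
  obtain ⟨⟨y, _, a, ha, rfl⟩, e⟩ := (IsLocalization.mem_map_algebraMap_iff
    ((nonZeroDivisors R).map (C (σ := σ))) (MvPolynomial σ K)).1 h
  refine ⟨a, nonZeroDivisors.ne_zero ha, ?_⟩
  have : C a * x = (y : MvPolynomial σ R) := by
    apply MvPolynomial.map_injective (algebraMap R K) (IsFractionRing.injective R K)
    rw [map_mul, mul_comm]
    exact e
  exact this ▸ y.2

omit [IsDomain R] in
theorem hom {M : Type} [AddCommMonoid M] {w : σ → M} {n : M} {q : MvPolynomial σ K}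
    {q' : MvPolynomial σ R} {b : K} (e : MvPolynomial.map (algebraMap R K) q' = C b * q)
    (h : IsWeightedHomogeneous w q n) : IsWeightedHomogeneous w q' n := fun γ hγ => h fun k => by
  have := congrArg (coeff γ) e
  rw [coeff_map, coeff_C_mul, k, mul_zero] at this
  exact hγ (IsFractionRing.injective R K (this.trans (map_zero _).symm))

omit [IsDomain R] in
theorem supp {s : Set σ} {q : MvPolynomial σ K} {q' : MvPolynomial σ R} {b : K}
    (e : MvPolynomial.map (algebraMap R K) q' = C b * q) (h : q ∈ supported K s) :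
    q' ∈ supported R s := by
  have : C b * q ∈ supported K s := mul_mem ((supported K s).algebraMap_mem b) h
  rwa [← e, mem_supported, vars_map_of_injective _ (IsFractionRing.injective R K),
    ← mem_supported] at this

end BridgeAux

open BridgeAux in
theorem bridgeS (hTri : TriStmt) (hKer : KerStmt) (hSec : SecStmt) : BridgeStmt := by
  intro k p d0 F ξ s1 i1 hk hF hsm hJ e1 n0 n1 n2 n3 K _ _ _ _ hA hS el hel T0 c m r hlt P hP
  obtain ⟨⟨q0, s0, w0, rfl⟩, h⟩ := hP
  obtain ⟨t, h⟩ := (eventually_all.2 h).exists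
  choose q w e using h
  obtain ⟨T1, -, T3⟩ := hTri k p d0 K _ hS.hom
  have inj : ∀ a, a ≠ 0 → evA (d0 + 1) F a ≠ 0 := fun a ha => by
    rw [← hA]
    exact (map_ne_zero _).2 ((map_ne_zero_iff _ (IsFractionRing.injective _ K)).2 ha)
  have mF : MvPolynomial.map (algebraMap K ℂ) (FK p (d0 + 1) K) = F := by
    rw [FK, MvPolynomial.map_map, show (algebraMap K ℂ).comp (algebraMap _ K) = evA (d0 + 1) F from
      RingHom.ext hA, B.map_Fu hF]
  have z0 : eval ξ (zz k F 0) ≠ 0 := by
    have := hS.zne 0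
    rwa [aeval_def, eval₂_eq_eval_map, ← pderiv_map, mF, ← B.eval_b0] at this
  have z1 : eval₂Hom (evA (d0 + 1) F) ξ (zz k (Fu p (d0 + 1)) 0) ≠ 0 := by
    rwa [coe_eval₂Hom, eval₂_eq_eval_map, B.map_zz, B.map_Fu hF]
  obtain ⟨b, b0', q', hq⟩ := clear (R := R0 p (d0 + 1)) fun o : Option (Fin (p + 1)) => o.elim q0 q
  have mz : ∀ j, MvPolynomial.map (algebraMap (R0 p (d0 + 1)) K) (zz k (Fu p (d0 + 1)) j) =
      zz k (FK p (d0 + 1) K) j := fun j => B.map_zz _ _ j
  obtain ⟨Q, Q0, Q1, Q2⟩ : ∃ Q : Fin (p + 1) → SS k p (R0 p (d0 + 1)),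
      Q 0 = zz k (Fu p (d0 + 1)) 0 ^ t * q' none ∧
      (∀ j, IsWeightedHomogeneous (wo k p) (Q j) (c + t * d0 + m)) ∧
      ∀ j, el (zz k (FK p (d0 + 1) K) j) ^ (T0 + t) * (el (C (algebraMap _ K b)) * el q0) =
        el (zz k (FK p (d0 + 1) K) 0) ^ T0 * el (MvPolynomial.map (algebraMap _ K) (Q j)) := by
    refine ⟨Fin.cases (zz k (Fu p (d0 + 1)) 0 ^ t * q' none) fun j => q' (some j.succ), rfl,
      Fin.cases ?_ fun j => ?_, Fin.cases ?_ fun j => ?_⟩
    · have := ((B.zz_wo (k := k) (B.Fu_hom (p := p) (d := d0 + 1)) 0).pow t).mul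
        (B.wo_of_w2 (hom (hq none) w0))
      rwa [smul_eq_mul, ← add_assoc, add_comm (t * d0)] at this
    · exact B.wo_of_w2 (by simpa using hom (hq (some j.succ)) (w j.succ))
    · simp only [Fin.cases_zero, map_mul, map_pow, mz, hq, Option.elim]
      ring
    · simp only [Fin.cases_succ, map_mul, hq, Option.elim]
      rw [mul_left_comm, e, mul_left_comm]
  have sec : Sec (Fu p (d0 + 1)) (eval₂Hom (evA (d0 + 1) F) ξ) (T0 + t) (c + t * d0 + m) Q := by
    refine ⟨Q1, fun i j => ?_⟩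
    have k0 : el (zz k (FK p (d0 + 1) K) 0) ^ T0 ≠ 0 := by
      rw [B.el_zz hel]
      exact pow_ne_zero _ (C_ne_zero.2 (hS.zne 0))
    obtain ⟨u, hu⟩ := ((hKer k p d0 K ℂ _ _ _ _ 0 el hS T1 hel).1
      (MvPolynomial.map (algebraMap _ K) (zz k (Fu p (d0 + 1)) i ^ (T0 + t) * Q j -
        zz k (Fu p (d0 + 1)) j ^ (T0 + t) * Q i)) 0).1 (mul_left_cancel₀ k0 (by
          simp only [map_sub, map_mul, map_pow, mz]
          linear_combination el (zz k (FK p (d0 + 1) K) j) ^ (T0 + t) * Q2 i -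
            el (zz k (FK p (d0 + 1) K) i) ^ (T0 + t) * Q2 j))
    have le : II k {FK p (d0 + 1) K} (req k (FK p (d0 + 1) K)) ≤
        (Ideal.span (Set.range fun s : Fin (k + 1) => jeq k (Fu p (d0 + 1)) s.val)).map
          (MvPolynomial.map (algebraMap _ K)) := by
      refine Ideal.span_le.2 ?_
      rintro _ (⟨_, rfl, rfl⟩ | ⟨s, rfl⟩)
      · rw [← T3, FK, ← B.map_jeq]
        exact Ideal.mem_map_of_mem _ (Ideal.subset_span ⟨0, rfl⟩)
      · rw [req, FK, ← B.map_jeq]
        exact Ideal.mem_map_of_mem _ (Ideal.subset_span ⟨s.succ, rfl⟩)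
    rw [← mz, ← map_pow, ← map_mul] at hu
    obtain ⟨a, a0, ha⟩ := descend (le hu)
    refine ⟨C a * zz k (Fu p (d0 + 1)) 0 ^ u, ?_, by rwa [mul_assoc]⟩
    rw [map_mul, map_pow, eval₂Hom_C]
    exact mul_ne_zero (inj a a0) (pow_ne_zero _ z1)
  have ec : ∀ a, el (C (algebraMap (R0 p (d0 + 1)) K a)) = C (evA (d0 + 1) F a) := fun a => by
    rw [← hA]
    exact el.commutes _
  have key := hSec k p d0 F ξ s1 i1 hk hF hsm hJ e1 n0 n1 n2 n3 z0 r _ _ Q sec
    (by rw [add_mul]; omega) _ _ (supp (hq none) s0) (by rw [map_pow]; exact pow_ne_zero _ z1) Q0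
    ((el : SS k p K →+* CC k p ℂ).comp (MvPolynomial.map (algebraMap _ K)))
    (fun a => by simpa using ec a) (fun i => by simpa using hel.base i)
    fun s i => by simpa using hel.var s i
  have := van_mul _ (evA (d0 + 1) F b)⁻¹ r _ key
  rwa [RingHom.comp_apply, hq, RingHom.coe_coe, map_mul, ec, ← mul_assoc, ← C_mul,
    inv_mul_cancel₀ (inj b b0'), C_1, one_mul] at this

end Pool.Agent.Lib.MP_45f16c_ag.VG

end partBridge
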