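import Pool.Agent.Lib.MP_45f16c_ag.VG.M1
import Pool.Agent.Lib.MP_45f16c_ag.VG.M2
import Pool.Agent.Lib.MP_45f16c_ag.VG.M3
import Pool.Agent.Lib.MP_45f16c_ag.VG.M4
import Pool.Agent.Lib.MP_45f16c_ag.VG.M5
import Pool.Agent.Lib.MP_45f16c_ag.VG.M6
import Pool.Agent.Lib.MP_45f16c_ag.VG.M7
import Pool.Agent.Lib.MP_45f16c_ag.VG.M8

/-! Assembly of the proof, and the passage to the form of the frozen statement. -/

set_option autoImplicit false
open MvPolynomial

namespace Pool.Agent.Lib.MP_45f16c_ag.VG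

theorem indep (hSeq : SeqStmt) (hRY : RYStmt) (hW : WStmt) (hGen : GenStmt) (hSm : SmoothStmt)
    (hTri : TriStmt) (hEl : ElStmt) (hNV : NonVanStmt) (hBr : BridgeStmt) : IndepStmt := by
  intro p l d0 hl hlp hp hd F hF hI f hf hne hX
  by_contra hc
  push Not at hc
  obtain ⟨x, v, hB, hxv, hx⟩ := hSeq.1 (p + 1) (d0 + 1) F (fun z i => f i z) hF
    (differentiable_pi.2 hf) (fun z h => by
      obtain ⟨i, hi⟩ := hne z
      exact hi (congrFun h i)) hX hc
  have hpp : 2 ≤ p + p := hl.trans hlp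
  have hpos : 0 < (p + p) * l := Nat.mul_pos (by omega) (by omega)
  obtain ⟨k, hk⟩ : ∃ k, k = 16 * (p + p) * l := ⟨_, rfl⟩
  have hk0 : 0 < k := by rw [hk, mul_assoc]; omega
  have hkd : k ≤ d0 := by
    refine le_trans ?_ hd
    rw [hk, mul_assoc, mul_assoc, ← mul_pow]
    nlinarith
  let v0 : Ch k (p + p) := (⟨0, hk0⟩, ⟨0, by omega⟩)
  obtain ⟨F', T, hT, hF', hTF, hG, hw⟩ := hRY p (d0 + 1) F x v v0.2 (by omega) hF hI hxv hx
  obtain ⟨ξ, hJ, h0, h1⟩ := (hW (p + p)).2.2.2 k F' (T x) (T v) (hSeq.2 _ _ F F' T x v hT hTF hB)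
  obtain ⟨hinj, hne', hK⟩ := hGen (p + p) d0 F' (T x) hpp (by omega) hF' (by rw [hTF, hx]) hG
  let K := FractionRing (R0 (p + p) (d0 + 1))
  let _ : Algebra K ℂ := (IsFractionRing.lift (K := K) hinj).toAlgebra
  have hc : ∀ a, algebraMap K ℂ (algebraMap (R0 (p + p) (d0 + 1)) K a) = evA (d0 + 1) F' a :=
    fun a => IsFractionRing.lift_algebraMap hinj a
  obtain ⟨hS, hsm, L, _, _, π', hS', hy⟩ := hK K hc
  have hξ : (fun i => ξ (0, i)) = T x := funext h0
  rw [← hξ] at hS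
  obtain ⟨el, hel⟩ := hEl k (p + p) d0 K ℂ _ _ _ _ hS (hTri k (p + p) d0 K _ hS.hom).1 0
  have h11 : ξ (v0.1.succ, v0.2.succ) ≠ 0 := by
    rw [h1 v0.1.succ rfl]; exact sub_ne_zero.2 hw
  obtain ⟨T0, c, m, r, hlt, P, hP, hV⟩ := hNV (p + p) l k d0 hl hlp hp hk hd K ℂ L _ _ π' 1 el
    (fun v => ξ (v.1.succ, v.2.succ)) v0 hS hS' (by simpa [h0] using hne' 0) hy
    (hSm (p + p) d0 (by omega) K) hel rfl h11
  exact hV (hBr k (p + p) d0 F' ξ v0.1.succ v0.2.succ hkd hF' hsm hJ rfl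
    (by rw [h0]; exact hne' _) (by rw [h0]; exact hne' _) h11
    (by rw [h1 v0.1.succ rfl]; ring) K hc hS el hel T0 c m r hlt P hP)

theorem indepS : IndepStmt :=
  have hKer := kerS elS elimS coefS
  have hSat := satS serreS triS hKer lowS cramS
  have hAlg := algS triS elS (telRS rnS coefS hKer) (telGS rnS triS hKer)
    (upNS filtS triS elS elimS coefS hKer lowS) (loNS filtS elimS lowS)
    (goodS projS triS elS elimS coefS hKer lowS cramS hSat leadS) (endS cramS hSat leadS) queueS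
  have hNV := nonVanS hAlg (upperS coordS coefS wdimS) hilbS
    (countS totS (rhoS rankinS) (badS rankinS queueS))
  have hSec := secS (vanishS wS jeqS (psiS wS)) (derS (liftS thetaS) dmS)
  indep (seqS zalS gaugeS) (ryS (initS rkS) (stepS rkS) (finS rkS primeS)) wS
    (genS primeS smoothS) smoothS triS elS hNV (bridgeS triS hKer hSec)

theorem very_generic (n : ℕ) (hn : 2 ≤ n) (d : ℕ)
    (hd : 800000 * (2 * n + 2) ^ 2 * Nat.clog 2 (2 * n + 2) ^ 2 < d) :
    ∃ Q : ℕ → MvPolynomial ((Fin (n + 2)) →₀ ℕ) ℂ,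
      (∀ k, ∃ P₀ : MvPolynomial (Fin (n + 2)) ℂ, P₀.IsHomogeneous d ∧
          MvPolynomial.eval (fun m => P₀.coeff m) (Q k) ≠ 0) ∧
      ∀ P : MvPolynomial (Fin (n + 2)) ℂ, P.IsHomogeneous d →
        (∀ k, MvPolynomial.eval (fun m => P.coeff m) (Q k) ≠ 0) → IsBrody P := by
  rw [show 2 * n + 2 = n + 1 + (n + 1) by ring] at hd
  obtain ⟨d0, rfl⟩ : ∃ d0, d = d0 + 1 := ⟨d - 1, by omega⟩
  have : Countable (R0 (n + 1) (d0 + 1)) := Cardinal.mk_le_aleph0_iff.1
    (MvPolynomial.cardinalMk_le_max.trans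
      (max_le (max_le Cardinal.mk_le_aleph0 Cardinal.mk_le_aleph0) le_rfl))
  have : Nonempty {Q : R0 (n + 1) (d0 + 1) // Q ≠ 0} := ⟨⟨1, one_ne_zero⟩⟩
  obtain ⟨e, he⟩ := exists_surjective_nat {Q : R0 (n + 1) (d0 + 1) // Q ≠ 0}
  have key : ∀ (P : MvPolynomial (Fin (n + 2)) ℂ) (Q : R0 (n + 1) (d0 + 1)),
      eval (fun m => P.coeff m) (rename Subtype.val (MvPolynomial.map (algebraMap ℚ ℂ) Q)) =
        aeval (cf (d0 + 1) P) Q := fun P Q => by
    rw [eval_rename, aeval_def, eval₂_eq_eval_map]; rfl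
  refine ⟨fun k => rename Subtype.val (MvPolynomial.map (algebraMap ℚ ℂ) (e k).1), fun k => ?_,
    fun P hP hQ => ?_⟩
  · have h0 : MvPolynomial.map (algebraMap ℚ ℂ) (e k).1 ≠ 0 := fun h => (e k).2
      (map_injective _ (algebraMap ℚ ℂ).injective (by rw [h, map_zero]))
    obtain ⟨c, hc⟩ : ∃ c, eval c (MvPolynomial.map (algebraMap ℚ ℂ) (e k).1) ≠ 0 := by
      by_contra h
      push Not at h
      exact h0 (MvPolynomial.funext fun c => by rw [h c, map_zero])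
    refine ⟨form c, IsHomogeneous.sum _ _ _ fun μ _ => isHomogeneous_monomial _ (B.mon_degree μ), ?_⟩
    have : cf (d0 + 1) (form c) = c := by
      classical
      funext μ
      simp [cf, form, coeff_sum, coeff_monomial]
    rw [key, this, aeval_def, eval₂_eq_eval_map]
    exact hc
  · refine indepS (n + 1) (Nat.clog 2 (n + 1 + (n + 1))) d0 ?_ ?_ ?_ (by omega) P hP ?_
    · exact Nat.succ_le_of_lt ((Nat.lt_clog_iff_pow_lt (by norm_num)).2 (by omega))
    · exact Nat.clog_le_of_le_pow (Nat.lt_two_pow_self).le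
    · exact Nat.le_pow_clog (by norm_num) _
    · rw [algebraicIndependent_iff]
      intro Q hQ0
      by_contra h
      obtain ⟨k, hk⟩ := he ⟨Q, h⟩
      refine hQ k ?_
      rw [key, hk]
      exact hQ0

end Pool.Agent.Lib.MP_45f16c_ag.VG
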