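import Pool.Agent.Lib.MP_45f16c_ag.VG.B

/-! Very generic hyperbolicity: linear algebra, saturation, charts, Hilbert function. -/

set_option autoImplicit false

section partFilt
/-! Linear algebra lemmas. -/

open MvPolynomial Module

namespace Pool.Agent.Lib.MP_45f16c_ag.VG

namespace FiltAux

theorem rn {K M A : Type} [Field K] [AddCommGroup M] [Module K M] [AddCommGroup A] [Module K A]
    (V : Submodule K M) [FiniteDimensional K V] (f : M →ₗ[K] A) :
    finrank K (V.map f) + finrank K ↥(V ⊓ LinearMap.ker f) = finrank K V := by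
  have := (f.domRestrict V).finrank_range_add_finrank_ker
  rw [LinearMap.range_domRestrict, LinearMap.ker_domRestrict] at this
  rw [← this, ← Submodule.finrank_map_subtype_eq V, Submodule.map_comap_subtype]

theorem coords {σ L : Type} [Field L] (n : ℕ) : ∀ (W : Submodule L (MvPolynomial σ L))
    [FiniteDimensional L W], finrank L W ≤ n → ∃ T : Finset (σ →₀ ℕ), T.card ≤ n ∧
      ∀ P ∈ W, (∀ α ∈ T, coeff α P = 0) → P = 0 := by
  classical
  induction n with
  | zero =>
    intro W _ h
    refine ⟨∅, le_rfl, fun P hP _ => ?_⟩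
    rw [Submodule.finrank_eq_zero.1 (Nat.le_zero.1 h)] at hP
    exact hP
  | succ n ih =>
    intro W _ h
    by_cases h0 : ∀ P ∈ W, P = 0
    · exact ⟨∅, Nat.zero_le _, fun P hP _ => h0 P hP⟩
    push Not at h0
    obtain ⟨P0, hP0, hne⟩ := h0
    obtain ⟨α, hα⟩ := exists_coeff_ne_zero hne
    have hlt : W ⊓ LinearMap.ker (lcoeff L α) < W :=
      lt_of_le_of_ne inf_le_left fun e => hα (by
        have : P0 ∈ W ⊓ LinearMap.ker (lcoeff L α) := e.symm ▸ hP0
        exact this.2)
    obtain ⟨T, hT, hT'⟩ := ih (W ⊓ LinearMap.ker (lcoeff L α))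
      (Nat.le_of_lt_succ ((Submodule.finrank_lt_finrank_of_lt hlt).trans_le h))
    exact ⟨insert α T, (Finset.card_insert_le _ _).trans (Nat.succ_le_succ hT), fun P hP hz =>
      hT' P ⟨hP, hz α (Finset.mem_insert_self _ _)⟩ fun β hβ => hz β (Finset.mem_insert_of_mem hβ)⟩

end FiltAux

open FiltAux

theorem filtS : FiltStmt := by
  intro K M _ _ _ V _ π n
  induction n with
  | zero =>
    have e : (V ⊓ ⨅ u < 0, LinearMap.ker (π u)) = V := by simp
    rw [e, Finset.range_zero, Finset.sum_empty, zero_add]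
  | succ n ih =>
    have e : (V ⊓ ⨅ u < n + 1, LinearMap.ker (π u)) =
        (V ⊓ ⨅ u < n, LinearMap.ker (π u)) ⊓ LinearMap.ker (π n) := by
      ext x
      simp only [Submodule.mem_inf, Submodule.mem_iInf, Nat.lt_succ_iff_lt_or_eq]
      exact ⟨fun h => ⟨⟨h.1, fun u hu => h.2 u (Or.inl hu)⟩, h.2 n (Or.inr rfl)⟩,
        fun h => ⟨h.1.1, fun u hu => hu.elim (h.1.2 u) fun e => e ▸ h.2⟩⟩
    rw [Finset.sum_range_succ, add_assoc, e, rn, ih]

theorem rnS : RNStmt := by
  intro K M A B _ _ _ _ _ _ _ V _ f g h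
  have h1 := rn V f
  have h2 := rn V g
  have h3 := rn (V ⊓ LinearMap.ker g) f
  have e : V ⊓ LinearMap.ker g ⊓ LinearMap.ker f = V ⊓ LinearMap.ker f := by
    ext x
    exact ⟨fun hx => ⟨hx.1.1, hx.2⟩, fun hx => ⟨⟨hx.1, h x hx.1 hx.2⟩, hx.2⟩⟩
  rw [e] at h3
  omega

theorem coordS : CoordStmt := by
  intro σ K L _ _ _ W _ V U D hU hW hc
  obtain ⟨T, hT, hT'⟩ := coords (finrank L W) W le_rfl
  have := fun α => (hU α).1
  let Φ : V →ₗ[K] ((α : T) → U α.1) := LinearMap.pi fun α =>
    LinearMap.codRestrict _ (((lcoeff L α.1).restrictScalars K).comp V.subtype)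
      fun P => hc P.1 P.2 α.1
  have hΦ : Function.Injective Φ := by
    rw [injective_iff_map_eq_zero]
    intro P hP
    exact Subtype.ext (hT' P.1 (hW P.1 P.2) fun α hα =>
      congrArg Subtype.val (congrFun hP ⟨α, hα⟩))
  refine (LinearMap.finrank_le_finrank_of_injective hΦ).trans ?_
  rw [Module.finrank_pi_fintype]
  refine (Finset.sum_le_card_nsmul _ _ D fun α _ => (hU α.1).2).trans ?_
  simpa using Nat.mul_le_mul_right D hT

end Pool.Agent.Lib.MP_45f16c_ag.VG

end partFilt

section partProj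
/-! Equations of a subspace defined over the base field. -/

open MvPolynomial Module

namespace Pool.Agent.Lib.MP_45f16c_ag.VG

namespace ProjAux

theorem exists_coord {K V : Type} [Field K] [AddCommGroup V] [Module K V] {W H : Submodule K V}
    (h : W ≤ H) [FiniteDimensional K H] (c : V →ₗ[K] V) (hc : ∀ x, c x ∈ H) :
    ∃ (r : ℕ) (μ : Fin r → V →ₗ[K] K) (b : Fin r → V), r + finrank K W = finrank K H ∧
      (∀ i x, c x ∈ W → μ i x = 0) ∧ ∀ x, c x - ∑ i, μ i x • b i ∈ W := by
  let β := finBasis K (H ⧸ W.comap H.subtype)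
  choose b hb using fun i => (W.comap H.subtype).mkQ_surjective (β i)
  refine ⟨_, fun i => β.coord i ∘ₗ (W.comap H.subtype).mkQ ∘ₗ c.codRestrict H hc, fun i => b i,
    ?_, fun i x hx => ?_, fun x => ?_⟩
  · rw [← (Submodule.comapSubtypeEquivOfLe h).finrank_eq]
    exact Submodule.finrank_quotient_add_finrank _
  · have : (W.comap H.subtype).mkQ (c.codRestrict H hc x) = 0 :=
      (Submodule.Quotient.mk_eq_zero _).2 hx
    rw [LinearMap.comp_apply, LinearMap.comp_apply, this, map_zero]
  · have : (W.comap H.subtype).mkQ (c.codRestrict H hc x -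
        ∑ i, β.repr ((W.comap H.subtype).mkQ (c.codRestrict H hc x)) i • b i) = 0 := by
      simp only [map_sub, map_sum, map_smul, hb, β.sum_repr, sub_self]
    simpa using (Submodule.Quotient.mk_eq_zero _).1 this

end ProjAux

theorem projS : ProjStmt := by
  intro σ M K L _ _ _ _ w n W hW hfin
  classical
  obtain ⟨r, μ, b, h1, h2, h3⟩ := ProjAux.exists_coord hW (weightedHomogeneousComponent w n)
    fun x => weightedHomogeneousComponent_mem w x n
  obtain ⟨Λ, hΛ⟩ : ∃ Λ : Fin r → MvPolynomial σ L →ₗ[L] L,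
      ∀ i a u, Λ i (monomial a u) = μ i (monomial a 1) • u := by
    refine ⟨fun i => (basisMonomials σ L).constr L fun a => algebraMap K L (μ i (monomial a 1)),
      fun i a u => ?_⟩
    rw [show monomial a u = u • basisMonomials σ L a by simp [smul_monomial], map_smul,
      Basis.constr_basis, smul_eq_mul, Algebra.smul_def, mul_comm]
  have hP : ∀ i P, Λ i P = ∑ a ∈ P.support, μ i (monomial a 1) • coeff a P := fun i P => by
    conv_lhs => rw [P.as_sum, map_sum]
    exact Finset.sum_congr rfl fun a _ => hΛ i a _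
  refine ⟨r, Λ, h1, fun i x hx => ?_, fun U P hU => ⟨fun i => ?_, fun hw h0 => ?_⟩⟩
  · have : ∀ y : MvPolynomial σ K, Λ i (MvPolynomial.map (algebraMap K L) y) =
        algebraMap K L (μ i y) := fun y => by
      induction y using MvPolynomial.induction_on' with
      | monomial a u =>
        rw [map_monomial, hΛ, show monomial a u = u • (monomial a 1 : MvPolynomial σ K) by
          simp [smul_monomial], map_smul, smul_eq_mul, map_mul, Algebra.smul_def, mul_comm]
      | add p q hp hq => simp only [map_add, hp, hq]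
    rw [this, h2 i x hx, map_zero]
  · rw [hP]
    exact U.sum_mem fun a _ => U.smul_mem _ (hU a)
  · have e : P = ∑ a ∈ P.support, C (coeff a P) * MvPolynomial.map (algebraMap K L)
        (monomial a 1 - ∑ i, μ i (monomial a 1) • b i) := by
      have e2 : ∑ a ∈ P.support, C (coeff a P) * MvPolynomial.map (algebraMap K L)
          (∑ i, μ i (monomial a 1) • b i) =
          ∑ i, C (Λ i P) * MvPolynomial.map (algebraMap K L) (b i) := by
        simp only [map_sum, Finset.mul_sum, hP, Finset.sum_mul]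
        rw [Finset.sum_comm]
        refine Finset.sum_congr rfl fun i _ => Finset.sum_congr rfl fun a _ => ?_
        rw [smul_eq_C_mul, map_mul, map_C, Algebra.smul_def, map_mul]
        ring
      simp only [map_sub, mul_sub, Finset.sum_sub_distrib, e2, h0, map_zero, zero_mul,
        Finset.sum_const_zero, sub_zero, map_monomial, map_one, C_mul_monomial, mul_one]
      exact P.as_sum
    rw [e]
    refine Submodule.sum_mem _ fun a ha => Submodule.subset_span ⟨_, hU a, _, ?_, rfl⟩
    have := h3 (monomial a 1)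
    rwa [(isWeightedHomogeneous_monomial w a 1
      (hw (mem_support_iff.1 ha))).weightedHomogeneousComponent_same] at this

end Pool.Agent.Lib.MP_45f16c_ag.VG

end partProj

section partSerre
/-! Vanishing of the first local cohomology in large degrees. -/

open MvPolynomial

namespace Pool.Agent.Lib.MP_45f16c_ag.VG

namespace SerreAux

variable {σ κ R : Type} [CommRing R]

theorem comp_mul {z : MvPolynomial σ R} {n : ℕ} (hz : z.IsHomogeneous n) (n' : ℕ)
    (q : MvPolynomial σ R) :
    homogeneousComponent (n + n') (z * q) = z * homogeneousComponent n' q :=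
  B.comp_mul (1 : σ → ℕ) hz n' q

theorem mem_pow_of_hom {q : MvPolynomial σ R} {n r : ℕ} (hq : q.IsHomogeneous n) (h : r ≤ n) :
    q ∈ idealOfVars σ R ^ r := by
  rw [mem_pow_idealOfVars_iff]
  intro x hx
  have h1 : Finsupp.weight (1 : σ → ℕ) x = n := hq (mem_support_iff.mp hx)
  have h2 : Finsupp.degree x = Finsupp.weight (1 : σ → ℕ) x := by
    rw [Finsupp.degree_eq_weight_one]
    rfl
  omega

/-- The saturation of `A` with respect to the family `z`. -/
def sat (A : Ideal (MvPolynomial σ R)) (z : κ → MvPolynomial σ R) : Ideal (MvPolynomial σ R) where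
  carrier := {q | ∀ j, ∃ t : ℕ, z j ^ t * q ∈ A}
  add_mem' := by
    intro a b ha hb j
    obtain ⟨t, ht⟩ := ha j
    obtain ⟨s, hs⟩ := hb j
    refine ⟨t + s, ?_⟩
    have : z j ^ (t + s) * (a + b) = z j ^ s * (z j ^ t * a) + z j ^ t * (z j ^ s * b) := by ring
    rw [this]
    exact A.add_mem (A.mul_mem_left _ ht) (A.mul_mem_left _ hs)
  zero_mem' := fun j => ⟨0, by simp⟩
  smul_mem' := by
    intro c a ha j
    obtain ⟨t, ht⟩ := ha j
    refine ⟨t, ?_⟩
    have : z j ^ t * (c • a) = c * (z j ^ t * a) := by rw [smul_eq_mul]; ring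
    rw [this]
    exact A.mul_mem_left _ ht

theorem mem_sat {A : Ideal (MvPolynomial σ R)} {z : κ → MvPolynomial σ R}
    {q : MvPolynomial σ R} : q ∈ sat A z ↔ ∀ j, ∃ t : ℕ, z j ^ t * q ∈ A := Iff.rfl

theorem comp_mem_sat {A : Ideal (MvPolynomial σ R)} {z : κ → MvPolynomial σ R} {d0 : ℕ}
    (hA : ∀ q ∈ A, ∀ n, homogeneousComponent n q ∈ A) (hz : ∀ j, (z j).IsHomogeneous d0)
    {q : MvPolynomial σ R} (hq : q ∈ sat A z) (n : ℕ) : homogeneousComponent n q ∈ sat A z := by
  intro j
  obtain ⟨t, ht⟩ := hq j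
  refine ⟨t, ?_⟩
  rw [← comp_mul ((hz j).pow t)]
  exact hA _ ht _

/-- A variable lies in the radical of every ideal whose radical contains all `z j`. -/
theorem X_mem_radical {z : κ → MvPolynomial σ R} {Q : Ideal (MvPolynomial σ R)}
    (hX : ∀ i, ∃ D : ℕ, (X i : MvPolynomial σ R) ^ D ∈ Ideal.span (Set.range z))
    (h : ∀ j, z j ∈ Q.radical) (i : σ) : (X i : MvPolynomial σ R) ∈ Q.radical := by
  obtain ⟨D, hD⟩ := hX i
  have hle : Ideal.span (Set.range z) ≤ Q.radical := by
    rw [Ideal.span_le]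
    rintro _ ⟨j, rfl⟩
    exact h j
  exact Ideal.mem_radical_of_pow_mem (hle hD)

/-- A power of the irrelevant ideal kills the saturation modulo `A`. -/
theorem exists_pow_kill [Finite σ] {A : Ideal (MvPolynomial σ R)} {z : κ → MvPolynomial σ R}
    (hX : ∀ i, ∃ D : ℕ, (X i : MvPolynomial σ R) ^ D ∈ Ideal.span (Set.range z))
    (hfg : (sat A z).FG) :
    ∃ r, ∀ a ∈ idealOfVars σ R ^ r, ∀ q ∈ sat A z, a * q ∈ A := by
  classical
  obtain ⟨T, hT⟩ := hfg
  have hz : ∀ j, z j ∈ (A.colon (sat A z : Set (MvPolynomial σ R))).radical := by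
    intro j
    have hTs : ∀ g ∈ T, ∃ t : ℕ, z j ^ t * g ∈ A := by
      intro g hg
      have : g ∈ sat A z := hT ▸ Ideal.subset_span hg
      exact this j
    choose! t ht using hTs
    refine ⟨∑ g ∈ T, t g, Submodule.mem_colon.mpr ?_⟩
    intro q hq
    rw [smul_eq_mul]
    rw [SetLike.mem_coe, ← hT] at hq
    induction hq using Submodule.span_induction with
    | mem g hg =>
      have hle : t g ≤ ∑ g ∈ T, t g := Finset.single_le_sum (fun _ _ => Nat.zero_le _) hg
      obtain ⟨s, hs⟩ := Nat.exists_eq_add_of_le' hle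
      rw [hs, pow_add, mul_assoc]
      exact A.mul_mem_left _ (ht g hg)
    | zero => simp
    | add a b _ _ ha hb => rw [mul_add]; exact A.add_mem ha hb
    | smul c a _ ha => rw [smul_eq_mul, mul_left_comm]; exact A.mul_mem_left _ ha
  have hle : idealOfVars σ R ≤ (A.colon (sat A z : Set (MvPolynomial σ R))).radical := by
    rw [Ideal.span_le]
    rintro _ ⟨i, rfl⟩
    exact X_mem_radical hX hz i
  obtain ⟨r, hr⟩ := Ideal.exists_pow_le_of_le_radical_of_fg hle (idealOfVars_fg σ R)
  exact ⟨r, fun a ha q hq => Submodule.mem_colon.mp (hr ha) q hq⟩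

/-- In large degrees the saturation agrees with `A`. -/
theorem sat_le [Finite σ] [IsNoetherianRing R] {A : Ideal (MvPolynomial σ R)}
    {z : κ → MvPolynomial σ R} {d0 : ℕ}
    (hA : ∀ q ∈ A, ∀ n, homogeneousComponent n q ∈ A) (hz : ∀ j, (z j).IsHomogeneous d0)
    (hX : ∀ i, ∃ D : ℕ, (X i : MvPolynomial σ R) ^ D ∈ Ideal.span (Set.range z)) :
    ∃ c1, ∀ n, c1 ≤ n → ∀ q ∈ sat A z, q.IsHomogeneous n → q ∈ A := by
  classical
  have hfg : (sat A z).FG := IsNoetherian.noetherian _
  obtain ⟨r, hr⟩ := exists_pow_kill hX hfg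
  obtain ⟨T, hT⟩ := hfg
  refine ⟨r + ∑ g ∈ T, g.totalDegree, fun n hn q hq hqn => ?_⟩
  have key : ∀ x ∈ Ideal.span (T : Set (MvPolynomial σ R)), ∀ a,
      homogeneousComponent n (x * a) ∈ A := by
    intro x hx
    induction hx using Submodule.span_induction with
    | mem g hg =>
      intro a
      have hgs : g ∈ sat A z := hT ▸ Ideal.subset_span hg
      have hle : g.totalDegree ≤ ∑ g ∈ T, g.totalDegree :=
        Finset.single_le_sum (f := fun g => totalDegree g) (fun _ _ => Nat.zero_le _) hg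
      rw [← sum_homogeneousComponent g, Finset.sum_mul, map_sum]
      refine A.sum_mem fun u hu => ?_
      have hu' : u ≤ g.totalDegree := Nat.lt_succ_iff.mp (Finset.mem_range.mp hu)
      obtain ⟨e, he⟩ : ∃ e, n = u + e := ⟨n - u, by omega⟩
      rw [he, comp_mul (homogeneousComponent_isHomogeneous u g), mul_comm]
      exact hr _ (mem_pow_of_hom (homogeneousComponent_isHomogeneous e a) (by omega)) _
        (comp_mem_sat hA hz hgs u)
    | zero => intro a; simp
    | add x y _ _ hx hy => intro a; rw [add_mul, map_add]; exact A.add_mem (hx a) (hy a)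
    | smul c x _ hx =>
      intro a
      have : c • x * a = x * (c * a) := by rw [smul_eq_mul]; ring
      rw [this]
      exact hx _
  have := key q (hT ▸ hq) 1
  rwa [mul_one, homogeneousComponent_eq_self hqn] at this

variable {Ω : Type} [CommRing Ω]

/-- A power of one variable clears the denominators. -/
theorem exists_clear [Fintype κ] (ψ : MvPolynomial σ R →+* Ω) {z : κ → MvPolynomial σ R}
    {d0 : ℕ} (y : σ) (hz : ∀ j, (z j).IsHomogeneous d0)
    (hX : ∀ i, ∃ D : ℕ, (X i : MvPolynomial σ R) ^ D ∈ Ideal.span (Set.range z)) {c : ℕ} {P : Ω}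
    (hP : ∀ j, ∃ (t : ℕ) (q : MvPolynomial σ R), q.IsHomogeneous (c + t * d0) ∧
      ψ (z j) ^ t * P = ψ q) :
    ∃ (t : ℕ) (q : MvPolynomial σ R), q.IsHomogeneous (c + t) ∧ ψ (X y) ^ t * P = ψ q := by
  classical
  choose t q hq he using hP
  have hrad : (X y : MvPolynomial σ R) ∈
      (Ideal.span (Set.range fun j => z j ^ t j)).radical :=
    X_mem_radical hX (fun j => ⟨t j, Ideal.subset_span (Set.mem_range_self j)⟩) y
  obtain ⟨t0, ht0⟩ := hrad
  set N := t0 + ∑ j, d0 * t j with hN
  have hmem : (X y : MvPolynomial σ R) ^ N ∈ Ideal.span (Set.range fun j => z j ^ t j) := by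
    rw [hN, pow_add]
    exact Ideal.mul_mem_right _ _ ht0
  obtain ⟨g, hg⟩ := Ideal.mem_span_range_iff_exists_fun.mp hmem
  have hle : ∀ j, d0 * t j ≤ N := fun j =>
    le_trans (Finset.single_le_sum (f := fun j => d0 * t j) (fun _ _ => Nat.zero_le _)
      (Finset.mem_univ j)) (Nat.le_add_left _ _)
  have hXN : (X y : MvPolynomial σ R) ^ N =
      ∑ j, z j ^ t j * homogeneousComponent (N - d0 * t j) (g j) := by
    have h1 : (X y ^ N : MvPolynomial σ R).IsHomogeneous N := isHomogeneous_X_pow y N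
    rw [← homogeneousComponent_eq_self h1, ← hg, map_sum]
    refine Finset.sum_congr rfl fun j _ => ?_
    rw [← comp_mul ((hz j).pow (t j)), mul_comm (g j), Nat.add_sub_cancel' (hle j)]
  refine ⟨N, ∑ j, homogeneousComponent (N - d0 * t j) (g j) * q j, ?_, ?_⟩
  · refine IsHomogeneous.sum _ _ _ fun j _ => ?_
    have h2 := (homogeneousComponent_isHomogeneous (N - d0 * t j) (g j)).mul (hq j)
    have h3 : N - d0 * t j + (c + t j * d0) = c + N := by
      have := hle j
      rw [mul_comm (t j)]
      omega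
    rwa [h3] at h2
  · rw [← map_pow, hXN, map_sum, map_sum, Finset.sum_mul]
    refine Finset.sum_congr rfl fun j _ => ?_
    rw [map_mul, map_mul, map_pow, ← he j]
    ring

end SerreAux

open SerreAux in
theorem serreS : SerreStmt := by
  intro σ κ R Ω _ _ _ _ _ _ ψ z d0 y hker hy hz hX
  set A : Ideal (MvPolynomial σ R) := Ideal.span {X y} ⊔ RingHom.ker ψ with hAdef
  have hmemA : ∀ q, q ∈ A ↔ ∃ b, ψ (q - X y * b) = 0 := by
    intro q
    rw [hAdef, Submodule.mem_sup]
    constructor
    · rintro ⟨a, ha, k, hk, rfl⟩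
      obtain ⟨b, rfl⟩ := Ideal.mem_span_singleton.mp ha
      exact ⟨b, by rw [add_sub_cancel_left]; exact hk⟩
    · rintro ⟨b, hb⟩
      exact ⟨X y * b, Ideal.mem_span_singleton.mpr ⟨b, rfl⟩, q - X y * b, hb, by ring⟩
  have hA : ∀ q ∈ A, ∀ n, homogeneousComponent n q ∈ A := by
    intro q hq n
    obtain ⟨b, hb⟩ := (hmemA q).mp hq
    have h1 : homogeneousComponent n q =
        homogeneousComponent n (X y * b) + homogeneousComponent n (q - X y * b) := by
      rw [← map_add]
      congr 1
      ring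
    rw [h1]
    refine Submodule.add_mem_sup ?_ (hker _ hb n)
    refine B.comp_mem_span (1 : σ → ℕ) ?_ (Ideal.mem_span_singleton.mpr ⟨b, rfl⟩) n
    rintro g rfl
    exact ⟨1, isHomogeneous_X R y⟩
  obtain ⟨c1, hc1⟩ := sat_le hA hz hX
  refine ⟨c1, fun c hc P hP => ?_⟩
  obtain ⟨t, q, hq, he⟩ := exists_clear ψ y hz hX hP
  induction t generalizing q with
  | zero => exact ⟨q, hq, by simpa using he⟩
  | succ t ih =>
    have hsat : q ∈ sat A z := by
      intro j
      obtain ⟨s, qj, -, hj⟩ := hP j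
      refine ⟨s, (hmemA _).mpr ⟨X y ^ t * qj, ?_⟩⟩
      simp only [map_sub, map_mul, map_pow]
      rw [← he, ← hj]
      ring
    obtain ⟨b, hb⟩ := (hmemA q).mp (hc1 _ (by omega) q hsat hq)
    have h1 := hker _ hb (1 + (c + t))
    have h2 : q.IsHomogeneous (1 + (c + t)) := by
      have : 1 + (c + t) = c + (t + 1) := by ring
      rwa [this]
    rw [map_sub, homogeneousComponent_eq_self h2, comp_mul (isHomogeneous_X R y), map_sub,
      map_mul, ← he] at h1
    refine ih _ (homogeneousComponent_isHomogeneous (c + t) b) (mul_left_cancel₀ hy ?_)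
    rw [← sub_eq_zero, ← h1]
    ring

end Pool.Agent.Lib.MP_45f16c_ag.VG

end partSerre

section partTri
/-! The jet equations are triangular. -/

open MvPolynomial

namespace Pool.Agent.Lib.MP_45f16c_ag.VG

namespace TriAux

variable {k p : ℕ} {R : Type} [CommRing R]

/-- All monomials have degree at least `a` in the fibre variables. -/
def Ord (a : ℕ) (q : SS k p R) : Prop := ∀ γ ∈ q.support, a ≤ Finsupp.weight (we k p) γ

theorem ord_zero (a : ℕ) : Ord a (0 : SS k p R) := fun γ h => by simp at h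

theorem ord_bot (q : SS k p R) : Ord 0 q := fun _ _ => Nat.zero_le _

theorem Ord.add {a : ℕ} {q r : SS k p R} (h : Ord a q) (h' : Ord a r) : Ord a (q + r) :=
  fun γ hγ => by
    classical
    exact (Finset.mem_union.1 (support_add hγ)).elim (h γ) (h' γ)

theorem Ord.mul {a b : ℕ} {q r : SS k p R} (h : Ord a q) (h' : Ord b r) : Ord (a + b) (q * r) :=
  fun γ hγ => by
    classical
    obtain ⟨α, hα, β, hβ, rfl⟩ := Finset.mem_add.1 (support_mul q r hγ)
    rw [map_add]
    exact Nat.add_le_add (h α hα) (h' β hβ)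

theorem ord_sum {ι : Type} {a : ℕ} (s : Finset ι) {f : ι → SS k p R} (h : ∀ i ∈ s, Ord a (f i)) :
    Ord a (∑ i ∈ s, f i) :=
  Finset.sum_induction f (Ord a) (fun _ _ => Ord.add) (ord_zero a) h

theorem ord_X {v : Jet k p} (h : v.1 ≠ 0) : Ord 1 (X v : SS k p R) := fun γ hγ => by
  classical
  have h1 := support_monomial_subset hγ
  rw [Finset.mem_singleton] at h1
  rw [h1, Finsupp.weight_single, one_smul, we, if_neg h]

/-- The same for all coefficients of a polynomial in `t`. -/
def OrdP (a : ℕ) (P : Polynomial (SS k p R)) : Prop := ∀ s, Ord a (P.coeff s)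

theorem ordP_zero (a : ℕ) : OrdP a (0 : Polynomial (SS k p R)) := fun _ => ord_zero a

theorem ordP_bot (P : Polynomial (SS k p R)) : OrdP 0 P := fun _ => ord_bot _

theorem OrdP.add {a : ℕ} {P Q : Polynomial (SS k p R)} (h : OrdP a P) (h' : OrdP a Q) :
    OrdP a (P + Q) := fun s => by
  rw [Polynomial.coeff_add]
  exact (h s).add (h' s)

theorem OrdP.mul {a b : ℕ} {P Q : Polynomial (SS k p R)} (h : OrdP a P) (h' : OrdP b Q) :
    OrdP (a + b) (P * Q) := fun s => by
  rw [Polynomial.coeff_mul]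
  exact ord_sum _ fun x _ => (h x.1).mul (h' x.2)

theorem ordP_sum {ι : Type} {a : ℕ} (s : Finset ι) {f : ι → Polynomial (SS k p R)}
    (h : ∀ i ∈ s, OrdP a (f i)) : OrdP a (∑ i ∈ s, f i) :=
  Finset.sum_induction f (OrdP a) (fun _ _ => OrdP.add) (ordP_zero a) h

/-- The jet without its base point. -/
noncomputable def yt (k : ℕ) (R : Type) [CommRing R] (i : Fin (p + 1)) :
    Polynomial (SS k p R) := xt k R i - Polynomial.C (X (0, i))

theorem xt_zero (i : Fin (p + 1)) : (xt k R i).coeff 0 = X (0, i) := B.xt_coeff i 0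

theorem yt_succ (i : Fin (p + 1)) (s : Fin k) : (yt k R i).coeff (s.val + 1) = X (s.succ, i) := by
  rw [yt, Polynomial.coeff_sub, Polynomial.coeff_C_succ, sub_zero]
  exact B.xt_coeff i s.succ

theorem yt_ord (i : Fin (p + 1)) : OrdP 1 (yt k R i) := fun s => by
  cases s with
  | zero =>
    rw [yt, Polynomial.coeff_sub, xt_zero, Polynomial.coeff_C_zero, sub_self]
    exact ord_zero 1
  | succ s =>
    rcases lt_or_ge s k with h | h
    · rw [yt_succ i ⟨s, h⟩]
      exact ord_X (v := (Fin.succ ⟨s, h⟩, i)) (Fin.succ_ne_zero (⟨s, h⟩ : Fin k))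
    · rw [yt, Polynomial.coeff_sub, Polynomial.coeff_C_succ, sub_zero,
        B.xt_coeff_of_lt i (Nat.lt_succ_of_le h)]
      exact ord_zero 1

/-- The linear term of the Taylor formula. -/
noncomputable def ln (k : ℕ) (G : PP p R) : Polynomial (SS k p R) :=
  ∑ i, Polynomial.C (zz k G i) * yt k R i

theorem ln_ord (G : PP p R) : OrdP 1 (ln k G) :=
  ordP_sum _ fun i _ => (ordP_bot _).mul (yt_ord i)

theorem ln_add (G H : PP p R) : ln k (G + H) = ln k G + ln k H := by
  simp only [ln, zz, map_add, add_mul, Finset.sum_add_distrib]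

theorem ln_mul_X (G : PP p R) (j : Fin (p + 1)) :
    ln k (G * X j) = ln k G * Polynomial.C (X (0, j)) + Polynomial.C (b0 k G) * yt k R j := by
  have h : ∀ i, Polynomial.C (zz k (G * X j) i) * yt k R i =
      Polynomial.C (zz k G i) * yt k R i * Polynomial.C (X (0, j)) +
        if i = j then Polynomial.C (b0 k G) * yt k R i else 0 := by
    intro i
    rw [zz, zz, pderiv_mul, map_add, map_mul, map_mul, B.b0_X]
    split_ifs with e
    · rw [e, pderiv_X_self, map_one, mul_one, map_add, map_mul]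
      ring
    · rw [pderiv_X_of_ne (Ne.symm e), map_zero, mul_zero, add_zero, add_zero, map_mul]
      ring
  rw [ln, ln, Finset.sum_congr rfl fun i _ => h i, Finset.sum_add_distrib, Finset.sum_mul,
    Finset.sum_ite_eq' Finset.univ j, if_pos (Finset.mem_univ j)]

theorem taylor (G : PP p R) :
    OrdP 2 (aeval (xt k R) G - Polynomial.C (b0 k G) - ln k G) := by
  induction G using MvPolynomial.induction_on with
  | C a =>
    have h : aeval (xt k R) (C a : PP p R) - Polynomial.C (b0 k (C a : PP p R)) -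
        ln k (C a : PP p R) = 0 := by
      simp [ln, zz, b0, Polynomial.algebraMap_apply]
    rw [h]
    exact ordP_zero 2
  | add G H hG hH =>
    have h := hG.add hH
    rw [map_add, map_add, map_add, ln_add]
    convert h using 1
    ring
  | mul_X G j hG =>
    have h := (hG.mul (ordP_bot (xt k R j))).add ((ln_ord G).mul (yt_ord j))
    rw [map_mul, map_mul, map_mul, aeval_X, B.b0_X, ln_mul_X]
    convert h using 1
    rw [yt]
    ring

theorem jeq_zero (G : PP p R) : jeq k G 0 = b0 k G := by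
  unfold jeq
  induction G using MvPolynomial.induction_on with
  | C a => simp [b0, Polynomial.algebraMap_apply]
  | add G H hG hH => rw [map_add, map_add, Polynomial.coeff_add, hG, hH]
  | mul_X G j hG =>
    rw [map_mul, map_mul, Polynomial.mul_coeff_zero, hG, aeval_X, xt_zero, B.b0_X]

theorem req_sub (G : PP p R) (s : Fin k) : req k G s - neq k G s =
    (aeval (xt k R) G - Polynomial.C (b0 k G) - ln k G).coeff (s.val + 1) := by
  rw [Polynomial.coeff_sub, Polynomial.coeff_sub, Polynomial.coeff_C_succ, sub_zero, ln,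
    Polynomial.finsetSum_coeff]
  simp only [Polynomial.coeff_C_mul, yt_succ]
  rfl

end TriAux

theorem triS : TriStmt := by
  intro k p d0 K _ F hF
  refine ⟨⟨fun s => ?_, fun s => B.jeq_hom hF _⟩, ⟨fun s γ hγ => ?_, fun s => ?_⟩,
    TriAux.jeq_zero F⟩
  · rw [TriAux.req_sub]
    exact TriAux.taylor F _
  · simp at hγ
  · exact B.w2_of_w3 (B.neq_w3 hF s)

end Pool.Agent.Lib.MP_45f16c_ag.VG

end partTri

section partEl
/-! Triangular systems of jet equations can be solved over the function field of the cone. -/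

open MvPolynomial

namespace Pool.Agent.Lib.MP_45f16c_ag.VG

namespace ElAux

variable {k p : ℕ} {K L : Type} [Field K] [Field L] [Algebra K L]

/-- The substitution with the values `η s` for the variables `x (s + 1, j)`. -/
noncomputable def sb (π : PP p K →ₐ[K] L) (j : Fin (p + 1)) (η : Fin k → CC k p L) :
    SS k p K →ₐ[K] CC k p L :=
  aeval fun v => Fin.cases (motive := fun _ => CC k p L) (C (π (X v.2)))
    (fun s => Fin.insertNth (α := fun _ => CC k p L) j (η s) (fun i => X (s, i)) v.2) v.1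

variable (π : PP p K →ₐ[K] L) (j : Fin (p + 1))

theorem sb_base (η : Fin k → CC k p L) (i : Fin (p + 1)) :
    sb π j η (X (0, i)) = C (π (X i)) := by
  simp [sb]

theorem sb_var (η : Fin k → CC k p L) (s : Fin k) (i : Fin p) :
    sb π j η (X (Fin.succ s, j.succAbove i)) = X (s, i) := by
  simp [sb]

theorem sb_self (η : Fin k → CC k p L) (s : Fin k) : sb π j η (X (Fin.succ s, j)) = η s := by
  simp [sb]

theorem sb_b0 (η : Fin k → CC k p L) (g : PP p K) : sb π j η (b0 k g) = C (π g) := by
  induction g using MvPolynomial.induction_on with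
  | C a =>
    rw [← algebraMap_eq, AlgHom.commutes, AlgHom.commutes, AlgHom.commutes]
    rfl
  | add g g' h h' => rw [map_add, map_add, h, h', map_add, map_add]
  | mul_X g i h => rw [map_mul, map_mul, h, B.b0_X, sb_base, map_mul, map_mul]

theorem sb_neq (η : Fin k → CC k p L) (F : PP p K) (s : Fin k) :
    sb π j η (neq k F s) = C (π (pderiv j F)) * η s +
      ∑ i : Fin p, C (π (pderiv (j.succAbove i) F)) * X (s, i) := by
  rw [neq, map_sum, Fin.sum_univ_succAbove _ j, map_mul, zz, sb_b0, sb_self]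
  refine congrArg _ (Finset.sum_congr rfl fun i _ => ?_)
  rw [map_mul, zz, sb_b0, sb_var]

theorem sb_congr {η η' : Fin k → CC k p L} {r : ℕ} (h : ∀ s : Fin k, s.val < r → η s = η' s)
    {q : SS k p K} (hq : q ∈ supported K {v : Jet k p | v.1.val ≤ r}) :
    sb π j η q = sb π j η' q := by
  refine (AlgHom.mem_equalizer _ _ _).1
    (Algebra.adjoin_le (S := AlgHom.equalizer (sb π j η) (sb π j η')) ?_ hq)
  rintro _ ⟨⟨s, i⟩, hv, rfl⟩
  refine (AlgHom.mem_equalizer _ _ _).2 ?_
  induction s using Fin.cases with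
  | zero => rw [sb_base, sb_base]
  | succ s =>
    rcases Fin.eq_self_or_eq_succAbove j i with rfl | ⟨i, rfl⟩
    · rw [sb_self, sb_self, h s hv]
    · rw [sb_var, sb_var]

theorem exists_sb {d0 : ℕ} {F : PP p K} {G : Fin k → SS k p K} (hF : F.IsHomogeneous (d0 + 1))
    (hz : π (pderiv j F) ≠ 0) (hG : Tri k d0 F G) (r : ℕ) :
    ∃ η : Fin k → CC k p L, ∀ s : Fin k, s.val < r → sb π j η (G s) = 0 := by
  classical
  have key : ∀ (η : Fin k → CC k p L) (s : Fin k), sb π j η (G s) = C (π (pderiv j F)) * η s +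
      (∑ i : Fin p, C (π (pderiv (j.succAbove i) F)) * X (s, i) +
        sb π j η (G s - neq k F s)) := fun η s => by
    rw [← add_assoc, ← sb_neq, ← map_add, add_sub_cancel]
  induction r with
  | zero => exact ⟨0, fun s hs => absurd hs (Nat.not_lt_zero _)⟩
  | succ r ih =>
    obtain ⟨η, hη⟩ := ih
    by_cases hr : r < k
    · refine ⟨Function.update η ⟨r, hr⟩ (-(C (π (pderiv j F))⁻¹ *
        (∑ i : Fin p, C (π (pderiv (j.succAbove i) F)) * X (⟨r, hr⟩, i) +
          sb π j η (G ⟨r, hr⟩ - neq k F ⟨r, hr⟩)))), fun s hs => ?_⟩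
      rw [key, sb_congr π j (η' := η) (fun s' hs' => Function.update_of_ne
        (fun e => by rw [e] at hs'; exact absurd hs (not_lt.2 hs')) _ _) (B.Tri.supp hF hG s)]
      rcases (Nat.lt_succ_iff.1 hs).eq_or_lt with e | h
      · obtain rfl : s = ⟨r, hr⟩ := Fin.ext e
        rw [Function.update_self, mul_neg, ← mul_assoc, ← C_mul, mul_inv_cancel₀ hz, C_1, one_mul,
          neg_add_cancel]
      · rw [Function.update_of_ne (fun e => by rw [e] at h; exact lt_irrefl _ h), ← key, hη s h]
    · exact ⟨η, fun s _ => hη s (s.isLt.trans_le (not_lt.1 hr))⟩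

end ElAux

theorem elS : ElStmt := by
  intro k p d0 K L _ _ _ F gens π G hS hG j
  obtain ⟨η, hη⟩ := ElAux.exists_sb π j hS.hom (hS.zne j) hG k
  exact ⟨ElAux.sb π j η, ElAux.sb_base π j η, ElAux.sb_var π j η, fun s => hη s s.isLt⟩

end Pool.Agent.Lib.MP_45f16c_ag.VG

end partEl

section partElim
/-! Elimination of the variables of one column. -/

open MvPolynomial

namespace Pool.Agent.Lib.MP_45f16c_ag.VG

namespace ElimAux

variable {k p d0 : ℕ} {K : Type} [CommRing K] (F : PP p K) (G : Fin k → SS k p K)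
  (j : Fin (p + 1))

/-- `z ^ t * q` is congruent to a chart polynomial. -/
def E (t : ℕ) (q : SS k p K) : Prop :=
  ∃ q' ∈ supported K (chart k j), zz k F j ^ t * q - q' ∈ Ideal.span (Set.range G)

variable {F G j}

theorem E.of_supp {q : SS k p K} (h : q ∈ supported K (chart k j)) : E F G j 0 q :=
  ⟨q, h, by simp⟩

theorem E.mul {t t' : ℕ} {q q' : SS k p K} (h : E F G j t q) (h' : E F G j t' q') :
    E F G j (t + t') (q * q') := by
  obtain ⟨a, ha, e⟩ := h
  obtain ⟨b, hb, e'⟩ := h'
  refine ⟨a * b, mul_mem ha hb, ?_⟩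
  convert add_mem (Ideal.mul_mem_right (zz k F j ^ t' * q') _ e) (Ideal.mul_mem_left _ a e') using 1
  ring

theorem E.mono {t t' : ℕ} {q : SS k p K} (h : E F G j t q) (ht : t ≤ t') : E F G j t' q := by
  obtain ⟨u, rfl⟩ := Nat.exists_eq_add_of_le ht
  obtain ⟨a, ha, e⟩ := h
  refine ⟨zz k F j ^ u * a, mul_mem (pow_mem (B.b0_supp j _) u) ha, ?_⟩
  convert Ideal.mul_mem_left _ (zz k F j ^ u) e using 1
  ring

theorem E.add {t : ℕ} {q q' : SS k p K} (h : E F G j t q) (h' : E F G j t q') :
    E F G j t (q + q') := by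
  obtain ⟨a, ha, e⟩ := h
  obtain ⟨b, hb, e'⟩ := h'
  refine ⟨a + b, add_mem ha hb, ?_⟩
  convert add_mem e e' using 1
  ring

theorem E.sum {t : ℕ} {ι : Type} (s : Finset ι) {q : ι → SS k p K}
    (h : ∀ i ∈ s, E F G j t (q i)) : E F G j t (∑ i ∈ s, q i) :=
  Finset.sum_induction q (E F G j t) (fun _ _ => E.add) ⟨0, zero_mem _, by simp⟩ h

theorem E.pow {t : ℕ} {q : SS k p K} (h : E F G j t q) (n : ℕ) : E F G j (n * t) (q ^ n) := by
  induction n with
  | zero => simpa using E.of_supp (one_mem _)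
  | succ n ih => rw [pow_succ, add_mul, one_mul]; exact ih.mul h

theorem E.prod {ι : Type} (s : Finset ι) {q : ι → SS k p K} {t : ι → ℕ}
    (h : ∀ i ∈ s, E F G j (t i) (q i)) : E F G j (∑ i ∈ s, t i) (∏ i ∈ s, q i) := by
  classical
  induction s using Finset.induction_on with
  | empty => simpa using E.of_supp (one_mem _)
  | insert a s ha ih =>
    rw [Finset.sum_insert ha, Finset.prod_insert ha]
    exact (h a (Finset.mem_insert_self _ _)).mul
      (ih fun i hi => h i (Finset.mem_insert_of_mem hi))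

theorem poly {n m b : ℕ} {q : SS k p K} (hq : IsWeightedHomogeneous (w2 k p) q (b, m))
    (h : ∀ v ∈ q.vars, E F G j (n * v.1.val) (X v)) : E F G j (n * m) q := by
  classical
  rw [q.as_sum]
  refine E.sum _ fun γ hγ => ?_
  have h1 := congrArg Prod.snd (hq (mem_support_iff.1 hγ))
  simp only [Finsupp.weight_apply, Finsupp.sum, Prod.snd_sum, w2, Prod.smul_mk, smul_eq_mul] at h1
  rw [monomial_eq, Finsupp.prod]
  have := (E.of_supp (F := F) (G := G) ((supported K (chart k j)).algebraMap_mem (coeff γ q))).mul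
    (E.prod γ.support fun v hv => (h v ((mem_vars_iff_mem_support v).2 ⟨γ, hγ, hv⟩)).pow (γ v))
  refine this.mono (le_of_eq ?_)
  rw [← h1, Finset.mul_sum, zero_add]
  exact Finset.sum_congr rfl fun v _ => by ring

theorem var (hF : F.IsHomogeneous (d0 + 1)) (hT : Tri k d0 F G) (n : ℕ) :
    ∀ v : Jet k p, v.1.val ≤ n → E F G j (n * v.1.val) (X v) := by
  induction n with
  | zero =>
    intro v hv
    simpa using E.of_supp (B.X_supp (Or.inl (Fin.ext (Nat.le_zero.1 hv))))
  | succ n ih =>
    rintro ⟨s, i⟩ hv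
    by_cases hc : (s, i) ∈ chart k j
    · exact (E.of_supp (B.X_supp hc)).mono (Nat.zero_le _)
    rcases hv.lt_or_eq with hv | hv
    · exact (ih _ (Nat.lt_succ_iff.1 hv)).mono (Nat.mul_le_mul_right _ (Nat.le_succ n))
    simp only [chart, Set.mem_ofPred_eq, not_or, not_not] at hc
    obtain ⟨hs, rfl⟩ := hc
    obtain ⟨s, rfl⟩ := Fin.exists_succ_eq.2 hs
    have hsn : s.val = n := by simpa using hv
    obtain ⟨a, ha, e⟩ := poly (n := n) (F := F) (G := G) (j := i)
      ((hT.hom s).sub (B.w2_of_w3 (B.neq_w3 hF s))) fun v hv =>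
        ih v (hsn ▸ mem_supported.1 (B.Tri.supp hF hT s) hv)
    refine E.mono (t := n * (s.val + 1) + 1) ⟨-a - zz k F i ^ (n * (s.val + 1)) *
      ∑ l : Fin p, zz k F (i.succAbove l) * X (s.succ, i.succAbove l), ?_, ?_⟩ (by
        simp only [Fin.val_succ, hsn]; nlinarith)
    · exact sub_mem (neg_mem ha) (mul_mem (pow_mem (B.b0_supp i _) _) (sum_mem fun l _ =>
        mul_mem (B.b0_supp i _) (B.X_supp (Or.inr (Fin.succAbove_ne i l)))))
    · convert sub_mem (Ideal.mul_mem_left _ (zz k F i ^ (n * (s.val + 1)))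
        (Ideal.subset_span (Set.mem_range_self (f := G) s))) e using 1
      rw [neq, Fin.sum_univ_succAbove _ i]
      ring

theorem homog {M : Type} [AddCancelCommMonoid M] {w : Jet k p → M} {a n : M} {t : ℕ}
    {q : SS k p K} (hG : ∀ s, ∃ c, IsWeightedHomogeneous w (G s) c)
    (hz : IsWeightedHomogeneous w (zz k F j) a) (hq : IsWeightedHomogeneous w q n)
    (h : E F G j t q) : ∃ q' ∈ supported K (chart k j), IsWeightedHomogeneous w q' (t • a + n) ∧
      zz k F j ^ t * q - q' ∈ Ideal.span (Set.range G) := by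
  obtain ⟨q', hq', e⟩ := h
  refine ⟨_, B.comp_supported w (t • a + n) hq',
    weightedHomogeneousComponent_isWeightedHomogeneous _ _, ?_⟩
  have := B.comp_mem_span w (by rintro _ ⟨s, rfl⟩; exact hG s) e (t • a + n)
  rwa [map_sub, ((hz.pow t).mul hq).weightedHomogeneousComponent_same] at this

end ElimAux

open ElimAux in
theorem elimS : ElimStmt := by
  intro k p d0 K _ F G hF hT j
  have hv : ∀ v : Jet k p, E F G j (k * v.1.val) (X v) := fun v =>
    var hF hT k v (Nat.lt_succ_iff.1 v.1.2)
  refine ⟨fun q => ?_, fun b m q hq => ?_, fun hG c e m q hq => ?_⟩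
  · change ∃ t, E F G j t q
    induction q using MvPolynomial.induction_on with
    | C a => exact ⟨0, E.of_supp ((supported K (chart k j)).algebraMap_mem a)⟩
    | add f g hf hg =>
      obtain ⟨t, ht⟩ := hf
      obtain ⟨t', ht'⟩ := hg
      exact ⟨t + t', (ht.mono (Nat.le_add_right _ _)).add (ht'.mono (Nat.le_add_left _ _))⟩
    | mul_X f v hf => exact ⟨_, hf.choose_spec.mul (hv v)⟩
  · simpa [add_comm] using homog (fun s => ⟨_, hT.hom s⟩) (B.zz_w2 hF j) hq
      (poly hq fun v _ => hv v)
  · simpa [add_comm] using homog (fun s => ⟨_, hG ▸ B.neq_w3 hF s⟩) (B.zz_w3 hF j) hq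
      (poly (B.w2_of_w3 hq) fun v _ => hv v)

end Pool.Agent.Lib.MP_45f16c_ag.VG

end partElim

section partHilb
/-! The Hilbert function of a hypersurface. -/

open MvPolynomial Module

namespace Pool.Agent.Lib.MP_45f16c_ag.VG

namespace HilbAux

theorem dimP (N c : ℕ) (K : Type) [Field K] :
    finrank K (homogeneousSubmodule (Fin (N + 1 + 1)) K c) = (c + (N + 1)).choose (N + 1) := by
  have e : homogeneousSubmodule (Fin (N + 1 + 1)) K c = restrictSupport K
      (Finset.finsuppAntidiag (Finset.univ : Finset (Fin (N + 1 + 1))) c : Set _) := by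
    rw [homogeneousSubmodule_eq_finsupp_supported]
    congr 1
    ext μ
    exact ⟨fun h => B.mem_mon h, fun h => B.mon_degree ⟨μ, h⟩⟩
  rw [e, finrank_eq_card_basis (basisRestrictSupport K _)]
  simp only [Finset.coe_sort_coe, Fintype.card_coe, Finset.card_finsuppAntidiag_nat_eq_choose,
    Finset.card_univ, Fintype.card_fin]
  rw [show N + 1 + 1 + c - 1 = c + (N + 1) by omega, Nat.choose_symm_add]

theorem pascal (N c d : ℕ) :
    (c + (N + 1)).choose (N + 1) + d * (c + 1 + N).choose N ≤ (c + d + (N + 1)).choose (N + 1) ∧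
    (c + d + (N + 1)).choose (N + 1) ≤ (c + (N + 1)).choose (N + 1) + d * (c + d + N).choose N := by
  induction d with
  | zero => simp
  | succ d ih =>
    have e : (c + (d + 1) + (N + 1)).choose (N + 1) =
        (c + (d + 1) + N).choose N + (c + d + (N + 1)).choose (N + 1) := by
      rw [show c + (d + 1) + (N + 1) = c + d + (N + 1) + 1 by ring, Nat.choose_succ_succ',
        show c + (d + 1) + N = c + d + (N + 1) by ring]
    have h1 : (c + 1 + N).choose N ≤ (c + (d + 1) + N).choose N := Nat.choose_le_choose _ (by omega)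
    have h2 : d * (c + d + N).choose N ≤ d * (c + (d + 1) + N).choose N :=
      Nat.mul_le_mul_left _ (Nat.choose_le_choose _ (by omega))
    rw [e, add_mul, add_mul, one_mul, one_mul]
    omega

variable {K L : Type} [Field K] [Field L] [Algebra K L]

theorem exact {p d : ℕ} {F : PP p K} {π : PP p K →ₐ[K] L} (h0 : F ≠ 0) (hF : F.IsHomogeneous d)
    (hk : ∀ g, π g = 0 ↔ g ∈ Ideal.span {F}) (c : ℕ) :
    hh π (c + d) + finrank K (homogeneousSubmodule (Fin (p + 1)) K c) =
      finrank K (homogeneousSubmodule (Fin (p + 1)) K (c + d)) := by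
  have := B.fin_hom (p := p) (K := K) (c + d)
  have e : (homogeneousSubmodule (Fin (p + 1)) K c).map (LinearMap.mulLeft K F) =
      homogeneousSubmodule (Fin (p + 1)) K (c + d) ⊓ LinearMap.ker π.toLinearMap := by
    ext g
    constructor
    · rintro ⟨a, ha, rfl⟩
      exact ⟨add_comm d c ▸ hF.mul ha, (hk _).2 (Ideal.mul_mem_right _ _ (Ideal.subset_span rfl))⟩
    · rintro ⟨h1, h2⟩
      obtain ⟨a, rfl⟩ := Ideal.mem_span_singleton.1 ((hk g).1 h2)
      refine ⟨_, homogeneousComponent_isHomogeneous c a, ?_⟩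
      have := B.comp_mul (1 : Fin (p + 1) → ℕ) hF c a
      rw [add_comm d c, IsWeightedHomogeneous.weightedHomogeneousComponent_same h1] at this
      exact this.symm
  rw [← FiltAux.rn (homogeneousSubmodule (Fin (p + 1)) K (c + d)) π.toLinearMap,
    ← B.finrank_map_mul _ h0, e]
  rfl

end HilbAux

open HilbAux in
theorem hilbS : HilbStmt := by
  intro p d K L _ _ _ F π hp hd h0 hF hk c1 c2 Λ hΛ
  obtain ⟨N, rfl⟩ := Nat.exists_eq_add_of_le' hp
  have lo : d * (c1 + 1 + N).choose N ≤ hh π (c1 + d) := by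
    have h1 := exact h0 hF hk c1
    have h2 := (pascal N c1 d).1
    rw [dimP, dimP] at h1
    omega
  have hi : hh π c2 ≤ d * (c2 + N).choose N := by
    rcases le_or_gt d c2 with h | h
    · obtain ⟨c, rfl⟩ := Nat.exists_eq_add_of_le' h
      have h1 := exact h0 hF hk c
      have h2 := (pascal N c d).2
      rw [dimP, dimP] at h1
      omega
    · have := B.fin_hom (p := N + 1) (K := K) c2
      have h1 : hh π c2 ≤ _ := Submodule.finrank_map_le _ _
      have h2 := (pascal N 0 c2).2
      have h3 : 1 ≤ (c2 + N).choose N := Nat.choose_pos (by omega)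
      have h4 := Nat.mul_le_mul_right ((c2 + N).choose N) (Nat.succ_le_of_lt h)
      rw [dimP] at h1
      simp only [zero_add, Nat.choose_self] at h2
      rw [Nat.succ_mul] at h4
      omega
  have hΛ1 : 1 ≤ Λ := Nat.pos_of_ne_zero fun e => by simp [e] at hΛ
  have key : (c2 + N).choose N ≤ Λ ^ (N + 1) * (c1 + 1 + N).choose N := by
    refine Nat.le_of_mul_le_mul_left ?_ N.factorial_pos
    rw [mul_left_comm, ← Nat.ascFactorial_eq_factorial_mul_choose,
      ← Nat.ascFactorial_eq_factorial_mul_choose]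
    calc _ ≤ (c2 + N) ^ N := Nat.ascFactorial_le_pow_add _ _
      _ ≤ (Λ * (c1 + 1 + 1)) ^ N := Nat.pow_le_pow_left (by nlinarith) _
      _ ≤ _ := by
        rw [mul_pow]
        exact Nat.mul_le_mul (Nat.pow_le_pow_right hΛ1 (Nat.le_succ N))
          (Nat.pow_succ_le_ascFactorial _ _)
  refine ⟨hi.trans ((Nat.mul_le_mul_left d key).trans ?_),
    (Nat.mul_pos hd (Nat.choose_pos (by omega))).trans_le lo⟩
  rw [mul_left_comm]
  exact Nat.mul_le_mul_left _ lo

end Pool.Agent.Lib.MP_45f16c_ag.VG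

end partHilb
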